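import Pool.Agent.MP_b3b911_al.Fil.CDefs

open MeasureTheory

namespace Pool.Agent.MP_b3b911_al.Fil

variable {G : Type*} [Group G] {S : Finset G} {J : Type} [Fintype J]

omit [Fintype J] in
theorem CBall_dil_dil (W : J → ℕ) (s t : ℝ) (z : J → ℝ) :
    dil W s (dil W t z) = dil W (s * t) z := by
  funext j
  simp only [dil, mul_pow]
  ring

theorem CBall_meas_floor (W : J → ℕ) (t : ℝ) :
    Measurable fun z : J → ℝ => fun j => ⌊dil W t z j⌋ := by
  refine measurable_pi_lambda _ fun j => ?_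
  refine Int.measurable_floor.comp ?_
  unfold dil
  exact (measurable_pi_apply j).const_mul _

theorem CBall_meas_pt (Z : Sys S J) (t : ℝ) (P : G → Prop) :
    MeasurableSet {z : J → ℝ | P (Z.pt (dil Z.W t z))} := by
  have h : {z : J → ℝ | P (Z.pt (dil Z.W t z))} =
      (fun z : J → ℝ => fun j => ⌊dil Z.W t z j⌋) ⁻¹'
        {v : J → ℤ | P ((Equiv.ofBijective Z.co Z.bij).symm v)} := rfl
  rw [h]
  exact CBall_meas_floor Z.W t (Set.to_countable _).measurableSet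

theorem CBall_pt_eq_iff (Z : Sys S J) (z : J → ℝ) (g : G) :
    Z.pt z = g ↔ ∀ j, ⌊z j⌋ = Z.co g j := by
  constructor
  · rintro rfl j
    exact (Z.co_pt z j).symm
  · intro h
    apply Z.bij.1
    funext j
    rw [Z.co_pt, h j]

theorem Sys.meas_B (Z : Sys S J) (q : ℝ) : MeasurableSet (Z.B q) := by
  have h : Z.B q = ⋃ M : ℕ, ⋃ _ : 1 ≤ M, ⋂ m : ℕ, ⋂ _ : 1 ≤ m, ⋂ _ : M ∣ m,
      {z : J → ℝ | Ball S (q * m) (Z.pt (dil Z.W m z))} := by
    ext z
    simp only [Sys.B, Set.mem_setOf_eq, Set.mem_iUnion, Set.mem_iInter, exists_prop]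
  rw [h]
  exact MeasurableSet.iUnion fun M => MeasurableSet.iUnion fun _ => MeasurableSet.iInter fun m =>
    MeasurableSet.iInter fun _ => MeasurableSet.iInter fun _ =>
      CBall_meas_pt Z m (Ball S (q * m))

theorem Sys.mono_B (Z : Sys S J) : Monotone Z.B := by
  rintro q q' hq z ⟨M, hM, h⟩
  exact ⟨M, hM, fun m hm hd =>
    (h m hm hd).mono (mul_le_mul_of_nonneg_right hq (Nat.cast_nonneg m))⟩

theorem Sys.hom_B (Z : Sys S J) (a : ℕ) (ha : 1 ≤ a) (q : ℝ) (z : J → ℝ) :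
    dil Z.W a z ∈ Z.B (a * q) ↔ z ∈ Z.B q := by
  constructor
  · rintro ⟨M, hM, h⟩
    refine ⟨a * M, Nat.one_le_iff_ne_zero.2 (Nat.mul_ne_zero (by omega) (by omega)),
      fun m hm hd => ?_⟩
    obtain ⟨r, rfl⟩ := hd
    have h1 : 1 ≤ M * r := by
      rcases Nat.eq_zero_or_pos (M * r) with h0 | h0
      · rw [mul_assoc, h0] at hm
        omega
      · exact h0
    have h2 := h (M * r) h1 (Dvd.intro r rfl)
    rw [CBall_dil_dil] at h2
    have e1 : (((M * r : ℕ) : ℝ)) * (a : ℝ) = ((a * M * r : ℕ) : ℝ) := by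
      push_cast
      ring
    have e2 : (a : ℝ) * q * ((M * r : ℕ) : ℝ) = q * ((a * M * r : ℕ) : ℝ) := by
      push_cast
      ring
    rwa [e1, e2] at h2
  · rintro ⟨M, hM, h⟩
    refine ⟨M, hM, fun m hm hd => ?_⟩
    have h1 : 1 ≤ m * a := Nat.one_le_iff_ne_zero.2 (Nat.mul_ne_zero (by omega) (by omega))
    have h2 := h (m * a) h1 (hd.mul_right a)
    rw [CBall_dil_dil]
    have e1 : (m : ℝ) * (a : ℝ) = ((m * a : ℕ) : ℝ) := by
      push_cast
      ring
    have e2 : (a : ℝ) * q * (m : ℝ) = q * ((m * a : ℕ) : ℝ) := by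
      push_cast
      ring
    rwa [e1, e2]

theorem Sys.nonneg_B (Z : Sys S J) {q : ℝ} {z : J → ℝ} (h : z ∈ Z.B q) : 0 ≤ q := by
  obtain ⟨M, hM, h⟩ := h
  obtain ⟨l, hl, -, -⟩ := h M hM dvd_rfl
  have h1 : (0 : ℝ) ≤ q * M := (Nat.cast_nonneg _).trans hl
  have h2 : (0 : ℝ) < M := by exact_mod_cast hM
  exact nonneg_of_mul_nonneg_left h1 h2

theorem Sys.vol_D (Z : Sys S J) (k : ℕ) : volume.real (Z.D k) = growth S k := by
  classical
  set T : Finset G := (ball_finite S (k : ℝ)).toFinset with hT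
  let Q : G → Set (J → ℝ) := fun g =>
    Set.pi Set.univ fun j => Set.Ico ((Z.co g j : ℤ) : ℝ) (((Z.co g j : ℤ) : ℝ) + 1)
  have hQ : ∀ g z, z ∈ Q g ↔ Z.pt z = g := by
    intro g z
    rw [CBall_pt_eq_iff]
    simp only [Q, Set.mem_pi, Set.mem_univ, true_imp_iff, Set.mem_Ico, Int.floor_eq_iff]
  have hD : Z.D k = ⋃ g ∈ T, Q g := by
    ext z
    simp only [Sys.D, Set.mem_setOf_eq, Set.mem_iUnion, hQ, hT, Set.Finite.mem_toFinset,
      exists_prop, exists_eq_right']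
  have hmeas : ∀ g, MeasurableSet (Q g) := fun g =>
    MeasurableSet.univ_pi fun j => measurableSet_Ico
  have hvol : ∀ g, volume (Q g) = 1 := by
    intro g
    simp only [Q]
    rw [Real.volume_pi_Ico]
    simp
  have hdisj : (T : Set G).PairwiseDisjoint Q := by
    intro g _ g' _ hne
    refine Set.disjoint_left.2 fun z hz hz' => hne ?_
    rw [← (hQ g z).1 hz, ← (hQ g' z).1 hz']
  rw [measureReal_def, hD, measure_biUnion_finset hdisj fun g _ => hmeas g, growth_eq,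
    Set.ncard_eq_toFinset_card _ (ball_finite S (k : ℝ))]
  simp [hvol, hT]

end Pool.Agent.MP_b3b911_al.Fil
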