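import Pool.Agent.MP_b3b911_al.Fil.CDefs

open MeasureTheory

namespace Pool.Agent.MP_b3b911_al.Fil

variable {J : Type} [Fintype J]

omit [Fintype J] in
theorem CBox_eq (r : J → ℝ) : {z : J → ℝ | ∀ j, |z j| ≤ r j} = Set.Icc (fun j => -r j) r := by
  ext z
  simp only [Set.mem_ofPred_eq, Set.mem_Icc, Pi.le_def, abs_le, forall_and]

theorem CBox_fin (r : J → ℝ) : volume {z : J → ℝ | ∀ j, |z j| ≤ r j} ≠ ⊤ := by
  rw [CBox_eq]
  exact isCompact_Icc.measure_lt_top.ne

theorem CBox_vol (r : J → ℝ) (hr : ∀ j, 0 ≤ r j) :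
    volume.real {z : J → ℝ | ∀ j, |z j| ≤ r j} = ∏ j, 2 * r j := by
  rw [CBox_eq, measureReal_def, Real.volume_Icc_pi_toReal fun j => by linarith [hr j]]
  exact Finset.prod_congr rfl fun j _ => by ring

theorem meas_Box (W : J → ℕ) (j0 : J) (A L K : ℝ) : MeasurableSet (Box W j0 A L K) := by
  have h1 : IsClosed {z : J → ℝ | |z j0| ≤ A * L} := isClosed_le (by fun_prop) continuous_const
  have h2 : IsClosed {z : J → ℝ | ∀ j, |z j| ≤ A * K * L ^ (W j - 1)} := by
    rw [CBox_eq]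
    exact isClosed_Icc
  exact (h1.inter h2).measurableSet

theorem dil_Box (W : J → ℕ) (j0 : J) (A L K t : ℝ) (ht : 0 < t) (ht1 : t ≤ 1) :
    ∀ z ∈ Box W j0 A L K, dil W t z ∈ Box W j0 A L K := by
  intro z hz
  have h : ∀ j, |dil W t z j| ≤ |z j| := fun j => by
    rw [dil, abs_mul, abs_of_pos (pow_pos ht _)]
    exact mul_le_of_le_one_left (abs_nonneg _) (pow_le_one₀ ht.le ht1)
  exact ⟨(h j0).trans hz.1, fun j => (h j).trans (hz.2 j)⟩

theorem fin_Box (W : J → ℕ) (j0 : J) (A L K : ℝ) : volume (Box W j0 A L K) ≠ ⊤ :=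
  ne_top_of_le_ne_top (CBox_fin fun j => A * K * L ^ (W j - 1)) (measure_mono fun _ hz => hz.2)

theorem fin_Thin (W : J → ℕ) (A K : ℝ) : volume (Thin W A K) ≠ ⊤ :=
  ne_top_of_le_ne_top (CBox_fin fun j => A * K ^ W j) (measure_mono fun _ hz => hz.1)

theorem fin_big (W : J → ℕ) (A K : ℝ) : volume {z : J → ℝ | ∀ j, |z j| ≤ A * K ^ W j} ≠ ⊤ :=
  CBox_fin _

/-- the volume of the box times the relative cost -/
theorem vol_Box (W : J → ℕ) (hW : ∀ j, 1 ≤ W j) (j0 : J) (hj0 : W j0 = 1) (p : ℕ)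
    (hp : p + Fintype.card J ≤ ∑ j, W j) (A : ℝ) (hA : 0 ≤ A) : ∃ C : ℝ, 0 ≤ C ∧
    ∀ L K : ℝ, 1 ≤ L → L ≤ K →
      (K / L) ^ p / K * volume.real (Box W j0 A L K) ≤ C * (L / K) * K ^ (∑ j, W j - 1) := by
  classical
  refine ⟨(2 * A) ^ Fintype.card J, by positivity, fun L K hL hK => ?_⟩
  have L0 : 0 < L := by linarith
  have K0 : 0 < K := by linarith
  obtain ⟨e, he⟩ := Nat.exists_eq_add_of_le hp
  obtain ⟨m, hm⟩ : ∃ m, Fintype.card J = m + 1 :=
    ⟨Fintype.card J - 1, by have := Fintype.card_pos_iff.2 ⟨j0⟩; omega⟩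
  have hc : (Finset.univ.erase j0).card = m := by
    rw [Finset.card_erase_of_mem (Finset.mem_univ _), Finset.card_univ, hm]
    rfl
  have hs : ∑ j ∈ Finset.univ.erase j0, (W j - 1) = p + e := by
    have h1 : ∑ j ∈ Finset.univ.erase j0, (W j - 1 + 1) = ∑ j ∈ Finset.univ.erase j0, W j :=
      Finset.sum_congr rfl fun j _ => Nat.sub_add_cancel (hW j)
    have h2 := Finset.add_sum_erase Finset.univ W (Finset.mem_univ j0)
    rw [Finset.sum_add_distrib, Finset.sum_const, hc, smul_eq_mul] at h1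
    omega
  let r : J → ℝ := fun j => if j = j0 then A * L else A * K * L ^ (W j - 1)
  have hr : ∀ j, 0 ≤ r j := fun j => by
    simp only [r]
    split_ifs <;> positivity
  have h1 : volume.real (Box W j0 A L K) ≤ ∏ j, 2 * r j := by
    rw [← CBox_vol r hr]
    refine measureReal_mono (fun z hz j => ?_) (CBox_fin r)
    simp only [r]
    split_ifs with h
    · rw [h]; exact hz.1
    · exact hz.2 j
  have h2 : ∏ j, 2 * r j = (2 * A) ^ (m + 1) * L * K ^ m * L ^ (p + e) := by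
    rw [← Finset.mul_prod_erase _ _ (Finset.mem_univ j0), Finset.prod_congr rfl
      (g := fun j => 2 * A * K * L ^ (W j - 1)) fun j hj => by
        simp only [r, if_neg (Finset.ne_of_mem_erase hj)]; ring,
      Finset.prod_mul_distrib, Finset.prod_const, hc, Finset.prod_pow_eq_pow_sum, hs]
    simp only [r, if_true]
    ring
  have h3 : ∑ j, W j - 1 = m + p + e := by omega
  rw [h3, hm]
  calc (K / L) ^ p / K * volume.real (Box W j0 A L K)
      ≤ (K / L) ^ p / K * ((2 * A) ^ (m + 1) * L * K ^ m * L ^ (p + e)) := by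
        rw [← h2]; gcongr
    _ = (2 * A) ^ (m + 1) * (L / K) * (K ^ (m + p) * L ^ e) := by
        rw [div_pow]; field_simp; ring
    _ ≤ (2 * A) ^ (m + 1) * (L / K) * (K ^ (m + p) * K ^ e) := by gcongr
    _ = (2 * A) ^ (m + 1) * (L / K) * K ^ (m + p + e) := by ring

theorem vol_Thin (W : J → ℕ) (hW : ∀ j, 1 ≤ W j) (A : ℝ) (hA : 0 ≤ A) : ∃ C : ℝ, 0 ≤ C ∧
    ∀ K : ℝ, 1 ≤ K → volume.real (Thin W A K) ≤ C * K ^ (∑ j, W j - 1) := by
  classical
  refine ⟨Fintype.card J * (2 * A) ^ Fintype.card J, by positivity, fun K hK => ?_⟩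
  have K0 : 0 < K := by linarith
  let r : J → J → ℝ := fun j i => A * K ^ (if i = j then W i - 1 else W i)
  have hr : ∀ j i, 0 ≤ r j i := fun j i => by positivity
  have h1 : Thin W A K ⊆ ⋃ j, {z : J → ℝ | ∀ i, |z i| ≤ r j i} := by
    rintro z ⟨h, j, hj⟩
    refine Set.mem_iUnion.2 ⟨j, fun i => ?_⟩
    simp only [r]
    split_ifs with e
    · rw [e]; exact hj
    · exact h i
  have h2 : ∀ j, volume.real {z : J → ℝ | ∀ i, |z i| ≤ r j i} =
      (2 * A) ^ Fintype.card J * K ^ (∑ j, W j - 1) := fun j => by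
    have h3 : ∑ i, (if i = j then W i - 1 else W i) = ∑ j, W j - 1 := by
      have k1 := Finset.add_sum_erase Finset.univ W (Finset.mem_univ j)
      have k2 := Finset.add_sum_erase Finset.univ (fun i => if i = j then W i - 1 else W i)
        (Finset.mem_univ j)
      rw [Finset.sum_congr rfl (g := W) fun i hi => if_neg (Finset.ne_of_mem_erase hi),
        if_pos rfl] at k2
      have := hW j
      rw [← k2, show ∑ j, W j = _ from k1.symm]
      generalize (Finset.univ.erase j).sum W = s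
      omega
    rw [CBox_vol _ (hr j), ← h3, ← Finset.prod_pow_eq_pow_sum, ← Finset.card_univ,
      ← Finset.prod_const, ← Finset.prod_mul_distrib]
    exact Finset.prod_congr rfl fun i _ => by simp only [r]; ring
  calc volume.real (Thin W A K)
      ≤ volume.real (⋃ j, {z : J → ℝ | ∀ i, |z i| ≤ r j i}) :=
        measureReal_mono h1 (by
          refine ne_top_of_le_ne_top ?_ (measure_iUnion_fintype_le _ _)
          exact (ENNReal.sum_lt_top.2 fun j _ => (CBox_fin _).lt_top).ne)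
    _ ≤ ∑ j, volume.real {z : J → ℝ | ∀ i, |z i| ≤ r j i} := measureReal_iUnion_fintype_le _
    _ = Fintype.card J * (2 * A) ^ Fintype.card J * K ^ (∑ j, W j - 1) := by
        simp only [h2, Finset.sum_const, Finset.card_univ, nsmul_eq_mul]
        ring

end Pool.Agent.MP_b3b911_al.Fil
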