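import Pool.Agent.MP_b3b911_al.Fil.CDefs

open MeasureTheory

namespace Pool.Agent.MP_b3b911_al.Fil

theorem CCoa_snoc {α : Type*} (a : α → ℤ) (c : α → ℝ) (e : ℕ) (s : α) (l : List α) :
    ∀ y : ℤ, Isum a c e y (l ++ [s]) =
      Isum a c e y l + c s * ((y : ℝ) + ((l.map a).sum : ℤ)) ^ e := by
  induction l with
  | nil => intro y; simp [Isum]
  | cons x l ih =>
    intro y
    simp only [List.cons_append, Isum, ih, List.map_cons, List.sum_cons]
    push_cast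
    ring

theorem CCoa_pow {x y M : ℝ} (hx : |x| ≤ M) (hy : |y| ≤ M) (e : ℕ) :
    M * |x ^ e - y ^ e| ≤ e * |x - y| * M ^ e := by
  have hM : 0 ≤ M := (abs_nonneg x).trans hx
  induction e with
  | zero => simp
  | succ n ih =>
    have h1 : x ^ (n + 1) - y ^ (n + 1) = x * (x ^ n - y ^ n) + (x - y) * y ^ n := by ring
    have h2 : |x ^ (n + 1) - y ^ (n + 1)| ≤ M * |x ^ n - y ^ n| + |x - y| * M ^ n := by
      rw [h1]
      refine (abs_add_le _ _).trans (add_le_add ?_ ?_)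
      · rw [abs_mul]
        exact mul_le_mul_of_nonneg_right hx (abs_nonneg _)
      · rw [abs_mul, abs_pow]
        exact mul_le_mul_of_nonneg_left (pow_le_pow_left₀ (abs_nonneg _) hy n) (abs_nonneg _)
    calc M * |x ^ (n + 1) - y ^ (n + 1)|
        ≤ M * (n * |x - y| * M ^ n + |x - y| * M ^ n) :=
          mul_le_mul_of_nonneg_left (h2.trans (by linarith)) hM
      _ = ((n + 1 : ℕ) : ℝ) * |x - y| * M ^ (n + 1) := by push_cast; ring

theorem CCoa_bump {α : Type*} [DecidableEq α] {T : Finset α} {s : α} (hs : s ∈ T)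
    {ρ ρ' : α → ℕ} {k : ℕ} (h : ∀ x, ρ' x = ρ x + if x = s then k else 0) (f : α → ℝ) :
    ∑ x ∈ T, (ρ' x : ℝ) * f x = ∑ x ∈ T, (ρ x : ℝ) * f x + k * f s := by
  have : ∀ x ∈ T, (ρ' x : ℝ) * f x = (ρ x : ℝ) * f x + if x = s then (k : ℝ) * f x else 0 := by
    intro x _
    rw [h x]
    split_ifs <;> push_cast <;> ring
  rw [Finset.sum_congr rfl this, Finset.sum_add_distrib, Finset.sum_ite_eq' T s, if_pos hs]

theorem CCoa_sum_le {α : Type*} {T : Finset α} {ρ : α → ℕ} {m : ℕ} (hρ : ∀ x, ρ x ≤ m)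
    {f : α → ℝ} {γ : ℝ} (hf : ∀ x ∈ T, |f x| ≤ γ) :
    |∑ x ∈ T, (ρ x : ℝ) * f x| ≤ T.card * m * γ := by
  refine (Finset.abs_sum_le_sum_abs _ _).trans ?_
  have : ∀ x ∈ T, |(ρ x : ℝ) * f x| ≤ m * γ := by
    intro x hx
    rw [abs_mul, Nat.abs_cast]
    exact mul_le_mul (by exact_mod_cast hρ x) (hf x hx) (abs_nonneg _) (Nat.cast_nonneg _)
  refine (Finset.sum_le_sum this).trans ?_
  rw [Finset.sum_const, nsmul_eq_mul, mul_assoc]

theorem CCoa_pos {α : Type*} {T : Finset α} {a : α → ℤ} {A : ℝ}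
    (hA : ∀ s ∈ T, |(a s : ℝ)| ≤ A) (l : List α) (hl : ∀ s ∈ l, s ∈ T) :
    |(((l.map a).sum : ℤ) : ℝ)| ≤ A * l.length := by
  induction l with
  | nil => simp
  | cons x l ih =>
    have h1 := ih fun s hs => hl s (List.mem_cons_of_mem _ hs)
    have h2 := hA x (hl x List.mem_cons_self)
    simp only [List.map_cons, List.sum_cons, List.length_cons]
    push_cast at h1 ⊢
    refine (abs_add_le _ _).trans ?_
    linarith

/-- The invariant of the coarsening procedure. -/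
structure CCoaInv {α : Type*} (T : Finset α) (a : α → ℤ) {J : Type} (c : α → J → ℝ) (e : J → ℕ)
    (D : J → ℝ) (m : ℕ) (K : ℝ) (l u : List α) (ρ : α → ℕ) : Prop where
  mem : ∀ s ∈ u, s ∈ T
  len : (m : ℝ) * u.length + ∑ x ∈ T, (ρ x : ℝ) * 1 = l.length
  pos : (((l.map a).sum : ℤ) : ℝ) = m * (((u.map a).sum : ℤ) : ℝ) + ∑ x ∈ T, (ρ x : ℝ) * a x
  err : ∀ j, K * |Isum a (fun s => c s j) (e j) 0 l -
      (m : ℝ) ^ (e j + 1) * Isum a (fun s => c s j) (e j) 0 u -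
      (∑ x ∈ T, (ρ x : ℝ) * c x j) * (((l.map a).sum : ℤ) : ℝ) ^ e j| ≤
    D j * m ^ e j * K ^ e j * l.length + D j * m ^ (e j + 1) * K ^ e j * u.length

section

variable {α : Type*} [DecidableEq α] {T : Finset α} {a : α → ℤ} {J : Type} {c : α → J → ℝ}
  {e : J → ℕ} {A γ : ℝ} {m : ℕ} {K : ℝ}

theorem CCoa_key (hA1 : 1 ≤ A) (hm : 1 ≤ m) (hK : 1 ≤ K) {x y w b δ : ℝ} (n : ℕ)
    (hx : |x| ≤ A * (m * K)) (hy : |y| ≤ A * (m * K)) (hw : |w| ≤ m * b) (hd : |x - y| ≤ δ) :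
    K * |w * (x ^ n - y ^ n)| ≤ b * n * δ * (A * (m * K)) ^ n := by
  have hm' : (1 : ℝ) ≤ m := by exact_mod_cast hm
  have hb : 0 ≤ b := by
    have := (abs_nonneg w).trans hw
    by_contra h
    nlinarith
  have h1 := CCoa_pow hx hy n
  have hmK : 0 ≤ (m : ℝ) * K := by positivity
  have h2 : (m * K) * |x ^ n - y ^ n| ≤ A * (m * K) * |x ^ n - y ^ n| :=
    mul_le_mul_of_nonneg_right (by nlinarith) (abs_nonneg _)
  have h3 : n * |x - y| * (A * (m * K)) ^ n ≤ n * δ * (A * (m * K)) ^ n := by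
    gcongr
  calc K * |w * (x ^ n - y ^ n)| = K * |w| * |x ^ n - y ^ n| := by rw [abs_mul]; ring
    _ ≤ K * (m * b) * |x ^ n - y ^ n| := by gcongr
    _ = b * ((m * K) * |x ^ n - y ^ n|) := by ring
    _ ≤ b * (n * δ * (A * (m * K)) ^ n) :=
        mul_le_mul_of_nonneg_left (h2.trans (h1.trans h3)) hb
    _ = _ := by ring

theorem CCoa_step1 (hA1 : 1 ≤ A) (hA : ∀ s ∈ T, |(a s : ℝ)| ≤ A)
    (hγ : ∀ s ∈ T, ∀ j, |c s j| ≤ γ) (hm : 1 ≤ m) (hK : 1 ≤ K) {l u : List α} {ρ ρ' : α → ℕ}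
    {s : α} (hl : ∀ x ∈ l ++ [s], x ∈ T) (hlen : ((l ++ [s]).length : ℝ) ≤ m * K)
    (h : ∀ x, ρ' x = ρ x + if x = s then 1 else 0) (hρ : ∀ x, ρ' x ≤ m)
    (H : CCoaInv T a c e (fun j => T.card * γ * e j * A ^ (e j + 1)) m K l u ρ) :
    CCoaInv T a c e (fun j => T.card * γ * e j * A ^ (e j + 1)) m K (l ++ [s]) u ρ' := by
  have hs : s ∈ T := hl s (by simp)
  have hP : ((((l ++ [s]).map a).sum : ℤ) : ℝ) = (((l.map a).sum : ℤ) : ℝ) + a s := by
    simp
  have hL : ((l ++ [s]).length : ℝ) = l.length + 1 := by simp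
  refine ⟨H.mem, ?_, ?_, fun j => ?_⟩
  · rw [CCoa_bump hs h, hL, ← H.len]
    push_cast
    ring
  · rw [CCoa_bump hs h, hP, H.pos]
    push_cast
    ring
  · have hy := CCoa_pos hA _ hl
    have hx := CCoa_pos hA l fun x hx => hl x (List.mem_append_left _ hx)
    have hA0 : 0 ≤ A := by linarith
    have hy' := hy.trans (mul_le_mul_of_nonneg_left hlen hA0)
    have hx' := hx.trans (mul_le_mul_of_nonneg_left
      (show (l.length : ℝ) ≤ m * K by linarith) hA0)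
    have hw : |∑ x ∈ T, (ρ' x : ℝ) * c x j| ≤ m * (T.card * γ) :=
      (CCoa_sum_le hρ fun x hx => hγ x hx j).trans_eq (by ring)
    have hd : |(((l.map a).sum : ℤ) : ℝ) - ((((l ++ [s]).map a).sum : ℤ) : ℝ)| ≤ A := by
      rw [hP, sub_add_cancel_left, abs_neg]
      exact hA s hs
    have hk := CCoa_key hA1 hm hK (e j) hx' hy' hw hd
    have he := H.err j
    have hsplit : Isum a (fun s => c s j) (e j) 0 (l ++ [s]) -
        (m : ℝ) ^ (e j + 1) * Isum a (fun s => c s j) (e j) 0 u -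
        (∑ x ∈ T, (ρ' x : ℝ) * c x j) * ((((l ++ [s]).map a).sum : ℤ) : ℝ) ^ e j =
        (Isum a (fun s => c s j) (e j) 0 l -
        (m : ℝ) ^ (e j + 1) * Isum a (fun s => c s j) (e j) 0 u -
        (∑ x ∈ T, (ρ x : ℝ) * c x j) * (((l.map a).sum : ℤ) : ℝ) ^ e j) +
        (∑ x ∈ T, (ρ' x : ℝ) * c x j) * ((((l.map a).sum : ℤ) : ℝ) ^ e j -
          ((((l ++ [s]).map a).sum : ℤ) : ℝ) ^ e j) := by
      rw [CCoa_snoc, CCoa_bump hs h fun x => c x j]
      simp only [Int.cast_zero, zero_add, Nat.cast_one]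
      ring
    rw [hsplit, hL]
    refine (mul_le_mul_of_nonneg_left (abs_add_le _ _) (by linarith)).trans ?_
    rw [mul_add]
    refine (add_le_add he hk).trans_eq ?_
    simp only [mul_pow]
    ring

theorem CCoa_step2 (hA1 : 1 ≤ A) (hA : ∀ s ∈ T, |(a s : ℝ)| ≤ A)
    (hγ : ∀ s ∈ T, ∀ j, |c s j| ≤ γ) (hm : 1 ≤ m) (hK : 1 ≤ K) {l u : List α} {ρ ρ' : α → ℕ}
    {s : α} (hs : s ∈ T) (hl : ∀ x ∈ l, x ∈ T) (hlen : (l.length : ℝ) ≤ m * K)
    (h : ∀ x, ρ x = ρ' x + if x = s then m else 0) (hρ : ∀ x, ρ x ≤ m)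
    (H : CCoaInv T a c e (fun j => T.card * γ * e j * A ^ (e j + 1)) m K l u ρ) :
    CCoaInv T a c e (fun j => T.card * γ * e j * A ^ (e j + 1)) m K l (u ++ [s]) ρ' := by
  have hP : ((((u ++ [s]).map a).sum : ℤ) : ℝ) = (((u.map a).sum : ℤ) : ℝ) + a s := by
    simp
  have hL : ((u ++ [s]).length : ℝ) = u.length + 1 := by simp
  refine ⟨?_, ?_, ?_, fun j => ?_⟩
  · intro x hx
    rcases List.mem_append.1 hx with hx | hx
    · exact H.mem x hx
    · rw [List.mem_singleton.1 hx]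
      exact hs
  · rw [hL, ← H.len, CCoa_bump hs h]
    ring
  · rw [hP, H.pos, CCoa_bump hs h]
    ring
  · have hA0 : 0 ≤ A := by linarith
    have hx := (CCoa_pos hA l hl).trans (mul_le_mul_of_nonneg_left hlen hA0)
    have hu := CCoa_pos hA u H.mem
    have hS : 0 ≤ ∑ x ∈ T, (ρ x : ℝ) * 1 := Finset.sum_nonneg fun x _ => by positivity
    have hul : (m : ℝ) * u.length ≤ m * K := by linarith [H.len]
    have hy : |(m : ℝ) * (((u.map a).sum : ℤ) : ℝ)| ≤ A * (m * K) := by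
      rw [abs_mul, Nat.abs_cast]
      calc (m : ℝ) * |(((u.map a).sum : ℤ) : ℝ)| ≤ m * (A * u.length) := by gcongr
        _ = A * (m * u.length) := by ring
        _ ≤ A * (m * K) := by gcongr
    have hw : |(m : ℝ) * c s j| ≤ m * γ := by
      rw [abs_mul, Nat.abs_cast]
      exact mul_le_mul_of_nonneg_left (hγ s hs j) (Nat.cast_nonneg _)
    have hd : |(((l.map a).sum : ℤ) : ℝ) - (m : ℝ) * (((u.map a).sum : ℤ) : ℝ)| ≤
        T.card * m * A := by
      rw [H.pos, add_sub_cancel_left]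
      exact CCoa_sum_le hρ hA
    have hk := CCoa_key hA1 hm hK (e j) hx hy hw hd
    have he := H.err j
    have hsplit : Isum a (fun s => c s j) (e j) 0 l -
        (m : ℝ) ^ (e j + 1) * Isum a (fun s => c s j) (e j) 0 (u ++ [s]) -
        (∑ x ∈ T, (ρ' x : ℝ) * c x j) * (((l.map a).sum : ℤ) : ℝ) ^ e j =
        (Isum a (fun s => c s j) (e j) 0 l -
        (m : ℝ) ^ (e j + 1) * Isum a (fun s => c s j) (e j) 0 u -
        (∑ x ∈ T, (ρ x : ℝ) * c x j) * (((l.map a).sum : ℤ) : ℝ) ^ e j) +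
        ((m : ℝ) * c s j) * ((((l.map a).sum : ℤ) : ℝ) ^ e j -
          ((m : ℝ) * (((u.map a).sum : ℤ) : ℝ)) ^ e j) := by
      rw [CCoa_snoc, CCoa_bump hs h fun x => c x j]
      simp only [Int.cast_zero, zero_add, mul_pow]
      ring
    rw [hsplit, hL]
    refine (mul_le_mul_of_nonneg_left (abs_add_le _ _) (by linarith)).trans ?_
    rw [mul_add]
    refine (add_le_add he hk).trans_eq ?_
    simp only [mul_pow]
    ring

theorem CCoa_inv (hA1 : 1 ≤ A) (hA : ∀ s ∈ T, |(a s : ℝ)| ≤ A)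
    (hγ : ∀ s ∈ T, ∀ j, |c s j| ≤ γ) (hm : 1 ≤ m) (hK : 1 ≤ K) (l : List α) :
    (∀ x ∈ l, x ∈ T) → (l.length : ℝ) ≤ m * K → ∃ u ρ, (∀ x, ρ x < m) ∧
      CCoaInv T a c e (fun j => T.card * γ * e j * A ^ (e j + 1)) m K l u ρ := by
  induction l using List.reverseRecOn with
  | nil =>
    intro _ _
    exact ⟨[], fun _ => 0, fun _ => hm, by simp, by simp, by simp, fun j => by simp [Isum]⟩
  | append_singleton l s ih =>
    intro hl hlen
    have hL : ((l ++ [s]).length : ℝ) = l.length + 1 := by simp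
    obtain ⟨u, ρ, hρ, H⟩ := ih (fun x hx => hl x (List.mem_append_left _ hx)) (by linarith)
    have hρ1 : ∀ x, (ρ x + if x = s then 1 else 0) ≤ m := by
      intro x
      have := hρ x
      split_ifs <;> omega
    have H1 := CCoa_step1 hA1 hA hγ hm hK (ρ' := fun x => ρ x + if x = s then 1 else 0) hl hlen
      (fun _ => rfl) hρ1 H
    by_cases hs : ρ s + 1 < m
    · refine ⟨u, _, fun x => ?_, H1⟩
      have := hρ x
      split_ifs with hx
      · subst hx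
        exact hs
      · omega
    · refine ⟨u ++ [s], fun x => if x = s then 0 else ρ x, fun x => ?_, ?_⟩
      · have := hρ x
        dsimp only
        split_ifs <;> omega
      · refine CCoa_step2 hA1 hA hγ hm hK (hl s (by simp)) hl hlen (fun x => ?_) hρ1 H1
        have := hρ s
        split_ifs with hx
        · subst hx
          omega
        · rfl

end

theorem coarsen_est {α : Type*} (T : Finset α) (a : α → ℤ) {J : Type} [Fintype J]
    (c : α → J → ℝ) (e : J → ℕ) :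
    ∃ C : ℝ, 0 ≤ C ∧ ∀ (m : ℕ) (K : ℝ) (l : List α), 1 ≤ m → 1 ≤ K → (∀ s ∈ l, s ∈ T) →
      (l.length : ℝ) ≤ m * K → ∃ u : List α, (∀ s ∈ u, s ∈ T) ∧ m * u.length ≤ l.length ∧ ∀ j,
      |Isum a (fun s => c s j) (e j) 0 l -
          (m : ℝ) ^ (e j + 1) * Isum a (fun s => c s j) (e j) 0 u| ≤
        C * (m : ℝ) ^ (e j + 1) * K ^ e j := by
  classical
  obtain ⟨A, hA1, hA⟩ : ∃ A : ℝ, 1 ≤ A ∧ ∀ s ∈ T, |(a s : ℝ)| ≤ A := by
    have h0 : 0 ≤ ∑ s ∈ T, |(a s : ℝ)| := Finset.sum_nonneg fun _ _ => abs_nonneg _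
    refine ⟨1 + ∑ s ∈ T, |(a s : ℝ)|, by linarith, fun s hs => ?_⟩
    have := Finset.single_le_sum (f := fun s => |(a s : ℝ)|) (fun _ _ => abs_nonneg _) hs
    linarith
  obtain ⟨γ, hγ0, hγ⟩ : ∃ γ : ℝ, 0 ≤ γ ∧ ∀ s ∈ T, ∀ j, |c s j| ≤ γ := by
    have h0 : ∀ s, 0 ≤ ∑ j, |c s j| := fun s => Finset.sum_nonneg fun _ _ => abs_nonneg _
    refine ⟨∑ s ∈ T, ∑ j, |c s j|, Finset.sum_nonneg fun s _ => h0 s, fun s hs j => ?_⟩
    exact (Finset.single_le_sum (f := fun j => |c s j|) (fun _ _ => abs_nonneg _)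
      (Finset.mem_univ j)).trans
      (Finset.single_le_sum (f := fun s => ∑ j, |c s j|) (fun s _ => h0 s) hs)
  have hA0 : 0 ≤ A := by linarith
  have hC : ∀ j, 0 ≤ 2 * (T.card * γ * e j * A ^ (e j + 1)) + T.card * γ * A ^ e j :=
    fun j => by positivity
  refine ⟨∑ j, (2 * (T.card * γ * e j * A ^ (e j + 1)) + T.card * γ * A ^ e j),
    Finset.sum_nonneg fun j _ => hC j, fun m K l hm hK hl hlen => ?_⟩
  obtain ⟨u, ρ, hρ, H⟩ := CCoa_inv (e := e) hA1 hA hγ hm hK l hl hlen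
  have hS : 0 ≤ ∑ x ∈ T, (ρ x : ℝ) * 1 := Finset.sum_nonneg fun x _ => by positivity
  have hul : (m : ℝ) * u.length ≤ l.length := by linarith [H.len]
  have hm' : (0 : ℝ) < m := by exact_mod_cast hm
  have hK0 : 0 < K := by linarith
  have huK : (u.length : ℝ) ≤ K := le_of_mul_le_mul_left (hul.trans hlen) hm'
  refine ⟨u, H.mem, by exact_mod_cast hul, fun j => ?_⟩
  have he := H.err j
  set E := Isum a (fun s => c s j) (e j) 0 l -
      (m : ℝ) ^ (e j + 1) * Isum a (fun s => c s j) (e j) 0 u with hE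
  set R := (∑ x ∈ T, (ρ x : ℝ) * c x j) * (((l.map a).sum : ℤ) : ℝ) ^ e j with hR
  set D := T.card * γ * e j * A ^ (e j + 1) with hD
  have hD0 : 0 ≤ D := by positivity
  have h1 : |E - R| ≤ 2 * D * m ^ (e j + 1) * K ^ e j := by
    refine le_of_mul_le_mul_left (he.trans ?_) hK0
    calc D * m ^ e j * K ^ e j * l.length + D * m ^ (e j + 1) * K ^ e j * u.length
        ≤ D * m ^ e j * K ^ e j * (m * K) + D * m ^ (e j + 1) * K ^ e j * K := by gcongr
      _ = _ := by ring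
  have h2 : |R| ≤ T.card * γ * A ^ e j * m ^ (e j + 1) * K ^ e j := by
    have hx := (CCoa_pos hA l hl).trans (mul_le_mul_of_nonneg_left hlen hA0)
    have hw := CCoa_sum_le (fun x => (hρ x).le) fun x hx => hγ x hx j
    rw [hR, abs_mul, abs_pow]
    calc _ ≤ T.card * m * γ * (A * (m * K)) ^ e j := by gcongr
      _ = _ := by simp only [mul_pow]; ring
  have h3 := Finset.single_le_sum
    (f := fun j => 2 * (T.card * γ * e j * A ^ (e j + 1)) + T.card * γ * A ^ e j)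
    (fun j _ => hC j) (Finset.mem_univ j)
  calc |E| = |(E - R) + R| := by rw [sub_add_cancel]
    _ ≤ 2 * D * m ^ (e j + 1) * K ^ e j + T.card * γ * A ^ e j * m ^ (e j + 1) * K ^ e j :=
        (abs_add_le _ _).trans (add_le_add h1 h2)
    _ = (2 * D + T.card * γ * A ^ e j) * m ^ (e j + 1) * K ^ e j := by ring
    _ ≤ _ := by gcongr

end Pool.Agent.MP_b3b911_al.Fil
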