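import Pool.Agent.MP_b3b911_al.Fil.CSum

open MeasureTheory

namespace Pool.Agent.MP_b3b911_al.Fil

variable {G : Type*} [Group G] {S : Finset G} {J : Type} [Fintype J]

theorem CLoc_max (Z : Sys S J) (u : List G) : ∃ n0 : ℕ, ∀ n : ℕ,
    (Z.co (u.take n).prod Z.j0).natAbs ≤ (Z.co (u.take n0).prod Z.j0).natAbs := by
  obtain ⟨n0, -, h⟩ := Finset.exists_max_image (Finset.range (u.length + 1))
    (fun n => (Z.co (u.take n).prod Z.j0).natAbs) ⟨0, by simp⟩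
  refine ⟨n0, fun n => ?_⟩
  by_cases hn : n ≤ u.length
  · exact h n (Finset.mem_range.2 (by omega))
  · have h1 := h u.length (Finset.mem_range.2 (by omega))
    rw [List.take_of_length_le (by omega : u.length ≤ n)]
    rwa [List.take_length] at h1

theorem CLoc_pow (k : ℝ) (w : ℕ) (hw : 1 ≤ w) : k ^ w = k * k ^ (w - 1) := by
  obtain ⟨v, rfl⟩ : ∃ v, w = v + 1 := ⟨w - 1, by omega⟩
  rw [Nat.add_sub_cancel, pow_succ']

theorem CLoc_abs (x : ℤ) : |(x : ℝ)| = (x.natAbs : ℝ) := by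
  rw [Nat.cast_natAbs, Int.cast_abs]

theorem Sys.locate (Z : Sys S J) (R : ℝ) (hR : 1 ≤ R) : ∃ A : ℝ, 0 ≤ A ∧ ∀ k : ℕ, 1 ≤ k →
    ∀ u : List G, Word S u → u.length ≤ k → ∀ z : J → ℝ,
    (∀ j, |(Z.co u.prod j : ℝ) - z j| ≤ R * (k : ℝ) ^ (Z.W j - 1)) →
    z ∈ Thin Z.W A k ∨ ∃ i : ℕ, (2 : ℝ) ^ i ≤ k ∧ z ∈ Box Z.W Z.j0 A (2 ^ i) k ∧
      ∃ n, (2 : ℝ) ^ i ≤ |(Z.co (u.take n).prod Z.j0 : ℝ)| := by
  obtain ⟨Cb, hCb, hbig⟩ := Z.big_est
  obtain ⟨C, hC, hbox⟩ := Z.box_est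
  obtain ⟨a, ha, hstep⟩ := Z.step
  obtain ⟨T, hT0, hT⟩ : ∃ T : ℝ, 0 ≤ T ∧ ∀ j, (2 * a) ^ (Z.W j - 1) ≤ T := by
    refine ⟨∑ j, (2 * a) ^ (Z.W j - 1), Finset.sum_nonneg fun _ _ => by positivity, fun j => ?_⟩
    exact Finset.single_le_sum (f := fun j => (2 * a) ^ (Z.W j - 1))
      (fun _ _ => by positivity) (Finset.mem_univ j)
  have hCT : 0 ≤ C * T := mul_nonneg hC hT0
  obtain ⟨A, hA⟩ : ∃ A : ℝ, A = 2 * (C + R) + Cb + R + 2 * a + 2 * (C * T) := ⟨_, rfl⟩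
  have hA0 : 0 ≤ A := by rw [hA]; linarith
  refine ⟨A, hA0, fun k hk u hu hlen z hz => ?_⟩
  have hk1 : (1 : ℝ) ≤ k := by exact_mod_cast hk
  have hlen' : (u.length : ℝ) ≤ k := by exact_mod_cast hlen
  have hzabs : ∀ j, |z j| ≤ |(Z.co u.prod j : ℝ)| + R * (k : ℝ) ^ (Z.W j - 1) := by
    intro j
    have h1 := hz j
    have h2 := abs_sub_abs_le_abs_sub (z j) (Z.co u.prod j : ℝ)
    rw [abs_sub_comm] at h2
    linarith
  by_cases hth : ∃ j, |z j| ≤ A * (k : ℝ) ^ (Z.W j - 1)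
  · left
    refine ⟨fun j => ?_, hth⟩
    have h1 := hbig k hk1 u.prod ⟨u, hlen', hu, rfl⟩ j
    have h2 := hzabs j
    have h3 : (k : ℝ) ^ (Z.W j - 1) ≤ (k : ℝ) ^ Z.W j := pow_le_pow_right₀ hk1 (Nat.sub_le _ _)
    have h4 : R * (k : ℝ) ^ (Z.W j - 1) ≤ R * (k : ℝ) ^ Z.W j :=
      mul_le_mul_of_nonneg_left h3 (by linarith)
    have h5 : (Cb + R) * (k : ℝ) ^ Z.W j ≤ A * (k : ℝ) ^ Z.W j :=
      mul_le_mul_of_nonneg_right (by rw [hA]; linarith) (by positivity)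
    linarith
  · right
    push Not at hth
    obtain ⟨n0, hn0⟩ := CLoc_max Z u
    obtain ⟨ρ, hρ⟩ : ∃ ρ : ℕ, ρ = (Z.co (u.take n0).prod Z.j0).natAbs := ⟨_, rfl⟩
    have hρn : ∀ n, |(Z.co (u.take n).prod Z.j0 : ℝ)| ≤ ρ := by
      intro n
      rw [CLoc_abs, hρ]
      exact_mod_cast hn0 n
    have hρu : |(Z.co u.prod Z.j0 : ℝ)| ≤ ρ := by
      have := hρn u.length
      rwa [List.take_length] at this
    have hρe : |(Z.co (u.take n0).prod Z.j0 : ℝ)| = ρ := by rw [CLoc_abs, hρ]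
    have hρk : (ρ : ℝ) ≤ a * k := by
      rw [← hρe]
      refine (hstep _ (hu.take n0)).trans (mul_le_mul_of_nonneg_left ?_ (by linarith))
      refine le_trans ?_ hlen'
      exact_mod_cast List.length_take_le' n0 u
    have hj0 : |z Z.j0| ≤ ρ + R := by
      have h1 := hzabs Z.j0
      rw [Z.W_j0, Nat.sub_self, pow_zero, mul_one] at h1
      linarith
    have hρ1 : 1 ≤ ρ := by
      have h1 := hth Z.j0
      rw [Z.W_j0, Nat.sub_self, pow_zero, mul_one] at h1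
      have h2 : (0 : ℝ) < ρ := by rw [hA] at h1; linarith
      exact_mod_cast h2
    have hm : min ρ k ≠ 0 := by omega
    have hl1 := Nat.pow_log_le_self 2 hm
    have hl2 := Nat.lt_pow_succ_log_self (by norm_num : 1 < 2) (min ρ k)
    obtain ⟨i, hi⟩ : ∃ i, i = Nat.log 2 (min ρ k) := ⟨_, rfl⟩
    rw [← hi] at hl1 hl2
    have hik : (2 : ℝ) ^ i ≤ k := by exact_mod_cast hl1.trans (min_le_right _ _)
    have hiρ : (2 : ℝ) ^ i ≤ ρ := by exact_mod_cast hl1.trans (min_le_left _ _)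
    have hL : (1 : ℝ) ≤ 2 ^ i := one_le_pow₀ (by norm_num)
    have hρL : (ρ : ℝ) ≤ 2 * a * 2 ^ i := by
      rcases le_total ρ k with h | h
      · rw [min_eq_left h] at hl2
        have h1 : (ρ : ℝ) ≤ 2 ^ i * 2 := by
          rw [← pow_succ]
          exact_mod_cast hl2.le
        nlinarith
      · rw [min_eq_right h] at hl2
        have h1 : (k : ℝ) ≤ 2 ^ i * 2 := by
          rw [← pow_succ]
          exact_mod_cast hl2.le
        nlinarith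
    refine ⟨i, hik, ⟨?_, fun j => ?_⟩, n0, by rw [hρe]; exact hiρ⟩
    · have h1 : R ≤ R * 2 ^ i := le_mul_of_one_le_right (by linarith) hL
      have h2 : (2 * a + R) * 2 ^ i ≤ A * 2 ^ i :=
        mul_le_mul_of_nonneg_right (by rw [hA]; linarith) (by positivity)
      linarith
    · have h1 := hbox k (2 * a * 2 ^ i) hk1 (by nlinarith) u hu hlen'
        (fun n => (hρn n).trans hρL) j
      have h2 := hzabs j
      have h3 := hth j
      rw [mul_pow] at h1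
      have hLp : (0 : ℝ) ≤ (k : ℝ) * (2 ^ i) ^ (Z.W j - 1) := by positivity
      have hkp : (0 : ℝ) ≤ (k : ℝ) ^ (Z.W j - 1) := by positivity
      have h4 : C * ((2 * a) ^ (Z.W j - 1)) * ((k : ℝ) * (2 ^ i) ^ (Z.W j - 1)) ≤
          C * T * ((k : ℝ) * (2 ^ i) ^ (Z.W j - 1)) :=
        mul_le_mul_of_nonneg_right (mul_le_mul_of_nonneg_left (hT j) hC) hLp
      have h5 : 2 * (C + R) * (k : ℝ) ^ (Z.W j - 1) ≤ A * (k : ℝ) ^ (Z.W j - 1) :=
        mul_le_mul_of_nonneg_right (by rw [hA]; linarith) hkp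
      have h6 : 2 * (C * T) * ((k : ℝ) * (2 ^ i) ^ (Z.W j - 1)) ≤
          A * ((k : ℝ) * (2 ^ i) ^ (Z.W j - 1)) :=
        mul_le_mul_of_nonneg_right (by rw [hA]; linarith) hLp
      rw [mul_assoc A]
      linarith

theorem Sys.cube (Z : Sys S J) : ∃ n : ℕ, 1 ≤ n ∧ ∀ z : J → ℝ, (∀ j, 0 ≤ z j ∧ z j ≤ 1) →
    z ∈ Z.B n := by
  obtain ⟨Cb, hCb, hbig⟩ := Z.big_est
  obtain ⟨C, hC, h2⟩ := Z.H2 (1 + Cb)
  obtain ⟨s, hs, hs0⟩ := Z.ex
  obtain ⟨n, hn⟩ := exists_nat_ge (1 + C * (1 + Cb))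
  have hCC : 0 ≤ C * (1 + Cb) := by positivity
  have hn1 : 1 ≤ n := by
    have : (1 : ℝ) ≤ n := by linarith
    exact_mod_cast this
  refine ⟨n, hn1, fun z hz => ⟨1, le_rfl, fun m hm _ => ?_⟩⟩
  have hm1 : (1 : ℝ) ≤ m := by exact_mod_cast hm
  have hm0 : (m : ℝ) ≠ 0 := by linarith
  have hw : Word S (List.replicate m s) := by
    intro x hx
    rw [List.eq_of_mem_replicate hx]
    exact Or.inl hs
  have hlen : ((List.replicate m s).length : ℝ) = m := by rw [List.length_replicate]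
  have hdiv : ((m : ℝ) / m) ^ Z.p = 1 := by rw [div_self hm0, one_pow]
  obtain ⟨l', hw', hp, -, hl'⟩ := h2 m m ((1 + Cb) * m) hm1 le_rfl (by nlinarith)
    (by rw [hdiv, mul_one]) (List.replicate m s) hw hlen.le
    (by
      refine ⟨m, ?_⟩
      rw [List.take_of_length_le (by rw [List.length_replicate]), CSum_co_prod,
        List.map_replicate, List.sum_replicate, nsmul_eq_mul]
      push_cast
      rw [abs_mul, abs_of_nonneg (by linarith : (0 : ℝ) ≤ m)]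
      have h1 : (1 : ℝ) ≤ |(Z.co s Z.j0 : ℝ)| := by
        have := Int.one_le_abs hs0
        exact_mod_cast this
      nlinarith)
    (Z.pt (dil Z.W m z))
    (by
      intro j
      have h1 := hbig m hm1 _ ⟨List.replicate m s, hlen.le, hw, rfl⟩ j
      rw [Z.co_pt]
      have hp0 : (0 : ℝ) ≤ (m : ℝ) ^ Z.W j := by positivity
      have h3 : 0 ≤ dil Z.W m z j := mul_nonneg hp0 (hz j).1
      have h4 : dil Z.W m z j ≤ (m : ℝ) ^ Z.W j := mul_le_of_le_one_right hp0 (hz j).2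
      have h5 : (0 : ℝ) ≤ (⌊dil Z.W m z j⌋ : ℝ) := by exact_mod_cast Int.floor_nonneg.2 h3
      have h6 := Int.floor_le (dil Z.W m z j)
      have h7 := abs_sub (⌊dil Z.W m z j⌋ : ℝ) (Z.co (List.replicate m s).prod j : ℝ)
      rw [abs_of_nonneg h5] at h7
      rw [mul_assoc, ← CLoc_pow _ _ (Z.W_pos j)]
      linarith)
  refine ⟨l', ?_, hw', hp⟩
  rw [hdiv, hlen] at hl'
  have h3 : (1 + C * (1 + Cb)) * m ≤ (n : ℝ) * m := mul_le_mul_of_nonneg_right hn (by linarith)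
  linarith

end Pool.Agent.MP_b3b911_al.Fil
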