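import Pool.Agent.MP_b3b911_al.Fil.CUL
import Pool.Agent.MP_b3b911_al.Fil.CLoc
import Pool.Agent.MP_b3b911_al.Fil.CBall
import Pool.Agent.MP_b3b911_al.Fil.CDyad

open MeasureTheory

namespace Pool.Agent.MP_b3b911_al.Fil

variable {G : Type*} [Group G] {S : Finset G} {J : Type} [Fintype J]

theorem CCore_floor (Z : Sys S J) (z : J → ℝ) (j : J) : |(Z.co (Z.pt z) j : ℝ) - z j| ≤ 1 := by
  rw [Z.co_pt, abs_le]
  have h1 := Int.floor_le (z j)
  have h2 := Int.lt_floor_add_one (z j)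
  constructor <;> linarith

theorem Sys.fam (Z : Sys S J) : Fam Z.W Z.B := by
  refine ⟨Z.meas_B, Z.mono_B, fun a ha q z => Z.hom_B a ha q z, fun q => ?_⟩
  obtain ⟨R, hR, hlow⟩ := Z.low
  obtain ⟨C, hC, hbig⟩ := Z.big_est
  have hK : (1 : ℝ) ≤ max q 1 := le_max_right _ _
  refine ne_top_of_le_ne_top (fin_big Z.W (C + R) (max q 1)) (measure_mono fun z hz j => ?_)
  obtain ⟨u, hu, hl, hj⟩ := hlow (max q 1) q hK (le_max_left _ _) z hz
  have h1 := hbig (max q 1) hK u.prod ⟨u, hl.trans (le_max_left _ _), hu, rfl⟩ j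
  have h2 := hj j
  have h3 : (max q 1) ^ (Z.W j - 1) ≤ (max q 1) ^ Z.W j := pow_le_pow_right₀ hK (Nat.sub_le _ _)
  have h4 : R * (max q 1) ^ (Z.W j - 1) ≤ R * (max q 1) ^ Z.W j :=
    mul_le_mul_of_nonneg_left h3 (by linarith)
  have h5 : |z j| ≤ |(Z.co u.prod j : ℝ)| + |(Z.co u.prod j : ℝ) - z j| := by
    have h6 := abs_sub (Z.co u.prod j : ℝ) ((Z.co u.prod j : ℝ) - z j)
    rwa [sub_sub_cancel] at h6
  rw [add_mul]
  linarith

theorem CCore_pos (Z : Sys S J) : 0 < volume.real (Z.B 1) := by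
  obtain ⟨n, hn, hc⟩ := Z.cube
  have h1 := Z.fam.vol_nat n hn
  have h2 : volume.real (Set.Icc (0 : J → ℝ) 1) ≤ volume.real (Z.B n) :=
    measureReal_mono (fun z hz => hc z fun j => ⟨hz.1 j, hz.2 j⟩) (Z.fam.fin n)
  have h3 : volume.real (Set.Icc (0 : J → ℝ) 1) = 1 := by
    rw [Measure.real, Real.volume_Icc_pi]
    simp
  rw [h3, h1] at h2
  by_contra h4
  have h5 : volume.real (Z.B 1) = 0 := le_antisymm (not_lt.1 h4) measureReal_nonneg
  rw [h5, mul_zero] at h2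
  linarith

theorem Sys.core_vol (Z : Sys S J) : ∃ C : ℝ, ∀ k : ℕ, 1 ≤ k →
    |(growth S k : ℝ) - volume.real (Z.B 1) * (k : ℝ) ^ (∑ j, Z.W j)| ≤
      C * (k : ℝ) ^ (∑ j, Z.W j - 1) := by
  classical
  obtain ⟨R, hR, hlow⟩ := Z.low
  obtain ⟨A, hA, hloc⟩ := Z.locate R hR
  obtain ⟨Cu, hCu, hup⟩ := Z.up
  obtain ⟨C2, hC2, hH2⟩ := Z.H2 (R + 1)
  have hC2R : 0 ≤ C2 * (R + 1) := mul_nonneg hC2 (by linarith)
  have hC : 0 ≤ Cu + C2 * (R + 1) + 1 := by linarith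
  obtain ⟨C', hC'⟩ := Z.fam.dyad_up Z.W_pos Z.j0 Z.W_j0 Z.p Z.hp A _ hA hC
  obtain ⟨C'', hC''⟩ := Z.fam.dyad_low Z.W_pos Z.j0 Z.W_j0 Z.p Z.hp A _ hA hC
  refine ⟨max C' C'', fun k hk => ?_⟩
  have hk1 : (1 : ℝ) ≤ k := by exact_mod_cast hk
  have hpw : ∀ j, (1 : ℝ) ≤ (k : ℝ) ^ (Z.W j - 1) := fun j => one_le_pow₀ hk1
  have hU := hC' k hk (Z.D k) (by
    intro z hz
    obtain ⟨u, hl, hu, hp⟩ := hz
    have hf : ∀ j, |(Z.co u.prod j : ℝ) - z j| ≤ 1 := fun j => by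
      rw [hp]; exact CCore_floor Z z j
    have hl' : u.length ≤ k := by exact_mod_cast hl
    rcases hloc k hk u hu hl' z (fun j => (hf j).trans (by nlinarith [hpw j])) with
      h | ⟨i, hi, hb, hn⟩
    · exact Or.inl h
    · refine Or.inr ⟨i, hi, hb, fun hlam => ?_⟩
      have h2 : (1 : ℝ) ≤ 2 ^ i := one_le_pow₀ (by norm_num)
      have h3 := hup k (2 ^ i) h2 hi hlam u hu hl hn z hf
      refine Z.mono_B ?_ h3
      have h4 : (0 : ℝ) ≤ ((k : ℝ) / 2 ^ i) ^ Z.p := by positivity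
      nlinarith)
  have hL := hC'' k hk (Z.D k) hU.1 (by
    intro z hz hzD
    have hex : ∃ n : ℕ, z ∈ Z.B n := ⟨k, hz⟩
    have hn0 : Nat.find hex ≤ k := Nat.find_min' hex hz
    have hn0' : ((Nat.find hex : ℕ) : ℝ) ≤ k := by exact_mod_cast hn0
    obtain ⟨u, hu, hl, hj⟩ := hlow k (Nat.find hex : ℕ) hk1 hn0' z (Nat.find_spec hex)
    have hlk : (u.length : ℝ) ≤ k := hl.trans hn0'
    have hl' : u.length ≤ k := by exact_mod_cast hlk
    rcases hloc k hk u hu hl' z hj with h | ⟨i, hi, hb, hn⟩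
    · exact Or.inl h
    · refine Or.inr ⟨i, hi, hb, fun hlam hzB => hzD ?_⟩
      have h2 : (1 : ℝ) ≤ 2 ^ i := one_le_pow₀ (by norm_num)
      have h2' : (0 : ℝ) < 2 ^ i := by positivity
      have h4 : (1 : ℝ) ≤ ((k : ℝ) / 2 ^ i) ^ Z.p :=
        one_le_pow₀ ((one_le_div h2').2 hi)
      have h5 := Z.nonneg_B hzB
      have h6 : z ∈ Z.B (⌈(k : ℝ) - (Cu + C2 * (R + 1) + 1) * ((k : ℝ) / 2 ^ i) ^ Z.p⌉₊ : ℕ) :=
        Z.mono_B (Nat.le_ceil _) hzB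
      have h7 : ((Nat.find hex : ℕ) : ℝ) ≤
          (⌈(k : ℝ) - (Cu + C2 * (R + 1) + 1) * ((k : ℝ) / 2 ^ i) ^ Z.p⌉₊ : ℕ) := by
        exact_mod_cast Nat.find_min' hex h6
      have h8 := (Nat.ceil_lt_add_one h5).le
      obtain ⟨l', hw, hp, -, hlen⟩ := hH2 k (2 ^ i) (R + 1) h2 hi (by linarith)
        (mul_le_mul_of_nonneg_left hlam (by linarith)) u hu hlk hn (Z.pt z) (fun j => by
          have e1 := CCore_floor Z z j
          have e2 := hj j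
          have e3 := abs_sub_le (Z.co (Z.pt z) j : ℝ) (z j) (Z.co u.prod j : ℝ)
          rw [abs_sub_comm (z j)] at e3
          have e4 := hpw j
          rw [add_mul, one_mul]
          linarith)
      refine ⟨l', ?_, hw, hp⟩
      have h9 : 0 ≤ Cu * ((k : ℝ) / 2 ^ i) ^ Z.p := mul_nonneg hCu (by linarith)
      nlinarith)
  rw [Z.vol_D] at hL
  have hU2 := hU.2
  rw [Z.vol_D] at hU2
  have hp0 : (0 : ℝ) ≤ (k : ℝ) ^ (∑ j, Z.W j - 1) := by positivity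
  have m1 := mul_le_mul_of_nonneg_right (le_max_left C' C'') hp0
  have m2 := mul_le_mul_of_nonneg_right (le_max_right C' C'') hp0
  rw [abs_le]
  constructor <;> nlinarith

theorem Sys.core (Z : Sys S J) : ∃ c C : ℝ, 0 < c ∧ ∀ k : ℕ, 1 ≤ k →
    |(growth S k : ℝ) - c * (k : ℝ) ^ (∑ j, Z.W j)| ≤ C * (k : ℝ) ^ (∑ j, Z.W j - 1) := by
  obtain ⟨C, h⟩ := Z.core_vol
  exact ⟨_, C, CCore_pos Z, h⟩

theorem Sys.vol_pt (Z : Sys S J) {A : Set G} (hA : A.Finite) :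
    volume {z | Z.pt z ∈ A} ≠ ⊤ ∧ volume.real {z | Z.pt z ∈ A} = A.ncard := by
  classical
  set T : Finset G := hA.toFinset with hT
  let Q : G → Set (J → ℝ) := fun g =>
    Set.pi Set.univ fun j => Set.Ico ((Z.co g j : ℤ) : ℝ) (((Z.co g j : ℤ) : ℝ) + 1)
  have hQ : ∀ g z, z ∈ Q g ↔ Z.pt z = g := by
    intro g z
    rw [CBall_pt_eq_iff]
    simp only [Q, Set.mem_pi, Set.mem_univ, true_imp_iff, Set.mem_Ico, Int.floor_eq_iff]
  have hD : {z | Z.pt z ∈ A} = ⋃ g ∈ T, Q g := by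
    ext z
    simp only [Set.mem_setOf_eq, Set.mem_iUnion, hQ, hT, Set.Finite.mem_toFinset,
      exists_prop, exists_eq_right']
  have hmeas : ∀ g, MeasurableSet (Q g) := fun g =>
    MeasurableSet.univ_pi fun j => measurableSet_Ico
  have hvol : ∀ g, volume (Q g) = 1 := by
    intro g
    simp only [Q]
    rw [Real.volume_pi_Ico]
    simp
  have hdisj : (T : Set G).PairwiseDisjoint Q := by
    intro g _ g' _ hne
    refine Set.disjoint_left.2 fun z hz hz' => hne ?_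
    rw [← (hQ g z).1 hz, ← (hQ g' z).1 hz']
  rw [measureReal_def, hD, measure_biUnion_finset hdisj fun g _ => hmeas g,
    Set.ncard_eq_toFinset_card _ hA]
  simp [hvol, hT]

end Pool.Agent.MP_b3b911_al.Fil
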