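import Pool.Agent.MP_b3b911_al.Defs

/-! Definitions for the abstract counting theorem. -/

open MeasureTheory

namespace Pool.Agent.MP_b3b911_al.Fil

/-- Riemann sum along a list of letters: the position starts at `y`, the letter `s` moves it by
`a s` and contributes `c s` times the `e`-th power of the position before the move. -/
def Isum {α : Type*} (a : α → ℤ) (c : α → ℝ) (e : ℕ) : ℤ → List α → ℝ
  | _, [] => 0
  | y, s :: l => c s * (y : ℝ) ^ e + Isum a c e (y + a s) l

/-- Weighted dilation. -/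
def dil {J : Type} (W : J → ℕ) (t : ℝ) (z : J → ℝ) : J → ℝ := fun j => t ^ W j * z j

/-- A homogeneous family of balls. -/
structure Fam {J : Type} [Fintype J] (W : J → ℕ) (B : ℝ → Set (J → ℝ)) : Prop where
  meas : ∀ q, MeasurableSet (B q)
  mono : Monotone B
  hom : ∀ a : ℕ, 1 ≤ a → ∀ (q : ℝ) (z : J → ℝ), dil W a z ∈ B (a * q) ↔ z ∈ B q
  fin : ∀ q, volume (B q) ≠ ⊤

/-- The box of points reached by words of length about `K` whose distinguished coordinate stays
below about `L`. -/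
def Box {J : Type} (W : J → ℕ) (j0 : J) (A L K : ℝ) : Set (J → ℝ) :=
  {z | |z j0| ≤ A * L ∧ ∀ j, |z j| ≤ A * K * L ^ (W j - 1)}

/-- The points of the big box that have one small coordinate. -/
def Thin {J : Type} (W : J → ℕ) (A K : ℝ) : Set (J → ℝ) :=
  {z | (∀ j, |z j| ≤ A * K ^ W j) ∧ ∃ j, |z j| ≤ A * K ^ (W j - 1)}

variable {G : Type*} [Group G]

/-- Words in the letters of `S` and their inverses. -/
def Word (S : Finset G) (l : List G) : Prop := ∀ x ∈ l, x ∈ S ∨ x⁻¹ ∈ S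

/-- The ball of real radius `q`. -/
def Ball (S : Finset G) (q : ℝ) (g : G) : Prop :=
  ∃ l : List G, (l.length : ℝ) ≤ q ∧ Word S l ∧ l.prod = g

/-- Weighted integer coordinates on a group, with an increment estimate `H1` and a correction
property `H2`. -/
structure Sys (S : Finset G) (J : Type) [Fintype J] where
  co : G → J → ℤ
  bij : Function.Bijective co
  j0 : J
  W : J → ℕ
  W_pos : ∀ j, 1 ≤ W j
  W_j0 : W j0 = 1
  co_one : co 1 = 0
  add : ∀ g h, co (g * h) j0 = co g j0 + co h j0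
  ex : ∃ s ∈ S, co s j0 ≠ 0
  c : G → J → ℝ
  p : ℕ
  hp : p + Fintype.card J ≤ ∑ j, W j
  H1 : ∃ C : ℝ, 0 ≤ C ∧ ∀ K : ℝ, 1 ≤ K → ∀ g, Ball S K g → ∀ s, (s ∈ S ∨ s⁻¹ ∈ S) → ∀ j,
    K * |(co (g * s) j : ℝ) - co g j - c s j * (co g j0 : ℝ) ^ (W j - 1)| ≤ C * K ^ (W j - 1)
  H2 : ∀ A : ℝ, ∃ C : ℝ, 0 ≤ C ∧ ∀ K L R : ℝ, 1 ≤ L → L ≤ K → 1 ≤ R →
    R * (K / L) ^ p ≤ A * K → ∀ l : List G, Word S l → (l.length : ℝ) ≤ K →
    (∃ n, L ≤ |(co (l.take n).prod j0 : ℝ)|) →
    ∀ g, (∀ j, |(co g j : ℝ) - co l.prod j| ≤ R * K ^ (W j - 1)) →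
    ∃ l' : List G, Word S l' ∧ l'.prod = g ∧ l.Sublist l' ∧
      (l'.length : ℝ) ≤ l.length + C * R * (K / L) ^ p

variable {S : Finset G} {J : Type} [Fintype J]

/-- The group element whose coordinates are the integer parts of those of `z`. -/
noncomputable def Sys.pt (Z : Sys S J) (z : J → ℝ) : G :=
  (Equiv.ofBijective Z.co Z.bij).symm fun j => ⌊z j⌋

/-- The limit ball. -/
def Sys.B (Z : Sys S J) (q : ℝ) : Set (J → ℝ) :=
  {z | ∃ M : ℕ, 1 ≤ M ∧ ∀ m : ℕ, 1 ≤ m → M ∣ m → Ball S (q * m) (Z.pt (dil Z.W m z))}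

/-- The union of the unit cubes attached to the elements of the ball of radius `k`. -/
def Sys.D (Z : Sys S J) (k : ℕ) : Set (J → ℝ) := {z | Ball S k (Z.pt z)}

theorem Sys.co_pt (Z : Sys S J) (z : J → ℝ) (j : J) : Z.co (Z.pt z) j = ⌊z j⌋ :=
  congrFun ((Equiv.ofBijective Z.co Z.bij).apply_symm_apply fun j => ⌊z j⌋) j

theorem growth_eq (S : Finset G) (k : ℕ) : growth S k = Set.ncard {g : G | Ball S k g} := by
  unfold growth Ball Word
  simp only [Nat.cast_le]

theorem Ball.mono {q q' : ℝ} {g : G} (h : Ball S q g) (hq : q ≤ q') : Ball S q' g := by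
  obtain ⟨l, h1, h2, h3⟩ := h
  exact ⟨l, h1.trans hq, h2, h3⟩

theorem Word.append {l l' : List G} (h : Word S l) (h' : Word S l') : Word S (l ++ l') := by
  intro x hx
  rcases List.mem_append.1 hx with hx | hx
  · exact h x hx
  · exact h' x hx

theorem Word.take {l : List G} (h : Word S l) (n : ℕ) : Word S (l.take n) :=
  fun x hx => h x (List.mem_of_mem_take hx)

theorem Word.drop {l : List G} (h : Word S l) (n : ℕ) : Word S (l.drop n) :=
  fun x hx => h x (List.mem_of_mem_drop hx)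

theorem ball_finite (S : Finset G) (q : ℝ) : {g : G | Ball S q g}.Finite := by
  classical
  obtain ⟨n, hn⟩ := exists_nat_ge q
  have h1 : {l : List ↥(S ∪ S.image (·⁻¹)) | l.length ≤ n}.Finite := List.finite_length_le _ n
  refine (h1.image fun l => (l.map Subtype.val).prod).subset ?_
  rintro g ⟨l, hl, hw, rfl⟩
  have hm : ∀ x ∈ l, x ∈ S ∪ S.image (·⁻¹) := by
    intro x hx
    rcases hw x hx with h | h
    · exact Finset.mem_union_left _ h
    · exact Finset.mem_union_right _ (Finset.mem_image.2 ⟨x⁻¹, h, inv_inv x⟩)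
  refine ⟨l.pmap Subtype.mk hm, ?_, ?_⟩
  · simp only [Set.mem_setOf_eq, List.length_pmap]
    exact_mod_cast hl.trans hn
  · simp [List.map_pmap]

theorem exists_word (hS : Subgroup.closure (S : Set G) = ⊤) (g : G) :
    ∃ l : List G, Word S l ∧ l.prod = g := by
  have hg : g ∈ Subgroup.closure (S : Set G) := hS ▸ Subgroup.mem_top g
  induction hg using Subgroup.closure_induction with
  | mem x hx => exact ⟨[x], fun y hy => Or.inl (by rw [List.mem_singleton.1 hy]; exact hx), by simp⟩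
  | one => exact ⟨[], fun y hy => by simp at hy, rfl⟩
  | mul x y _ _ hx hy =>
    obtain ⟨l, h1, h2⟩ := hx
    obtain ⟨l', h1', h2'⟩ := hy
    exact ⟨l ++ l', h1.append h1', by rw [List.prod_append, h2, h2']⟩
  | inv x _ hx =>
    obtain ⟨l, h1, h2⟩ := hx
    refine ⟨(l.map (·⁻¹)).reverse, ?_, by rw [← h2, List.prod_inv_reverse]⟩
    intro y hy
    obtain ⟨z, hz, rfl⟩ := List.mem_map.1 (List.mem_reverse.1 hy)
    rcases h1 z hz with h | h
    · exact Or.inr (by rwa [inv_inv])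
    · exact Or.inl h

end Pool.Agent.MP_b3b911_al.Fil
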