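import Pool.Agent.MP_b3b911_al.Fil.CShell
import Pool.Agent.MP_b3b911_al.Fil.CBox

open Filter Topology MeasureTheory

namespace Pool.Agent.MP_b3b911_al.Fil

variable {J : Type} [Fintype J] {W : J → ℕ} {B : ℝ → Set (J → ℝ)}

theorem CDyad2_geo (k : ℕ) (hk : 1 ≤ k) :
    ∑ i ∈ (Finset.range k).filter (fun i => (2 : ℝ) ^ i ≤ k), (2 : ℝ) ^ i / k ≤ 2 := by
  have hk0 : (0 : ℝ) < k := by exact_mod_cast hk
  rw [← Finset.sum_div, div_le_iff₀ hk0]
  have hsub : (Finset.range k).filter (fun i => (2 : ℝ) ^ i ≤ k) ⊆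
      Finset.range (Nat.log 2 k + 1) := by
    intro i hi
    have h1 : (2 : ℝ) ^ i ≤ k := (Finset.mem_filter.1 hi).2
    have h2 : 2 ^ i ≤ k := by exact_mod_cast h1
    exact Finset.mem_range.2 (Nat.lt_succ_of_le (Nat.le_log_of_pow_le (by norm_num) h2))
  have h3 : ∑ i ∈ Finset.range (Nat.log 2 k + 1), (2 : ℝ) ^ i = 2 ^ (Nat.log 2 k + 1) - 1 := by
    rw [geom_sum_eq (by norm_num)]
    norm_num
  have h4 : (2 : ℝ) ^ (Nat.log 2 k) ≤ k := by
    exact_mod_cast Nat.pow_log_le_self 2 (by omega : k ≠ 0)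
  calc ∑ i ∈ (Finset.range k).filter (fun i => (2 : ℝ) ^ i ≤ k), (2 : ℝ) ^ i
      ≤ ∑ i ∈ Finset.range (Nat.log 2 k + 1), (2 : ℝ) ^ i :=
        Finset.sum_le_sum_of_subset_of_nonneg hsub (fun _ _ _ => by positivity)
    _ = 2 ^ (Nat.log 2 k + 1) - 1 := h3
    _ ≤ 2 * k := by rw [pow_succ]; linarith

theorem CDyad2_pow (x M : ℝ) (hx : 0 ≤ x) (hM : x ≤ M) (d : ℕ) :
    (1 + x) ^ d - 1 ≤ d * (1 + M) ^ d * x := by
  induction d with
  | zero => simp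
  | succ d ih =>
    have h1 : (1 : ℝ) ≤ (1 + M) ^ (d + 1) := one_le_pow₀ (by linarith)
    have h2 : 0 ≤ (d : ℝ) * (1 + M) ^ d * x := by
      have : (0 : ℝ) ≤ 1 + M := by linarith
      positivity
    have h3 : (1 + x) * ((1 + x) ^ d - 1) ≤ (1 + M) * ((d : ℝ) * (1 + M) ^ d * x) :=
      (mul_le_mul_of_nonneg_left ih (by linarith)).trans
        (mul_le_mul_of_nonneg_right (by linarith) h2)
    have h4 : x ≤ (1 + M) ^ (d + 1) * x := le_mul_of_one_le_left hx h1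
    push_cast
    calc (1 + x) ^ (d + 1) - 1 = (1 + x) * ((1 + x) ^ d - 1) + x := by ring
      _ ≤ (1 + M) * ((d : ℝ) * (1 + M) ^ d * x) + (1 + M) ^ (d + 1) * x := add_le_add h3 h4
      _ = ((d : ℝ) + 1) * (1 + M) ^ (d + 1) * x := by ring

theorem CDyad2_cover (hW : ∀ j, 1 ≤ W j) (j0 : J) (hj0 : W j0 = 1) (p : ℕ)
    (hp : p + Fintype.card J ≤ ∑ j, W j) (A C1 : ℝ) (hA : 0 ≤ A) (hC1 : 0 ≤ C1) :
    ∃ C' : ℝ, ∀ k : ℕ, 1 ≤ k → ∀ M : ℝ, 1 ≤ M →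
      ∀ (X Y : Set (J → ℝ)) (U : ℕ → Set (J → ℝ)), volume Y ≠ ⊤ →
      (∀ i, U i ⊆ Box W j0 A (2 ^ i) k) →
      (∀ i, (2 : ℝ) ^ i ≤ k → volume.real (U i) ≤
        C1 * M * (((k : ℝ) / 2 ^ i) ^ p / k) * volume.real (Box W j0 A (2 ^ i) k)) →
      (∀ z ∈ X, z ∈ Y ∨ z ∈ Thin W A k ∨ ∃ i : ℕ, (2 : ℝ) ^ i ≤ k ∧ z ∈ U i) →
      volume.real X ≤ volume.real Y + C' * M * (k : ℝ) ^ (∑ j, W j - 1) := by
  classical
  obtain ⟨Cb, hCb, hb⟩ := vol_Box W hW j0 hj0 p hp A hA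
  obtain ⟨Ct, hCt, ht⟩ := vol_Thin W hW A hA
  refine ⟨Ct + C1 * Cb * 2, fun k hk M hM X Y U hY hU hv hX => ?_⟩
  have hM0 : (0 : ℝ) ≤ M := by linarith
  have hk1 : (1 : ℝ) ≤ k := by exact_mod_cast hk
  set I := (Finset.range k).filter (fun i => (2 : ℝ) ^ i ≤ k) with hI
  have hsub : X ⊆ (Y ∪ Thin W A k) ∪ ⋃ i ∈ I, U i := by
    intro z hz
    rcases hX z hz with h | h | ⟨i, hi, h⟩
    · exact Or.inl (Or.inl h)
    · exact Or.inl (Or.inr h)
    · refine Or.inr (Set.mem_biUnion (Finset.mem_coe.2 (Finset.mem_filter.2 ⟨?_, hi⟩)) h)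
      have h2 : 2 ^ i ≤ k := by exact_mod_cast hi
      exact Finset.mem_range.2 (lt_of_lt_of_le (Nat.lt_two_pow_self) h2)
  have hUf : ∀ i, volume (U i) ≠ ⊤ := fun i =>
    ne_top_of_le_ne_top (fin_Box W j0 A (2 ^ i) k) (measure_mono (hU i))
  have hf1 : volume (⋃ i ∈ I, U i) ≠ ⊤ :=
    ne_top_of_le_ne_top (ENNReal.sum_ne_top.2 fun i _ => hUf i) (measure_biUnion_finset_le I U)
  have hf2 : volume (Y ∪ Thin W A k) ≠ ⊤ := measure_union_ne_top hY (fin_Thin W A k)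
  have hf : volume ((Y ∪ Thin W A k) ∪ ⋃ i ∈ I, U i) ≠ ⊤ := measure_union_ne_top hf2 hf1
  have hP : 0 ≤ (k : ℝ) ^ (∑ j, W j - 1) := by positivity
  have h1 : volume.real (⋃ i ∈ I, U i) ≤ C1 * M * Cb * 2 * (k : ℝ) ^ (∑ j, W j - 1) := by
    calc volume.real (⋃ i ∈ I, U i) ≤ ∑ i ∈ I, volume.real (U i) :=
          measureReal_biUnion_finset_le I U
      _ ≤ ∑ i ∈ I, C1 * M * Cb * (k : ℝ) ^ (∑ j, W j - 1) * ((2 : ℝ) ^ i / k) := by
          refine Finset.sum_le_sum fun i hi => ?_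
          have hi' : (2 : ℝ) ^ i ≤ k := (Finset.mem_filter.1 hi).2
          have h2 := hb (2 ^ i) k (one_le_pow₀ (by norm_num)) hi'
          calc volume.real (U i)
              ≤ C1 * M * (((k : ℝ) / 2 ^ i) ^ p / k) * volume.real (Box W j0 A (2 ^ i) k) :=
                hv i hi'
            _ = C1 * M * (((k : ℝ) / 2 ^ i) ^ p / k * volume.real (Box W j0 A (2 ^ i) k)) := by
                ring
            _ ≤ C1 * M * (Cb * ((2 : ℝ) ^ i / k) * (k : ℝ) ^ (∑ j, W j - 1)) :=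
                mul_le_mul_of_nonneg_left h2 (mul_nonneg hC1 hM0)
            _ = C1 * M * Cb * (k : ℝ) ^ (∑ j, W j - 1) * ((2 : ℝ) ^ i / k) := by ring
      _ = C1 * M * Cb * (k : ℝ) ^ (∑ j, W j - 1) * ∑ i ∈ I, ((2 : ℝ) ^ i / k) := by
          rw [Finset.mul_sum]
      _ ≤ C1 * M * Cb * (k : ℝ) ^ (∑ j, W j - 1) * 2 :=
          mul_le_mul_of_nonneg_left (CDyad2_geo k hk) (by positivity)
      _ = C1 * M * Cb * 2 * (k : ℝ) ^ (∑ j, W j - 1) := by ring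
  have h2 := ht k hk1
  have h3 : Ct * (k : ℝ) ^ (∑ j, W j - 1) ≤ Ct * M * (k : ℝ) ^ (∑ j, W j - 1) :=
    mul_le_mul_of_nonneg_right (le_mul_of_one_le_right hCt hM) hP
  calc volume.real X ≤ volume.real ((Y ∪ Thin W A k) ∪ ⋃ i ∈ I, U i) := measureReal_mono hsub hf
    _ ≤ volume.real (Y ∪ Thin W A k) + volume.real (⋃ i ∈ I, U i) := measureReal_union_le _ _
    _ ≤ (volume.real Y + volume.real (Thin W A k)) + volume.real (⋃ i ∈ I, U i) :=
        add_le_add_left (measureReal_union_le _ _) _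
    _ ≤ volume.real Y + (Ct + C1 * Cb * 2) * M * (k : ℝ) ^ (∑ j, W j - 1) := by linarith

theorem CDyad2_lam (k i p : ℕ) (hi : (2 : ℝ) ^ i ≤ k) : (1 : ℝ) ≤ ((k : ℝ) / 2 ^ i) ^ p :=
  one_le_pow₀ ((one_le_div (by positivity)).2 hi)

theorem CDyad2_ceil (M l : ℝ) (hM : 1 ≤ M) (hl : 1 ≤ l) : (⌈M * l⌉₊ : ℝ) ≤ 2 * (M * l) := by
  have h0 : 1 ≤ M * l := one_le_mul_of_one_le_of_one_le hM hl
  have h1 := (Nat.ceil_lt_add_one (by linarith : (0 : ℝ) ≤ M * l)).le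
  linarith

theorem Fam.dyad_low2 (h : Fam W B) (hW : ∀ j, 1 ≤ W j) (j0 : J) (hj0 : W j0 = 1) (p : ℕ)
    (hp : p + Fintype.card J ≤ ∑ j, W j) (A : ℝ) (hA : 0 ≤ A) :
    ∃ C' : ℝ, ∀ k : ℕ, 1 ≤ k → ∀ M : ℝ, 1 ≤ M → ∀ D : Set (J → ℝ), volume D ≠ ⊤ →
      (∀ z ∈ B k, z ∉ D → z ∈ Thin W A k ∨ ∃ i : ℕ, (2 : ℝ) ^ i ≤ k ∧ z ∈ Box W j0 A (2 ^ i) k ∧
        (M * ((k : ℝ) / 2 ^ i) ^ p ≤ k → z ∉ B (k - M * ((k : ℝ) / 2 ^ i) ^ p))) →
      (k : ℝ) ^ (∑ j, W j) * volume.real (B 1) ≤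
        volume.real D + C' * M * (k : ℝ) ^ (∑ j, W j - 1) := by
  classical
  set d := ∑ j, W j with hd
  set C1 : ℝ := 4 + d * (1 + 1) ^ d * 4 with hC1
  have hC1' : 0 ≤ (d : ℝ) * (1 + 1) ^ d * 4 := by positivity
  obtain ⟨C', hC'⟩ := CDyad2_cover hW j0 hj0 p hp A C1 hA (by linarith)
  refine ⟨C', fun k hk M hM D hDf hD => ?_⟩
  have hk0 : (0 : ℝ) < k := by exact_mod_cast hk
  have hM0 : (0 : ℝ) ≤ M := by linarith
  have key := hC' k hk M hM (B k) D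
    (fun i => if M * ((k : ℝ) / 2 ^ i) ^ p ≤ k ∧ 2 * ⌈M * ((k : ℝ) / 2 ^ i) ^ p⌉₊ ≤ k then
      Box W j0 A (2 ^ i) k ∩ (B k \ B ((k - ⌈M * ((k : ℝ) / 2 ^ i) ^ p⌉₊ : ℕ) : ℝ))
      else Box W j0 A (2 ^ i) k)
    hDf ?_ ?_ ?_
  · rwa [h.vol_nat k hk] at key
  · intro i
    split_ifs
    · exact Set.inter_subset_left
    · exact le_rfl
  · intro i hi
    have hl := CDyad2_lam k i p hi
    have hce := CDyad2_ceil M _ hM hl
    set l : ℝ := ((k : ℝ) / 2 ^ i) ^ p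
    set n : ℕ := ⌈M * l⌉₊
    have hv : 0 ≤ volume.real (Box W j0 A (2 ^ i) k) := measureReal_nonneg
    have hlk : 0 ≤ M * (l / k) := by positivity
    split_ifs with hc
    · obtain ⟨_, hc2⟩ := hc
      have h1 := h.shell (meas_Box W j0 A (2 ^ i) k) (fin_Box W j0 A (2 ^ i) k)
        (fun t ht ht1 => dil_Box W j0 A (2 ^ i) k t ht ht1) (k - n) k (by omega) (Nat.sub_le _ _)
      refine h1.trans (mul_le_mul_of_nonneg_right ?_ hv)
      have hnk : 2 * (n : ℝ) ≤ k := by exact_mod_cast hc2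
      have hn0 : (0 : ℝ) ≤ n := Nat.cast_nonneg n
      have hcast : ((k - n : ℕ) : ℝ) = k - n := Nat.cast_sub (by omega)
      have hpos : (0 : ℝ) < k - n := by linarith
      have h2 : (k : ℝ) / ((k - n : ℕ) : ℝ) = 1 + (n : ℝ) / (k - n) := by
        rw [hcast]
        field_simp
        ring
      have h5 : (n : ℝ) / (k - n) ≤ 1 := (div_le_one hpos).2 (by linarith)
      have h3 : (n : ℝ) / (k - n) ≤ 4 * (M * (l / k)) := by
        have h6 : (n : ℝ) / (k - n) ≤ 2 * n / k := by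
          rw [div_le_div_iff₀ hpos hk0]
          nlinarith
        refine h6.trans ?_
        rw [← mul_div_assoc, ← mul_div_assoc]
        exact div_le_div_of_nonneg_right (by linarith) hk0.le
      rw [h2]
      refine (CDyad2_pow _ _ (by positivity) h5 d).trans ?_
      calc (d : ℝ) * (1 + 1) ^ d * ((n : ℝ) / (k - n))
          ≤ (d : ℝ) * (1 + 1) ^ d * (4 * (M * (l / k))) :=
            mul_le_mul_of_nonneg_left h3 (by positivity)
        _ = (d : ℝ) * (1 + 1) ^ d * 4 * (M * (l / k)) := by ring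
        _ ≤ C1 * (M * (l / k)) := mul_le_mul_of_nonneg_right (by linarith) hlk
        _ = C1 * M * (l / k) := by ring
    · have h4 : 1 ≤ 4 * (M * (l / k)) := by
        rw [← mul_div_assoc, ← mul_div_assoc, one_le_div hk0]
        by_cases hc1 : M * l ≤ k
        · have h6 : k < 2 * n := by
            by_contra h7
            exact hc ⟨hc1, not_lt.1 h7⟩
          have h7 : (k : ℝ) < 2 * n := by exact_mod_cast h6
          linarith
        · have h6 := not_le.1 hc1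
          linarith
      have h5 : 1 ≤ C1 * M * (l / k) := by
        rw [mul_assoc]
        exact h4.trans (mul_le_mul_of_nonneg_right (by linarith) hlk)
      exact le_mul_of_one_le_left hv h5
  · intro z hz
    by_cases hzD : z ∈ D
    · exact Or.inl hzD
    rcases hD z hz hzD with h1 | ⟨i, hi, h1, h2⟩
    · exact Or.inr (Or.inl h1)
    · refine Or.inr (Or.inr ⟨i, hi, ?_⟩)
      split_ifs with hc
      · refine ⟨h1, hz, fun h3 => h2 hc.1 (h.mono ?_ h3)⟩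
        have hc2 := hc.2
        rw [Nat.cast_sub (by omega)]
        linarith [Nat.le_ceil (M * ((k : ℝ) / 2 ^ i) ^ p)]
      · exact h1

end Pool.Agent.MP_b3b911_al.Fil
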