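import Mathlib

open Filter Topology

namespace Pool.Agent.MP_b3b911_al.Fil

theorem log_ratio {a : ℕ → ℝ} {c : ℝ} {d : ℕ} (hc : 0 < c)
    (h : Tendsto (fun k : ℕ => a k / (k : ℝ) ^ d) atTop (𝓝 c)) :
    Tendsto (fun k : ℕ => Real.log (a k) / Real.log k) atTop (𝓝 d) := by
  have h1 : Tendsto (fun k : ℕ => Real.log k) atTop atTop :=
    Real.tendsto_log_atTop.comp tendsto_natCast_atTop_atTop
  have h2 := ((h.log hc.ne').div_atTop h1).add_const (d : ℝ)
  rw [zero_add] at h2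
  refine h2.congr' ?_
  filter_upwards [eventually_ge_atTop 2, h.eventually_const_lt hc] with k hk hp
  have hk' : (1 : ℝ) < k := by exact_mod_cast hk
  have h3 : (0 : ℝ) < (k : ℝ) ^ d := by positivity
  have h4 : a k ≠ 0 := fun h0 => by simp [h0] at hp
  have h5 := (Real.log_pos hk').ne'
  rw [Real.log_div h4 h3.ne', Real.log_pow]
  field_simp
  ring

theorem ratio_of_bound {a : ℕ → ℝ} {c C : ℝ} {e : ℕ}
    (h : ∀ k : ℕ, 1 ≤ k → |a k - c * (k : ℝ) ^ (e + 1)| ≤ C * (k : ℝ) ^ e) :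
    Tendsto (fun k : ℕ => a k / (k : ℝ) ^ (e + 1)) atTop (𝓝 c) := by
  rw [tendsto_iff_norm_sub_tendsto_zero]
  have h0 : Tendsto (fun k : ℕ => C * (k : ℝ)⁻¹) atTop (𝓝 0) := by
    simpa using tendsto_inv_atTop_nhds_zero_nat.const_mul C
  refine squeeze_zero' (Eventually.of_forall fun k => norm_nonneg _) ?_ h0
  filter_upwards [eventually_ge_atTop 1] with k hk
  have hk' : (0 : ℝ) < k := by exact_mod_cast hk
  have h1 : a k / (k : ℝ) ^ (e + 1) - c = (a k - c * (k : ℝ) ^ (e + 1)) / (k : ℝ) ^ (e + 1) := by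
    field_simp
  rw [Real.norm_eq_abs, h1, abs_div, abs_of_pos (pow_pos hk' _), div_le_iff₀ (pow_pos hk' _)]
  calc _ ≤ C * (k : ℝ) ^ e := h k hk
    _ = C * (k : ℝ)⁻¹ * (k : ℝ) ^ (e + 1) := by field_simp; ring

end Pool.Agent.MP_b3b911_al.Fil
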