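import Pool.Agent.MP_b3b911_al.Fil.CDefs

open MeasureTheory

namespace Pool.Agent.MP_b3b911_al.Fil

theorem CRef_append {α : Type*} (a : α → ℤ) (c : α → ℝ) (e : ℕ) (l₁ l₂ : List α) (y : ℤ) :
    Isum a c e y (l₁ ++ l₂) = Isum a c e y l₁ + Isum a c e (y + (l₁.map a).sum) l₂ := by
  induction l₁ generalizing y with
  | nil => simp [Isum]
  | cons s l ih =>
    simp only [List.cons_append, Isum, ih, List.map_cons, List.sum_cons]
    rw [add_assoc y]
    ring

theorem CRef_pow (x w M δ : ℝ) (e : ℕ) (h1 : |x - w| ≤ δ) (h2 : |w| + δ ≤ M) :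
    M * |x ^ e - w ^ e| ≤ e * δ * M ^ e := by
  have hδ : 0 ≤ δ := (abs_nonneg _).trans h1
  have hM : 0 ≤ M := by have := abs_nonneg w; linarith
  rcases Nat.eq_zero_or_pos e with rfl | he
  · simp
  · have hx : |x| ≤ M := by
      have : |x| ≤ |x - w| + |w| := by
        have := abs_add_le (x - w) w
        simpa using this
      linarith
    have hw : |w| ≤ M := by linarith
    have h3 := abs_pow_sub_pow_le x w e
    have h4 : max |x| |w| ^ (e - 1) ≤ M ^ (e - 1) :=
      pow_le_pow_left₀ (le_max_of_le_left (abs_nonneg _)) (max_le hx hw) _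
    have h5 : |x - w| * e * max |x| |w| ^ (e - 1) ≤ δ * e * M ^ (e - 1) := by
      apply mul_le_mul _ h4 (by positivity) (by positivity)
      exact mul_le_mul_of_nonneg_right h1 (by positivity)
    have h6 : M ^ e = M * M ^ (e - 1) := by
      conv_lhs => rw [show e = (e - 1) + 1 by omega]
      ring
    calc M * |x ^ e - w ^ e| ≤ M * (δ * e * M ^ (e - 1)) :=
          mul_le_mul_of_nonneg_left (h3.trans h5) hM
      _ = e * δ * M ^ e := by rw [h6]; ring

theorem CRef_block {α : Type*} (a : α → ℤ) (c : α → ℝ) (e : ℕ) (s : α) (A D M δ w : ℝ)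
    (ha : |(a s : ℝ)| ≤ A) (hc : |c s| ≤ D) (h2 : |w| + δ ≤ M) (n : ℕ) (z : ℤ)
    (h1 : |(z : ℝ) - w| + n * A ≤ δ) :
    M * |Isum a c e z (List.replicate n s) - n * (c s * w ^ e)| ≤ n * (D * (e * δ * M ^ e)) := by
  have hA : 0 ≤ A := (abs_nonneg _).trans ha
  have hD : 0 ≤ D := (abs_nonneg _).trans hc
  induction n generalizing z with
  | zero => simp [Isum]
  | succ n ih =>
    have hn : (0 : ℝ) ≤ n * A := by positivity
    push_cast at h1
    have hz : |(z : ℝ) - w| ≤ δ := by nlinarith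
    have hM : 0 ≤ M := by
      have := abs_nonneg w
      have := abs_nonneg ((z : ℝ) - w)
      linarith
    have h3 := CRef_pow z w M δ e hz h2
    have h4 := ih (z + a s) (by
      push_cast
      have : |(z : ℝ) + a s - w| ≤ |(z : ℝ) - w| + |(a s : ℝ)| := by
        have := abs_add_le ((z : ℝ) - w) (a s)
        rwa [show (z : ℝ) - w + a s = z + a s - w by ring] at this
      nlinarith)
    rw [List.replicate_succ]
    simp only [Isum]
    push_cast
    have h5 : c s * (z : ℝ) ^ e + Isum a c e (z + a s) (List.replicate n s) -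
        (n + 1) * (c s * w ^ e) = c s * ((z : ℝ) ^ e - w ^ e) +
        (Isum a c e (z + a s) (List.replicate n s) - n * (c s * w ^ e)) := by ring
    rw [h5]
    have h6 := abs_add_le (c s * ((z : ℝ) ^ e - w ^ e))
      (Isum a c e (z + a s) (List.replicate n s) - n * (c s * w ^ e))
    have h7 : M * |c s * ((z : ℝ) ^ e - w ^ e)| ≤ D * (e * δ * M ^ e) := by
      rw [abs_mul]
      calc M * (|c s| * |(z : ℝ) ^ e - w ^ e|) = |c s| * (M * |(z : ℝ) ^ e - w ^ e|) := by ring
        _ ≤ D * (e * δ * M ^ e) :=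
          mul_le_mul hc h3 (by positivity) hD
    have h8 := mul_le_mul_of_nonneg_left h6 hM
    nlinarith

theorem CRef_main {α : Type*} (T : Finset α) (a : α → ℤ) (c : α → ℝ) (e : ℕ) (A D B : ℝ)
    (ha : ∀ s ∈ T, |(a s : ℝ)| ≤ A) (hc : ∀ s ∈ T, |c s| ≤ D) (m : ℕ) (hm : 1 ≤ m)
    (l : List α) (hl : ∀ s ∈ l, s ∈ T) (y : ℤ) (hy : |(y : ℝ)| + A * l.length ≤ B) :
    B * |Isum a c e (m * y) (l.flatMap (List.replicate m)) - (m : ℝ) ^ (e + 1) * Isum a c e y l|
      ≤ (D * e * A * (m : ℝ) ^ (e + 1) * B ^ e) * l.length := by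
  induction l generalizing y with
  | nil => simp [Isum]
  | cons s l ih =>
    have hs := hl s (by simp)
    have hA : 0 ≤ A := (abs_nonneg _).trans (ha s hs)
    have hm' : (0 : ℝ) < m := by exact_mod_cast hm
    simp only [List.length_cons] at hy ⊢
    push_cast at hy ⊢
    have hl0 : (0 : ℝ) ≤ A * l.length := by positivity
    have hB : 0 ≤ B := by have := abs_nonneg (y : ℝ); nlinarith
    have h1 := ih (fun t ht => hl t (List.mem_cons_of_mem _ ht)) (y + a s) (by
      push_cast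
      have := abs_add_le (y : ℝ) (a s)
      have := ha s hs
      nlinarith)
    have h2 := CRef_block a c e s A D (m * B) (m * A) (m * y) (ha s hs) (hc s hs) (by
      rw [abs_mul, abs_of_pos hm']
      nlinarith) m (m * y) (by push_cast; simp)
    rw [List.flatMap_cons, CRef_append]
    have h3 : (m : ℤ) * y + ((List.replicate m s).map a).sum = m * (y + a s) := by
      simp [mul_add]
    rw [h3]
    simp only [Isum]
    set X := Isum a c e (m * y) (List.replicate m s) with hX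
    set Y := Isum a c e (m * (y + a s)) (l.flatMap (List.replicate m)) with hY
    set Z := Isum a c e (y + a s) l with hZ
    have h4 : B * |X - m * (c s * ((m : ℝ) * y) ^ e)| ≤ D * e * A * (m : ℝ) ^ (e + 1) * B ^ e := by
      have h5 : (m : ℝ) * (B * |X - m * (c s * ((m : ℝ) * y) ^ e)|) ≤
          m * (D * e * A * (m : ℝ) ^ (e + 1) * B ^ e) := by
        calc (m : ℝ) * (B * |X - m * (c s * ((m : ℝ) * y) ^ e)|)
            = m * B * |X - m * (c s * ((m : ℝ) * y) ^ e)| := by ring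
          _ ≤ m * (D * (e * (m * A) * (m * B) ^ e)) := h2
          _ = m * (D * e * A * (m : ℝ) ^ (e + 1) * B ^ e) := by rw [mul_pow]; ring
      exact le_of_mul_le_mul_left h5 hm'
    have h6 : X + Y - (m : ℝ) ^ (e + 1) * (c s * (y : ℝ) ^ e + Z) =
        (X - m * (c s * ((m : ℝ) * y) ^ e)) + (Y - (m : ℝ) ^ (e + 1) * Z) := by
      rw [mul_pow]; ring
    rw [h6]
    have h7 := mul_le_mul_of_nonneg_left (abs_add_le (X - m * (c s * ((m : ℝ) * y) ^ e))
      (Y - (m : ℝ) ^ (e + 1) * Z)) hB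
    nlinarith

theorem refine_est {α : Type*} (T : Finset α) (a : α → ℤ) (c : α → ℝ) (e : ℕ) :
    ∃ C : ℝ, 0 ≤ C ∧ ∀ (m : ℕ) (K : ℝ) (l : List α), 1 ≤ m → 1 ≤ K → (∀ s ∈ l, s ∈ T) →
      (l.length : ℝ) ≤ K →
      |Isum a c e 0 (l.flatMap (List.replicate m)) - (m : ℝ) ^ (e + 1) * Isum a c e 0 l| ≤
        C * (m : ℝ) ^ (e + 1) * K ^ e := by
  set A : ℝ := 1 + ∑ s ∈ T, |(a s : ℝ)| with hAdef
  set D : ℝ := ∑ s ∈ T, |c s| with hDdef
  have hA0 : 0 ≤ ∑ s ∈ T, |(a s : ℝ)| := Finset.sum_nonneg fun _ _ => abs_nonneg _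
  have hA : 0 < A := by linarith
  have hD : 0 ≤ D := Finset.sum_nonneg fun _ _ => abs_nonneg _
  have ha : ∀ s ∈ T, |(a s : ℝ)| ≤ A := fun s hs => by
    have := Finset.single_le_sum (f := fun s => |(a s : ℝ)|) (fun _ _ => abs_nonneg _) hs
    linarith
  have hc : ∀ s ∈ T, |c s| ≤ D := fun s hs =>
    Finset.single_le_sum (f := fun s => |c s|) (fun _ _ => abs_nonneg _) hs
  refine ⟨D * e * A ^ e, by positivity, fun m K l hm hK hl hlen => ?_⟩
  have hK0 : 0 < K := by linarith
  have h1 := CRef_main T a c e A D (A * K) ha hc m hm l hl 0 (by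
    simp only [Int.cast_zero, abs_zero, zero_add]
    exact mul_le_mul_of_nonneg_left hlen hA.le)
  rw [mul_zero] at h1
  have h2 : (D * e * A * (m : ℝ) ^ (e + 1) * (A * K) ^ e) * l.length ≤
      (D * e * A * (m : ℝ) ^ (e + 1) * (A * K) ^ e) * K :=
    mul_le_mul_of_nonneg_left hlen (by positivity)
  have h3 : (D * e * A * (m : ℝ) ^ (e + 1) * (A * K) ^ e) * K =
      A * K * (D * e * A ^ e * (m : ℝ) ^ (e + 1) * K ^ e) := by rw [mul_pow]; ring
  exact le_of_mul_le_mul_left (h1.trans (h2.trans h3.le)) (by positivity)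

end Pool.Agent.MP_b3b911_al.Fil
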