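import Pool.Agent.MP_b3b911_al.Fil.CDefs

open MeasureTheory

namespace Pool.Agent.MP_b3b911_al.Fil

variable {J : Type} [Fintype J] {W : J → ℕ} {B : ℝ → Set (J → ℝ)}

theorem CShell_pre (W : J → ℕ) {t : ℝ} (ht : 0 < t) (s : Set (J → ℝ)) :
    volume (dil W t ⁻¹' s) = ENNReal.ofReal (t ^ (∑ j, W j))⁻¹ * volume s := by
  classical
  have hdet : LinearMap.det (Matrix.toLin' (Matrix.diagonal fun j => t ^ W j)) =
      t ^ (∑ j, W j) := by
    rw [LinearMap.det_toLin', Matrix.det_diagonal, Finset.prod_pow_eq_pow_sum]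
  have hpos : 0 < t ^ (∑ j, W j) := pow_pos ht _
  have hfun : (Matrix.toLin' (Matrix.diagonal fun j => t ^ W j) : (J → ℝ) → J → ℝ) =
      dil W t := by
    funext z j
    simp [dil, Matrix.toLin'_apply, Matrix.mulVec_diagonal]
  have := Measure.addHaar_preimage_linearMap (volume : Measure (J → ℝ))
    (f := Matrix.toLin' (Matrix.diagonal fun j => t ^ W j)) (by rw [hdet]; exact hpos.ne') s
  rw [hfun, hdet, abs_of_pos (inv_pos.2 hpos)] at this
  exact this

theorem CShell_pre_real (W : J → ℕ) {t : ℝ} (ht : 0 < t) (s : Set (J → ℝ)) :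
    volume.real (dil W t ⁻¹' s) = (t ^ (∑ j, W j))⁻¹ * volume.real s := by
  simp only [Measure.real]
  rw [CShell_pre W ht, ENNReal.toReal_mul,
    ENNReal.toReal_ofReal (inv_pos.2 (pow_pos ht _)).le]

omit [Fintype J] in
theorem CShell_dil_dil (W : J → ℕ) (s t : ℝ) (z : J → ℝ) :
    dil W s (dil W t z) = dil W (s * t) z := by
  funext j
  simp only [dil, mul_pow, mul_assoc]

theorem CShell_rat (h : Fam W B) (a b : ℕ) (ha : 1 ≤ a) (hb : 1 ≤ b) (z : J → ℝ)
    (hz : z ∈ B b) : dil W ((a : ℝ) / b) z ∈ B a := by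
  have hb' : (b : ℝ) ≠ 0 := by positivity
  rw [← h.hom b hb, CShell_dil_dil, mul_div_cancel₀ _ hb', mul_comm]
  exact (h.hom a ha b z).2 hz

theorem Fam.vol_nat (h : Fam W B) (k : ℕ) (hk : 1 ≤ k) :
    volume.real (B k) = (k : ℝ) ^ (∑ j, W j) * volume.real (B 1) := by
  have hk' : (0 : ℝ) < k := by exact_mod_cast hk
  have e : B 1 = dil W k ⁻¹' B k := by
    ext z
    have := h.hom k hk 1 z
    rw [mul_one] at this
    exact this.symm
  rw [e, CShell_pre_real W hk', mul_inv_cancel_left₀ (pow_pos hk' _).ne']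

theorem Fam.shell (h : Fam W B) {P : Set (J → ℝ)} (hP : MeasurableSet P) (hfin : volume P ≠ ⊤)
    (hc : ∀ t : ℝ, 0 < t → t ≤ 1 → ∀ z ∈ P, dil W t z ∈ P) (a b : ℕ) (ha : 1 ≤ a) (hab : a ≤ b) :
    volume.real (P ∩ (B b \ B a)) ≤ (((b : ℝ) / a) ^ (∑ j, W j) - 1) * volume.real P := by
  have ha' : (0 : ℝ) < a := by exact_mod_cast ha
  have hab' : (a : ℝ) ≤ b := by exact_mod_cast hab
  have hb' : (0 : ℝ) < b := ha'.trans_le hab'
  have ht : (0 : ℝ) < (a : ℝ) / b := div_pos ha' hb'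
  have hfa : volume (P ∩ B a) ≠ ⊤ := ne_top_of_le_ne_top hfin (measure_mono Set.inter_subset_left)
  have hfb : volume (P ∩ B b) ≠ ⊤ := ne_top_of_le_ne_top hfin (measure_mono Set.inter_subset_left)
  have hsub : P ∩ B b ⊆ dil W ((a : ℝ) / b) ⁻¹' (P ∩ B a) := fun z hz =>
    ⟨hc _ ht ((div_le_one hb').2 hab') z hz.1, CShell_rat h a b ha (ha.trans hab) z hz.2⟩
  have h1 : volume.real (P ∩ B b) ≤ ((b : ℝ) / a) ^ (∑ j, W j) * volume.real (P ∩ B a) := by
    have := measureReal_mono (μ := volume) hsub (by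
      rw [CShell_pre W ht]
      exact ENNReal.mul_ne_top ENNReal.ofReal_ne_top hfa)
    rwa [CShell_pre_real W ht, ← inv_pow, inv_div] at this
  have e : P ∩ (B b \ B a) = (P ∩ B b) \ (P ∩ B a) := by
    ext z
    simp only [Set.mem_inter_iff, Set.mem_sdiff]
    tauto
  have h2 : volume.real (P ∩ (B b \ B a)) = volume.real (P ∩ B b) - volume.real (P ∩ B a) := by
    rw [e]
    exact measureReal_sdiff (Set.inter_subset_inter_right _ (h.mono hab')) (hP.inter (h.meas _)) hfb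
  have h3 : volume.real (P ∩ B a) ≤ volume.real P := measureReal_mono Set.inter_subset_left hfin
  have h4 : 0 ≤ ((b : ℝ) / a) ^ (∑ j, W j) - 1 :=
    sub_nonneg.2 (one_le_pow₀ ((one_le_div ha').2 hab'))
  have h5 := mul_le_mul_of_nonneg_left h3 h4
  rw [h2]
  linarith

end Pool.Agent.MP_b3b911_al.Fil
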