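import Pool.Agent.MP_b3b911_al.Fil.CDefs

open MeasureTheory

namespace Pool.Agent.MP_b3b911_al.Fil

variable {G : Type*} [Group G] {S : Finset G} {J : Type} [Fintype J]

theorem CSum_bound (S : Finset G) (f : G → ℝ) :
    ∃ b : ℝ, 1 ≤ b ∧ ∀ s, (s ∈ S ∨ s⁻¹ ∈ S) → |f s| ≤ b := by
  have h1 : 0 ≤ ∑ s ∈ S, |f s| := Finset.sum_nonneg fun _ _ => abs_nonneg _
  have h2 : 0 ≤ ∑ s ∈ S, |f s⁻¹| := Finset.sum_nonneg fun _ _ => abs_nonneg _
  refine ⟨1 + ∑ s ∈ S, |f s| + ∑ s ∈ S, |f s⁻¹|, by linarith, ?_⟩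
  intro s hs
  rcases hs with h | h
  · have := Finset.single_le_sum (f := fun s => |f s|) (fun _ _ => abs_nonneg _) h
    linarith
  · have := Finset.single_le_sum (f := fun s => |f s⁻¹|) (fun _ _ => abs_nonneg _) h
    simp only [inv_inv] at this
    linarith

theorem CSum_bound2 (S : Finset G) (f : G → J → ℝ) :
    ∃ b : ℝ, 1 ≤ b ∧ ∀ s, (s ∈ S ∨ s⁻¹ ∈ S) → ∀ j, |f s j| ≤ b := by
  obtain ⟨b, hb, h⟩ := CSum_bound S fun s => ∑ j, |f s j|
  refine ⟨b, hb, fun s hs j => ?_⟩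
  have h1 := Finset.single_le_sum (f := fun j => |f s j|) (fun _ _ => abs_nonneg _)
    (Finset.mem_univ j)
  exact h1.trans ((le_abs_self _).trans (h s hs))

theorem CSum_snoc {α : Type*} (a : α → ℤ) (c : α → ℝ) (e : ℕ) (s : α) (l : List α) :
    ∀ y : ℤ, Isum a c e y (l ++ [s]) =
      Isum a c e y l + c s * ((y + (l.map a).sum : ℤ) : ℝ) ^ e := by
  induction l with
  | nil => intro y; simp [Isum]
  | cons t l ih =>
    intro y
    rw [List.cons_append, Isum, Isum, ih, List.map_cons, List.sum_cons, add_assoc y]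
    ring

theorem CSum_co_prod (Z : Sys S J) (l : List G) :
    Z.co l.prod Z.j0 = (l.map fun s => Z.co s Z.j0).sum := by
  induction l with
  | nil => simp [Z.co_one]
  | cons t l ih => rw [List.prod_cons, Z.add, ih, List.map_cons, List.sum_cons]

theorem CSum_word_left {l : List G} {s : G} (h : Word S (l ++ [s])) : Word S l :=
  fun x hx => h x (List.mem_append_left _ hx)

theorem CSum_word_last {l : List G} {s : G} (h : Word S (l ++ [s])) : s ∈ S ∨ s⁻¹ ∈ S :=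
  h s (List.mem_append_right _ (List.mem_singleton_self s))

theorem CSum_isum_le (Z : Sys S J) (γ ρ : ℝ) (hγ : ∀ s, (s ∈ S ∨ s⁻¹ ∈ S) → ∀ j, |Z.c s j| ≤ γ)
    (j : J) (l : List G) : Word S l → (∀ n, |(Z.co (l.take n).prod Z.j0 : ℝ)| ≤ ρ) →
    |Isum (fun s => Z.co s Z.j0) (fun s => Z.c s j) (Z.W j - 1) 0 l| ≤
      γ * l.length * ρ ^ (Z.W j - 1) := by
  induction l using List.reverseRecOn with
  | nil => intro _ _; simp [Isum]
  | append_singleton l s ih =>
    intro hw hρ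
    have hl : |(Z.co l.prod Z.j0 : ℝ)| ≤ ρ := by
      have := hρ l.length
      rwa [List.take_left'  rfl] at this
    have ih' := ih (CSum_word_left hw) (by
      intro n
      rcases le_total n l.length with hn | hn
      · have := hρ n
        rwa [List.take_append_of_le_length hn] at this
      · rw [List.take_of_length_le hn]
        exact hl)
    rw [CSum_snoc, zero_add, ← CSum_co_prod]
    have h1 : |Z.c s j * (Z.co l.prod Z.j0 : ℝ) ^ (Z.W j - 1)| ≤ γ * ρ ^ (Z.W j - 1) := by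
      rw [abs_mul, abs_pow]
      have hs := hγ s (CSum_word_last hw) j
      exact mul_le_mul hs (pow_le_pow_left₀ (abs_nonneg _) hl _) (by positivity)
        ((abs_nonneg _).trans hs)
    refine (abs_add_le _ _).trans ?_
    rw [List.length_append, List.length_singleton]
    push_cast
    linarith

theorem Sys.step (Z : Sys S J) : ∃ a : ℝ, 1 ≤ a ∧ ∀ l : List G, Word S l →
    |(Z.co l.prod Z.j0 : ℝ)| ≤ a * l.length := by
  obtain ⟨a, ha, h⟩ := CSum_bound S fun s => (Z.co s Z.j0 : ℝ)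
  refine ⟨a, ha, fun l => ?_⟩
  induction l with
  | nil => intro _; simp [Z.co_one]
  | cons t l ih =>
    intro hw
    have h1 := ih fun x hx => hw x (List.mem_cons_of_mem _ hx)
    have h2 := h t (hw t List.mem_cons_self)
    rw [List.prod_cons, Z.add, List.length_cons]
    push_cast
    refine (abs_add_le _ _).trans ?_
    linarith

theorem Sys.sum_est (Z : Sys S J) : ∃ C : ℝ, 0 ≤ C ∧ ∀ K : ℝ, 1 ≤ K → ∀ l : List G, Word S l →
    (l.length : ℝ) ≤ K → ∀ j,
    |(Z.co l.prod j : ℝ) - Isum (fun s => Z.co s Z.j0) (fun s => Z.c s j) (Z.W j - 1) 0 l| ≤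
      C * K ^ (Z.W j - 1) := by
  obtain ⟨C, hC, h⟩ := Z.H1
  refine ⟨C, hC, fun K hK l hw hl j => ?_⟩
  have key : ∀ l : List G, Word S l → (l.length : ℝ) ≤ K →
      K * |(Z.co l.prod j : ℝ) -
        Isum (fun s => Z.co s Z.j0) (fun s => Z.c s j) (Z.W j - 1) 0 l| ≤
      C * K ^ (Z.W j - 1) * l.length := by
    intro l
    induction l using List.reverseRecOn with
    | nil => intro _ _; simp [Isum, Z.co_one]
    | append_singleton l s ih =>
      intro hw hl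
      rw [List.length_append, List.length_singleton] at hl ⊢
      push_cast at hl ⊢
      have hl' : (l.length : ℝ) ≤ K := by linarith
      have ih' := ih (CSum_word_left hw) hl'
      have h1 := h K hK l.prod ⟨l, hl', CSum_word_left hw, rfl⟩ s (CSum_word_last hw) j
      rw [CSum_snoc, zero_add, ← CSum_co_prod, List.prod_append, List.prod_singleton]
      have h2 : (Z.co (l.prod * s) j : ℝ) -
          (Isum (fun s => Z.co s Z.j0) (fun s => Z.c s j) (Z.W j - 1) 0 l +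
            Z.c s j * (Z.co l.prod Z.j0 : ℝ) ^ (Z.W j - 1)) =
          ((Z.co l.prod j : ℝ) - Isum (fun s => Z.co s Z.j0) (fun s => Z.c s j) (Z.W j - 1) 0 l) +
          ((Z.co (l.prod * s) j : ℝ) - Z.co l.prod j -
            Z.c s j * (Z.co l.prod Z.j0 : ℝ) ^ (Z.W j - 1)) := by ring
      rw [h2]
      have h3 := mul_le_mul_of_nonneg_left (abs_add_le
        ((Z.co l.prod j : ℝ) - Isum (fun s => Z.co s Z.j0) (fun s => Z.c s j) (Z.W j - 1) 0 l)
        ((Z.co (l.prod * s) j : ℝ) - Z.co l.prod j -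
            Z.c s j * (Z.co l.prod Z.j0 : ℝ) ^ (Z.W j - 1))) (zero_le_one.trans hK)
      linarith
  have h1 := key l hw hl
  have hK0 : 0 < K := by linarith
  have h2 : C * K ^ (Z.W j - 1) * l.length ≤ C * K ^ (Z.W j - 1) * K :=
    mul_le_mul_of_nonneg_left hl (by positivity)
  refine le_of_mul_le_mul_left ?_ hK0
  linarith

theorem Sys.box_est (Z : Sys S J) : ∃ C : ℝ, 0 ≤ C ∧ ∀ K ρ : ℝ, 1 ≤ K → 1 ≤ ρ → ∀ l : List G,
    Word S l → (l.length : ℝ) ≤ K → (∀ n, |(Z.co (l.take n).prod Z.j0 : ℝ)| ≤ ρ) → ∀ j,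
    |(Z.co l.prod j : ℝ)| ≤ C * (K * ρ ^ (Z.W j - 1) + K ^ (Z.W j - 1)) := by
  obtain ⟨C, hC, h⟩ := Z.sum_est
  obtain ⟨γ, hγ, hγ'⟩ := CSum_bound2 S Z.c
  refine ⟨C + γ, by linarith, fun K ρ hK hρ l hw hl hn j => ?_⟩
  have h1 := h K hK l hw hl j
  have h2 := CSum_isum_le Z γ ρ hγ' j l hw hn
  have hρ0 : 0 ≤ ρ ^ (Z.W j - 1) := by positivity
  have hK0 : 0 ≤ K ^ (Z.W j - 1) := by positivity
  have h3 : γ * l.length * ρ ^ (Z.W j - 1) ≤ γ * K * ρ ^ (Z.W j - 1) :=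
    mul_le_mul_of_nonneg_right (mul_le_mul_of_nonneg_left hl (by linarith)) hρ0
  have h4 := abs_add_le
    ((Z.co l.prod j : ℝ) - Isum (fun s => Z.co s Z.j0) (fun s => Z.c s j) (Z.W j - 1) 0 l)
    (Isum (fun s => Z.co s Z.j0) (fun s => Z.c s j) (Z.W j - 1) 0 l)
  rw [sub_add_cancel] at h4
  have h5 : 0 ≤ C * (K * ρ ^ (Z.W j - 1)) := by positivity
  have h6 : 0 ≤ γ * K ^ (Z.W j - 1) := by positivity
  nlinarith

theorem Sys.big_est (Z : Sys S J) : ∃ C : ℝ, 0 ≤ C ∧ ∀ K : ℝ, 1 ≤ K → ∀ g, Ball S K g → ∀ j,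
    |(Z.co g j : ℝ)| ≤ C * K ^ Z.W j := by
  obtain ⟨C, hC, h⟩ := Z.box_est
  obtain ⟨a, ha, hs⟩ := Z.step
  have hA : 0 ≤ ∑ j, a ^ (Z.W j - 1) := Finset.sum_nonneg fun _ _ => by positivity
  refine ⟨C * (∑ j, a ^ (Z.W j - 1) + 1), by positivity, ?_⟩
  rintro K hK g ⟨l, hl, hw, rfl⟩ j
  have hρ : 1 ≤ a * K := one_le_mul_of_one_le_of_one_le ha hK
  have h1 := h K (a * K) hK hρ l hw hl (by
    intro n
    refine (hs _ (hw.take n)).trans (mul_le_mul_of_nonneg_left ?_ (by linarith))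
    refine le_trans ?_ hl
    exact_mod_cast List.length_take_le' n l) j
  have h2 : a ^ (Z.W j - 1) ≤ ∑ j, a ^ (Z.W j - 1) :=
    Finset.single_le_sum (f := fun j => a ^ (Z.W j - 1)) (fun _ _ => by positivity)
      (Finset.mem_univ j)
  have hW := Z.W_pos j
  have h3 : K ^ Z.W j = K * K ^ (Z.W j - 1) := by
    rw [← pow_succ']
    congr 1
    omega
  have hK0 : 0 ≤ K ^ (Z.W j - 1) := by positivity
  have h4 : K ^ (Z.W j - 1) ≤ K ^ Z.W j := pow_le_pow_right₀ hK (Nat.sub_le _ _)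
  have h5 : K * (a * K) ^ (Z.W j - 1) ≤ (∑ j, a ^ (Z.W j - 1)) * K ^ Z.W j := by
    rw [mul_pow, h3]
    have : 0 ≤ K * K ^ (Z.W j - 1) := by positivity
    nlinarith
  refine h1.trans ?_
  rw [mul_assoc]
  refine mul_le_mul_of_nonneg_left ?_ hC
  linarith

end Pool.Agent.MP_b3b911_al.Fil
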