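import Pool.Agent.MP_b3b911_al.Fil.CSum
import Pool.Agent.MP_b3b911_al.Fil.CRef
import Pool.Agent.MP_b3b911_al.Fil.CCoa

open MeasureTheory

namespace Pool.Agent.MP_b3b911_al.Fil

variable {G : Type*} [Group G] {S : Finset G} {J : Type} [Fintype J]

theorem CUL_comb {a b Il Iu m K Cs Cc : ℝ} {e : ℕ} (hm : 1 ≤ m) (hK : 1 ≤ K) (hCs : 0 ≤ Cs)
    (h1 : |a - Il| ≤ Cs * (m * K) ^ e) (h2 : |Il - m ^ (e + 1) * Iu| ≤ Cc * m ^ (e + 1) * K ^ e)
    (h3 : |b - Iu| ≤ Cs * K ^ e) :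
    |a - m ^ (e + 1) * b| ≤ (2 * Cs + Cc) * (m ^ (e + 1) * K ^ e) := by
  have hm0 : 0 ≤ m := by linarith
  have hK0 : 0 ≤ K := by linarith
  have h4 : Cs * (m * K) ^ e ≤ Cs * (m ^ (e + 1) * K ^ e) := by
    rw [mul_pow]
    gcongr
    omega
  have h5 : |m ^ (e + 1) * Iu - m ^ (e + 1) * b| ≤ m ^ (e + 1) * (Cs * K ^ e) := by
    rw [← mul_sub, abs_mul, abs_of_nonneg (pow_nonneg hm0 _), abs_sub_comm]
    gcongr
  have h6 := abs_sub_le a Il (m ^ (e + 1) * b)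
  have h7 := abs_sub_le Il (m ^ (e + 1) * Iu) (m ^ (e + 1) * b)
  nlinarith

theorem CUL_floor (x : ℝ) : |((⌊x⌋ : ℤ) : ℝ) - x| ≤ 1 := by
  have h1 := Int.floor_le x
  have h2 := Int.lt_floor_add_one x
  rw [abs_le]
  constructor <;> linarith

open Classical in
theorem CUL_mem {x : G} : x ∈ S ∪ S.image (·⁻¹) ↔ x ∈ S ∨ x⁻¹ ∈ S := by
  rw [Finset.mem_union, Finset.mem_image]
  refine or_congr_right ⟨?_, fun h => ⟨x⁻¹, h, inv_inv x⟩⟩
  rintro ⟨y, hy, rfl⟩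
  rwa [inv_inv]

theorem CUL_rep (Z : Sys S J) (m : ℕ) (v : List G) :
    Z.co (v.flatMap (List.replicate m)).prod Z.j0 = m * Z.co v.prod Z.j0 := by
  have h1 : ∀ s : G, Z.co (s ^ m) Z.j0 = m * Z.co s Z.j0 := by
    intro s
    induction m with
    | zero => simp [Z.co_one]
    | succ m ih => rw [pow_succ, Z.add, ih]; push_cast; ring
  induction v with
  | nil => simp [Z.co_one]
  | cons s v ih =>
    rw [List.flatMap_cons, List.prod_append, List.prod_replicate, List.prod_cons, Z.add, Z.add, ih,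
      h1, mul_add]

omit [Group G] in
theorem CUL_len (m : ℕ) (v : List G) : (v.flatMap (List.replicate m)).length = m * v.length := by
  induction v with
  | nil => simp
  | cons s v ih =>
    rw [List.flatMap_cons, List.length_append, List.length_replicate, ih, List.length_cons]
    ring

theorem Sys.low (Z : Sys S J) : ∃ R : ℝ, 1 ≤ R ∧ ∀ K q : ℝ, 1 ≤ K → q ≤ K → ∀ z ∈ Z.B q,
    ∃ u : List G, Word S u ∧ (u.length : ℝ) ≤ q ∧
      ∀ j, |(Z.co u.prod j : ℝ) - z j| ≤ R * K ^ (Z.W j - 1) := by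
  classical
  obtain ⟨Cs, hCs, hs⟩ := Z.sum_est
  obtain ⟨Cc, hCc, hc⟩ := coarsen_est (S ∪ S.image (·⁻¹)) (fun s => Z.co s Z.j0) Z.c
    (fun j => Z.W j - 1)
  refine ⟨2 * Cs + Cc + 1, by linarith, fun K q hK hq z hz => ?_⟩
  obtain ⟨m, hm, hz⟩ := hz
  obtain ⟨l, hl, hw, hp⟩ := hz m hm dvd_rfl
  have hm1 : (1 : ℝ) ≤ m := by exact_mod_cast hm
  have hl' : (l.length : ℝ) ≤ m * K := by nlinarith
  obtain ⟨u, hu, hul, hI⟩ := hc m K l hm hK (fun s hs => by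
    convert CUL_mem.2 (hw s hs)) hl'
  have huw : Word S u := fun s hs => CUL_mem.1 (by convert hu s hs)
  have huq : (u.length : ℝ) ≤ q := by
    have h1 : (m : ℝ) * u.length ≤ l.length := by exact_mod_cast hul
    refine le_of_mul_le_mul_left (a := (m : ℝ)) ?_ (by linarith)
    linarith
  refine ⟨u, huw, huq, fun j => ?_⟩
  have h1 := CUL_comb hm1 hK hCs (hs (m * K) (by nlinarith) l hw hl' j) (hI j)
    (hs K hK u huw (huq.trans hq) j)
  have h2 := CUL_floor ((m : ℝ) ^ Z.W j * z j)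
  rw [Nat.sub_add_cancel (Z.W_pos j), hp, Z.co_pt] at h1
  have hM : (1 : ℝ) ≤ (m : ℝ) ^ Z.W j := one_le_pow₀ hm1
  have hKe : (1 : ℝ) ≤ K ^ (Z.W j - 1) := one_le_pow₀ hK
  refine le_of_mul_le_mul_left (a := (m : ℝ) ^ Z.W j) ?_ (by linarith)
  have h3 : (m : ℝ) ^ Z.W j * |(Z.co u.prod j : ℝ) - z j| =
      |(m : ℝ) ^ Z.W j * Z.co u.prod j - (m : ℝ) ^ Z.W j * z j| := by
    rw [← mul_sub, abs_mul, abs_of_nonneg (by linarith : (0 : ℝ) ≤ (m : ℝ) ^ Z.W j)]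
  have h4 := abs_sub_le ((m : ℝ) ^ Z.W j * Z.co u.prod j) ((⌊(m : ℝ) ^ Z.W j * z j⌋ : ℤ) : ℝ)
    ((m : ℝ) ^ Z.W j * z j)
  rw [abs_sub_comm] at h1
  have h5 : (1 : ℝ) ≤ (m : ℝ) ^ Z.W j * K ^ (Z.W j - 1) := one_le_mul_of_one_le_of_one_le hM hKe
  simp only [dil] at h1
  rw [h3]
  nlinarith

theorem Sys.up (Z : Sys S J) : ∃ C : ℝ, 0 ≤ C ∧ ∀ K L : ℝ, 1 ≤ L → L ≤ K → (K / L) ^ Z.p ≤ K →
    ∀ u : List G, Word S u → (u.length : ℝ) ≤ K → (∃ n, L ≤ |(Z.co (u.take n).prod Z.j0 : ℝ)|) →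
    ∀ z : J → ℝ, (∀ j, |(Z.co u.prod j : ℝ) - z j| ≤ 1) →
      z ∈ Z.B (u.length + C * (K / L) ^ Z.p) := by
  classical
  obtain ⟨Cs, hCs, hs⟩ := Z.sum_est
  choose Cj hCj hr using fun j => refine_est (S ∪ S.image (·⁻¹)) (fun s => Z.co s Z.j0)
    (fun s => Z.c s j) (Z.W j - 1)
  have hle : ∀ j, Cj j ≤ ∑ i, Cj i := fun j =>
    Finset.single_le_sum (fun i _ => hCj i) (Finset.mem_univ j)
  have hCr : 0 ≤ ∑ i, Cj i := Finset.sum_nonneg fun i _ => hCj i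
  set R0 : ℝ := 2 * Cs + ∑ i, Cj i + 2 with hR0
  have hR1 : 1 ≤ R0 := by linarith
  obtain ⟨C, hC, hH⟩ := Z.H2 R0
  refine ⟨C * R0, by positivity, fun K L hL hLK hp u hw hu ⟨n, hn⟩ z hz => ⟨1, le_rfl, ?_⟩⟩
  intro m hm _
  have hK : 1 ≤ K := hL.trans hLK
  have hm1 : (1 : ℝ) ≤ m := by exact_mod_cast hm
  have hm0 : (0 : ℝ) < m := by linarith
  set l := u.flatMap (List.replicate m) with hl
  have hlen : (l.length : ℝ) = m * u.length := by rw [hl, CUL_len]; push_cast; rfl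
  have hlK : (l.length : ℝ) ≤ m * K := by rw [hlen]; gcongr
  have hlw : Word S l := by
    intro s hs
    obtain ⟨t, ht, hst⟩ := List.mem_flatMap.1 hs
    rw [List.eq_of_mem_replicate hst]
    exact hw t ht
  have hdiv : m * K / (m * L) = K / L := mul_div_mul_left _ _ hm0.ne'
  obtain ⟨l', h1, h2, -, h3⟩ := hH (m * K) (m * L) (R0 * m) (by nlinarith) (by gcongr)
    (by nlinarith) (by rw [hdiv, mul_assoc]; gcongr) l hlw hlK
    ⟨((u.take n).flatMap (List.replicate m)).length, by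
      have e : l = (u.take n).flatMap (List.replicate m) ++ (u.drop n).flatMap (List.replicate m) := by
        rw [← List.flatMap_append, List.take_append_drop]
      rw [e, List.take_left, CUL_rep]
      push_cast
      rw [abs_mul, abs_of_pos hm0]
      gcongr⟩
    (Z.pt (dil Z.W m z)) (fun j => by
      have a1 := CUL_comb hm1 hK hCs (hs (m * K) (by nlinarith) l hlw hlK j)
        (hr j m K u hm hK (fun s hs => by convert CUL_mem.2 (hw s hs)) hu) (hs K hK u hw hu j)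
      have a2 := CUL_floor ((m : ℝ) ^ Z.W j * z j)
      have e : R0 * m * (m * K) ^ (Z.W j - 1) = R0 * ((m : ℝ) ^ Z.W j * K ^ (Z.W j - 1)) := by
        conv_rhs => rw [← Nat.sub_add_cancel (Z.W_pos j), pow_succ, Nat.add_sub_cancel]
        ring
      rw [Nat.sub_add_cancel (Z.W_pos j), abs_sub_comm] at a1
      rw [e, Z.co_pt]
      simp only [dil]
      have hM : (1 : ℝ) ≤ (m : ℝ) ^ Z.W j := one_le_pow₀ hm1
      have hKe : (1 : ℝ) ≤ K ^ (Z.W j - 1) := one_le_pow₀ hK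
      have a3 : |(m : ℝ) ^ Z.W j * z j - (m : ℝ) ^ Z.W j * Z.co u.prod j| ≤ (m : ℝ) ^ Z.W j := by
        rw [← mul_sub, abs_mul, abs_of_nonneg (by linarith : (0 : ℝ) ≤ (m : ℝ) ^ Z.W j),
          abs_sub_comm]
        exact mul_le_of_le_one_right (by linarith) (hz j)
      have a4 := abs_sub_le ((⌊(m : ℝ) ^ Z.W j * z j⌋ : ℤ) : ℝ) ((m : ℝ) ^ Z.W j * z j)
        (Z.co l.prod j : ℝ)
      have a5 := abs_sub_le ((m : ℝ) ^ Z.W j * z j) ((m : ℝ) ^ Z.W j * Z.co u.prod j)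
        (Z.co l.prod j : ℝ)
      have a6 : (m : ℝ) ^ Z.W j ≤ (m : ℝ) ^ Z.W j * K ^ (Z.W j - 1) :=
        le_mul_of_one_le_right (by linarith) hKe
      have a7 : Cj j * ((m : ℝ) ^ Z.W j * K ^ (Z.W j - 1)) ≤
          (∑ i, Cj i) * ((m : ℝ) ^ Z.W j * K ^ (Z.W j - 1)) :=
        mul_le_mul_of_nonneg_right (hle j) (by linarith)
      rw [hR0]
      nlinarith)
  refine ⟨l', h3.trans_eq ?_, h1, h2⟩
  rw [hdiv, hlen]
  ring

end Pool.Agent.MP_b3b911_al.Fil
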