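import Pool.Agent.MP_b3b911_al.Fil.EDefs

namespace Pool.Agent.MP_b3b911_al.Fil

theorem EBig_a_inv : En.a⁻¹ = ⟨-1, 0, 0, 0⟩ := by decide

theorem EBig_b_inv : En.b⁻¹ = ⟨1, -1, 0, 0⟩ := by decide

theorem EBig_vt_mul : vt * vt = 1 := by
  refine SemidirectProduct.ext ?_ ?_
  · simp [vt]
  · simp [vt]

theorem EBig_vt_inv : vt⁻¹ = vt := inv_eq_of_mul_eq_one_right EBig_vt_mul

theorem EBig_tri_zero : tri 0 = 0 := by decide

theorem EBig_tet_succ (m : ℤ) : tet (m + 1) = tet m + tri m := by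
  have h1 := six_tet (m + 1); have h2 := six_tet m; have h3 := two_tri m
  have : 6 * tet (m + 1) = 6 * (tet m + tri m) := by linear_combination h1 - h2 - 3 * h3
  omega

theorem EBig_zpow (f : ℤ → En) (h0 : f 0 = 1) (hadd : ∀ y, f (y + 1) = f y * f 1) (y : ℤ) :
    f 1 ^ y = f y := by
  induction y using Int.induction_on with
  | zero => simp [h0]
  | succ n ih => rw [zpow_add_one, ih, hadd]
  | pred n ih =>
    rw [zpow_sub_one, ih]
    have := hadd (-(n : ℤ) - 1)
    rw [sub_add_cancel] at this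
    rw [this, mul_inv_cancel_right]

theorem EBig_nu_zpow (y : ℤ) : (⟨0, 1, 0, 0⟩ : En) ^ y = ⟨0, y, 0, 0⟩ :=
  EBig_zpow (fun y => ⟨0, y, 0, 0⟩) rfl
    (fun y => En.ext (by simp) (by simp) (by simp) (by simp [EBig_tri_zero])) y

theorem EBig_mu_zpow (y : ℤ) : (⟨0, 0, 1, 0⟩ : En) ^ y = ⟨0, 0, y, 0⟩ :=
  EBig_zpow (fun y => ⟨0, 0, y, 0⟩) rfl
    (fun y => En.ext (by simp) (by simp) (by simp) (by simp)) y

theorem EBig_ka_zpow (y : ℤ) : (⟨0, 0, 0, 1⟩ : En) ^ y = ⟨0, 0, 0, y⟩ :=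
  EBig_zpow (fun y => ⟨0, 0, 0, y⟩) rfl
    (fun y => En.ext (by simp) (by simp) (by simp) (by simp)) y

theorem EBig_binv_pow (m : ℕ) :
    (En.b⁻¹) ^ m = ⟨m, -m, -tri m, -tet m⟩ := by
  induction m with
  | zero => exact En.ext (by simp) (by simp) (by simp [tri]) (by simp [tet])
  | succ m ih =>
    rw [pow_succ, ih, EBig_b_inv]
    refine En.ext (by simp) (by simp; ring) ?_ ?_
    · have := tri_add m 1
      have h1 : tri 1 = 0 := by decide
      simp only [En.mul_q]; push_cast; rw [this, h1]; ring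
    · simp only [En.mul_r]; push_cast; rw [EBig_tet_succ]; ring

theorem EBig_word_append {G : Type*} [Group G] {S : Finset G} {l m : List G} :
    Word S (l ++ m) ↔ Word S l ∧ Word S m := by
  simp only [Word, List.mem_append]
  exact ⟨fun h => ⟨fun x hx => h x (Or.inl hx), fun x hx => h x (Or.inr hx)⟩,
    fun h x hx => hx.elim (h.1 x) (h.2 x)⟩

/-- a coordinate that moves by at most one at each letter -/
theorem EBig_move {G : Type*} [Group G] {S : Finset G} (φ : G → ℤ) (h1 : φ 1 = 0)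
    (hs : ∀ g s, (s ∈ S ∨ s⁻¹ ∈ S) → |φ (g * s) - φ g| ≤ 1) (g : G) {l : List G}
    (h : Word S l) : |φ (g * l.prod) - φ g| ≤ l.length := by
  induction l using List.reverseRecOn with
  | nil => simp
  | append_singleton l s ih =>
    have hw := EBig_word_append.1 h
    have h2 := hs (g * l.prod) s (hw.2 s (by simp))
    have h3 := ih hw.1
    simp only [List.prod_append, List.prod_cons, List.prod_nil, mul_one, List.length_append,
      List.length_singleton]
    rw [← mul_assoc]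
    push_cast
    rw [abs_le] at *
    constructor <;> linarith [h2.1, h2.2, h3.1, h3.2]

theorem EBig_range {G : Type*} [Group G] {S : Finset G} (φ : G → ℤ) (h1 : φ 1 = 0)
    (hs : ∀ g s, (s ∈ S ∨ s⁻¹ ∈ S) → |φ (g * s) - φ g| ≤ 1) {l : List G}
    (h : Word S l) (n : ℕ) :
    φ l.prod - l.length ≤ 2 * φ (l.take n).prod ∧ φ (l.take n).prod ≤ l.length := by
  have hl : l = l.take n ++ l.drop n := (List.take_append_drop n l).symm
  have hw : Word S (l.take n) ∧ Word S (l.drop n) := EBig_word_append.1 (hl ▸ h)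
  have h2 := EBig_move φ h1 hs 1 hw.1
  have h3 := EBig_move φ h1 hs (l.take n).prod hw.2
  have h4 : (l.take n).prod * (l.drop n).prod = l.prod := by
    rw [← List.prod_append, List.take_append_drop]
  have h5 : ((l.take n).length : ℤ) + (l.drop n).length = l.length := by
    have : (l.take n).length + (l.drop n).length = l.length := by
      rw [← List.length_append, List.take_append_drop]
    exact_mod_cast this
  rw [h4] at h3
  rw [one_mul, h1, sub_zero] at h2
  rw [abs_le] at h2 h3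
  have h6 : (0 : ℤ) ≤ (l.drop n).length := Int.natCast_nonneg _
  constructor <;> linarith [h2.1, h2.2, h3.1, h3.2]

theorem word_SE {s : En} : (s ∈ SE ∨ s⁻¹ ∈ SE) ↔
    s = En.a ∨ s = En.a⁻¹ ∨ s = En.b ∨ s = En.b⁻¹ := by
  simp only [SE, Finset.mem_insert, Finset.mem_singleton, inv_eq_iff_eq_inv]
  tauto

theorem word_SV {s : VE} : (s ∈ SV ∨ s⁻¹ ∈ SV) ↔ s = va ∨ s = va⁻¹ ∨ s = vt := by
  simp only [SV, Finset.mem_insert, Finset.mem_singleton, inv_eq_iff_eq_inv, EBig_vt_inv]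
  tauto

theorem a_zpow (y : ℤ) : En.a ^ y = ⟨y, 0, 0, 0⟩ :=
  EBig_zpow (fun y => ⟨y, 0, 0, 0⟩) rfl
    (fun y => En.ext (by simp) (by simp) (by simp) (by simp)) y

theorem ebig {l : List En} (h : Word SE l) : |l.prod.x| ≤ l.length ∧ |l.prod.p| ≤ l.length ∧
    |l.prod.q| ≤ (l.length : ℤ) ^ 2 ∧ |l.prod.r| ≤ (l.length : ℤ) ^ 3 := by
  induction l using List.reverseRecOn with
  | nil => simp
  | append_singleton l s ih =>
    have hw := EBig_word_append.1 h
    obtain ⟨hx, hp, hq, hr⟩ := ih hw.1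
    have hs := word_SE.1 (hw.2 s (by simp))
    simp only [List.prod_append, List.prod_cons, List.prod_nil, mul_one, List.length_append,
      List.length_singleton]
    push_cast
    generalize l.prod = g at *
    have hn : (0 : ℤ) ≤ l.length := Int.natCast_nonneg _
    generalize (l.length : ℤ) = n at *
    have ht := two_tri g.x
    rw [abs_le] at hx hp hq hr
    have hxx : g.x * g.x ≤ n * n := by nlinarith [hx.1, hx.2]
    have ht0 : 0 ≤ g.x * (g.x - 1) := by
      rcases le_or_gt g.x 0 with h0 | h0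
      · exact mul_nonneg_of_nonpos_of_nonpos h0 (by linarith)
      · exact mul_nonneg h0.le (by linarith)
    have ht1 : 0 ≤ (g.x - 1) * (g.x - 2) := by
      rcases le_or_gt g.x 1 with h0 | h0
      · exact mul_nonneg_of_nonpos_of_nonpos (by linarith) (by linarith)
      · exact mul_nonneg (by linarith) (by linarith)
    have hn2 : 0 ≤ n * n := mul_nonneg hn hn
    have e2 : (n + 1) ^ 2 = n ^ 2 + 2 * n + 1 := by ring
    have e3 : (n + 1) ^ 3 = n ^ 3 + 3 * (n * n) + 3 * n + 1 := by ring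
    rw [e2, e3]
    simp only [abs_le, En.mul_x, En.mul_p, En.mul_q, En.mul_r]
    rcases hs with rfl | rfl | rfl | rfl
    · simp only [En.a]
      refine ⟨⟨?_, ?_⟩, ⟨?_, ?_⟩, ⟨?_, ?_⟩, ⟨?_, ?_⟩⟩ <;>
        linarith [hx.1, hx.2, hp.1, hp.2, hq.1, hq.2, hr.1, hr.2]
    · rw [EBig_a_inv]
      refine ⟨⟨?_, ?_⟩, ⟨?_, ?_⟩, ⟨?_, ?_⟩, ⟨?_, ?_⟩⟩ <;>
        simp only [] <;> linarith [hx.1, hx.2, hp.1, hp.2, hq.1, hq.2, hr.1, hr.2]
    · simp only [En.b]
      refine ⟨⟨?_, ?_⟩, ⟨?_, ?_⟩, ⟨?_, ?_⟩, ⟨?_, ?_⟩⟩ <;>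
        nlinarith [hx.1, hx.2, hp.1, hp.2, hq.1, hq.2, hr.1, hr.2]
    · rw [EBig_b_inv]
      refine ⟨⟨?_, ?_⟩, ⟨?_, ?_⟩, ⟨?_, ?_⟩, ⟨?_, ?_⟩⟩ <;>
        simp only [] <;> nlinarith [hx.1, hx.2, hp.1, hp.2, hq.1, hq.2, hr.1, hr.2]

theorem closure_SE : Subgroup.closure (SE : Set En) = ⊤ := by
  rw [eq_top_iff]
  intro g _
  set H := Subgroup.closure (SE : Set En)
  have ha : En.a ∈ H := Subgroup.subset_closure (by simp [SE])
  have hb : En.b ∈ H := Subgroup.subset_closure (by simp [SE])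
  have e1 : En.a * En.b = ⟨0, 1, 0, 0⟩ := by decide
  have e2 : En.a * (⟨0, 1, 0, 0⟩ : En) * En.a⁻¹ * (⟨0, 1, 0, 0⟩ : En)⁻¹ = ⟨0, 0, 1, 0⟩ := by decide
  have e3 : En.a * (⟨0, 0, 1, 0⟩ : En) * En.a⁻¹ * (⟨0, 0, 1, 0⟩ : En)⁻¹ = ⟨0, 0, 0, 1⟩ := by decide
  have hnu : (⟨0, 1, 0, 0⟩ : En) ∈ H := e1 ▸ H.mul_mem ha hb
  have hmu : (⟨0, 0, 1, 0⟩ : En) ∈ H :=
    e2 ▸ H.mul_mem (H.mul_mem (H.mul_mem ha hnu) (H.inv_mem ha)) (H.inv_mem hnu)
  have hka : (⟨0, 0, 0, 1⟩ : En) ∈ H :=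
    e3 ▸ H.mul_mem (H.mul_mem (H.mul_mem ha hmu) (H.inv_mem ha)) (H.inv_mem hmu)
  have hg : g = (⟨0, 1, 0, 0⟩ : En) ^ g.p * (⟨0, 0, 1, 0⟩ : En) ^ g.q *
      (⟨0, 0, 0, 1⟩ : En) ^ g.r * En.a ^ g.x := by
    rw [EBig_nu_zpow, EBig_mu_zpow, EBig_ka_zpow, a_zpow]
    exact En.ext (by simp) (by simp) (by simp) (by simp)
  rw [hg]
  exact H.mul_mem (H.mul_mem (H.mul_mem (H.zpow_mem hnu _) (H.zpow_mem hmu _))
    (H.zpow_mem hka _)) (H.zpow_mem ha _)

theorem range_E {l : List En} (h : Word SE l) (n : ℕ) :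
    l.prod.x - l.length ≤ 2 * (l.take n).prod.x ∧ (l.take n).prod.x ≤ l.length := by
  refine EBig_range (S := SE) (fun g : En => g.x) rfl ?_ h n
  intro g s hs
  rcases word_SE.1 hs with rfl | rfl | rfl | rfl <;> simp [En.a, En.b]

theorem range_V {l : List VE} (h : Word SV l) (n : ℕ) :
    l.prod.left.x - l.length ≤ 2 * (l.take n).prod.left.x ∧
      (l.take n).prod.left.x ≤ l.length := by
  refine EBig_range (S := SV) (fun g : VE => g.left.x) rfl ?_ h n
  intro g s hs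
  have key : |s.left.x| ≤ 1 := by
    rcases word_SV.1 hs with rfl | rfl | rfl
    · simp [va, En.a]
    · simp [va, En.a]
    · simp [vt]
  simp only [SemidirectProduct.mul_left, En.mul_x, add_sub_cancel_left]
  rcases Int.units_eq_one_or g.right with h1 | h1 <;> rw [h1]
  · rw [En.act_one]; exact key
  · rw [En.act_neg]; simpa [En.fl] using key

theorem word_elt {h k n s x₀ x₁ i j : ℕ} (hP : Par h k n s x₀ x₁ i j) :
    ∃ l : List En, Word SE l ∧ l.length = n ∧ l.prod = elt n s x₀ x₁ 0 0 := by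
  have h1 := hP.n_ge; have h2 := hP.s_lt; have h3 := hP.x₀_lt; have h4 := hP.x₀_ge
  have h5 := hP.x₁_lt
  have hx : x₁ ≤ x₀ := by omega
  have hn : 2 * s + x₀ ≤ n := by omega
  obtain ⟨u, hu⟩ := Nat.exists_eq_add_of_le hx
  obtain ⟨v, hv⟩ := Nat.exists_eq_add_of_le hn
  have e1 : En.a * En.b = ⟨0, 1, 0, 0⟩ := by decide
  have hflat : ∀ m : ℕ, Word SE (List.replicate m [En.a, En.b]).flatten ∧
      (List.replicate m [En.a, En.b]).flatten.length = 2 * m ∧
      (List.replicate m [En.a, En.b]).flatten.prod = (En.a * En.b) ^ m := by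
    intro m
    induction m with
    | zero => simp [Word]
    | succ m ih =>
      rw [List.replicate_succ, List.flatten_cons]
      refine ⟨EBig_word_append.2 ⟨?_, ih.1⟩, ?_, ?_⟩
      · intro x hx
        rw [word_SE]
        simp only [List.mem_cons, List.not_mem_nil, or_false] at hx
        tauto
      · rw [List.length_append, ih.2.1]; simp; ring
      · rw [List.prod_append, ih.2.2, pow_succ']; simp
  have hrep : ∀ (m : ℕ) (c : En), (c ∈ SE ∨ c⁻¹ ∈ SE) → Word SE (List.replicate m c) := by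
    intro m c hc x hx
    rw [List.eq_of_mem_replicate hx]; exact hc
  refine ⟨List.replicate x₁ En.b⁻¹ ++ List.replicate u En.a ++
    (List.replicate s [En.a, En.b]).flatten ++ List.replicate v En.a, ?_, ?_, ?_⟩
  · refine EBig_word_append.2 ⟨EBig_word_append.2 ⟨EBig_word_append.2 ⟨?_, ?_⟩, (hflat s).1⟩, ?_⟩
    · exact hrep _ _ (word_SE.2 (by simp))
    · exact hrep _ _ (word_SE.2 (by simp))
    · exact hrep _ _ (word_SE.2 (by simp))
  · simp only [List.length_append, List.length_replicate, (hflat s).2.1]; omega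
  · simp only [List.prod_append, List.prod_replicate, (hflat s).2.2, e1]
    rw [EBig_binv_pow, ← zpow_natCast, ← zpow_natCast, ← zpow_natCast, a_zpow, a_zpow,
      EBig_nu_zpow]
    have hu' : (x₀ : ℤ) = x₁ + u := by exact_mod_cast hu
    have hv' : (n : ℤ) = 2 * s + x₀ + v := by exact_mod_cast hv
    refine En.ext ?_ ?_ ?_ ?_
    · simp only [elt, En.mul_x]; linarith
    · simp only [elt, En.mul_p]; ring
    · simp only [elt, En.mul_q, En.mul_x, En.mul_p]; rw [hu']; push_cast; ring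
    · simp only [elt, En.mul_r, En.mul_q, En.mul_x, En.mul_p]; rw [hu']; push_cast; ring

end Pool.Agent.MP_b3b911_al.Fil
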