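import Pool.Agent.MP_b3b911_al.Fil.EBig

namespace Pool.Agent.MP_b3b911_al.Fil

theorem EBlock_split {l : List En} (h : Word SE l) : ∃ (β : List En) (n n' : ℕ),
    (β ++ (List.replicate n En.a ++ List.replicate n' En.a⁻¹)).Perm l ∧
    (∀ s ∈ β, ty s = -1 ∧ |s.p| ≤ 1) ∧ l.prod.p = β.prod.p ∧
    ∀ m M : ℤ, (∀ t, m ≤ (β.drop t).prod.p ∧ (β.drop t).prod.p ≤ M) →
      n * m - n' * M ≤ l.prod.q - β.prod.q ∧ l.prod.q - β.prod.q ≤ n * M - n' * m := by
  induction l with
  | nil => exact ⟨[], 0, 0, by simp, by simp, rfl, by simp⟩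
  | cons s l ih =>
    obtain ⟨β, n, n', h1, h2, h3, h4⟩ := ih fun x hx => h x (List.mem_cons_of_mem _ hx)
    have hb : ∀ s : En, ty s = -1 → |s.p| ≤ 1 → ∃ (β : List En) (n n' : ℕ),
        (β ++ (List.replicate n En.a ++ List.replicate n' En.a⁻¹)).Perm (s :: l) ∧
        (∀ s ∈ β, ty s = -1 ∧ |s.p| ≤ 1) ∧ (s :: l).prod.p = β.prod.p ∧
        ∀ m M : ℤ, (∀ t, m ≤ (β.drop t).prod.p ∧ (β.drop t).prod.p ≤ M) →
          n * m - n' * M ≤ (s :: l).prod.q - β.prod.q ∧
            (s :: l).prod.q - β.prod.q ≤ n * M - n' * m := by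
      intro s e1 e2
      refine ⟨s :: β, n, n', h1.cons s, ?_, by simp [h3], fun m M hm => ?_⟩
      · intro x hx
        rcases List.mem_cons.1 hx with rfl | hx
        · exact ⟨e1, e2⟩
        · exact h2 x hx
      · have h5 := h4 m M fun t => hm (t + 1)
        simp only [List.prod_cons, En.mul_q, h3]
        constructor <;> linarith [h5.1, h5.2]
    rcases word_SE.1 (h s List.mem_cons_self) with rfl | rfl | rfl | rfl
    · refine ⟨β, n + 1, n', ?_, h2, by simp [h3, En.a], fun m M hm => ?_⟩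
      · rw [List.replicate_succ, List.cons_append]
        exact List.perm_middle.trans (h1.cons _)
      · have h5 := h4 m M hm
        have h6 := hm 0
        simp only [List.drop_zero] at h6
        simp only [List.prod_cons, En.mul_q, h3, En.a]
        push_cast
        constructor <;> linarith [h5.1, h5.2, h6.1, h6.2]
    · refine ⟨β, n, n' + 1, ?_, h2, by simp [h3, En.a], fun m M hm => ?_⟩
      · rw [List.replicate_succ, ← List.append_assoc]
        refine List.perm_middle.trans (List.Perm.cons _ ?_)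
        rwa [List.append_assoc]
      · have h5 := h4 m M hm
        have h6 := hm 0
        simp only [List.drop_zero] at h6
        simp only [List.prod_cons, En.mul_q, h3, EBig_a_inv]
        push_cast
        constructor <;> linarith [h5.1, h5.2, h6.1, h6.2]
    · exact hb _ (by decide) (by decide)
    · exact hb _ (by decide) (by decide)

theorem EBlock_len {β : List En} (h : ∀ s ∈ β, |s.p| ≤ 1) : |β.prod.p| ≤ β.length := by
  induction β with
  | nil => simp
  | cons s l ih =>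
    have h1 := ih fun x hx => h x (List.mem_cons_of_mem _ hx)
    have h2 := h s List.mem_cons_self
    rw [List.prod_cons, En.mul_p, List.length_cons]
    push_cast
    linarith [abs_add_le s.p l.prod.p]

theorem EBlock_cut (β : List En) {t t' : ℕ} (h : t ≤ t') : ∃ b₁ b₂ b₃ : List En,
    β = b₁ ++ b₂ ++ b₃ ∧ β.drop t = b₂ ++ b₃ ∧ β.drop t' = b₃ := by
  obtain ⟨u, rfl⟩ := Nat.exists_eq_add_of_le h
  refine ⟨β.take t, (β.drop t).take u, β.drop (t + u), ?_, ?_, rfl⟩
  · rw [List.append_assoc, ← List.drop_drop, List.take_append_drop, List.take_append_drop]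
  · rw [← List.drop_drop, List.take_append_drop]

theorem EBlock_near (δ : ℤ) (hδ : 0 ≤ δ) (n : ℕ) (E : ℤ) (h0 : 0 ≤ E) (h1 : E ≤ n * δ) :
    ∃ N ≤ n, |(N : ℤ) * δ - E| ≤ δ := by
  induction n with
  | zero => exact ⟨0, le_rfl, abs_le.2 ⟨by simp at h1 ⊢; linarith, by simp; linarith⟩⟩
  | succ n ih =>
    by_cases h : E ≤ n * δ
    · obtain ⟨N, h2, h3⟩ := ih h
      exact ⟨N, by omega, h3⟩
    · push_cast at h1
      exact ⟨n, by omega, abs_le.2 ⟨by linarith, by linarith⟩⟩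

theorem EBlock_arith {m M D : ℤ} (h : m ≤ M) (n n' : ℕ) (h1 : n * m - n' * M ≤ D)
    (h2 : D ≤ n * M - n' * m) : ∃ i i' j j' : ℕ, n = i + i' ∧ n' = j + j' ∧
      |((i : ℤ) - j) * M + ((i' : ℤ) - j') * m - D| ≤ M - m := by
  obtain ⟨N, h3, h4⟩ := EBlock_near (M - m) (by linarith) (n + n') (D - (n * m - n' * M))
    (by linarith) (by push_cast; linarith)
  obtain ⟨i, i', j, j', rfl, rfl, rfl⟩ : ∃ i i' j j' : ℕ, n = i + i' ∧ n' = j + j' ∧ N = i + j' :=
    ⟨min N n, n - min N n, n' - (N - min N n), N - min N n, by omega, by omega, by omega⟩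
  refine ⟨i, i', j, j', rfl, rfl, ?_⟩
  convert h4 using 2
  push_cast
  ring

theorem EBlock_rep (i j : ℕ) :
    (List.replicate i En.a ++ List.replicate j En.a⁻¹).prod = ⟨(i : ℤ) - j, 0, 0, 0⟩ := by
  rw [List.prod_append, List.prod_replicate, List.prod_replicate, inv_pow, ← zpow_natCast,
    ← zpow_natCast, ← zpow_sub, a_zpow]

theorem EBlock_ty (i j : ℕ) : ∀ s ∈ List.replicate i En.a ++ List.replicate j En.a⁻¹, ty s = 1 := by
  intro s hs
  rcases List.mem_append.1 hs with h | h <;> rw [List.eq_of_mem_replicate h] <;> decide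

theorem EBlock_fin {l b₁ b₂ b₃ : List En} {i i' j j' : ℕ}
    (h1 : (b₁ ++ b₂ ++ b₃ ++ (List.replicate (i + i') En.a ++
      List.replicate (j + j') En.a⁻¹)).Perm l)
    (h2 : ∀ s ∈ b₁ ++ b₂ ++ b₃, ty s = -1 ∧ |s.p| ≤ 1)
    (h3 : |((i : ℤ) - j) * (b₂ ++ b₃).prod.p + ((i' : ℤ) - j') * b₃.prod.p -
      (l.prod.q - (b₁ ++ b₂ ++ b₃).prod.q)| ≤ |b₂.prod.p|) :
    ∃ l₁ l₂ l₃ l₄ l₅ : List En,
    (l₁ ++ l₂ ++ l₃ ++ l₄ ++ l₅).Perm l ∧ (∀ s ∈ l₁, ty s = -1) ∧ (∀ s ∈ l₂, ty s = 1) ∧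
    (∀ s ∈ l₃, ty s = -1) ∧ (∀ s ∈ l₄, ty s = 1) ∧ (∀ s ∈ l₅, ty s = -1) ∧
    |(l₁ ++ l₂ ++ l₃ ++ l₄ ++ l₅).prod.q - l.prod.q| ≤ l.length := by
  refine ⟨b₁, List.replicate i En.a ++ List.replicate j En.a⁻¹, b₂,
    List.replicate i' En.a ++ List.replicate j' En.a⁻¹, b₃, List.Perm.trans ?_ h1,
    fun s hs => (h2 s (by simp [hs])).1, EBlock_ty i j, fun s hs => (h2 s (by simp [hs])).1,
    EBlock_ty i' j', fun s hs => (h2 s (by simp [hs])).1, ?_⟩
  · rw [List.perm_iff_count]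
    intro s
    simp only [List.count_append, List.replicate_add]
    omega
  · have h4 := EBlock_len (β := b₂) fun s hs => (h2 s (by simp [hs])).2
    have h5 : b₂.length ≤ l.length := by
      rw [← h1.length_eq]
      simp only [List.length_append]
      omega
    have h6 : (b₂.length : ℤ) ≤ l.length := by exact_mod_cast h5
    refine le_trans (le_of_eq ?_) (h3.trans (h4.trans h6))
    congr 1
    rw [List.prod_append, List.prod_append, List.prod_append, List.prod_append, EBlock_rep,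
      EBlock_rep]
    simp only [List.prod_append, En.mul_q, En.mul_x, En.mul_p]
    ring

/-- one block: five pieces of constant type, the same letters, almost the same area -/
theorem eblock {l : List En} (h : Word SE l) : ∃ l₁ l₂ l₃ l₄ l₅ : List En,
    (l₁ ++ l₂ ++ l₃ ++ l₄ ++ l₅).Perm l ∧ (∀ s ∈ l₁, ty s = -1) ∧ (∀ s ∈ l₂, ty s = 1) ∧
    (∀ s ∈ l₃, ty s = -1) ∧ (∀ s ∈ l₄, ty s = 1) ∧ (∀ s ∈ l₅, ty s = -1) ∧
    |(l₁ ++ l₂ ++ l₃ ++ l₄ ++ l₅).prod.q - l.prod.q| ≤ l.length := by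
  obtain ⟨β, n, n', h1, h2, -, h4⟩ := EBlock_split h
  have hne : (Finset.range (β.length + 1)).Nonempty := by simp
  obtain ⟨t, -, ht⟩ := Finset.exists_min_image _ (fun t => (β.drop t).prod.p) hne
  obtain ⟨T, -, hT⟩ := Finset.exists_max_image _ (fun t => (β.drop t).prod.p) hne
  have hb : ∀ u, (β.drop t).prod.p ≤ (β.drop u).prod.p ∧ (β.drop u).prod.p ≤ (β.drop T).prod.p := by
    intro u
    have e : β.drop u = β.drop (min u β.length) := by
      rcases le_total u β.length with h | h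
      · rw [min_eq_left h]
      · rw [min_eq_right h, List.drop_eq_nil_of_le h, List.drop_length]
    have hm : min u β.length ∈ Finset.range (β.length + 1) := Finset.mem_range.2 (by omega)
    rw [e]
    exact ⟨ht _ hm, hT _ hm⟩
  obtain ⟨h5, h6⟩ := h4 _ _ hb
  obtain ⟨i, i', j, j', rfl, rfl, h7⟩ := EBlock_arith (hb t).2 n n' h5 h6
  rcases le_total t T with h8 | h8
  · obtain ⟨b₁, b₂, b₃, e, e1, e2⟩ := EBlock_cut β h8
    rw [e1, e2] at h7
    rw [e, add_comm i, add_comm j] at h1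
    rw [e] at h2 h7
    refine EBlock_fin h1 h2 ?_
    rw [add_comm]
    refine h7.trans ?_
    rw [List.prod_append, En.mul_p]
    linarith [neg_le_abs b₂.prod.p]
  · obtain ⟨b₁, b₂, b₃, e, e1, e2⟩ := EBlock_cut β h8
    rw [e1, e2] at h7
    rw [e] at h1 h2 h7
    refine EBlock_fin h1 h2 (h7.trans ?_)
    rw [List.prod_append, En.mul_p]
    linarith [le_abs_self b₂.prod.p]

end Pool.Agent.MP_b3b911_al.Fil
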