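import Pool.Agent.MP_b3b911_al.Fil.EBig

namespace Pool.Agent.MP_b3b911_al.Fil

/-- the calibrating quadratic function -/
noncomputable def Qf (x₀ x₁ y : ℤ) : ℝ := ((x₀ : ℝ) - x₁) ^ 2 - ((y : ℝ) - x₀) ^ 2

/-- its negative part to the left of `x₁` -/
noncomputable def Qm (x₀ x₁ y : ℤ) : ℝ := if y < x₁ then -Qf x₀ x₁ y else 0

/-- the calibrating linear form -/
noncomputable def Lam (x₀ x₁ : ℤ) (g : En) : ℝ :=
  (((x₀ : ℝ) - x₁) ^ 2 - (x₀ : ℝ) ^ 2) * g.p + (2 * (x₀ : ℝ) - 1) * g.q - 2 * g.r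

/-- the calibration -/
noncomputable def Phi (x₀ x₁ : ℤ) (g : En) : ℝ :=
  g.x + 2 * (Lam x₀ x₁ g - ∑ y ∈ Finset.Ico g.x x₁, Qf x₀ x₁ y + ∑ y ∈ Finset.Ico 0 x₁, Qf x₀ x₁ y) /
    ((x₀ : ℝ) - x₁) ^ 2

theorem ECal_sum (x₀ x₁ y : ℤ) : ∑ z ∈ Finset.Ico (y + 1) x₁, Qf x₀ x₁ z =
    ∑ z ∈ Finset.Ico y x₁, Qf x₀ x₁ z + Qm x₀ x₁ y := by
  unfold Qm
  split_ifs with h
  · have e : Finset.Ico y x₁ = insert y (Finset.Ico (y + 1) x₁) := by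
      ext z
      simp only [Finset.mem_Ico, Finset.mem_insert]
      omega
    rw [e, Finset.sum_insert (by simp)]
    ring
  · rw [Finset.Ico_eq_empty (by omega), Finset.Ico_eq_empty (by omega)]
    simp

theorem ECal_sum0 (x₀ x₁ : ℤ) (m : ℕ) : ∑ z ∈ Finset.Ico (0 : ℤ) m, Qf x₀ x₁ z =
    (((x₀ : ℝ) - x₁) ^ 2 - (x₀ : ℝ) ^ 2) * m + (2 * (x₀ : ℝ) - 1) * tri m - 2 * tet m := by
  induction m with
  | zero => simp [tri, tet]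
  | succ m ih =>
    have e : Finset.Ico (0 : ℤ) ((m + 1 : ℕ) : ℤ) = insert (m : ℤ) (Finset.Ico (0 : ℤ) m) := by
      ext z
      simp only [Finset.mem_Ico, Finset.mem_insert]
      omega
    rw [e, Finset.sum_insert (by simp), ih]
    simp only [Qf, tri_cast, tet_cast]
    push_cast
    ring

theorem ECal_ineq {h x₀ x₁ : ℕ} (hh : 1 ≤ h) (h1 : 87 * h ≤ x₀) (h2 : x₀ < 88 * h)
    (h4 : x₁ < 2 * h) (y : ℤ) :
    0 ≤ Qm x₀ x₁ y ∧ (-6 * (h : ℤ) - 1 ≤ y → Qm x₀ x₁ y ≤ (((x₀ : ℤ) : ℝ) - (x₁ : ℤ)) ^ 2) ∧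
    Qf x₀ x₁ y + Qm x₀ x₁ y ≤ (((x₀ : ℤ) : ℝ) - (x₁ : ℤ)) ^ 2 ∧
    (y ≤ 101 * (h : ℤ) → 0 ≤ Qf x₀ x₁ y + Qm x₀ x₁ y) := by
  have a0 : (1 : ℝ) ≤ h := by exact_mod_cast hh
  have a1 : 87 * (h : ℝ) ≤ x₀ := by exact_mod_cast h1
  have a2 : (x₀ : ℝ) + 1 ≤ 88 * h := by exact_mod_cast h2
  have a4 : (x₁ : ℝ) ≤ 2 * h := by exact_mod_cast h4.le
  unfold Qm Qf
  simp only [Int.cast_natCast]
  split_ifs with hy
  · have b1 : (y : ℝ) ≤ x₁ := by exact_mod_cast hy.le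
    refine ⟨by nlinarith, fun hy' => ?_, by nlinarith [sq_nonneg ((x₀ : ℝ) - x₁)], fun _ => by simp⟩
    have b2 : -6 * (h : ℝ) - 1 ≤ y := by exact_mod_cast hy'
    have c1 : ((y : ℝ) - x₀) ^ 2 ≤ (94 * h) ^ 2 := by
      apply sq_le_sq' <;> linarith
    have c2 : (85 * (h : ℝ)) ^ 2 ≤ ((x₀ : ℝ) - x₁) ^ 2 := by
      apply sq_le_sq' <;> linarith
    nlinarith
  · have b1 : (x₁ : ℝ) ≤ y := by exact_mod_cast not_lt.1 hy
    refine ⟨le_rfl, fun _ => sq_nonneg _, by nlinarith [sq_nonneg ((y : ℝ) - x₀)], fun hy' => ?_⟩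
    have b2 : (y : ℝ) ≤ 101 * h := by exact_mod_cast hy'
    have c1 : ((y : ℝ) - x₀) ^ 2 ≤ ((x₀ : ℝ) - x₁) ^ 2 := by
      apply sq_le_sq' <;> linarith
    linarith

theorem phi_one (x₀ x₁ : ℤ) : Phi x₀ x₁ 1 = 0 := by
  simp [Phi, Lam]

theorem phi_a (x₀ x₁ : ℤ) (g : En) : Phi x₀ x₁ (g * En.a) =
    Phi x₀ x₁ g + 1 - 2 * Qm x₀ x₁ g.x / ((x₀ : ℝ) - x₁) ^ 2 := by
  simp only [Phi, Lam, En.mul_x, En.mul_p, En.mul_q, En.mul_r, En.a, ECal_sum]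
  push_cast
  ring

theorem phi_a_inv (x₀ x₁ : ℤ) (g : En) : Phi x₀ x₁ (g * En.a⁻¹) =
    Phi x₀ x₁ g - 1 + 2 * Qm x₀ x₁ (g.x - 1) / ((x₀ : ℝ) - x₁) ^ 2 := by
  have h := phi_a x₀ x₁ (g * En.a⁻¹)
  have e : (g * En.a⁻¹).x = g.x - 1 := by simp [En.a, sub_eq_add_neg]
  rw [inv_mul_cancel_right, e] at h
  linarith

theorem phi_b (x₀ x₁ : ℤ) (g : En) : Phi x₀ x₁ (g * En.b) =
    Phi x₀ x₁ g - 1 + 2 * (Qf x₀ x₁ (g.x - 1) + Qm x₀ x₁ (g.x - 1)) / ((x₀ : ℝ) - x₁) ^ 2 := by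
  have h := ECal_sum x₀ x₁ (g.x - 1)
  rw [sub_add_cancel] at h
  have e : (g * En.b).x = g.x - 1 := by simp [En.b, sub_eq_add_neg]
  unfold Phi
  rw [e, h]
  simp only [Lam, Qf, En.mul_p, En.mul_q, En.mul_r, En.b]
  push_cast
  rw [tri_cast]
  ring

theorem phi_b_inv (x₀ x₁ : ℤ) (g : En) : Phi x₀ x₁ (g * En.b⁻¹) =
    Phi x₀ x₁ g + 1 - 2 * (Qf x₀ x₁ g.x + Qm x₀ x₁ g.x) / ((x₀ : ℝ) - x₁) ^ 2 := by
  have h := phi_b x₀ x₁ (g * En.b⁻¹)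
  have e : (g * En.b⁻¹).x - 1 = g.x := by simp [En.b]
  rw [inv_mul_cancel_right, e] at h
  linarith

theorem phi_elt {h k n s x₀ x₁ i j : ℕ} (hP : Par h k n s x₀ x₁ i j) :
    (n : ℝ) - 1 ≤ Phi x₀ x₁ (elt n s x₀ x₁ i j) := by
  obtain ⟨p1, p2, p3, p4, p5, p6, p7, p8, p9, p10, p11⟩ := hP
  have e : Finset.Ico (elt n s x₀ x₁ i j).x (x₁ : ℤ) = ∅ :=
    Finset.Ico_eq_empty (by simp only [elt]; omega)
  have a0 : (1 : ℝ) ≤ h := by exact_mod_cast (by omega : 1 ≤ h)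
  have a1 : 87 * (h : ℝ) ≤ x₀ := by exact_mod_cast p6
  have a4 : (x₁ : ℝ) ≤ 2 * h := by exact_mod_cast p9.le
  have a5 : (j : ℝ) ≤ (h : ℝ) ^ 2 := by exact_mod_cast p11.le
  have a6 : (0 : ℝ) ≤ i := Nat.cast_nonneg i
  have c2 : (85 * (h : ℝ)) ^ 2 ≤ ((x₀ : ℝ) - x₁) ^ 2 := by
    apply sq_le_sq' <;> linarith
  have c3 : (0 : ℝ) < ((x₀ : ℝ) - x₁) ^ 2 := by nlinarith
  have key : Phi x₀ x₁ (elt n s x₀ x₁ i j) =
      n + 2 * ((2 * (x₀ : ℝ) - 1) * i - 2 * j) / ((x₀ : ℝ) - x₁) ^ 2 := by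
    unfold Phi
    rw [e, ECal_sum0]
    simp only [Lam, elt, Finset.sum_empty]
    push_cast
    rw [tri_cast (x₀ : ℤ)]
    push_cast
    have c4 : (x₀ : ℝ) - x₁ ≠ 0 := fun h0 => by rw [h0] at c3; simp at c3
    field_simp
    ring
  rw [key]
  have : -1 ≤ 2 * ((2 * (x₀ : ℝ) - 1) * i - 2 * j) / ((x₀ : ℝ) - x₁) ^ 2 := by
    rw [le_div_iff₀ c3]
    nlinarith [mul_nonneg (by linarith : (0 : ℝ) ≤ 2 * (x₀ : ℝ) - 1) a6]
  linarith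

theorem calE {h k n s x₀ x₁ i j : ℕ} (hP : Par h k n s x₀ x₁ i j) {l : List En} (hl : Word SE l)
    (he : l.prod = elt n s x₀ x₁ i j) (hk : l.length ≤ k) : n ≤ l.length + 1 := by
  have h0 := phi_elt hP
  obtain ⟨p1, p2, p3, p4, p5, p6, p7, p8, p9, p10, p11⟩ := hP
  have hh : 1 ≤ h := by omega
  have c3 : (0 : ℝ) < (((x₀ : ℤ) : ℝ) - (x₁ : ℤ)) ^ 2 := by
    have : ((x₁ : ℤ) : ℝ) < (x₀ : ℤ) := by exact_mod_cast (by omega : x₁ < x₀)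
    exact pow_pos (by linarith) 2
  have hx : l.prod.x = (n : ℤ) - 2 * s := by rw [he]; rfl
  have main : ∀ m : ℕ, m ≤ l.length → Phi x₀ x₁ (l.take m).prod ≤ m := by
    intro m
    induction m with
    | zero => intro _; simp [phi_one]
    | succ m ih =>
      intro hm
      have ih' := ih (by omega)
      have hm' : m < l.length := hm
      obtain ⟨r1, r2⟩ := range_E hl m
      rw [List.prod_take_succ l m hm']
      set g := (l.take m).prod with hg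
      obtain ⟨q1, -, -, q4⟩ := ECal_ineq hh p6 p7 p9 g.x
      obtain ⟨-, q2, q3, -⟩ := ECal_ineq hh p6 p7 p9 (g.x - 1)
      have q2' := q2 (by omega)
      have q4' := q4 (by omega)
      push_cast
      rcases word_SE.1 (hl _ (List.getElem_mem hm')) with e | e | e | e <;> rw [e]
      · rw [phi_a]
        have := div_nonneg (mul_nonneg zero_le_two q1) c3.le
        linarith
      · rw [phi_a_inv]
        have : 2 * Qm x₀ x₁ (g.x - 1) / (((x₀ : ℤ) : ℝ) - (x₁ : ℤ)) ^ 2 ≤ 2 := by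
          rw [div_le_iff₀ c3]; linarith
        linarith
      · rw [phi_b]
        have : 2 * (Qf x₀ x₁ (g.x - 1) + Qm x₀ x₁ (g.x - 1)) /
            (((x₀ : ℤ) : ℝ) - (x₁ : ℤ)) ^ 2 ≤ 2 := by
          rw [div_le_iff₀ c3]; linarith
        linarith
      · rw [phi_b_inv]
        have := div_nonneg (mul_nonneg zero_le_two q4') c3.le
        linarith
  have h1 := main l.length le_rfl
  rw [List.take_length, he] at h1
  have : (n : ℝ) ≤ l.length + 1 := by linarith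
  exact_mod_cast this

end Pool.Agent.MP_b3b911_al.Fil
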