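import Pool.Agent.MP_b3b911_al.Fil.ECal

namespace Pool.Agent.MP_b3b911_al.Fil

/-- the clamped position -/
def ECalV_psi (x₀ om x : ℤ) : ℤ := max (x₀ - om) (min x (x₀ + om + 1)) - (x₀ - om)

/-- the potential of the state -/
def ECalV_Psi (x₀ om : ℤ) (g : VE) : ℤ :=
  if g.right = 1 then 2 * om + 1 else ECalV_psi x₀ om g.left.x

/-- the total potential -/
noncomputable def ECalV_Fn (x₀ x₁ om : ℤ) (lam : ℝ) (g : VE) : ℝ :=
  -(g.left.x : ℝ) / 2 + ECalV_Psi x₀ om g + lam * Phi x₀ x₁ g.left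

theorem ECalV_psi_mem {x₀ om : ℤ} (hom : 0 ≤ om) (x : ℤ) :
    0 ≤ ECalV_psi x₀ om x ∧ ECalV_psi x₀ om x ≤ 2 * om + 1 := by
  unfold ECalV_psi
  omega

theorem ECalV_psi_in {x₀ om y : ℤ} (h1 : x₀ - om ≤ y) (h2 : y ≤ x₀ + om) :
    ECalV_psi x₀ om (y + 1) = ECalV_psi x₀ om y + 1 := by
  unfold ECalV_psi
  omega

theorem ECalV_psi_out {x₀ om y : ℤ} (hom : 0 ≤ om) (h : y < x₀ - om ∨ x₀ + om < y) :
    ECalV_psi x₀ om (y + 1) = ECalV_psi x₀ om y := by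
  unfold ECalV_psi
  omega

theorem ECalV_Qm_nonneg {x₀ x₁ : ℤ} (h : x₁ ≤ x₀) (y : ℤ) : 0 ≤ Qm x₀ x₁ y := by
  unfold Qm Qf
  split_ifs with hy
  · have h1 : (x₁ : ℝ) ≤ x₀ := by exact_mod_cast h
    have h2 : (y : ℝ) ≤ x₁ := by exact_mod_cast hy.le
    nlinarith
  · exact le_rfl

theorem ECalV_Qm_le {x₀ x₁ H y : ℤ} (hH : 0 ≤ H) (h0 : 87 * H ≤ x₀) (h0' : x₀ < 88 * H)
    (h1' : x₁ < 2 * H) (hy : -6 * H ≤ y) : Qm x₀ x₁ y ≤ ((x₀ : ℝ) - x₁) ^ 2 / 2 := by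
  unfold Qm Qf
  split_ifs with hlt
  · have a0 : (0 : ℝ) ≤ H := by exact_mod_cast hH
    have a1 : 87 * (H : ℝ) ≤ x₀ := by exact_mod_cast h0
    have a2 : (x₀ : ℝ) ≤ 88 * H := by exact_mod_cast h0'.le
    have a3 : (x₁ : ℝ) ≤ 2 * H := by exact_mod_cast h1'.le
    have a4 : -6 * (H : ℝ) ≤ y := by exact_mod_cast hy
    have a5 : (y : ℝ) ≤ x₁ := by exact_mod_cast hlt.le
    have b1 : (85 * (H : ℝ)) ^ 2 ≤ ((x₀ : ℝ) - x₁) ^ 2 :=
      pow_le_pow_left₀ (by positivity) (by linarith) 2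
    have b2 : ((x₀ : ℝ) - y) ^ 2 ≤ (94 * (H : ℝ)) ^ 2 :=
      pow_le_pow_left₀ (by linarith) (by linarith) 2
    nlinarith [sq_nonneg (H : ℝ)]
  · positivity

theorem ECalV_sum_le (x₀ x₁ y : ℤ) : Qf x₀ x₁ y + Qm x₀ x₁ y ≤ ((x₀ : ℝ) - x₁) ^ 2 := by
  unfold Qm
  split_ifs with hlt
  · rw [add_neg_cancel]
    positivity
  · unfold Qf
    nlinarith [sq_nonneg ((y : ℝ) - x₀)]

theorem ECalV_sum_out {x₀ x₁ om y : ℤ} (hom : 0 ≤ om) (hd : om ≤ x₀ - x₁)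
    (h : y < x₀ - om ∨ x₀ + om < y) :
    Qf x₀ x₁ y + Qm x₀ x₁ y ≤ ((x₀ : ℝ) - x₁) ^ 2 - (om : ℝ) ^ 2 := by
  have a0 : (0 : ℝ) ≤ om := by exact_mod_cast hom
  have a1 : (om : ℝ) ≤ x₀ - x₁ := by exact_mod_cast hd
  unfold Qm
  split_ifs with hlt
  · rw [add_neg_cancel]
    nlinarith
  · unfold Qf
    rcases h with h | h
    · have a2 : (y : ℝ) ≤ x₀ - om := by exact_mod_cast h.le
      nlinarith
    · have a2 : (x₀ : ℝ) + om ≤ y := by exact_mod_cast h.le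
      nlinarith

theorem ECalV_sum_in {x₀ x₁ om y : ℤ} (hom : 0 ≤ om) (hd : 2 * om ≤ x₀ - x₁)
    (h1 : x₀ - om ≤ y) (h2 : y ≤ x₀ + om) :
    ((x₀ : ℝ) - x₁) ^ 2 / 2 ≤ Qf x₀ x₁ y + Qm x₀ x₁ y := by
  have a0 : (0 : ℝ) ≤ om := by exact_mod_cast hom
  have a1 : 2 * (om : ℝ) ≤ x₀ - x₁ := by exact_mod_cast hd
  have a2 : (x₀ : ℝ) - om ≤ y := by exact_mod_cast h1
  have a3 : (y : ℝ) ≤ x₀ + om := by exact_mod_cast h2
  have a4 := ECalV_Qm_nonneg (x₀ := x₀) (x₁ := x₁) (by omega) y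
  have b1 : ((y : ℝ) - x₀) ^ 2 ≤ (om : ℝ) ^ 2 := sq_le_sq' (by linarith) (by linarith)
  have b2 : (2 * (om : ℝ)) ^ 2 ≤ ((x₀ : ℝ) - x₁) ^ 2 := pow_le_pow_left₀ (by positivity) a1 2
  unfold Qf
  nlinarith [sq_nonneg (om : ℝ)]

theorem ECalV_sum_nonneg {x₀ x₁ y : ℤ} (h : y - x₀ ≤ x₀ - x₁) :
    0 ≤ Qf x₀ x₁ y + Qm x₀ x₁ y := by
  unfold Qm
  split_ifs with hlt
  · rw [add_neg_cancel]
  · unfold Qf
    have a1 : (y : ℝ) - x₀ ≤ x₀ - x₁ := by exact_mod_cast h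
    have a2 : (x₁ : ℝ) ≤ y := by exact_mod_cast not_lt.1 hlt
    have b1 : ((y : ℝ) - x₀) ^ 2 ≤ ((x₀ : ℝ) - x₁) ^ 2 := sq_le_sq' (by linarith) a1
    linarith

theorem ECalV_fl_inv : En.fl En.a⁻¹ = En.b⁻¹ := by decide

theorem ECalV_neg_ne : (-1 : ℤˣ) ≠ 1 := by decide

theorem ECalV_step {x₀ x₁ H U : ℤ} (hU : 1 ≤ U) (hUH : U ^ 3 ≤ H) (hHU : H ≤ 8 * U ^ 3)
    (h0 : 87 * H ≤ x₀) (h0' : x₀ < 88 * H) (h1 : H ≤ x₁) (h1' : x₁ < 2 * H) (g s : VE)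
    (hs : s = va ∨ s = va⁻¹ ∨ s = vt) (hx : g.left.x ≤ 101 * H)
    (hx' : -6 * H ≤ (g * s).left.x) :
    ECalV_Fn x₀ x₁ (U ^ 2) (250000 * (U : ℝ) ^ 2) (g * s) ≤
      ECalV_Fn x₀ x₁ (U ^ 2) (250000 * (U : ℝ) ^ 2) g + (250000 * (U : ℝ) ^ 2 - 1 / 2) := by
  have hU2 : 1 ≤ U ^ 2 := one_le_pow₀ hU
  have hU23 : U ^ 2 ≤ U ^ 3 := pow_le_pow_right₀ hU (by norm_num)
  have hom : 0 ≤ U ^ 2 := by positivity
  have hH : 1 ≤ H := by omega
  have hUr : (1 : ℝ) ≤ (U : ℝ) ^ 2 := by exact_mod_cast hU2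
  have hD : (0 : ℝ) < (x₀ : ℝ) - x₁ := by
    have : x₁ < x₀ := by omega
    have : (x₁ : ℝ) < x₀ := by exact_mod_cast this
    linarith
  have hQ : (0 : ℝ) < ((x₀ : ℝ) - x₁) ^ 2 := by positivity
  have hQU : ((x₀ : ℝ) - x₁) ^ 2 ≤ 500000 * ((U : ℝ) ^ 2) ^ 3 := by
    have e1 : x₀ - x₁ ≤ 696 * U ^ 3 := by omega
    have e2 : (x₀ : ℝ) - x₁ ≤ 696 * (U : ℝ) ^ 3 := by exact_mod_cast e1
    have e3 : ((x₀ : ℝ) - x₁) ^ 2 ≤ (696 * (U : ℝ) ^ 3) ^ 2 := pow_le_pow_left₀ hD.le e2 2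
    have e4 : (696 * (U : ℝ) ^ 3) ^ 2 = 484416 * ((U : ℝ) ^ 2) ^ 3 := by ring
    have e5 : (0 : ℝ) ≤ ((U : ℝ) ^ 2) ^ 3 := by positivity
    linarith
  set lam : ℝ := 250000 * (U : ℝ) ^ 2 with hlam
  have hlam1 : 1 ≤ lam := by linarith
  have hlam0 : 0 ≤ lam := by linarith
  have hva : va⁻¹ = (⟨En.a⁻¹, 1⟩ : VE) := by
    ext <;> simp [va]
  obtain ⟨g, σ⟩ := g
  rcases Int.units_eq_one_or σ with rfl | rfl
  · rcases hs with rfl | rfl | rfl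
    · have e : (⟨g, 1⟩ : VE) * va = ⟨g * En.a, 1⟩ := by
        ext <;> simp [va]
      rw [e]
      simp only [ECalV_Fn, ECalV_Psi, if_true, phi_a, En.mul_x]
      have a1 := ECalV_Qm_nonneg (x₀ := x₀) (x₁ := x₁) (by omega) g.x
      have a2 : 0 ≤ 2 * Qm x₀ x₁ g.x / ((x₀ : ℝ) - x₁) ^ 2 := by positivity
      have a3 := mul_nonneg hlam0 a2
      have a4 : En.a.x = 1 := rfl
      rw [a4]
      push_cast
      nlinarith
    · have e : (⟨g, 1⟩ : VE) * va⁻¹ = ⟨g * En.a⁻¹, 1⟩ := by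
        rw [hva]
        ext <;> simp
      rw [e] at hx' ⊢
      have a4 : En.a.x = 1 := rfl
      simp only [En.mul_x, En.inv_x, a4] at hx'
      simp only [ECalV_Fn, ECalV_Psi, if_true, phi_a_inv, En.mul_x, En.inv_x, a4]
      have a1 := ECalV_Qm_le (x₀ := x₀) (x₁ := x₁) (y := g.x - 1) (by omega) h0 h0' h1' (by omega)
      have a2 : 2 * Qm x₀ x₁ (g.x - 1) / ((x₀ : ℝ) - x₁) ^ 2 ≤ 1 := by
        rw [div_le_iff₀ hQ]
        linarith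
      have a3 := mul_le_mul_of_nonneg_left a2 hlam0
      push_cast
      nlinarith
    · have e : (⟨g, 1⟩ : VE) * vt = ⟨g, -1⟩ := by
        ext <;> simp [vt]
      rw [e]
      simp only [ECalV_Fn, ECalV_Psi, if_true, if_neg ECalV_neg_ne]
      have a1 := (ECalV_psi_mem (x₀ := x₀) hom g.x).2
      have a2 : (ECalV_psi x₀ (U ^ 2) g.x : ℝ) ≤ ((2 * U ^ 2 + 1 : ℤ) : ℝ) := by exact_mod_cast a1
      linarith
  · rcases hs with rfl | rfl | rfl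
    · have e : (⟨g, -1⟩ : VE) * va = ⟨g * En.b, -1⟩ := by
        ext <;> simp [va, En.act_neg, En.fl_a]
      rw [e]
      have a4 : En.b.x = -1 := rfl
      simp only [ECalV_Fn, ECalV_Psi, if_neg ECalV_neg_ne, phi_b, En.mul_x, a4]
      have e1 : g.x + -1 = g.x - 1 := by ring
      rw [e1]
      by_cases hin : x₀ - U ^ 2 ≤ g.x - 1 ∧ g.x - 1 ≤ x₀ + U ^ 2
      · have a1 := ECalV_psi_in hin.1 hin.2
        rw [sub_add_cancel] at a1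
        rw [a1]
        have a2 : 2 * (Qf x₀ x₁ (g.x - 1) + Qm x₀ x₁ (g.x - 1)) / ((x₀ : ℝ) - x₁) ^ 2 ≤ 2 := by
          rw [div_le_iff₀ hQ]
          linarith [ECalV_sum_le x₀ x₁ (g.x - 1)]
        have a3 := mul_le_mul_of_nonneg_left a2 hlam0
        push_cast
        nlinarith
      · have hout : g.x - 1 < x₀ - U ^ 2 ∨ x₀ + U ^ 2 < g.x - 1 := by omega
        have a1 := ECalV_psi_out hom hout
        rw [sub_add_cancel] at a1
        rw [a1]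
        have a5 := ECalV_sum_out (x₁ := x₁) hom (by omega) hout
        have a2 : lam * (2 * (Qf x₀ x₁ (g.x - 1) + Qm x₀ x₁ (g.x - 1)) / ((x₀ : ℝ) - x₁) ^ 2) ≤
            2 * lam - 1 := by
          rw [← mul_div_assoc, div_le_iff₀ hQ]
          have b1 := mul_le_mul_of_nonneg_left a5 hlam0
          have b2 : lam * (((U ^ 2 : ℤ) : ℝ)) ^ 2 = 250000 * ((U : ℝ) ^ 2) ^ 3 := by
            rw [hlam]
            push_cast
            ring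
          nlinarith
        push_cast
        nlinarith
    · have e : (⟨g, -1⟩ : VE) * va⁻¹ = ⟨g * En.b⁻¹, -1⟩ := by
        rw [hva]
        ext <;> simp [En.act_neg, ECalV_fl_inv]
      rw [e]
      have a4 : En.b.x = -1 := rfl
      simp only [ECalV_Fn, ECalV_Psi, if_neg ECalV_neg_ne, phi_b_inv, En.mul_x, En.inv_x, a4,
        neg_neg]
      by_cases hin : x₀ - U ^ 2 ≤ g.x ∧ g.x ≤ x₀ + U ^ 2
      · rw [ECalV_psi_in hin.1 hin.2]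
        have a5 := ECalV_sum_in (x₁ := x₁) hom (by omega) hin.1 hin.2
        have a2 : 1 ≤ 2 * (Qf x₀ x₁ g.x + Qm x₀ x₁ g.x) / ((x₀ : ℝ) - x₁) ^ 2 := by
          rw [le_div_iff₀ hQ]
          linarith
        have a3 := mul_le_mul_of_nonneg_left a2 hlam0
        push_cast
        nlinarith
      · have hout : g.x < x₀ - U ^ 2 ∨ x₀ + U ^ 2 < g.x := by omega
        rw [ECalV_psi_out hom hout]
        have hx2 : g.x ≤ 101 * H := hx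
        have a5 := ECalV_sum_nonneg (x₀ := x₀) (x₁ := x₁) (y := g.x) (by omega)
        have a2 : 0 ≤ 2 * (Qf x₀ x₁ g.x + Qm x₀ x₁ g.x) / ((x₀ : ℝ) - x₁) ^ 2 := by positivity
        have a3 := mul_nonneg hlam0 a2
        push_cast
        nlinarith
    · have e : (⟨g, -1⟩ : VE) * vt = ⟨g, 1⟩ := by
        ext <;> simp [vt]
      rw [e]
      simp only [ECalV_Fn, ECalV_Psi, if_true, if_neg ECalV_neg_ne]
      have a1 := (ECalV_psi_mem (x₀ := x₀) hom g.x).1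
      have a2 : (0 : ℝ) ≤ (ECalV_psi x₀ (U ^ 2) g.x : ℝ) := by exact_mod_cast a1
      push_cast
      linarith

theorem calV {h k n s x₀ x₁ i j u : ℕ} (hP : Par h k n s x₀ x₁ i j) (hu : 1 ≤ u) (h1 : u ^ 3 ≤ h)
    (h2 : h ≤ 8 * u ^ 3) (ε : ℤˣ) (hb : Ball SV k (⟨elt n s x₀ x₁ i j, ε⟩ : VE)) :
    u ≤ 62500 * (k - n + 2) := by
  obtain ⟨l, hl, hw, he⟩ := hb
  have hlk : l.length ≤ k := by exact_mod_cast hl
  have hphi := phi_elt hP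
  obtain ⟨p1, p2, p3, p4, p5, p6, p7, p8, p9, -, -⟩ := hP
  have hX : l.prod.left.x = (n : ℤ) - 2 * s := by rw [he]; rfl
  have hU : (1 : ℤ) ≤ u := by exact_mod_cast hu
  have hUH : (u : ℤ) ^ 3 ≤ h := by exact_mod_cast h1
  have hHU : (h : ℤ) ≤ 8 * (u : ℤ) ^ 3 := by exact_mod_cast h2
  set lam : ℝ := 250000 * ((u : ℤ) : ℝ) ^ 2 with hlam
  have key : ∀ t : ℕ, t ≤ l.length →
      ECalV_Fn x₀ x₁ ((u : ℤ) ^ 2) lam (l.take t).prod ≤
        ECalV_Fn x₀ x₁ ((u : ℤ) ^ 2) lam 1 + t * (lam - 1 / 2) := by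
    intro t
    induction t with
    | zero => intro _; simp
    | succ t ih =>
      intro ht
      have ht' : t < l.length := ht
      have e : (l.take (t + 1)).prod = (l.take t).prod * l[t] := List.prod_take_succ l t ht'
      have r1 := (range_V hw t).2
      have r2 := (range_V hw (t + 1)).1
      rw [e, hX] at r2
      have hs := word_SV.1 (hw _ (List.getElem_mem ht'))
      have st := ECalV_step (x₀ := x₀) (x₁ := x₁) (H := h) (U := u) hU hUH hHU (by omega)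
        (by omega) (by omega) (by omega) (l.take t).prod l[t] hs (by omega) (by omega)
      have ih' := ih ht'.le
      rw [e]
      push_cast
      linarith
  have k1 := key l.length le_rfl
  rw [List.take_length, he] at k1
  have hom : (0 : ℤ) ≤ (u : ℤ) ^ 2 := by positivity
  have hPsi : (0 : ℝ) ≤ ECalV_Psi x₀ ((u : ℤ) ^ 2) (⟨elt n s x₀ x₁ i j, ε⟩ : VE) := by
    have : 0 ≤ ECalV_Psi x₀ ((u : ℤ) ^ 2) (⟨elt n s x₀ x₁ i j, ε⟩ : VE) := by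
      unfold ECalV_Psi
      split_ifs
      · omega
      · exact (ECalV_psi_mem hom _).1
    exact_mod_cast this
  have hone : ECalV_Fn x₀ x₁ ((u : ℤ) ^ 2) lam 1 = 2 * (u : ℝ) ^ 2 + 1 := by
    simp [ECalV_Fn, ECalV_Psi, phi_one]
  have hxe : ((elt n s x₀ x₁ i j).x : ℝ) = (n : ℝ) - 2 * s := by
    simp [elt]
  have hur : (1 : ℝ) ≤ u := by exact_mod_cast hu
  have hu2 : (1 : ℝ) ≤ (u : ℝ) ^ 2 := one_le_pow₀ hur
  have hlam' : lam = 250000 * (u : ℝ) ^ 2 := by rw [hlam]; push_cast; ring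
  have hlam0 : 0 ≤ lam - 1 / 2 := by linarith
  rw [hone] at k1
  unfold ECalV_Fn at k1
  simp only [hxe] at k1
  have k2 := mul_le_mul_of_nonneg_left hphi (show 0 ≤ lam by linarith)
  have k3 := mul_le_mul_of_nonneg_right hl hlam0
  have hs8 : 4 * (u : ℝ) ^ 3 ≤ s := by
    have : 4 * u ^ 3 ≤ s := by omega
    exact_mod_cast this
  have hnk : (n : ℝ) ≤ k := by exact_mod_cast p3
  have k4 : 4 * (u : ℝ) ^ 3 ≤ 250000 * (u : ℝ) ^ 2 * ((k : ℝ) - n + 2) := by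
    rw [← hlam']
    nlinarith
  have k5 : (u : ℝ) ≤ 62500 * ((k : ℝ) - n + 2) := by
    by_contra hc
    have hc' := not_le.1 hc
    have : (0 : ℝ) < (u : ℝ) ^ 2 := by positivity
    nlinarith
  have k6 : ((62500 * (k - n + 2) : ℕ) : ℝ) = 62500 * ((k : ℝ) - n + 2) := by
    push_cast [Nat.cast_sub p3]
    ring
  have k7 : (u : ℝ) ≤ ((62500 * (k - n + 2) : ℕ) : ℝ) := by rw [k6]; exact k5
  exact_mod_cast k7

end Pool.Agent.MP_b3b911_al.Fil
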