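import Pool.Agent.MP_b3b911_al.Fil.EBig

namespace Pool.Agent.MP_b3b911_al.Fil

theorem EKap_le (l : List En) (σ σ' : ℤˣ) : kap σ l ≤ kap σ' l + 1 := by
  cases l with
  | nil => simp [kap]
  | cons s l => simp only [kap]; split_ifs <;> omega

theorem EKap_step {s : En} (h : s ∈ SE ∨ s⁻¹ ∈ SE) :
    ∃ v : VE, (v ∈ SV ∨ v⁻¹ ∈ SV) ∧ ∀ e : En, (⟨e, ty s⟩ : VE) * v = ⟨e * s, ty s⟩ := by
  have h1 : ty En.a = 1 := by decide
  have h2 : ty En.a⁻¹ = 1 := by decide
  have h3 : ty En.b = -1 := by decide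
  have h4 : ty En.b⁻¹ = -1 := by decide
  have h5 : En.fl En.a⁻¹ = En.b⁻¹ := by decide
  rcases word_SE.1 h with rfl | rfl | rfl | rfl
  · exact ⟨va, word_SV.2 (Or.inl rfl), fun e => by ext1 <;> simp [va, h1]⟩
  · exact ⟨va⁻¹, word_SV.2 (Or.inr (Or.inl rfl)), fun e => by ext1 <;> simp [va, h2]⟩
  · exact ⟨va, word_SV.2 (Or.inl rfl), fun e => by
      ext1 <;> simp [va, h3, En.act_neg, En.fl_a]⟩
  · exact ⟨va⁻¹, word_SV.2 (Or.inr (Or.inl rfl)), fun e => by
      ext1 <;> simp [va, h4, En.act_neg, h5]⟩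

theorem EKap_vt (e : En) {σ τ : ℤˣ} (h : τ ≠ σ) : (⟨e, σ⟩ : VE) * vt = ⟨e, τ⟩ := by
  ext1
  · simp [vt]
  · rcases Int.units_eq_one_or σ with rfl | rfl <;> rcases Int.units_eq_one_or τ with rfl | rfl <;>
      simp_all [vt]

theorem EKap_cons {G : Type*} [Group G] {S : Finset G} {s : G} {l : List G} :
    Word S (s :: l) ↔ (s ∈ S ∨ s⁻¹ ∈ S) ∧ Word S l := List.forall_mem_cons

theorem EKap_word {l : List En} (h : Word SE l) (σ : ℤˣ) (e : En) :
    ∃ (w : List VE) (σ' : ℤˣ), Word SV w ∧ w.length = kap σ l ∧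
      (⟨e, σ⟩ : VE) * w.prod = ⟨e * l.prod, σ'⟩ := by
  induction l generalizing σ e with
  | nil => exact ⟨[], σ, fun _ hx => by simp at hx, rfl, by simp⟩
  | cons s l ih =>
    obtain ⟨hs, hl⟩ := EKap_cons.1 h
    obtain ⟨v, hv, hv'⟩ := EKap_step hs
    obtain ⟨w, σ', hw, hlen, hp⟩ := ih hl (ty s) (e * s)
    by_cases hσ : ty s = σ
    · refine ⟨v :: w, σ', EKap_cons.2 ⟨hv, hw⟩, ?_, ?_⟩
      · simp only [kap, if_pos hσ, List.length_cons, hlen]; omega
      · rw [List.prod_cons, ← mul_assoc, ← hσ, hv', hp, List.prod_cons, mul_assoc]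
    · refine ⟨vt :: v :: w, σ', EKap_cons.2 ⟨word_SV.2 (Or.inr (Or.inr rfl)),
        EKap_cons.2 ⟨hv, hw⟩⟩, ?_, ?_⟩
      · simp only [kap, if_neg hσ, List.length_cons, hlen]; omega
      · rw [List.prod_cons, List.prod_cons, ← mul_assoc, EKap_vt e hσ, ← mul_assoc, hv', hp,
          List.prod_cons, mul_assoc]

theorem EKap_act (σ : ℤˣ) : En.act σ En.a ∈ SE := by
  rcases Int.units_eq_one_or σ with rfl | rfl
  · simp [SE]
  · simp [SE, En.act_neg, En.fl_a]

theorem EKap_left {w : List VE} (h : Word SV w) (σ : ℤˣ) :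
    ∃ l : List En, Word SE l ∧ l.length ≤ w.length ∧ l.prod = En.act σ w.prod.left := by
  induction w generalizing σ with
  | nil => exact ⟨[], fun _ hx => by simp at hx, le_rfl, by simp⟩
  | cons s w ih =>
    obtain ⟨hs, hw⟩ := EKap_cons.1 h
    obtain ⟨l, hl, hlen, hp⟩ := ih hw (σ * s.right)
    have e : En.act σ (s :: w).prod.left = En.act σ s.left * l.prod := by
      rw [hp, List.prod_cons, SemidirectProduct.mul_left, map_mul, map_mul, MulAut.mul_apply]
    rw [e]
    rcases word_SV.1 hs with rfl | rfl | rfl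
    · exact ⟨_ :: l, EKap_cons.2 ⟨Or.inl (EKap_act σ), hl⟩, by simpa using hlen, List.prod_cons⟩
    · refine ⟨_ :: l, EKap_cons.2 ⟨Or.inr ?_, hl⟩, by simpa using hlen, List.prod_cons⟩
      simpa [va] using EKap_act σ
    · exact ⟨l, hl, hlen.trans (by simp), by simp [vt]⟩

theorem EKap_perm {l l' : List En} (h : l.Perm l') :
    l.prod.x = l'.prod.x ∧ l.prod.p = l'.prod.p := by
  induction h with
  | nil => simp
  | cons s _ ih => simp [ih.1, ih.2]
  | swap s t l => simp only [List.prod_cons, En.mul_x, En.mul_p]; omega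
  | trans _ _ ih ih' => exact ⟨ih.1.trans ih'.1, ih.2.trans ih'.2⟩

theorem EKap_app {l₁ l₂ : List En} {τ : ℤˣ} {M : ℕ} (h : ∀ s ∈ l₁, ty s = τ)
    (hM : ∀ σ, kap σ l₂ ≤ M) (σ : ℤˣ) : kap σ (l₁ ++ l₂) ≤ l₁.length + 1 + M := by
  have key : kap τ (l₁ ++ l₂) ≤ l₁.length + M := by
    induction l₁ with
    | nil => simpa using hM τ
    | cons s l ih =>
      obtain ⟨h1, h2⟩ := List.forall_mem_cons.1 h
      have := ih h2
      simp only [List.cons_append, kap, h1, if_true, List.length_cons]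
      omega
  have := EKap_le (l₁ ++ l₂) σ τ
  omega

theorem EKap_sort (T : ℕ) (hT : 1 ≤ T) (K : ℕ) (n : ℕ) : ∀ l : List En, l.length = n → n ≤ K →
    Word SE l → ∃ l' : List En, Word SE l' ∧
    l'.length = l.length ∧ (∀ σ, kap σ l' ≤ l.length + 2 * (l.length / T + 1)) ∧
    l'.prod.x = l.prod.x ∧ l'.prod.p = l.prod.p ∧ |l'.prod.q - l.prod.q| ≤ 2 * T * l.length ∧
    |l'.prod.r - l.prod.r| ≤ 4 * T * l.length * K := by
  induction n using Nat.strong_induction_on with
  | _ n ih =>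
  intro l hn hK h
  rcases Nat.eq_zero_or_pos n with rfl | hpos
  · obtain rfl := List.length_eq_zero_iff.1 hn
    exact ⟨[], h, rfl, fun σ => by simp [kap], rfl, rfl, by simp, by simp⟩
  obtain ⟨R', w1, w2, w3, w4, w5, w6, w7⟩ := ih (l.drop T).length
    (by rw [List.length_drop]; omega) (l.drop T) rfl (by rw [List.length_drop]; omega) (h.drop T)
  have hl : l.take T ++ l.drop T = l := List.take_append_drop T l
  have hB := h.take T
  have hBT : (l.take T).length ≤ T := List.length_take_le T l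
  have hR : (l.drop T).length = l.length - T := List.length_drop
  generalize l.take T = B at hl hB hBT
  generalize l.drop T = R at hl hR w2 w3 w4 w5 w6 w7
  have hlen : B.length + R.length = l.length := by rw [← hl, List.length_append]
  have hp := List.filter_append_perm (fun s => decide (ty s = 1)) B
  have f1 : ∀ s ∈ B.filter fun s => decide (ty s = 1), ty s = 1 := fun s hs => by
    simpa using (List.mem_filter.1 hs).2
  have f2 : ∀ s ∈ B.filter fun s => !decide (ty s = 1), ty s = -1 := fun s hs =>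
    (Int.units_eq_one_or _).resolve_left (by simpa using (List.mem_filter.1 hs).2)
  generalize (B.filter fun s => decide (ty s = 1)) = F₁ at hp f1
  generalize (B.filter fun s => !decide (ty s = 1)) = F₂ at hp f2
  have hF : Word SE (F₁ ++ F₂) := fun s hs => hB s (hp.subset hs)
  have hFl := hp.length_eq
  obtain ⟨e1, e2⟩ := EKap_perm hp
  obtain ⟨a1, -, a3, a4⟩ := ebig hB
  obtain ⟨-, -, b3, b4⟩ := ebig hF
  rw [hFl] at b3 b4
  have hq : |(F₁ ++ F₂).prod.q - B.prod.q| ≤ 2 * (B.length : ℤ) ^ 2 :=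
    (abs_sub _ _).trans (by linarith)
  have hr : |(F₁ ++ F₂).prod.r - B.prod.r| ≤ 2 * (B.length : ℤ) ^ 3 :=
    (abs_sub _ _).trans (by linarith)
  have c1 : (B.length : ℤ) ≤ T := by exact_mod_cast hBT
  have c2 : (B.length : ℤ) + R.length = l.length := by exact_mod_cast hlen
  have c3 : (B.length : ℤ) ≤ K := by omega
  have c4 : (R.length : ℤ) ≤ K := by omega
  have c5 : (0 : ℤ) ≤ B.length := by positivity
  have c6 : (0 : ℤ) ≤ R.length := by positivity
  have hpr : l.prod = B.prod * R.prod := by rw [← hl, List.prod_append]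
  refine ⟨F₁ ++ F₂ ++ R', hF.append w1, by rw [List.length_append, hFl, w2, hlen], fun σ => ?_,
    ?_, ?_, ?_, ?_⟩
  · rw [List.append_assoc]
    rw [List.length_append] at hFl
    by_cases hc : T ≤ l.length
    · have := EKap_app f1 (EKap_app f2 w3) σ
      have e : l.length / T = R.length / T + 1 := by rw [hR]; exact Nat.div_eq_sub_div hT hc
      omega
    · obtain rfl : R' = [] := List.length_eq_zero_iff.1 (by omega)
      have := EKap_app f1 (EKap_app (M := 0) (l₂ := []) f2 fun _ => le_rfl) σ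
      generalize l.length / T = D
      omega
  · rw [List.prod_append, hpr, En.mul_x, En.mul_x, e1, w4]
  · rw [List.prod_append, hpr, En.mul_p, En.mul_p, e2, w5]
  · rw [List.prod_append, hpr, En.mul_q, En.mul_q, e1, w5, ← c2]
    calc _ = |((F₁ ++ F₂).prod.q - B.prod.q) + (R'.prod.q - R.prod.q)| := by congr 1; ring
      _ ≤ 2 * (B.length : ℤ) ^ 2 + 2 * T * R.length := (abs_add_le _ _).trans (add_le_add hq w6)
      _ ≤ _ := by nlinarith
  · rw [List.prod_append, hpr, En.mul_r, En.mul_r, e1, w5, ← c2]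
    have d : |B.prod.x * (R'.prod.q - R.prod.q)| ≤ B.length * (2 * T * R.length) := by
      rw [abs_mul]
      exact mul_le_mul a1 w6 (abs_nonneg _) c5
    have d1 : (B.length : ℤ) ^ 3 ≤ B.length * (T * K) := by
      rw [pow_succ', sq]
      exact mul_le_mul_of_nonneg_left (mul_le_mul c1 c3 c5 (by positivity)) c5
    have d2 : (B.length : ℤ) * (T * R.length) ≤ B.length * (T * K) := by gcongr
    calc _ = |((F₁ ++ F₂).prod.r - B.prod.r) + (R'.prod.r - R.prod.r) +
          B.prod.x * (R'.prod.q - R.prod.q)| := by congr 1; ring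
      _ ≤ 2 * (B.length : ℤ) ^ 3 + 4 * T * R.length * K + B.length * (2 * T * R.length) :=
        (abs_add_le _ _).trans (add_le_add ((abs_add_le _ _).trans (add_le_add hr w7)) d)
      _ ≤ _ := by nlinarith

theorem kap_sub {l l' : List En} (h : l.Sublist l') (σ : ℤˣ) :
    kap σ l' + 3 * l.length ≤ kap σ l + 3 * l'.length := by
  induction h generalizing σ with
  | slnil => exact le_rfl
  | @cons l l' s _ ih =>
    have h1 := ih (ty s)
    have h2 := EKap_le l (ty s) σ
    simp only [kap, List.length_cons]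
    split_ifs <;> omega
  | @cons_cons l l' s _ ih =>
    have h1 := ih (ty s)
    simp only [kap, List.length_cons]
    omega

theorem kap_ball {l : List En} (h : Word SE l) (ε : ℤˣ) :
    Ball SV ((kap 1 l : ℝ) + 1) (⟨l.prod, ε⟩ : VE) := by
  obtain ⟨w, σ', hw, hlen, hp⟩ := EKap_word h 1 1
  rw [show (⟨1, 1⟩ : VE) = 1 from rfl, one_mul, one_mul] at hp
  by_cases hε : ε = σ'
  · exact ⟨w, by rw [hlen]; linarith, hw, hε ▸ hp⟩
  · refine ⟨w ++ [vt], by simp [hlen], hw.append fun x hx => ?_, ?_⟩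
    · rw [List.mem_singleton.1 hx]
      exact word_SV.2 (Or.inr (Or.inr rfl))
    · rw [List.prod_append, hp, List.prod_singleton, EKap_vt _ hε]

theorem ball_left {q : ℝ} {g : VE} (h : Ball SV q g) : Ball SE q g.left := by
  obtain ⟨w, hq, hw, rfl⟩ := h
  obtain ⟨l, hl, hlen, hp⟩ := EKap_left hw 1
  exact ⟨l, le_trans (by exact_mod_cast hlen) hq, hl, hp.trans (En.act_one _)⟩

theorem esort (T : ℕ) (hT : 1 ≤ T) {l : List En} (h : Word SE l) : ∃ l' : List En, Word SE l' ∧
    l'.length = l.length ∧ (∀ σ, kap σ l' ≤ l.length + 2 * (l.length / T + 1)) ∧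
    l'.prod.x = l.prod.x ∧ l'.prod.p = l.prod.p ∧ |l'.prod.q - l.prod.q| ≤ 2 * T * l.length ∧
    |l'.prod.r - l.prod.r| ≤ 4 * T * (l.length : ℤ) ^ 2 := by
  obtain ⟨l', h1, h2, h3, h4, h5, h6, h7⟩ := EKap_sort T hT l.length l.length l rfl le_rfl h
  exact ⟨l', h1, h2, h3, h4, h5, h6, h7.trans_eq (by ring)⟩

end Pool.Agent.MP_b3b911_al.Fil
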