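import Pool.Agent.MP_b3b911_al.Fil.EPre
import Pool.Agent.MP_b3b911_al.Fil.ECalV
import Pool.Agent.MP_b3b911_al.Fil.EKap

namespace Pool.Agent.MP_b3b911_al.Fil

theorem ECnt_word : ∃ C : ℕ, ∀ h k n s x₀ x₁ i j : ℕ, Par h k n s x₀ x₁ i j → 100 * h ≤ k →
    ∃ l : List En, Word SE l ∧ l.prod = elt n s x₀ x₁ i j ∧ l.length ≤ n + C := by
  obtain ⟨C, -, hC⟩ := eh2 8
  refine ⟨⌈8 * C⌉₊, fun h k n s x₀ x₁ i j hP hk => ?_⟩
  obtain ⟨l, h1, h2, h3⟩ := word_elt hP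
  obtain ⟨a1, a2, a3, a4, a5, -, -, -, -, a6, a7⟩ := hP
  have hk0 : 100 ≤ k := by omega
  have hk1 : (100 : ℝ) ≤ k := by exact_mod_cast hk0
  have e : (k : ℝ) / (k / 2) = 2 := by field_simp
  have b1 : (k : ℤ) ≤ 2 * ((n : ℤ) - 2 * s) := by omega
  have b2 : (k : ℝ) ≤ 2 * ((n : ℝ) - 2 * s) := by exact_mod_cast b1
  have b3 : (i : ℝ) ≤ k := by exact_mod_cast (by omega : i ≤ k)
  have b4 : (j : ℝ) ≤ (k : ℝ) ^ 2 := by
    exact_mod_cast a7.le.trans (Nat.pow_le_pow_left (by omega : h ≤ k) 2)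
  obtain ⟨l', c1, c2, -, c3⟩ := hC k (k / 2) 1 (by linarith) (by linarith) le_rfl
    (by rw [e]; linarith) l h1 (by rw [h2]; exact_mod_cast a3)
    ⟨l.length, by
      rw [List.take_length, h3]
      refine le_trans ?_ (le_abs_self _)
      simp only [elt]
      push_cast
      linarith⟩ (elt n s x₀ x₁ i j) (by simp [h3, elt]) (by simp [h3, elt])
    (by simpa [h3, elt] using b3) (by simpa [h3, elt] using b4)
  refine ⟨l', c1, c2, ?_⟩
  rw [e, h2] at c3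
  have := Nat.le_ceil (8 * C)
  have c4 : (l'.length : ℝ) ≤ n + (⌈8 * C⌉₊ : ℕ) := by linarith
  exact_mod_cast c4

theorem ECnt_inj {n s x₀ x₁ i j s' x₀' x₁' i' j' : ℕ} (hi : i < s) (hi' : i' < s)
    (e : elt n s x₀ x₁ i j = elt n s' x₀' x₁' i' j') :
    s = s' ∧ x₀ = x₀' ∧ x₁ = x₁' ∧ i = i' ∧ j = j' := by
  simp only [elt, En.mk.injEq] at e
  obtain ⟨e1, e2, e3, e4⟩ := e
  obtain rfl : s = s' := by omega
  obtain rfl : x₁ = x₁' := by omega
  have e5 : i + s * x₀ = i' + s * x₀' := by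
    have : (i : ℤ) + s * x₀ = i' + s * x₀' := by linarith
    exact_mod_cast this
  have e6 := congrArg (· / s) e5
  simp only [Nat.add_mul_div_left _ _ (Nat.zero_lt_of_lt hi), Nat.div_eq_of_lt hi,
    Nat.div_eq_of_lt hi', zero_add] at e6
  subst e6
  exact ⟨rfl, rfl, rfl, by omega, by omega⟩

theorem ECnt_count {T : Type} [Fintype T] (k : ℕ) (F : T → En) (hF : Function.Injective F)
    (h1 : ∀ t, Ball SE k (F t)) (h2 : ∀ t ε, ¬ Ball SV k (⟨F t, ε⟩ : VE)) :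
    growth SV k + 2 * Fintype.card T ≤ 2 * growth SE k := by
  rw [growth_eq, growth_eq]
  have hB := ball_finite SE k
  have a1 := Set.ncard_sdiff_add_ncard_of_subset (s := Set.range F)
    (t := {g | Ball SE k g}) (Set.range_subset_iff.2 h1) hB
  have a2 : (Set.range F).ncard = Fintype.card T := by
    rw [← Nat.card_coe_set_eq, Nat.card_range_of_injective hF, Nat.card_eq_fintype_card]
  have a3 := Set.ncard_le_ncard_of_injOn (s := {g | Ball SV k g})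
    (t := ({g | Ball SE k g} \ Set.range F) ×ˢ (Set.univ : Set ℤˣ)) (fun g => (g.left, g.right))
    (fun g hg => ⟨⟨ball_left hg, by
      rintro ⟨t, ht⟩
      exact h2 t g.right (by rw [ht]; exact hg)⟩, trivial⟩)
    (fun g _ g' _ e => SemidirectProduct.ext (congrArg Prod.fst e) (congrArg Prod.snd e))
    (hB.sdiff.prod Set.finite_univ)
  rw [Set.ncard_prod, Set.ncard_univ, Nat.card_eq_fintype_card, Fintype.card_units_int] at a3
  omega

theorem ecount : ∃ D : ℕ, 1 ≤ D ∧ ∀ h k u N : ℕ, 100 * h ≤ k → k ≤ 101 * h → 1 ≤ u → u ^ 3 ≤ h →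
    h ≤ 8 * u ^ 3 → D * (N + 1) ≤ h → 62500 * D * N < u →
    growth SV k + 2 * (N * h ^ 6) ≤ 2 * growth SE k := by
  obtain ⟨C, hC⟩ := ECnt_word
  refine ⟨C + 2, by omega, fun h k u N k1 k2 u1 u2 u3 d1 d2 => ?_⟩
  have hν : ∀ ν : Fin N, (C + 2) * ν + (C + 2) ≤ (C + 2) * N := fun ν =>
    Nat.mul_le_mul_left (C + 2) ν.2
  rw [mul_add_one] at d1
  have hP : ∀ t : Fin N × Fin h × Fin h × Fin h × Fin h × Fin (h ^ 2),
      Par h k (k - C - (C + 2) * t.1) (4 * h + t.2.1) (87 * h + t.2.2.1) (h + t.2.2.2.1)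
        t.2.2.2.2.1 t.2.2.2.2.2 := by
    rintro ⟨ν, s, x₀, x₁, i, j⟩
    have := hν ν
    have := s.2
    have := x₀.2
    have := x₁.2
    refine ⟨k2, ?_, ?_, ?_, ?_, ?_, ?_, ?_, ?_, i.2, j.2⟩ <;> dsimp only <;> omega
  have hW := fun t => hC _ _ _ _ _ _ _ _ (hP t) k1
  have hle : ∀ ν : Fin N, k - C - (C + 2) * ν + C ≤ k := fun ν => by
    have := hν ν
    omega
  have key := ECnt_count k (fun t : Fin N × Fin h × Fin h × Fin h × Fin h × Fin (h ^ 2) =>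
    elt (k - C - (C + 2) * t.1) (4 * h + t.2.1) (87 * h + t.2.2.1) (h + t.2.2.2.1)
      t.2.2.2.2.1 t.2.2.2.2.2) (fun t t' e => ?_) (fun t => ?_) fun t ε hb => ?_
  · simp only [Fintype.card_prod, Fintype.card_fin] at key
    rwa [show N * h ^ 6 = N * (h * (h * (h * (h * h ^ 2)))) by ring]
  · have hlt : ∀ t t' : Fin N × Fin h × Fin h × Fin h × Fin h × Fin (h ^ 2),
        elt (k - C - (C + 2) * t.1) (4 * h + t.2.1) (87 * h + t.2.2.1) (h + t.2.2.2.1)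
          t.2.2.2.2.1 t.2.2.2.2.2 =
        elt (k - C - (C + 2) * t'.1) (4 * h + t'.2.1) (87 * h + t'.2.2.1) (h + t'.2.2.2.1)
          t'.2.2.2.2.1 t'.2.2.2.2.2 → t.1 ≤ t'.1 := fun t t' e => by
      obtain ⟨l, l1, l2, l3⟩ := hW t
      have c1 := calE (hP t') l1 (l2.trans e) (l3.trans (hle _))
      by_contra hc
      have c2 : (C + 2) * t'.1 + (C + 2) ≤ (C + 2) * t.1 :=
        Nat.mul_le_mul_left (C + 2) (not_le.1 hc)
      have := hν t.1
      omega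
    have e1 := le_antisymm (hlt t t' e) (hlt t' t e.symm)
    obtain ⟨ν, s, x₀, x₁, i, j⟩ := t
    obtain ⟨ν', s', x₀', x₁', i', j'⟩ := t'
    obtain rfl : ν = ν' := e1
    have := i.2
    have := i'.2
    obtain ⟨f1, f2, f3, f4, f5⟩ := ECnt_inj (by dsimp only; omega) (by dsimp only; omega) e
    dsimp only at f1 f2 f3 f4 f5
    simp only [Prod.mk.injEq, Fin.ext_iff, true_and]
    omega
  · obtain ⟨l, l1, l2, l3⟩ := hW t
    exact ⟨l, by exact_mod_cast l3.trans (hle _), l1, l2⟩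
  · have c1 := calV (hP t) u1 u2 u3 ε hb
    have := hν t.1
    rw [mul_assoc] at d2
    omega

end Pool.Agent.MP_b3b911_al.Fil
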