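import Pool.Agent.MP_b3b911_al.Fil.CDefs

/-! The Engel lattice and its extension by the flip. -/

namespace Pool.Agent.MP_b3b911_al.Fil

/-- `x (x - 1) / 2` -/
def tri (x : ℤ) : ℤ := x * (x - 1) / 2

/-- `x (x - 1) (x - 2) / 6` -/
def tet (x : ℤ) : ℤ := x * (x - 1) * (x - 2) / 6

theorem two_tri (x : ℤ) : 2 * tri x = x * (x - 1) :=
  Int.mul_ediv_cancel' (Int.even_mul_pred_self x).two_dvd

theorem six_tet (x : ℤ) : 6 * tet x = x * (x - 1) * (x - 2) := by
  refine Int.mul_ediv_cancel' (Int.dvd_of_emod_eq_zero ?_)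
  have h : x % 6 = 0 ∨ x % 6 = 1 ∨ x % 6 = 2 ∨ x % 6 = 3 ∨ x % 6 = 4 ∨ x % 6 = 5 := by omega
  rcases h with h | h | h | h | h | h <;> simp [Int.mul_emod, Int.sub_emod, h]

theorem tri_add (x y : ℤ) : tri (x + y) = tri x + tri y + x * y := by
  have h1 := two_tri (x + y); have h2 := two_tri x; have h3 := two_tri y
  have : 2 * tri (x + y) = 2 * (tri x + tri y + x * y) := by linear_combination h1 - h2 - h3
  omega

theorem tri_cast (x : ℤ) : (tri x : ℝ) = x * (x - 1) / 2 := by
  have h : (2 : ℝ) * tri x = x * (x - 1) := by exact_mod_cast two_tri x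
  linarith

theorem tet_cast (x : ℤ) : (tet x : ℝ) = x * (x - 1) * (x - 2) / 6 := by
  have h : (6 : ℝ) * tet x = x * (x - 1) * (x - 2) := by exact_mod_cast six_tet x
  linarith

/-- The Engel lattice. -/
@[ext] structure En where
  x : ℤ
  p : ℤ
  q : ℤ
  r : ℤ
  deriving DecidableEq

namespace En

instance : Mul En :=
  ⟨fun g h => ⟨g.x + h.x, g.p + h.p, g.q + h.q + g.x * h.p, g.r + h.r + g.x * h.q + tri g.x * h.p⟩⟩

instance : One En := ⟨⟨0, 0, 0, 0⟩⟩

instance : Inv En :=
  ⟨fun g => ⟨-g.x, -g.p, -g.q + g.x * g.p, -g.r + g.x * g.q - tri (-g.x) * g.p⟩⟩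

@[simp] theorem mul_x (g h : En) : (g * h).x = g.x + h.x := rfl
@[simp] theorem mul_p (g h : En) : (g * h).p = g.p + h.p := rfl
@[simp] theorem mul_q (g h : En) : (g * h).q = g.q + h.q + g.x * h.p := rfl
@[simp] theorem mul_r (g h : En) : (g * h).r = g.r + h.r + g.x * h.q + tri g.x * h.p := rfl
@[simp] theorem one_x : (1 : En).x = 0 := rfl
@[simp] theorem one_p : (1 : En).p = 0 := rfl
@[simp] theorem one_q : (1 : En).q = 0 := rfl
@[simp] theorem one_r : (1 : En).r = 0 := rfl
@[simp] theorem inv_x (g : En) : g⁻¹.x = -g.x := rfl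
@[simp] theorem inv_p (g : En) : g⁻¹.p = -g.p := rfl
@[simp] theorem inv_q (g : En) : g⁻¹.q = -g.q + g.x * g.p := rfl
@[simp] theorem inv_r (g : En) : g⁻¹.r = -g.r + g.x * g.q - tri (-g.x) * g.p := rfl

theorem real_ext {g h : En} (hx : g.x = h.x) (hp : g.p = h.p) (hq : (g.q : ℝ) = h.q)
    (hr : (g.r : ℝ) = h.r) : g = h :=
  En.ext hx hp (by exact_mod_cast hq) (by exact_mod_cast hr)

instance : Group En :=
  Group.ofLeftAxioms
    (fun a b c => real_ext (by simp [add_assoc]) (by simp [add_assoc])
      (by simp only [mul_q, mul_x, mul_p]; push_cast; ring)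
      (by simp only [mul_q, mul_x, mul_p, mul_r]; push_cast; simp only [tri_cast]; push_cast; ring))
    (fun a => real_ext (by simp) (by simp) (by simp) (by simp [tri]))
    (fun a => real_ext (by simp) (by simp) (by simp) (by simp; ring))

/-- first generator -/
def a : En := ⟨1, 0, 0, 0⟩

/-- second generator -/
def b : En := ⟨-1, 1, -1, 1⟩

/-- the flip, as a map -/
def fl (g : En) : En := ⟨-g.x, g.x + g.p, -g.q - g.p - tri (g.x + 1), g.r + 2 * g.q + g.p + tet (g.x + 2)⟩

theorem fl_fl (g : En) : fl (fl g) = g :=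
  real_ext (by simp [fl]) (by simp [fl])
    (by simp only [fl]; push_cast; simp only [tri_cast]; push_cast; ring)
    (by simp only [fl]; push_cast; simp only [tri_cast, tet_cast]; push_cast; ring)

theorem fl_mul (g h : En) : fl (g * h) = fl g * fl h :=
  real_ext (by simp [fl]; ring) (by simp [fl]; ring)
    (by simp only [fl, mul_q, mul_x, mul_p]; push_cast; simp only [tri_cast]; push_cast; ring)
    (by simp only [fl, mul_q, mul_x, mul_p, mul_r]; push_cast; simp only [tri_cast, tet_cast]
        push_cast; ring)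

/-- the flip, as an automorphism -/
def flA : MulAut En where
  toFun := fl
  invFun := fl
  left_inv := fl_fl
  right_inv := fl_fl
  map_mul' := fl_mul

theorem fl_a : fl a = b := by decide
theorem fl_b : fl b = a := by decide

/-- the action of the group of order two -/
def act : ℤˣ →* MulAut En where
  toFun u := if u = 1 then 1 else flA
  map_one' := by simp
  map_mul' u v := by
    have h : flA * flA = 1 := MulEquiv.ext fl_fl
    rcases Int.units_eq_one_or u with rfl | rfl <;> rcases Int.units_eq_one_or v with rfl | rfl <;>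
      simp [h]

theorem act_one (g : En) : act 1 g = g := by simp

theorem act_neg (g : En) : act (-1) g = fl g := by
  have : (-1 : ℤˣ) ≠ 1 := by decide
  simp [act, this, flA]

end En

/-- The extension of the Engel lattice by the flip. -/
abbrev VE : Type := En ⋊[En.act] ℤˣ

/-- the generators of the Engel lattice -/
def SE : Finset En := {En.a, En.b}

/-- the generator of infinite order -/
def va : VE := ⟨En.a, 1⟩

/-- the generator of order two -/
def vt : VE := ⟨1, -1⟩

open Classical in
/-- the generators of the extension -/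
noncomputable def SV : Finset VE := {va, vt}

/-- the type of a letter: `1` for the first generator and its inverse, `-1` otherwise -/
def ty (s : En) : ℤˣ := if s.p = 0 then 1 else -1

/-- the length of the word over `SV` that follows a word over `SE` from the state `σ` -/
def kap : ℤˣ → List En → ℕ
  | _, [] => 0
  | σ, s :: l => (if ty s = σ then 1 else 2) + kap (ty s) l

/-- the end point of the model path, perturbed by `i` and `j` -/
def elt (n s x₀ x₁ i j : ℕ) : En :=
  ⟨(n : ℤ) - 2 * s, (s : ℤ) - x₁, s * x₀ - tri x₁ + i, s * tri x₀ - tet x₁ + j⟩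

/-- the range of the parameters -/
structure Par (h k n s x₀ x₁ i j : ℕ) : Prop where
  k_le : k ≤ 101 * h
  n_ge : 99 * h ≤ n
  n_le : n ≤ k
  s_ge : 4 * h ≤ s
  s_lt : s < 5 * h
  x₀_ge : 87 * h ≤ x₀
  x₀_lt : x₀ < 88 * h
  x₁_ge : h ≤ x₁
  x₁_lt : x₁ < 2 * h
  i_lt : i < h
  j_lt : j < h ^ 2

end Pool.Agent.MP_b3b911_al.Fil
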