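import Pool.Agent.MP_b3b911_al.Fil.EBig

namespace Pool.Agent.MP_b3b911_al.Fil

open scoped commutatorElement

/-- elements with vanishing first two coordinates -/
def EGrp_K1 : Subgroup En where
  carrier := {g | g.x = 0 ∧ g.p = 0}
  mul_mem' := fun ha hb => ⟨by simp [ha.1, hb.1], by simp [ha.2, hb.2]⟩
  one_mem' := ⟨rfl, rfl⟩
  inv_mem' := fun ha => ⟨by simp [ha.1], by simp [ha.2]⟩

/-- elements with vanishing first three coordinates -/
def EGrp_K2 : Subgroup En where
  carrier := {g | g.x = 0 ∧ g.p = 0 ∧ g.q = 0}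
  mul_mem' := fun ha hb =>
    ⟨by simp [ha.1, hb.1], by simp [ha.2.1, hb.2.1], by simp [ha.1, ha.2.2, hb.2.2]⟩
  one_mem' := ⟨rfl, rfl, rfl⟩
  inv_mem' := fun ha => ⟨by simp [ha.1], by simp [ha.2.1], by simp [ha.1, ha.2.2]⟩

theorem EGrp_one : (⊤ : Subgroup En).lowerCentralSeries 1 ≤ EGrp_K1 := by
  rw [Subgroup.lowerCentralSeries_succ, Subgroup.commutator_le]
  intro g _ h _
  exact ⟨by simp [commutatorElement_def], by simp [commutatorElement_def]⟩

theorem EGrp_two : (⊤ : Subgroup En).lowerCentralSeries 2 ≤ EGrp_K2 := by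
  rw [Subgroup.lowerCentralSeries_succ, Subgroup.commutator_le]
  intro g hg h _
  obtain ⟨h1, h2⟩ := EGrp_one hg
  exact ⟨by simp [commutatorElement_def], by simp [commutatorElement_def],
    by simp [commutatorElement_def, h1, h2]⟩

theorem EGrp_three : (⊤ : Subgroup En).lowerCentralSeries 3 = ⊥ := by
  rw [Subgroup.lowerCentralSeries_succ, eq_bot_iff, Subgroup.commutator_le]
  intro g hg h _
  obtain ⟨h1, h2, h3⟩ := EGrp_two hg
  rw [Subgroup.mem_bot, commutatorElement_eq_one_iff_mul_comm]
  ext <;> simp [h1, h2, h3, tri, add_comm]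

theorem EGrp_ne : (⊤ : Subgroup En).lowerCentralSeries 2 ≠ ⊥ := by
  intro h
  have h1 : ⁅⁅En.a, En.b⁆, En.a⁆ ∈ (⊤ : Subgroup En).lowerCentralSeries 2 :=
    Subgroup.commutator_mem_commutator
      (Subgroup.commutator_mem_commutator (Subgroup.mem_top _) (Subgroup.mem_top _))
      (Subgroup.mem_top _)
  rw [h, Subgroup.mem_bot] at h1
  revert h1
  decide

theorem EGrp_nil : Group.IsNilpotent En :=
  Subgroup.nilpotent_iff_lowerCentralSeries.2 ⟨3, EGrp_three⟩

theorem EGrp_class : Group.nilpotencyClass En = 3 := by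
  have := EGrp_nil
  have h1 := Subgroup.lowerCentralSeries_eq_bot_iff_nilpotencyClass_le.1 EGrp_three
  have h2 : ¬ Group.nilpotencyClass En ≤ 2 := fun h =>
    EGrp_ne (Subgroup.lowerCentralSeries_eq_bot_iff_nilpotencyClass_le.2 h)
  omega

theorem closure_SV : Subgroup.closure (SV : Set VE) = ⊤ := by
  have ha : va ∈ Subgroup.closure (SV : Set VE) := Subgroup.subset_closure (by simp [SV])
  have ht : vt ∈ Subgroup.closure (SV : Set VE) := Subgroup.subset_closure (by simp [SV])
  have hb : (SemidirectProduct.inl En.b : VE) = vt * va * vt := by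
    refine SemidirectProduct.ext ?_ ?_
    · have h1 : En.fl 1 = 1 := by decide
      simp [vt, va, En.act_neg, En.fl_a, h1]
    · simp [vt, va]
  have hl : ∀ g : En, (SemidirectProduct.inl g : VE) ∈ Subgroup.closure (SV : Set VE) := by
    have h : Subgroup.closure (SE : Set En) ≤
        (Subgroup.closure (SV : Set VE)).comap SemidirectProduct.inl := by
      rw [Subgroup.closure_le]
      intro s hs
      simp only [SE, Finset.coe_insert, Finset.coe_singleton, Set.mem_insert_iff,
        Set.mem_singleton_iff] at hs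
      rcases hs with rfl | rfl
      · exact ha
      · change (SemidirectProduct.inl En.b : VE) ∈ Subgroup.closure (SV : Set VE)
        rw [hb]
        exact mul_mem (mul_mem ht ha) ht
    intro g
    exact h (closure_SE ▸ Subgroup.mem_top g)
  rw [eq_top_iff]
  intro g _
  rw [← SemidirectProduct.inl_left_mul_inr_right g]
  refine mul_mem (hl _) ?_
  rcases Int.units_eq_one_or g.right with h | h
  · rw [h, map_one]
    exact one_mem _
  · rw [h]
    exact ht

theorem card_SV : SV.card = 2 := by
  classical
  have h : va ≠ vt := fun h => by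
    have h1 : (1 : ℤˣ) = -1 := congrArg SemidirectProduct.right h
    revert h1
    decide
  unfold SV
  convert Finset.card_pair h

theorem exists_index_two : ∃ H : Subgroup VE, H.index = 2 ∧ Group.IsNilpotent H ∧
    Group.nilpotencyClass H = 3 := by
  have := EGrp_nil
  let e : En ≃* (SemidirectProduct.inl : En →* VE).range :=
    MonoidHom.ofInjective SemidirectProduct.inl_injective
  have hn : Group.IsNilpotent (SemidirectProduct.inl : En →* VE).range :=
    Group.nilpotent_of_mulEquiv e
  refine ⟨(SemidirectProduct.inl : En →* VE).range, ?_, hn, le_antisymm ?_ ?_⟩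
  · rw [SemidirectProduct.range_inl_eq_ker_rightHom, Subgroup.index_ker,
      MonoidHom.range_eq_top_of_surjective _ SemidirectProduct.rightHom_surjective,
      Subgroup.card_top, Nat.card_eq_fintype_card]
    rfl
  · rw [← EGrp_class]
    exact Group.nilpotencyClass_le_of_surjective e.toMonoidHom e.surjective
  · rw [← EGrp_class]
    exact Group.nilpotencyClass_le_of_surjective e.symm.toMonoidHom e.symm.surjective

end Pool.Agent.MP_b3b911_al.Fil
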