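import Pool.Agent.MP_b3b911_al.Fil.EPre
import Pool.Agent.MP_b3b911_al.Fil.EKap

open Filter Topology

namespace Pool.Agent.MP_b3b911_al.Fil

theorem ELow_ev {η : ℝ} (hη : 0 < η) (A : ℝ) : ∀ᶠ k : ℕ in atTop, A ≤ η * k :=
  (tendsto_natCast_atTop_atTop.const_mul_atTop hη).eventually_ge_atTop A

theorem ELow_bad {η : ℝ} {k m : ℕ} (h1 : 1 ≤ η * k) (hm : m ≤ k) :
    (Set.ncard {e : En | Ball SE m e ∧ |(e.x : ℝ)| < η * k} : ℝ) ≤ 81 * η * (k : ℝ) ^ 7 := by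
  set u : ℕ := ⌊η * k⌋₊ with hu
  have hu1 : (u : ℝ) ≤ η * k := Nat.floor_le (by linarith)
  have hk : 1 ≤ k := by
    rcases Nat.eq_zero_or_pos k with rfl | h
    · simp at h1
      linarith
    · exact h
  let F : Finset (ℤ × ℤ × ℤ × ℤ) := Finset.Icc (-(u : ℤ)) u ×ˢ Finset.Icc (-(k : ℤ)) k ×ˢ
    Finset.Icc (-((k ^ 2 : ℕ) : ℤ)) (k ^ 2 : ℕ) ×ˢ Finset.Icc (-((k ^ 3 : ℕ) : ℤ)) (k ^ 3 : ℕ)
  have hI : ∀ n : ℕ, (Finset.Icc (-(n : ℤ)) n).card = 2 * n + 1 := fun n => by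
    rw [Int.card_Icc]
    omega
  have hF : F.card = (2 * u + 1) * ((2 * k + 1) * ((2 * k ^ 2 + 1) * (2 * k ^ 3 + 1))) := by
    simp only [F, Finset.card_product, hI]
  have h2 : Set.ncard {e : En | Ball SE m e ∧ |(e.x : ℝ)| < η * k} ≤ F.card := by
    rw [← Set.ncard_coe_finset]
    refine Set.ncard_le_ncard_of_injOn (fun e => (e.x, e.p, e.q, e.r)) ?_ ?_ F.finite_toSet
    · rintro e ⟨⟨l, hl, hw, rfl⟩, hx⟩
      obtain ⟨-, h3, h4, h5⟩ := ebig hw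
      have hl1 : (l.length : ℤ) ≤ k := by
        have : l.length ≤ m := by exact_mod_cast hl
        exact_mod_cast this.trans hm
      have h6 : |l.prod.x| ≤ u := by
        have h7 : ((|l.prod.x| : ℤ) : ℝ) < (u + 1 : ℤ) := by
          push_cast
          exact hx.trans (Nat.lt_floor_add_one _)
        have h8 : |l.prod.x| < (u + 1 : ℤ) := by exact_mod_cast h7
        omega
      have h7 : (l.length : ℤ) ^ 2 ≤ ((k ^ 2 : ℕ) : ℤ) := by
        push_cast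
        gcongr
      have h8 : (l.length : ℤ) ^ 3 ≤ ((k ^ 3 : ℕ) : ℤ) := by
        push_cast
        gcongr
      simp only [F, Finset.coe_product, Set.mem_prod, Finset.coe_Icc, Set.mem_Icc, ← abs_le]
      exact ⟨h6, h3.trans hl1, h4.trans h7, h5.trans h8⟩
    · intro e _ e' _ h
      simp only [Prod.mk.injEq] at h
      exact En.ext h.1 h.2.1 h.2.2.1 h.2.2.2
  have h3 : (F.card : ℝ) ≤ (3 * (η * k)) * ((3 * k) * ((3 * (k : ℝ) ^ 2) * (3 * (k : ℝ) ^ 3))) := by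
    have hk1 : (1 : ℝ) ≤ k := by exact_mod_cast hk
    have hk2 : (1 : ℝ) ≤ (k : ℝ) ^ 2 := one_le_pow₀ hk1
    have hk3 : (1 : ℝ) ≤ (k : ℝ) ^ 3 := one_le_pow₀ hk1
    rw [hF]
    push_cast
    gcongr <;> linarith
  calc _ ≤ (F.card : ℝ) := by exact_mod_cast h2
    _ ≤ _ := h3
    _ = _ := by ring

theorem elow_pt {η : ℝ} (hη : 0 < η) (hη1 : η < 1) : ∀ᶠ k : ℕ in atTop, ∀ e : En,
    Ball SE ((1 - η) * k) e → η * k ≤ |(e.x : ℝ)| → ∀ ε : ℤˣ, Ball SV k (⟨e, ε⟩ : VE) := by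
  obtain ⟨C, hC, H⟩ := eh2 1
  obtain ⟨T, hT⟩ := exists_nat_ge (4 / η)
  have hT4 : 4 ≤ η * T := by
    rw [div_le_iff₀ hη] at hT
    linarith
  have hT1 : (1 : ℝ) ≤ T := by
    have : η * T ≤ 1 * T := mul_le_mul_of_nonneg_right hη1.le (Nat.cast_nonneg T)
    linarith
  filter_upwards [ELow_ev hη 1, ELow_ev hη (4 * T * η⁻¹ ^ 3),
    ELow_ev hη (2 * (3 + 3 * (C * (4 * T) * η⁻¹ ^ 3)))] with k h1 h2 h3
  rintro e ⟨l, hl, hw, rfl⟩ hx ε
  have hk0 : (0 : ℝ) ≤ k := Nat.cast_nonneg k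
  have hk : η * k ≤ k := by nlinarith
  have hk1 : (0 : ℝ) < k := by linarith
  have hd : (k : ℝ) / (η * k) = η⁻¹ := by field_simp
  have hlk : (l.length : ℝ) ≤ k := by linarith
  have hl0 : (0 : ℝ) ≤ l.length := Nat.cast_nonneg _
  obtain ⟨l', hw', hl', hkap, hx', hp', hq', hr'⟩ := esort T (by exact_mod_cast hT1) hw
  have hq : |(l.prod.q : ℝ) - l'.prod.q| ≤ 4 * T * k := by
    have h4 : |(l'.prod.q : ℝ) - l.prod.q| ≤ 2 * T * l.length := by exact_mod_cast hq'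
    rw [abs_sub_comm]
    refine h4.trans ?_
    gcongr
    norm_num
  have hr : |(l.prod.r : ℝ) - l'.prod.r| ≤ 4 * T * (k : ℝ) ^ 2 := by
    have h4 : |(l'.prod.r : ℝ) - l.prod.r| ≤ 4 * T * (l.length : ℝ) ^ 2 := by exact_mod_cast hr'
    rw [abs_sub_comm]
    refine h4.trans ?_
    gcongr
  obtain ⟨l'', hw'', hp'', hs, hl''⟩ := H k (η * k) (4 * T) h1 hk (by linarith)
    (by rw [hd]; linarith) l' hw' (by rw [hl']; exact hlk)
    ⟨l'.length, by rw [List.take_length, hx']; exact hx⟩ l.prod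
    (by rw [hx', sub_self, abs_zero]; linarith) (by rw [hp', sub_self, abs_zero]; linarith) hq hr
  rw [hd, hl'] at hl''
  have h4 : (kap 1 l'' : ℝ) + 3 * l.length ≤ kap 1 l' + 3 * l''.length := by
    rw [← hl']
    exact_mod_cast kap_sub hs 1
  have h5 : (kap 1 l' : ℝ) ≤ l.length + 2 * (((l.length / T : ℕ) : ℝ) + 1) := by
    exact_mod_cast hkap 1
  have h6 : ((l.length / T : ℕ) : ℝ) ≤ η * k / 4 := by
    refine Nat.cast_div_le.trans ?_
    rw [div_le_iff₀ (by linarith)]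
    nlinarith
  rw [← hp'']
  exact (kap_ball hw'' ε).mono (by linarith)

theorem elower {η : ℝ} (hη : 0 < η) (hη1 : η < 1) : ∀ᶠ k : ℕ in atTop, ∀ m : ℕ,
    (m : ℝ) ≤ (1 - η) * k → 2 * ((growth SE m : ℝ) - 81 * η * (k : ℝ) ^ 7) ≤ growth SV k := by
  filter_upwards [elow_pt hη hη1, ELow_ev hη 1] with k hk h1 m hm
  have hmk : m ≤ k := by
    have : (m : ℝ) ≤ k := by linarith
    exact_mod_cast this
  have h2 := ELow_bad h1 hmk
  have h3 : growth SE m ≤ Set.ncard {e : En | Ball SE m e ∧ η * k ≤ |(e.x : ℝ)|} +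
      Set.ncard {e : En | Ball SE m e ∧ |(e.x : ℝ)| < η * k} := by
    rw [growth_eq]
    refine le_of_eq_of_le ?_ (Set.ncard_union_le _ _)
    congr 1
    ext e
    simp only [Set.mem_setOf_eq, Set.mem_union, ← and_or_left, le_or_gt, and_true]
  have h4 : Set.ncard {e : En | Ball SE m e ∧ η * k ≤ |(e.x : ℝ)|} * 2 ≤ growth SV k := by
    have h5 : (Set.univ : Set ℤˣ).ncard = 2 := by
      rw [Set.ncard_univ, Nat.card_eq_fintype_card, Fintype.card_units_int]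
    rw [growth_eq, ← h5, ← Set.ncard_prod]
    refine Set.ncard_le_ncard_of_injOn (fun y => (⟨y.1, y.2⟩ : VE)) ?_ ?_ (ball_finite _ _)
    · rintro ⟨e, ε⟩ ⟨⟨h6, h7⟩, -⟩
      exact hk e (h6.mono hm) h7 ε
    · intro y _ y' _ h
      exact Prod.ext (congrArg SemidirectProduct.left h) (congrArg SemidirectProduct.right h)
  have h3' : (growth SE m : ℝ) ≤ Set.ncard {e : En | Ball SE m e ∧ η * k ≤ |(e.x : ℝ)|} +
      Set.ncard {e : En | Ball SE m e ∧ |(e.x : ℝ)| < η * k} := by exact_mod_cast h3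
  have h4' : (Set.ncard {e : En | Ball SE m e ∧ η * k ≤ |(e.x : ℝ)|} : ℝ) * 2 ≤ growth SV k := by
    exact_mod_cast h4
  linarith

end Pool.Agent.MP_b3b911_al.Fil
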