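import Pool.Agent.MP_b3b911_al.Fil.EUp
import Pool.Agent.MP_b3b911_al.Fil.ELow
import Pool.Agent.MP_b3b911_al.Fil.EGrp
import Pool.Agent.MP_b3b911_al.Fil.CLog

open Filter Topology

namespace Pool.Agent.MP_b3b911_al.Fil

theorem efinal_floor {a : ℕ → ℝ} {c t : ℝ} (ht : 0 < t)
    (h : Tendsto (fun k : ℕ => a k / (k : ℝ) ^ 7) atTop (𝓝 c)) :
    Tendsto (fun k : ℕ => a ⌊t * k⌋₊ / (k : ℝ) ^ 7) atTop (𝓝 (c * t ^ 7)) := by
  have h1 := tendsto_nat_floor_mul_atTop t ht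
  have h2 := ((tendsto_nat_floor_mul_div_atTop ht.le).comp tendsto_natCast_atTop_atTop).pow 7
  refine ((h.comp h1).mul h2).congr' ?_
  filter_upwards [h1.eventually_gt_atTop 0] with k hk
  have hk' : ((⌊t * k⌋₊ : ℕ) : ℝ) ≠ 0 := by exact_mod_cast hk.ne'
  simp only [Function.comp, div_pow]
  field_simp

theorem unbounded : ∃ (G : Type) (_ : Group G) (S : Finset G) (H : Subgroup G),
    Subgroup.closure (S : Set G) = ⊤ ∧ S.card = 2 ∧ H.index = 2 ∧ Group.IsNilpotent H ∧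
    Group.nilpotencyClass H = 3 ∧ ∃ c c' : ℝ, 0 < c ∧ 0 < c' ∧
      Tendsto (fun k : ℕ => Real.log (growth S k) / Real.log k) atTop (𝓝 7) ∧
      Tendsto (fun k : ℕ => (growth S k : ℝ) / (k : ℝ) ^ 7) atTop (𝓝 c) ∧
      ∀ᶠ k : ℕ in atTop,
        ((growth S k : ℝ) - c * (k : ℝ) ^ 7) / (k : ℝ) ^ 6 ≤ -c' * (k : ℝ) ^ (1 / 3 : ℝ) := by
  obtain ⟨c0, C, hc0, hC⟩ := ecore
  obtain ⟨c1, hc1, hup⟩ := eupper
  obtain ⟨H, h1, h2, h3⟩ := exists_index_two
  have hE : Tendsto (fun k : ℕ => (growth SE k : ℝ) / (k : ℝ) ^ 7) atTop (𝓝 c0) :=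
    ratio_of_bound (e := 6) hC
  have hV : Tendsto (fun k : ℕ => (growth SV k : ℝ) / (k : ℝ) ^ 7) atTop (𝓝 (2 * c0)) := by
    refine tendsto_order.2 ⟨fun a ha => ?_, fun a ha => ?_⟩
    · have hc : Tendsto (fun η : ℝ => 2 * (c0 * (1 - η) ^ 7 - 81 * η)) (𝓝[>] 0) (𝓝 (2 * c0)) := by
        have : Continuous fun η : ℝ => 2 * (c0 * (1 - η) ^ 7 - 81 * η) := by fun_prop
        simpa using (this.tendsto 0).mono_left (nhdsWithin_le_nhds (s := Set.Ioi 0))
      obtain ⟨η, hη, hη0, hη1⟩ :=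
        ((hc.eventually_const_lt ha).and (Ioo_mem_nhdsGT (zero_lt_one' ℝ))).exists
      have ht : 0 < 1 - η := sub_pos.2 hη1
      have h4 := ((efinal_floor ht hE).sub_const (81 * η)).const_mul 2
      filter_upwards [h4.eventually_const_lt hη, elower hη0 hη1, eventually_gt_atTop 0]
        with k h5 h6 hk
      have hk' : (0 : ℝ) < (k : ℝ) ^ 7 := by positivity
      have h7 := h6 _ (Nat.floor_le (by positivity))
      refine h5.trans_le ?_
      rw [le_div_iff₀ hk']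
      refine le_of_eq_of_le ?_ h7
      field_simp
    · filter_upwards [(hE.const_mul 2).eventually_lt_const ha, hup] with k h5 h6
      refine lt_of_le_of_lt ?_ h5
      rw [← mul_div_assoc]
      refine div_le_div_of_nonneg_right (le_trans (le_add_of_nonneg_right ?_) h6) (by positivity)
      positivity
  refine ⟨VE, inferInstance, SV, H, closure_SV, card_SV, h1, h2, h3, 2 * c0, c1 / 2,
    by positivity, by positivity, by simpa using log_ratio (by positivity) hV, hV, ?_⟩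
  have h4 : Tendsto (fun k : ℕ => (k : ℝ) ^ (1 / 3 : ℝ)) atTop atTop :=
    (tendsto_rpow_atTop (by norm_num)).comp tendsto_natCast_atTop_atTop
  filter_upwards [hup, h4.eventually_ge_atTop (4 * C / c1), eventually_ge_atTop 1] with k h5 h6 hk
  have hk' : (0 : ℝ) < (k : ℝ) ^ 6 := by positivity
  have h7 := (abs_le.1 (hC k hk)).2
  rw [div_le_iff₀ hc1] at h6
  rw [div_le_iff₀ hk']
  nlinarith [mul_le_mul_of_nonneg_right h6 hk'.le]

end Pool.Agent.MP_b3b911_al.Fil
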