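import Pool.Agent.MP_b3b911_al.Fil.EPre

namespace Pool.Agent.MP_b3b911_al.Fil

theorem esys : ∃ Z : Sys SE (Option (Fin 3)), Z.j0 = none ∧ Z.p = 3 ∧ Z.W none = 1 ∧
    Z.W (some 0) = 1 ∧ Z.W (some 1) = 2 ∧ Z.W (some 2) = 3 ∧ ∀ g : En, Z.co g none = g.x ∧
      Z.co g (some 0) = g.p ∧ Z.co g (some 1) = g.q ∧ Z.co g (some 2) = g.r := by
  obtain ⟨Y, h0, hp, hW, hco⟩ := Pre.sys ePreZ
  have hr : ∑ q ∈ Finset.range ePreZ.r, q = 3 := by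
    show ∑ q ∈ Finset.range 3, q = 3
    decide
  refine ⟨Y, h0, hp.trans hr, ?_, ?_, ?_, ?_, fun g => ?_⟩
  · rw [hW]; rfl
  · rw [hW]; rfl
  · rw [hW]; rfl
  · rw [hW]; rfl
  · rw [hco]
    simp only [Option.elim, ePre_V]
    exact ⟨rfl, rfl, rfl, rfl⟩

end Pool.Agent.MP_b3b911_al.Fil
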