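import Pool.Agent.MP_b3b911_al.Fil.ELowP
import Pool.Agent.MP_b3b911_al.Fil.ESys
import Pool.Agent.MP_b3b911_al.Fil.CDyad2

open Filter Topology MeasureTheory

namespace Pool.Agent.MP_b3b911_al.Fil

theorem elow2_inj (ε : ℤˣ) : Function.Injective fun e : En => (⟨e, ε⟩ : VE) :=
  fun _ _ h => congrArg SemidirectProduct.left h

theorem elow2_fin (k : ℝ) (ε : ℤˣ) : {e : En | Ball SV k (⟨e, ε⟩ : VE)}.Finite :=
  Set.Finite.preimage (f := fun e : En => (⟨e, ε⟩ : VE)) (elow2_inj ε).injOn (ball_finite SV k)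

theorem elow2_sum (k : ℕ) : {e : En | Ball SV k (⟨e, 1⟩ : VE)}.ncard +
    {e : En | Ball SV k (⟨e, -1⟩ : VE)}.ncard ≤ growth SV k := by
  rw [growth_eq, ← Set.ncard_image_of_injective _ (elow2_inj 1),
    ← Set.ncard_image_of_injective _ (elow2_inj (-1)), ← Set.ncard_union_eq ?_
      ((elow2_fin k 1).image _) ((elow2_fin k (-1)).image _)]
  · refine Set.ncard_le_ncard ?_ (ball_finite SV k)
    rintro g (⟨e, he, rfl⟩ | ⟨e, he, rfl⟩)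
    · exact he
    · exact he
  · refine Set.disjoint_left.2 ?_
    rintro g ⟨e, -, rfl⟩ ⟨e', -, h⟩
    have h1 : (-1 : ℤˣ) = 1 := congrArg SemidirectProduct.right h
    exact absurd h1 (by decide)

theorem elower2 : ∃ c C C' : ℝ, 0 < c ∧
    (∀ k : ℕ, 1 ≤ k → |(growth SE k : ℝ) - c * (k : ℝ) ^ 7| ≤ C * (k : ℝ) ^ 6) ∧
    ∀ k : ℕ, 1 ≤ k →
      2 * (c * (k : ℝ) ^ 7 - C' * (k : ℝ) ^ 6 * (k : ℝ) ^ (1 / 3 : ℝ)) ≤ growth SV k := by
  classical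
  obtain ⟨Z, hj0, hp, hW0, hW1, hW2, hW3, hco⟩ := esys
  have hsum : ∑ j, Z.W j = 7 := by
    rw [Fintype.sum_option, Fin.sum_univ_three, hW0, hW1, hW2, hW3]
    rfl
  obtain ⟨C, hC⟩ := Z.core_vol
  obtain ⟨R, hR, hlow⟩ := Z.low
  obtain ⟨A, hA, hloc⟩ := Z.locate R hR
  obtain ⟨Cp, hCp, hpt⟩ := elow2_pt (R + 1) (by linarith)
  obtain ⟨C', hC'⟩ := Z.fam.dyad_low2 Z.W_pos Z.j0 Z.W_j0 Z.p Z.hp A hA
  rw [hsum] at hC hC'
  refine ⟨volume.real (Z.B 1), C, C' * Cp, CCore_pos Z, hC, fun k hk => ?_⟩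
  have hk1 : (1 : ℝ) ≤ k := by exact_mod_cast hk
  have hpw : ∀ j, (1 : ℝ) ≤ (k : ℝ) ^ (Z.W j - 1) := fun j => one_le_pow₀ hk1
  have hk3 : (1 : ℝ) ≤ (k : ℝ) ^ (1 / 3 : ℝ) := Real.one_le_rpow hk1 (by norm_num)
  have hM : (1 : ℝ) ≤ Cp * (k : ℝ) ^ (1 / 3 : ℝ) := one_le_mul_of_one_le_of_one_le hCp hk3
  have key : ∀ ε : ℤˣ, (k : ℝ) ^ 7 * volume.real (Z.B 1) ≤
      ({e : En | Ball SV k (⟨e, ε⟩ : VE)}.ncard : ℝ) +
        C' * (Cp * (k : ℝ) ^ (1 / 3 : ℝ)) * (k : ℝ) ^ 6 := by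
    intro ε
    obtain ⟨hv1, hv2⟩ := Z.vol_pt (elow2_fin k ε)
    rw [← hv2]
    refine hC' k hk _ hM _ hv1 ?_
    intro z hz hzD
    have hex : ∃ n : ℕ, z ∈ Z.B n := ⟨k, hz⟩
    have hn0 : Nat.find hex ≤ k := Nat.find_min' hex hz
    have hn0' : ((Nat.find hex : ℕ) : ℝ) ≤ k := by exact_mod_cast hn0
    obtain ⟨u, hu, hl, hj⟩ := hlow k (Nat.find hex : ℕ) hk1 hn0' z (Nat.find_spec hex)
    have hlk : (u.length : ℝ) ≤ k := hl.trans hn0'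
    have hl' : u.length ≤ k := by exact_mod_cast hlk
    rcases hloc k hk u hu hl' z hj with h | ⟨i, hi, hb, hn⟩
    · exact Or.inl h
    · refine Or.inr ⟨i, hi, hb, fun hlam hzB => hzD ?_⟩
      rw [hp] at hlam hzB
      have h2 : (1 : ℝ) ≤ 2 ^ i := one_le_pow₀ (by norm_num)
      have h5 := Z.nonneg_B hzB
      have h6 : z ∈ Z.B
          (⌈(k : ℝ) - Cp * (k : ℝ) ^ (1 / 3 : ℝ) * ((k : ℝ) / 2 ^ i) ^ 3⌉₊ : ℕ) :=
        Z.mono_B (Nat.le_ceil _) hzB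
      have h7 : ((Nat.find hex : ℕ) : ℝ) ≤
          (⌈(k : ℝ) - Cp * (k : ℝ) ^ (1 / 3 : ℝ) * ((k : ℝ) / 2 ^ i) ^ 3⌉₊ : ℕ) := by
        exact_mod_cast Nat.find_min' hex h6
      have h8 := (Nat.ceil_lt_add_one h5).le
      have hd : ∀ j, |(Z.co (Z.pt z) j : ℝ) - Z.co u.prod j| ≤
          (R + 1) * (k : ℝ) ^ (Z.W j - 1) := fun j => by
        have e1 := CCore_floor Z z j
        have e2 := hj j
        have e3 := abs_sub_le (Z.co (Z.pt z) j : ℝ) (z j) (Z.co u.prod j : ℝ)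
        rw [abs_sub_comm (z j)] at e3
        have e4 := hpw j
        rw [add_mul, one_mul]
        linarith
      have d0 := hd none
      have d1 := hd (some 0)
      have d2 := hd (some 1)
      have d3 := hd (some 2)
      rw [(hco _).1, (hco _).1, hW0, Nat.sub_self, pow_zero, mul_one] at d0
      rw [(hco _).2.1, (hco _).2.1, hW1, Nat.sub_self, pow_zero, mul_one] at d1
      rw [(hco _).2.2.1, (hco _).2.2.1, hW2, show 2 - 1 = 1 from rfl, pow_one] at d2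
      rw [(hco _).2.2.2, (hco _).2.2.2, hW3, show 3 - 1 = 2 from rfl] at d3
      have hn' : ∃ n, (2 : ℝ) ^ i ≤ |((u.take n).prod.x : ℝ)| := by
        obtain ⟨n, hn⟩ := hn
        rw [hj0, (hco _).1] at hn
        exact ⟨n, hn⟩
      have h9 := hpt k (2 ^ i) h2 hi hlam u hu hl' hn' (Z.pt z) d0 d1 d2 d3 ε
      exact h9.mono (by linarith)
  have h1 := key 1
  have h2 := key (-1)
  have h3 : (({e : En | Ball SV k (⟨e, 1⟩ : VE)}.ncard : ℕ) : ℝ) +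
      ({e : En | Ball SV k (⟨e, -1⟩ : VE)}.ncard : ℕ) ≤ growth SV k := by
    exact_mod_cast elow2_sum k
  linarith

end Pool.Agent.MP_b3b911_al.Fil
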