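import Pool.Agent.MP_b3b911_al.Fil.EUp
import Pool.Agent.MP_b3b911_al.Fil.ELow2
import Pool.Agent.MP_b3b911_al.Fil.EGrp
import Pool.Agent.MP_b3b911_al.Fil.CLog

open Filter Topology MeasureTheory

namespace Pool.Agent.MP_b3b911_al.Fil

theorem EFinal2_small (a : ℝ) :
    Tendsto (fun k : ℕ => a * (k : ℝ) ^ (1 / 3 : ℝ) / k) atTop (𝓝 0) := by
  have h := ((tendsto_rpow_neg_atTop (y := 2 / 3) (by norm_num)).comp
    tendsto_natCast_atTop_atTop).const_mul a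
  rw [mul_zero] at h
  refine h.congr' ?_
  filter_upwards [eventually_gt_atTop 0] with k hk
  have hk' : (0 : ℝ) < k := by exact_mod_cast hk
  rw [mul_div_assoc, ← Real.rpow_sub_one hk'.ne']
  norm_num

theorem sharp : ∃ (G : Type) (_ : Group G) (S : Finset G) (H : Subgroup G),
    Subgroup.closure (S : Set G) = ⊤ ∧ S.card = 2 ∧ H.index = 2 ∧ Group.IsNilpotent H ∧
    Group.nilpotencyClass H = 3 ∧ ∃ c c₁ c₂ : ℝ, 0 < c ∧ 0 < c₁ ∧
      Tendsto (fun k : ℕ => Real.log (growth S k) / Real.log k) atTop (𝓝 7) ∧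
      Tendsto (fun k : ℕ => (growth S k : ℝ) / (k : ℝ) ^ 7) atTop (𝓝 c) ∧
      ∀ᶠ k : ℕ in atTop,
        -c₂ * (k : ℝ) ^ (1 / 3 : ℝ) ≤ ((growth S k : ℝ) - c * (k : ℝ) ^ 7) / (k : ℝ) ^ 6 ∧
        ((growth S k : ℝ) - c * (k : ℝ) ^ 7) / (k : ℝ) ^ 6 ≤ -c₁ * (k : ℝ) ^ (1 / 3 : ℝ) := by
  obtain ⟨c0, C, C', hc0, hC, hlow⟩ := elower2
  obtain ⟨c1, hc1, hup⟩ := eupper
  obtain ⟨H, h1, h2, h3⟩ := exists_index_two
  have h4 : Tendsto (fun k : ℕ => (k : ℝ) ^ (1 / 3 : ℝ)) atTop atTop :=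
    (tendsto_rpow_atTop (by norm_num)).comp tendsto_natCast_atTop_atTop
  have hev : ∀ᶠ k : ℕ in atTop,
      -(2 * C') * (k : ℝ) ^ (1 / 3 : ℝ) ≤
        ((growth SV k : ℝ) - 2 * c0 * (k : ℝ) ^ 7) / (k : ℝ) ^ 6 ∧
      ((growth SV k : ℝ) - 2 * c0 * (k : ℝ) ^ 7) / (k : ℝ) ^ 6 ≤
        -(c1 / 2) * (k : ℝ) ^ (1 / 3 : ℝ) := by
    filter_upwards [hup, h4.eventually_ge_atTop (4 * C / c1), eventually_ge_atTop 1]
      with k h5 h6 hk
    have hk' : (0 : ℝ) < (k : ℝ) ^ 6 := by positivity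
    have h7 := (abs_le.1 (hC k hk)).2
    have h8 := hlow k hk
    rw [div_le_iff₀ hc1] at h6
    rw [div_le_iff₀ hk', le_div_iff₀ hk']
    exact ⟨by nlinarith, by nlinarith [mul_le_mul_of_nonneg_right h6 hk'.le]⟩
  have hV : Tendsto (fun k : ℕ => (growth SV k : ℝ) / (k : ℝ) ^ 7) atTop (𝓝 (2 * c0)) := by
    have hl := (EFinal2_small (-(2 * C'))).add_const (2 * c0)
    have hu := (EFinal2_small (-(c1 / 2))).add_const (2 * c0)
    rw [zero_add] at hl hu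
    refine tendsto_of_tendsto_of_tendsto_of_le_of_le' hl hu ?_ ?_
    all_goals
      filter_upwards [hev, eventually_gt_atTop 0] with k h hk
      have hk' : (0 : ℝ) < k := by exact_mod_cast hk
      have e : (growth SV k : ℝ) / (k : ℝ) ^ 7 =
          ((growth SV k : ℝ) - 2 * c0 * (k : ℝ) ^ 7) / (k : ℝ) ^ 6 / k + 2 * c0 := by
        field_simp
        ring
      rw [e]
      gcongr
      first | exact h.1 | exact h.2
  exact ⟨VE, inferInstance, SV, H, closure_SV, card_SV, h1, h2, h3, 2 * c0, c1 / 2, 2 * C',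
    by positivity, by positivity, by simpa using log_ratio (by positivity) hV, hV, hev⟩

end Pool.Agent.MP_b3b911_al.Fil
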