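import Pool.Agent.MP_b3b911_al.Fil.NH2
import Pool.Agent.MP_b3b911_al.Fil.CCore

namespace Pool.Agent.MP_b3b911_al.Fil

variable {G : Type*} [Group G] {S : Finset G} {J : Type} [Fintype J] [DecidableEq J]

theorem nsys_bij (Z : Pre S J) :
    Function.Bijective fun (g : G) (o : Option J) => o.elim (Z.X g) (Z.V g) := by
  constructor
  · intro g h hgh
    have h1 : Z.X g = Z.X h := congrFun hgh none
    have h2 : Z.V g = Z.V h := funext fun j => congrFun hgh (some j)
    have h3 : g * Z.t ^ (-Z.X g) = h * Z.t ^ (-Z.X h) := by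
      refine Z.inj _ _ ?_ ?_ h2
      · rw [Z.X_mul, Z.X_tpow]; omega
      · rw [Z.X_mul, Z.X_tpow]; omega
    rw [h1] at h3
    exact mul_right_cancel h3
  · intro y
    obtain ⟨n, hn, hv⟩ := Z.surj fun j => y (some j)
    have hx : Z.X (n * Z.t ^ (y none)) = y none := by
      rw [Z.X_mul, Z.X_tpow, hn, zero_add]
    refine ⟨n * Z.t ^ (y none), funext fun o => ?_⟩
    cases o with
    | none => exact hx
    | some j =>
      change Z.V (n * Z.t ^ (y none)) j = y (some j)
      unfold Pre.V
      rw [hx, mul_assoc, ← zpow_add, add_neg_cancel, zpow_zero, mul_one, hv]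

theorem nsys_ex (Z : Pre S J) : ∃ s ∈ S, Z.X s ≠ 0 := by
  by_contra hc
  push Not at hc
  have h : ∀ g ∈ Subgroup.closure (S : Set G), Z.X g = 0 := by
    intro g hg
    induction hg using Subgroup.closure_induction with
    | mem x hx => exact hc x hx
    | one => exact Z.X_one
    | mul x y _ _ hx hy => rw [Z.X_mul, hx, hy, add_zero]
    | inv x _ hx => rw [Z.X_inv, hx, neg_zero]
  have h1 := h Z.t (Z.gen ▸ Subgroup.mem_top _)
  rw [Z.X_t] at h1
  exact one_ne_zero h1

theorem nsys_hp (Z : Pre S J) :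
    ∑ q ∈ Finset.range Z.r, q + Fintype.card J ≤ ∑ j, Z.w j := by
  have h1 : ∑ j, Z.w j = ∑ j, (Z.w j - 1) + Fintype.card J := by
    rw [← Finset.card_univ, Finset.card_eq_sum_ones, ← Finset.sum_add_distrib]
    exact Finset.sum_congr rfl fun j _ => (Nat.sub_add_cancel (Z.w_pos j)).symm
  rw [h1]
  refine Nat.add_le_add_right ?_ _
  have h2 : Finset.range Z.r ⊆ Finset.univ.image fun j => Z.w j - 1 := by
    intro q hq
    obtain ⟨j, hj⟩ := Z.occ (q + 1) (by omega) (Finset.mem_range.1 hq)
    exact Finset.mem_image.2 ⟨j, Finset.mem_univ _, by omega⟩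
  refine (Finset.sum_le_sum_of_subset h2).trans ?_
  exact Finset.sum_image_le_of_nonneg (f := fun q : ℕ => q) fun _ _ => Nat.zero_le _

theorem Pre.sys (Z : Pre S J) : ∃ Y : Sys S (Option J), Y.j0 = none ∧
    Y.p = ∑ q ∈ Finset.range Z.r, q ∧ (Y.W = fun o => o.elim 1 Z.w) ∧
    Y.co = fun g o => o.elim (Z.X g) (Z.V g) := by
  obtain ⟨c, C1, hC1, h1⟩ := Z.h1
  let Y : Sys S (Option J) :=
    { co := fun g o => o.elim (Z.X g) (Z.V g)
      bij := nsys_bij Z
      j0 := none
      W := fun o => o.elim 1 Z.w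
      W_pos := fun o => by
        cases o with
        | none => exact le_rfl
        | some j => exact Z.w_pos j
      W_j0 := rfl
      co_one := funext fun o => by
        cases o with
        | none => exact Z.X_one
        | some j =>
          change Z.V 1 j = 0
          unfold Pre.V
          rw [Z.X_one, neg_zero, zpow_zero, mul_one, Z.v_one]
          rfl
      add := Z.X_mul
      ex := nsys_ex Z
      c := fun s o => o.elim (Z.X s : ℝ) (c s)
      p := ∑ q ∈ Finset.range Z.r, q
      hp := by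
        have := nsys_hp Z
        rw [Fintype.card_option, Fintype.sum_option]
        simp only [Option.elim]
        omega
      H1 := ⟨C1, hC1, fun K hK g hg s hs o => by
        cases o with
        | none =>
          simp only [Option.elim, Z.X_mul, Nat.sub_self, pow_zero, mul_one, Int.cast_add]
          rw [show (Z.X g : ℝ) + Z.X s - Z.X g - Z.X s = 0 by ring, abs_zero, mul_zero]
          exact hC1
        | some j => exact h1 K hK g hg s hs j⟩
      H2 := fun A => by
        obtain ⟨C, hC, h2⟩ := Z.h2 A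
        refine ⟨C, hC, fun K L R hL hLK hR hA l hl hlK hn g hg => ?_⟩
        refine h2 K L R hL hLK hR hA l hl hlK hn g ?_ fun j => hg (some j)
        have := hg none
        simpa only [Option.elim, Nat.sub_self, pow_zero, mul_one] using this }
  exact ⟨Y, rfl, rfl, rfl, rfl⟩

theorem Pre.core (Z : Pre S J) : ∃ c C : ℝ, 0 < c ∧ ∀ k : ℕ, 1 ≤ k →
    |(growth S k : ℝ) - c * (k : ℝ) ^ (1 + ∑ j, Z.w j)| ≤ C * (k : ℝ) ^ (∑ j, Z.w j) := by
  obtain ⟨Y, -, -, hW, -⟩ := Z.sys
  obtain ⟨c0, C0, hc0, h⟩ := Y.core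
  have hs : ∑ j, Y.W j = 1 + ∑ j, Z.w j := by
    rw [Fintype.sum_option, hW]
    rfl
  refine ⟨c0, C0, hc0, fun k hk => ?_⟩
  have := h k hk
  rwa [hs, Nat.add_sub_cancel_left] at this

end Pool.Agent.MP_b3b911_al.Fil
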