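import Pool.Agent.MP_b3b911_al.Fil.EBig
import Pool.Agent.MP_b3b911_al.Fil.NSys

namespace Pool.Agent.MP_b3b911_al.Fil

theorem ePre_tri0 : tri 0 = 0 := by simp [tri]

theorem ePre_tri1 : tri 1 = 0 := by simp [tri]

theorem ePre_succ (y : ℤ) : tri (y + 1) = tri y + y := by
  rw [tri_add, ePre_tri1]; ring

theorem ePre_conj (g : En) (hg : g.x = 0) (y : ℤ) :
    En.a ^ y * g * En.a ^ (-y) = ⟨0, g.p, g.q + y * g.p, g.r + y * g.q + tri y * g.p⟩ := by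
  rw [a_zpow, a_zpow]
  ext <;> simp [hg]

theorem ePre_ker (g : En) : g * En.a ^ (-g.x) = ⟨0, g.p, g.q, g.r⟩ := by
  rw [a_zpow]
  ext <;> simp

/-- the coordinates -/
def ePreV (g : En) : Fin 3 → ℤ := ![g.p, g.q, g.r]

/-- the weights -/
def ePreW : Fin 3 → ℕ := ![1, 2, 3]

/-- the filtration of the kernel -/
def ePreP (p : ℕ) (g : En) : Prop :=
  g.x = 0 ∧ (2 ≤ p → g.p = 0) ∧ (3 ≤ p → g.q = 0) ∧ (4 ≤ p → g.r = 0)

/-- small elements of the kernel -/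
def ePreSm (K A : ℝ) (g : En) : Prop :=
  1 ≤ K ∧ g.x = 0 ∧ |(g.p : ℝ)| / K + |(g.q : ℝ)| / K ^ 2 + |(g.r : ℝ)| / K ^ 3 ≤ A

theorem ePre_add (x u y : En) (hx : x.x = 0) (hu : u.x = 0) (j : Fin 3) :
    ePreV (x * u * y) j = ePreV (x * y) j + ePreV u j := by
  fin_cases j <;> simp [ePreV, hx, hu, ePre_tri0] <;> ring

theorem ePre_deg (p : ℕ) (g : En) (j : Fin 3) (hp : 1 ≤ p) (hP : ePreP p g) (hw : p ≤ ePreW j) :
    (fwdDiff (1 : ℤ))^[ePreW j - p + 1]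
      (fun y : ℤ => ePreV (En.a ^ y * g * En.a ^ (-y)) j) = 0 := by
  obtain ⟨hx, h2, h3, -⟩ := hP
  simp only [ePre_conj g hx]
  funext y
  fin_cases j
  · have : p = 1 := by simp [ePreW] at hw; omega
    subst this
    simp [ePreW, ePreV, fwdDiff]
  · have hw' : p ≤ 2 := by simpa [ePreW] using hw
    interval_cases p
    · simp [ePreW, ePreV, fwdDiff]; ring
    · simp [ePreW, ePreV, fwdDiff, h2 le_rfl]
  · have hw' : p ≤ 3 := by simpa [ePreW] using hw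
    interval_cases p
    · simp [ePreW, ePreV, fwdDiff, ePre_succ]; ring
    · simp [ePreW, ePreV, fwdDiff, h2 le_rfl]; ring
    · simp [ePreW, ePreV, fwdDiff, h2 (by norm_num), h3 le_rfl]

theorem ePre_winj {i j : Fin 3} (h : ePreW j = ePreW i) : j = i := by
  fin_cases i <;> fin_cases j <;> simp [ePreW] at h ⊢

theorem ePre_top (p : ℕ) (i : Fin 3) (hp : 1 ≤ p) (hw : p ≤ ePreW i) :
    ∃ (q : ℤ) (g : En), 0 < q ∧ ePreP p g ∧ ∀ j, ePreW j = ePreW i →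
      (fwdDiff (1 : ℤ))^[ePreW i - p] (fun y : ℤ => ePreV (En.a ^ y * g * En.a ^ (-y)) j) =
        fun _ => if j = i then q else 0 := by
  have h3 : p ≤ 3 := hw.trans (by fin_cases i <;> simp [ePreW])
  interval_cases p
  · refine ⟨1, ⟨0, 1, 0, 0⟩, one_pos, by simp [ePreP], fun j hj => ?_⟩
    obtain rfl := ePre_winj hj
    simp only [ePre_conj ⟨0, 1, 0, 0⟩ rfl]
    funext y
    fin_cases j
    · simp [ePreW, ePreV]
    · simp [ePreW, ePreV, fwdDiff]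
    · simp [ePreW, ePreV, fwdDiff, ePre_succ]
  · refine ⟨1, ⟨0, 0, 1, 0⟩, one_pos, by simp [ePreP], fun j hj => ?_⟩
    obtain rfl := ePre_winj hj
    simp only [ePre_conj ⟨0, 0, 1, 0⟩ rfl]
    funext y
    fin_cases j
    · simp [ePreW] at hw
    · simp [ePreW, ePreV]
    · simp [ePreW, ePreV, fwdDiff]
  · refine ⟨1, ⟨0, 0, 0, 1⟩, one_pos, by simp [ePreP], fun j hj => ?_⟩
    obtain rfl := ePre_winj hj
    simp only [ePre_conj ⟨0, 0, 0, 1⟩ rfl]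
    funext y
    fin_cases j
    · simp [ePreW] at hw
    · simp [ePreW] at hw
    · simp [ePreW, ePreV]

theorem ePre_bas (p : ℕ) (i : Fin 3) (hw : p ≤ ePreW i) :
    ∃ g, ePreP p g ∧ ePreV g = Pi.single i 1 := by
  fin_cases i
  · have : p ≤ 1 := by simpa [ePreW] using hw
    refine ⟨⟨0, 1, 0, 0⟩, ⟨rfl, fun h => by omega, fun _ => rfl, fun _ => rfl⟩, ?_⟩
    funext j; fin_cases j <;> simp [ePreV]
  · have : p ≤ 2 := by simpa [ePreW] using hw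
    refine ⟨⟨0, 0, 1, 0⟩, ⟨rfl, fun _ => rfl, fun h => by omega, fun _ => rfl⟩, ?_⟩
    funext j; fin_cases j <;> simp [ePreV]
  · have : p ≤ 3 := by simpa [ePreW] using hw
    refine ⟨⟨0, 0, 0, 1⟩, ⟨rfl, fun _ => rfl, fun _ => rfl, fun h => by omega⟩, ?_⟩
    funext j; fin_cases j <;> simp [ePreV]

theorem ePre_sm_mul (K A B : ℝ) (x y : En) (hx : ePreSm K A x) (hy : ePreSm K B y) :
    ePreSm K (A + B) (x * y) := by
  obtain ⟨hK, hx0, hx1⟩ := hx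
  obtain ⟨-, hy0, hy1⟩ := hy
  refine ⟨hK, by simp [hx0, hy0], ?_⟩
  have hK0 : 0 < K := by linarith
  have e1 : ((x * y).p : ℝ) = x.p + y.p := by simp
  have e2 : ((x * y).q : ℝ) = x.q + y.q := by simp [hx0]
  have e3 : ((x * y).r : ℝ) = x.r + y.r := by simp [hx0, ePre_tri0]
  rw [e1, e2, e3]
  have t1 : |(x.p : ℝ) + y.p| / K ≤ |(x.p : ℝ)| / K + |(y.p : ℝ)| / K := by
    rw [← add_div]; exact div_le_div_of_nonneg_right (abs_add_le _ _) hK0.le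
  have t2 : |(x.q : ℝ) + y.q| / K ^ 2 ≤ |(x.q : ℝ)| / K ^ 2 + |(y.q : ℝ)| / K ^ 2 := by
    rw [← add_div]; exact div_le_div_of_nonneg_right (abs_add_le _ _) (by positivity)
  have t3 : |(x.r : ℝ) + y.r| / K ^ 3 ≤ |(x.r : ℝ)| / K ^ 3 + |(y.r : ℝ)| / K ^ 3 := by
    rw [← add_div]; exact div_le_div_of_nonneg_right (abs_add_le _ _) (by positivity)
  linarith

theorem ePre_sm_inv (K A : ℝ) (x : En) (hx : ePreSm K A x) : ePreSm K A x⁻¹ := by
  obtain ⟨hK, hx0, hx1⟩ := hx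
  refine ⟨hK, by simp [hx0], ?_⟩
  have e1 : ((x⁻¹).p : ℝ) = -x.p := by simp
  have e2 : ((x⁻¹).q : ℝ) = -x.q := by simp [hx0]
  have e3 : ((x⁻¹).r : ℝ) = -x.r := by simp [hx0, ePre_tri0]
  rw [e1, e2, e3, abs_neg, abs_neg, abs_neg]
  exact hx1

theorem ePre_sm_ball (A K : ℝ) (hK : 1 ≤ K) (g : En) (hg : Ball SE (A * K) g) :
    ePreSm K (|A| + |A| ^ 2 + |A| ^ 3) (g * En.a ^ (-g.x)) := by
  rw [ePre_ker]
  obtain ⟨l, hl, hw, rfl⟩ := hg
  obtain ⟨-, h1, h2, h3⟩ := ebig hw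
  have hK0 : 0 < K := by linarith
  have hl' : (l.length : ℝ) ≤ |A| * K :=
    hl.trans (mul_le_mul_of_nonneg_right (le_abs_self A) hK0.le)
  have hl0 : (0 : ℝ) ≤ l.length := Nat.cast_nonneg _
  have c1 : |(l.prod.p : ℝ)| ≤ l.length := by exact_mod_cast h1
  have c2 : |(l.prod.q : ℝ)| ≤ (l.length : ℝ) ^ 2 := by exact_mod_cast h2
  have c3 : |(l.prod.r : ℝ)| ≤ (l.length : ℝ) ^ 3 := by exact_mod_cast h3
  refine ⟨hK, rfl, ?_⟩
  have t1 : |(l.prod.p : ℝ)| / K ≤ |A| := by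
    rw [div_le_iff₀ hK0]; exact c1.trans hl'
  have t2 : |(l.prod.q : ℝ)| / K ^ 2 ≤ |A| ^ 2 := by
    rw [div_le_iff₀ (by positivity), ← mul_pow]
    exact c2.trans (pow_le_pow_left₀ hl0 hl' 2)
  have t3 : |(l.prod.r : ℝ)| / K ^ 3 ≤ |A| ^ 3 := by
    rw [div_le_iff₀ (by positivity), ← mul_pow]
    exact c3.trans (pow_le_pow_left₀ hl0 hl' 3)
  exact add_le_add (add_le_add t1 t2) t3

/-- the data for the Engel lattice -/
def ePreZ : Pre SE (Fin 3) where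
  X g := g.x
  X_mul _ _ := rfl
  t := En.a
  X_t := rfl
  gen := closure_SE
  v := ePreV
  w := ePreW
  r := 3
  w_pos j := by fin_cases j <;> simp [ePreW]
  w_le j := by fin_cases j <;> simp [ePreW]
  occ q h1 h3 := by
    interval_cases q
    · exact ⟨0, rfl⟩
    · exact ⟨1, rfl⟩
    · exact ⟨2, rfl⟩
  v_one := by funext j; fin_cases j <;> simp [ePreV]
  inj g h hg hh hv := by
    have h0 := congrFun hv 0
    have h1 := congrFun hv 1
    have h2 := congrFun hv 2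
    simp only [ePreV, Matrix.cons_val_zero, Matrix.cons_val_one, Matrix.cons_val] at h0 h1 h2
    exact En.ext (hg.trans hh.symm) h0 h1 h2
  surj y := ⟨⟨0, y 0, y 1, y 2⟩, rfl, by funext j; fin_cases j <;> simp [ePreV]⟩
  P := ePreP
  P_X _ _ h := h.1
  P_one g hg := ⟨hg, fun h => by omega, fun h => by omega, fun h => by omega⟩
  P_conj p g y h := by
    obtain ⟨hx, h2, h3, h4⟩ := h
    rw [ePre_conj g hx]
    refine ⟨rfl, h2, fun h => ?_, fun h => ?_⟩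
    · simp [h2 (by omega), h3 h]
    · simp [h2 (by omega), h3 (by omega), h4 h]
  P_low p g j h hj := by
    obtain ⟨-, h2, h3, h4⟩ := h
    fin_cases j
    · have : 1 < p := by simpa [ePreW] using hj
      simpa [ePreV] using h2 this
    · have : 2 < p := by simpa [ePreW] using hj
      simpa [ePreV] using h3 this
    · have : 3 < p := by simpa [ePreW] using hj
      simpa [ePreV] using h4 this
  P_deg := ePre_deg
  P_top := ePre_top
  P_bas p i _ hw := ePre_bas p i hw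
  Sm := ePreSm
  Sm_mul := ePre_sm_mul
  Sm_inv := ePre_sm_inv
  Sm_mono K A B x hAB h := ⟨h.1, h.2.1, h.2.2.trans hAB⟩
  Sm_v K hK g hg := ⟨hK, hg, by simp [Fin.sum_univ_three, ePreV, ePreW]⟩
  Sm_ball A := ⟨|A| + |A| ^ 2 + |A| ^ 3, by positivity, fun K hK g hg => ePre_sm_ball A K hK g hg⟩
  KE A := ⟨0, le_rfl, fun K ε _ _ x u y hx hu _ _ _ _ j => by
    rw [ePre_add x u y hx hu j]
    simp⟩
  KV p x u y j hx hu _ _ := ePre_add x u y hx hu.1 j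

theorem ePre_V (g : En) : ePreZ.V g = ![g.p, g.q, g.r] := by
  show ePreV (g * En.a ^ (-g.x)) = _
  rw [ePre_ker]
  rfl

theorem eh2 (A : ℝ) : ∃ C : ℝ, 0 ≤ C ∧ ∀ K L R : ℝ, 1 ≤ L → L ≤ K → 1 ≤ R →
    R * (K / L) ^ 3 ≤ A * K → ∀ l : List En, Word SE l → (l.length : ℝ) ≤ K →
    (∃ n, L ≤ |((l.take n).prod.x : ℝ)|) → ∀ g : En, |(g.x : ℝ) - l.prod.x| ≤ R →
      |(g.p : ℝ) - l.prod.p| ≤ R → |(g.q : ℝ) - l.prod.q| ≤ R * K →
      |(g.r : ℝ) - l.prod.r| ≤ R * K ^ 2 →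
      ∃ l' : List En, Word SE l' ∧ l'.prod = g ∧ l.Sublist l' ∧
        (l'.length : ℝ) ≤ l.length + C * R * (K / L) ^ 3 := by
  obtain ⟨C, hC, h⟩ := Pre.h2 ePreZ A
  have hr : ∑ q ∈ Finset.range ePreZ.r, q = 3 := by
    show ∑ q ∈ Finset.range 3, q = 3
    decide
  rw [hr] at h
  refine ⟨C, hC, fun K L R hL hLK hR hA l hl hlK hn g hx hp hq hr' => ?_⟩
  refine h K L R hL hLK hR hA l hl hlK hn g hx fun j => ?_
  rw [ePre_V, ePre_V]
  show _ ≤ R * K ^ (ePreW j - 1)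
  fin_cases j
  · simpa [ePreW] using hp
  · simpa [ePreW] using hq
  · simpa [ePreW] using hr'

theorem ecore : ∃ c C : ℝ, 0 < c ∧ ∀ k : ℕ, 1 ≤ k →
    |(growth SE k : ℝ) - c * (k : ℝ) ^ 7| ≤ C * (k : ℝ) ^ 6 := by
  obtain ⟨c, C, hc, h⟩ := Pre.core ePreZ
  have hs : ∑ j, ePreZ.w j = 6 := by
    show ∑ j, ePreW j = 6
    simp [Fin.sum_univ_three, ePreW]
  rw [hs] at h
  exact ⟨c, C, hc, h⟩

end Pool.Agent.MP_b3b911_al.Fil
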