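import Pool.Agent.MP_b3b911_al.Fil.ESort2
import Pool.Agent.MP_b3b911_al.Fil.EPre

namespace Pool.Agent.MP_b3b911_al.Fil

theorem elow2_pt (R₀ : ℝ) (hR : 1 ≤ R₀) : ∃ C : ℝ, 1 ≤ C ∧ ∀ (k : ℕ) (L : ℝ), 1 ≤ L → L ≤ k →
    C * (k : ℝ) ^ (1 / 3 : ℝ) * (k / L) ^ 3 ≤ k → ∀ u : List En, Word SE u → u.length ≤ k →
    (∃ n, L ≤ |((u.take n).prod.x : ℝ)|) → ∀ e : En, |(e.x : ℝ) - u.prod.x| ≤ R₀ →
    |(e.p : ℝ) - u.prod.p| ≤ R₀ → |(e.q : ℝ) - u.prod.q| ≤ R₀ * k →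
    |(e.r : ℝ) - u.prod.r| ≤ R₀ * (k : ℝ) ^ 2 → ∀ ε : ℤˣ,
    Ball SV (u.length + C * (k : ℝ) ^ (1 / 3 : ℝ) * (k / L) ^ 3 - 1) (⟨e, ε⟩ : VE) := by
  obtain ⟨C₂, hC₂, H⟩ := eh2 1
  have hCR : 0 ≤ C₂ * (R₀ + 10) := mul_nonneg hC₂ (by linarith)
  refine ⟨76 + 8 * (R₀ + 10) + 24 * (C₂ * (R₀ + 10)), by linarith,
    fun k L hL hLk hC u hu huk hn e hx hp hq hr ε => ?_⟩
  have hk : (1 : ℝ) ≤ k := hL.trans hLk
  have hL0 : 0 < L := by linarith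
  have ht1 : 1 ≤ (k : ℝ) ^ (1 / 3 : ℝ) := Real.one_le_rpow hk (by norm_num)
  have ht3 : ((k : ℝ) ^ (1 / 3 : ℝ)) ^ 3 = k := by
    rw [one_div]
    exact_mod_cast Real.rpow_inv_natCast_pow (n := 3) (by linarith : (0 : ℝ) ≤ k) (by norm_num)
  generalize (k : ℝ) ^ (1 / 3 : ℝ) = t at *
  have hl1 : 1 ≤ ((k : ℝ) / L) ^ 3 := one_le_pow₀ ((one_le_div hL0).2 hLk)
  have hl2 : ((k : ℝ) / (L / 2)) ^ 3 = 8 * (k / L) ^ 3 := by
    field_simp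
    norm_num
  have hl3 : ((k : ℝ) / L) ^ 3 * L ^ 3 = k ^ 3 := by field_simp
  generalize ((k : ℝ) / L) ^ 3 = lam at *
  have hs : t ≤ t * lam := le_mul_of_one_le_right (by linarith) hl1
  have hs2 : 0 ≤ C₂ * (R₀ + 10) * (t * lam) := mul_nonneg hCR (by linarith)
  have hs3 : 0 ≤ (R₀ + 10) * (t * lam) := mul_nonneg (by linarith) (by linarith)
  have ht2 : 1 ≤ t ^ 2 := one_le_pow₀ ht1
  have hT1 : t ^ 2 ≤ ⌈t ^ 2⌉₊ := Nat.le_ceil _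
  have hT2 : (⌈t ^ 2⌉₊ : ℝ) ≤ 2 * t ^ 2 := by
    linarith [Nat.ceil_lt_add_one (zero_le_one.trans ht2)]
  generalize ⌈t ^ 2⌉₊ = T at *
  have hLT : 4 * t ^ 2 ≤ L := by
    refine le_of_pow_le_pow_left₀ three_ne_zero hL0.le (le_of_mul_le_mul_left ?_ (by linarith : (0 : ℝ) < k))
    have h1 : 64 * lam ≤ k := by nlinarith
    have h2 := mul_le_mul_of_nonneg_right h1 (pow_pos hL0 3).le
    calc (k : ℝ) * (4 * t ^ 2) ^ 3 = 64 * (k * (t ^ 3) ^ 2) := by ring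
      _ = 64 * lam * L ^ 3 := by rw [ht3, mul_assoc, hl3]; ring
      _ ≤ _ := h2
  have huk' : (u.length : ℝ) ≤ k := by exact_mod_cast huk
  have hu0 : (0 : ℝ) ≤ u.length := Nat.cast_nonneg _
  obtain ⟨l', w1, w2, w3, w4, w5, w6, w7, w8⟩ := esort2 T (by exact_mod_cast ht2.trans hT1) hu
  have hRt : R₀ + 10 ≤ (R₀ + 10) * t := le_mul_of_one_le_right (by linarith) ht1
  obtain ⟨l'', v1, rfl, v3, v4⟩ := H k (L / 2) ((R₀ + 10) * t) (by linarith) (by linarith)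
    (by linarith) (by rw [hl2]; linarith) l' w1 (w2 ▸ huk') (by
      obtain ⟨n, hn⟩ := hn
      obtain ⟨n', hn'⟩ := w8 n
      have h1 : |((u.take n).prod.x : ℝ) - (l'.take n').prod.x| ≤ T := by exact_mod_cast hn'
      exact ⟨n', by linarith [abs_sub_abs_le_abs_sub ((u.take n).prod.x : ℝ) (l'.take n').prod.x]⟩)
    e (by rw [w4]; linarith) (by rw [w5]; linarith) (by
      have h1 : |(l'.prod.q : ℝ) - u.prod.q| ≤ u.length := by exact_mod_cast w6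
      have h2 := abs_sub_le (e.q : ℝ) u.prod.q l'.prod.q
      rw [abs_sub_comm] at h1
      nlinarith) (by
      have h1 : |(l'.prod.r : ℝ) - u.prod.r| ≤ 2 * (T : ℝ) ^ 2 * u.length + (u.length : ℝ) ^ 2 := by
        exact_mod_cast w7
      have h2 := abs_sub_le (e.r : ℝ) u.prod.r l'.prod.r
      rw [abs_sub_comm] at h1
      have h3 : (T : ℝ) ^ 2 * u.length ≤ (2 * t ^ 2) ^ 2 * k :=
        mul_le_mul (pow_le_pow_left₀ (Nat.cast_nonneg _) hT2 2) huk' hu0 (by positivity)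
      have h4 : (2 * t ^ 2) ^ 2 * k = 4 * (t * k ^ 2) := by
        rw [sq (k : ℝ)]
        nth_rw 2 [← ht3]
        ring
      have h5 := pow_le_pow_left₀ hu0 huk' 2
      have h6 : (k : ℝ) ^ 2 ≤ t * k ^ 2 := le_mul_of_one_le_left (by positivity) ht1
      have h7 := mul_le_mul_of_nonneg_left h6 (zero_le_one.trans hR)
      have h8 : (0 : ℝ) ≤ t * k ^ 2 := (sq_nonneg _).trans h6
      linarith)
  refine (kap_ball v1 ε).mono ?_
  have h1 : (kap 1 l'' : ℝ) + 3 * l'.length ≤ kap 1 l' + 3 * l''.length := by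
    exact_mod_cast kap_sub v3 1
  have h2 : (kap 1 l' : ℝ) ≤ u.length + 5 * ((u.length / T : ℕ) + 1) := by exact_mod_cast w3 1
  have h3 : ((u.length / T : ℕ) : ℝ) ≤ t := by
    refine Nat.cast_div_le.trans ((div_le_iff₀ (by linarith)).2 (huk'.trans ?_))
    rw [← ht3, pow_succ']
    exact mul_le_mul_of_nonneg_left hT1 (by linarith)
  rw [hl2, w2] at v4
  rw [w2] at h1
  linarith

end Pool.Agent.MP_b3b911_al.Fil
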