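import Pool.Agent.MP_b3b911_al.Fil.EBlock
import Pool.Agent.MP_b3b911_al.Fil.EKap

namespace Pool.Agent.MP_b3b911_al.Fil

theorem ESort2_block {B : List En} (h : Word SE B) : ∃ F : List En, F.Perm B ∧
    (∀ (R : List En) (M : ℕ), (∀ σ, kap σ R ≤ M) → ∀ σ, kap σ (F ++ R) ≤ B.length + 5 + M) ∧
    |F.prod.q - B.prod.q| ≤ B.length := by
  obtain ⟨l₁, l₂, l₃, l₄, l₅, hp, f1, f2, f3, f4, f5, hq⟩ := eblock h
  refine ⟨_, hp, fun R M hM σ => ?_, hq⟩
  have h1 := EKap_app f1 (EKap_app f2 (EKap_app f3 (EKap_app f4 (EKap_app f5 hM)))) σ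
  have h2 := hp.length_eq
  simp only [List.length_append] at h2
  simp only [List.append_assoc]
  omega

theorem ESort2_aux (T : ℕ) (hT : 1 ≤ T) (n : ℕ) : ∀ l : List En, l.length = n →
    Word SE l → ∃ l' : List En, Word SE l' ∧
    l'.length = l.length ∧ (∀ σ, kap σ l' ≤ l.length + 5 * (l.length / T + 1)) ∧
    l'.prod.x = l.prod.x ∧ l'.prod.p = l.prod.p ∧ |l'.prod.q - l.prod.q| ≤ l.length ∧
    |l'.prod.r - l.prod.r| ≤ 2 * (T : ℤ) ^ 2 * l.length + (l.length : ℤ) ^ 2 ∧
    ∀ n, ∃ n', |(l.take n).prod.x - (l'.take n').prod.x| ≤ T := by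
  induction n using Nat.strong_induction_on with
  | _ n ih =>
  intro l hn h
  rcases Nat.eq_zero_or_pos n with rfl | hpos
  · obtain rfl := List.length_eq_zero_iff.1 hn
    exact ⟨[], h, rfl, fun σ => by simp [kap], rfl, rfl, by simp, by simp,
      fun _ => ⟨0, by simp⟩⟩
  obtain ⟨R', w1, w2, w3, w4, w5, w6, w7, w8⟩ := ih (l.drop T).length
    (by rw [List.length_drop]; omega) (l.drop T) rfl (h.drop T)
  have hl : l.take T ++ l.drop T = l := List.take_append_drop T l
  have hB := h.take T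
  have hBT : (l.take T).length ≤ T := List.length_take_le T l
  have hR : (l.drop T).length = l.length - T := List.length_drop
  generalize l.take T = B at hl hB hBT
  generalize l.drop T = R at hl hR w2 w3 w4 w5 w6 w7 w8
  have hlen : B.length + R.length = l.length := by rw [← hl, List.length_append]
  obtain ⟨F, hp, hk, hq⟩ := ESort2_block hB
  have hF : Word SE F := fun s hs => hB s (hp.subset hs)
  have hFl := hp.length_eq
  obtain ⟨e1, e2⟩ := EKap_perm hp
  obtain ⟨a1, -, -, a4⟩ := ebig hB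
  obtain ⟨-, -, -, b4⟩ := ebig hF
  rw [hFl] at b4
  have hr : |F.prod.r - B.prod.r| ≤ 2 * (B.length : ℤ) ^ 3 :=
    (abs_sub _ _).trans (by linarith)
  have c1 : (B.length : ℤ) ≤ T := by exact_mod_cast hBT
  have c2 : (B.length : ℤ) + R.length = l.length := by exact_mod_cast hlen
  have c5 : (0 : ℤ) ≤ B.length := by positivity
  have c6 : (0 : ℤ) ≤ R.length := by positivity
  have hpr : l.prod = B.prod * R.prod := by rw [← hl, List.prod_append]
  refine ⟨F ++ R', hF.append w1, by rw [List.length_append, hFl, w2, hlen], fun σ => ?_,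
    ?_, ?_, ?_, ?_, fun m => ?_⟩
  · by_cases hc : T ≤ l.length
    · have := hk R' _ w3 σ
      have e : l.length / T = R.length / T + 1 := by rw [hR]; exact Nat.div_eq_sub_div hT hc
      omega
    · obtain rfl : R' = [] := List.length_eq_zero_iff.1 (by omega)
      have := hk [] 0 (fun _ => le_rfl) σ
      generalize l.length / T = D
      omega
  · rw [List.prod_append, hpr, En.mul_x, En.mul_x, e1, w4]
  · rw [List.prod_append, hpr, En.mul_p, En.mul_p, e2, w5]
  · rw [List.prod_append, hpr, En.mul_q, En.mul_q, e1, w5, ← c2]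
    calc _ = |(F.prod.q - B.prod.q) + (R'.prod.q - R.prod.q)| := by congr 1; ring
      _ ≤ _ := (abs_add_le _ _).trans (add_le_add hq w6)
  · rw [List.prod_append, hpr, En.mul_r, En.mul_r, e1, w5, ← c2]
    have d : |B.prod.x * (R'.prod.q - R.prod.q)| ≤ B.length * R.length := by
      rw [abs_mul]
      exact mul_le_mul a1 w6 (abs_nonneg _) c5
    have d1 : (B.length : ℤ) ^ 3 ≤ (T : ℤ) ^ 2 * B.length := by
      rw [pow_succ]
      exact mul_le_mul_of_nonneg_right (pow_le_pow_left₀ c5 c1 2) c5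
    calc _ = |(F.prod.r - B.prod.r) + (R'.prod.r - R.prod.r) +
          B.prod.x * (R'.prod.q - R.prod.q)| := by congr 1; ring
      _ ≤ 2 * (B.length : ℤ) ^ 3 + (2 * (T : ℤ) ^ 2 * R.length + (R.length : ℤ) ^ 2) +
          B.length * R.length :=
        (abs_add_le _ _).trans (add_le_add ((abs_add_le _ _).trans (add_le_add hr w7)) d)
      _ ≤ _ := by nlinarith [mul_nonneg c5 c6, mul_nonneg c5 c5]
  · rcases le_or_gt m B.length with hm | hm
    · refine ⟨0, ?_⟩
      have h1 := (ebig (h.take m)).1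
      have h2 : (l.take m).length ≤ T := (List.length_take_le m l).trans (hm.trans hBT)
      have h3 : ((l.take m).length : ℤ) ≤ T := by exact_mod_cast h2
      simpa using h1.trans h3
    · obtain ⟨m₁, rfl⟩ := Nat.exists_eq_add_of_le hm.le
      obtain ⟨m', hm'⟩ := w8 m₁
      refine ⟨F.length + m', ?_⟩
      rw [← hl, List.take_length_add_append, List.take_length_add_append, List.prod_append,
        List.prod_append, En.mul_x, En.mul_x, e1]
      simpa using hm'

theorem esort2 (T : ℕ) (hT : 1 ≤ T) {l : List En} (h : Word SE l) : ∃ l' : List En, Word SE l' ∧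
    l'.length = l.length ∧ (∀ σ, kap σ l' ≤ l.length + 5 * (l.length / T + 1)) ∧
    l'.prod.x = l.prod.x ∧ l'.prod.p = l.prod.p ∧ |l'.prod.q - l.prod.q| ≤ l.length ∧
    |l'.prod.r - l.prod.r| ≤ 2 * (T : ℤ) ^ 2 * l.length + (l.length : ℤ) ^ 2 ∧
    ∀ n, ∃ n', |(l.take n).prod.x - (l'.take n').prod.x| ≤ T :=
  ESort2_aux T hT l.length l rfl h

end Pool.Agent.MP_b3b911_al.Fil
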