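import Pool.Agent.MP_b3b911_al.Fil.ECnt

open Filter Topology

namespace Pool.Agent.MP_b3b911_al.Fil

theorem EUp_root (h : ℕ) : ∃ u : ℕ, u ^ 3 ≤ h ∧ h < (u + 1) ^ 3 := by
  induction h with
  | zero => exact ⟨0, by simp, by simp⟩
  | succ h ih =>
    obtain ⟨u, h1, h2⟩ := ih
    by_cases h3 : h + 1 < (u + 1) ^ 3
    · exact ⟨u, by omega, h3⟩
    · refine ⟨u + 1, by omega, ?_⟩
      have : (u + 1) ^ 3 < (u + 1 + 1) ^ 3 := Nat.pow_lt_pow_left (by omega) (by norm_num)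
      omega

theorem EUp_par (D : ℕ) (hD : 1 ≤ D) (k : ℕ) (hk : 100 * (62502 * D) ^ 3 ≤ k) :
    ∃ h u N : ℕ, 100 * h ≤ k ∧ k ≤ 101 * h ∧ 1 ≤ u ∧ u ^ 3 ≤ h ∧ h ≤ 8 * u ^ 3 ∧
      D * (N + 1) ≤ h ∧ 62500 * D * N < u ∧ u ≤ 125000 * D * N := by
  obtain ⟨u, h1, h2⟩ := EUp_root (k / 100)
  have h3 : (62502 * D) ^ 3 ≤ k / 100 := by omega
  have h4 : 62502 * D < u + 1 := lt_of_pow_lt_pow_left₀ 3 (Nat.zero_le _) (h3.trans_lt h2)
  have hu : 2 ≤ u := by omega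
  have h5 : 2 * u ≤ u ^ 3 := by
    have : 2 ≤ u ^ 2 := by nlinarith
    calc 2 * u ≤ u ^ 2 * u := Nat.mul_le_mul_right u this
      _ = u ^ 3 := by ring
  have h6 : (u + 1) ^ 3 ≤ 8 * u ^ 3 := by
    calc (u + 1) ^ 3 ≤ (2 * u) ^ 3 := Nat.pow_le_pow_left (by omega) 3
      _ = 8 * u ^ 3 := by ring
  have hp : 0 < 62500 * D := by omega
  have h7 := Nat.div_add_mod (u - 1) (62500 * D)
  have h8 := Nat.mod_lt (u - 1) hp
  have h9 : 1 ≤ (u - 1) / (62500 * D) := (Nat.le_div_iff_mul_le hp).2 (by omega)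
  set N := (u - 1) / (62500 * D) with hN
  have e1 : 62500 * D * N = 62500 * (D * N) := by ring
  have e2 : 125000 * D * N = 125000 * (D * N) := by ring
  have e3 : D * (N + 1) = D * N + D := by ring
  have e4 : D ≤ D * N := Nat.le_mul_of_pos_right D h9
  refine ⟨k / 100, u, N, by omega, by omega, by omega, h1, by omega, ?_, ?_, ?_⟩
  · rw [e3]
    rw [e1] at h7
    omega
  · omega
  · rw [e2]
    rw [e1] at h7
    omega

theorem eupper : ∃ c : ℝ, 0 < c ∧ ∀ᶠ k : ℕ in atTop,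
    (growth SV k : ℝ) + c * (k : ℝ) ^ 6 * (k : ℝ) ^ (1 / 3 : ℝ) ≤ 2 * growth SE k := by
  obtain ⟨D, hD, H⟩ := ecount
  have hD' : (0 : ℝ) < D := by exact_mod_cast hD
  refine ⟨2 / (101 ^ 6 * (1250000 * D)), by positivity, ?_⟩
  filter_upwards [eventually_ge_atTop (100 * (62502 * D) ^ 3)] with k hk
  obtain ⟨h, u, N, h1, h2, h3, h4, h5, h6, h7, h8⟩ := EUp_par D hD k hk
  have H1 : (growth SV k : ℝ) + 2 * (N * (h : ℝ) ^ 6) ≤ 2 * growth SE k := by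
    exact_mod_cast H h k u N h1 h2 h3 h4 h5 h6 h7
  have a1 : (k : ℝ) ^ 6 ≤ 101 ^ 6 * (h : ℝ) ^ 6 := by
    rw [← mul_pow]
    exact pow_le_pow_left₀ (Nat.cast_nonneg k) (by exact_mod_cast h2) 6
  have a2 : (k : ℝ) ≤ (10 * u : ℝ) ^ 3 := by
    have : k ≤ (10 * u) ^ 3 := by
      have e : (10 * u) ^ 3 = 1000 * u ^ 3 := by ring
      omega
    exact_mod_cast this
  have a3 : (k : ℝ) ^ (1 / 3 : ℝ) ≤ 10 * u := by
    have e := Real.rpow_le_rpow (Nat.cast_nonneg k) a2 (by norm_num : (0 : ℝ) ≤ 1 / 3)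
    have e2 : ((10 * u : ℝ) ^ 3) ^ (1 / 3 : ℝ) = 10 * u := by
      have := Real.pow_rpow_inv_natCast (x := (10 * u : ℝ)) (by positivity) (n := 3) (by norm_num)
      simpa using this
    rwa [e2] at e
  have a4 : (u : ℝ) ≤ 125000 * D * N := by exact_mod_cast h8
  have a5 : (k : ℝ) ^ (1 / 3 : ℝ) ≤ 1250000 * D * N := by linarith
  have a6 : (k : ℝ) ^ 6 * (k : ℝ) ^ (1 / 3 : ℝ) ≤ (101 ^ 6 * (h : ℝ) ^ 6) * (1250000 * D * N) :=
    mul_le_mul a1 a5 (by positivity) (by positivity)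
  have a7 : 2 / (101 ^ 6 * (1250000 * D)) * (k : ℝ) ^ 6 * (k : ℝ) ^ (1 / 3 : ℝ) ≤
      2 * (N * (h : ℝ) ^ 6) := by
    rw [mul_assoc]
    refine (mul_le_mul_of_nonneg_left a6 (by positivity)).trans (le_of_eq ?_)
    field_simp
  linarith

end Pool.Agent.MP_b3b911_al.Fil
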