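import Mathlib

namespace Pool.Agent.MP_b3b911_al.Fil

open scoped commutatorElement

variable {G : Type*} [Group G]

theorem IFg_comm {A : Type*} [CommGroup A] [Group.FG A] (H : Subgroup A) : H.FG := by
  have : Module.Finite ℤ (Additive A) := Module.Finite.iff_addGroup_fg.2 inferInstance
  rw [Subgroup.fg_iff_add_fg, ← AddSubgroup.toIntSubmodule_toAddSubgroup H.toAddSubgroup,
    ← Submodule.fg_iff_addSubgroup_fg]
  exact IsNoetherian.noetherian _

theorem IFg_central {B H : Subgroup G} (hB : B ≤ Subgroup.center G) (hfg : B.FG) (h : H ≤ B) :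
    H.FG ∧ ((∀ g ∈ H, IsOfFinOrder g) → Finite H) := by
  have h1 : H.FG := by
    let _ : CommGroup B :=
      { (inferInstance : Group B) with
        mul_comm := fun a b => Subtype.ext (Subgroup.mem_center_iff.1 (hB b.2) a) }
    have : Group.FG B := (Group.fg_iff_subgroup_fg B).2 hfg
    have : Group.FG (H.subgroupOf B) := (Group.fg_iff_subgroup_fg _).2 (IFg_comm _)
    exact (Group.fg_iff_subgroup_fg H).1
      (Group.fg_of_surjective (f := (Subgroup.subgroupOfEquivOfLe h).toMonoidHom)
        (Subgroup.subgroupOfEquivOfLe h).surjective)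
  refine ⟨h1, fun ht => ?_⟩
  let _ : CommGroup H :=
    { (inferInstance : Group H) with
      mul_comm := fun a b => Subtype.ext (Subgroup.mem_center_iff.1 (hB (h b.2)) a) }
  have : Group.FG H := (Group.fg_iff_subgroup_fg H).2 h1
  exact CommGroup.finite_of_fg_isMulTorsion H fun g =>
    (H.subtype_injective.isOfFinOrder_iff).1 (ht g g.2)

theorem IFg_ext {Q : Type*} [Group Q] (π : G →* Q) {H : Subgroup G} (h1 : (H.map π).FG)
    (h2 : (H ⊓ π.ker).FG) : H.FG := by
  obtain ⟨S, hS, hf⟩ := (Subgroup.fg_iff _).1 h1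
  obtain ⟨T, hT, hTf, rfl⟩ := hf.exists_subset_finite_image_eq (f := π) (s := H)
    (by rw [← Subgroup.coe_map, ← hS]; exact Subgroup.subset_closure)
  have hc : Subgroup.closure T ≤ H := (Subgroup.closure_le H).2 hT
  have e : H = Subgroup.closure T ⊔ H ⊓ π.ker := by
    refine le_antisymm (fun g hg => ?_) (sup_le hc inf_le_left)
    have : π g ∈ (Subgroup.closure T).map π := by
      rw [MonoidHom.map_closure, hS]
      exact Subgroup.mem_map_of_mem π hg
    obtain ⟨t, ht, e⟩ := this
    rw [← mul_inv_cancel_left t g]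
    refine mul_mem (Subgroup.mem_sup_left ht) (Subgroup.mem_sup_right
      ⟨H.mul_mem (H.inv_mem (hc ht)) hg, ?_⟩)
    change π (t⁻¹ * g) = 1
    rw [map_mul, map_inv, e, inv_mul_cancel]
  rw [e]
  exact ((Subgroup.fg_iff _).2 ⟨T, rfl, hTf⟩).sup h2

theorem IFg_fin {Q : Type*} [Group Q] (π : G →* Q) {H : Subgroup G} (h1 : Finite (H.map π))
    (h2 : Finite (H ⊓ π.ker : Subgroup G)) : Finite H := by
  refine (π.comp H.subtype).finite_iff_finite_ker_range.2 ⟨?_, ?_⟩
  · exact Finite.of_injective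
      (fun x => (⟨x.1.1, x.1.2, x.2⟩ : (H ⊓ π.ker : Subgroup G)))
      fun x y e => Subtype.ext (Subtype.ext
        (congrArg (fun z : (H ⊓ π.ker : Subgroup G) => (z : G)) e))
  · rwa [MonoidHom.range_comp, Subgroup.range_subtype]

theorem IFg_gen [Group.FG G] (i : ℕ) : ∃ S : Set G, S.Finite ∧
    S ⊆ (⊤ : Subgroup G).lowerCentralSeries i ∧ (⊤ : Subgroup G).lowerCentralSeries i ≤
      Subgroup.closure S ⊔ (⊤ : Subgroup G).lowerCentralSeries (i + 1) := by
  obtain ⟨T, hT, hTf⟩ := Group.fg_iff.1 ‹_›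
  induction i with
  | zero => exact ⟨T, hTf, fun _ _ => Subgroup.mem_top _, by rw [hT]; exact le_sup_left⟩
  | succ i ih =>
    obtain ⟨S, hS, h1, h2⟩ := ih
    have h3 : Set.image2 (fun s t : G => ⁅s, t⁆) S T ⊆
        (⊤ : Subgroup G).lowerCentralSeries (i + 1) := by
      rintro _ ⟨s, hs, t, -, rfl⟩
      exact Subgroup.commutator_mem_commutator (h1 hs) (Subgroup.mem_top _)
    refine ⟨_, hS.image2 _ hTf, h3, ?_⟩
    set K := Subgroup.closure (Set.image2 (fun s t : G => ⁅s, t⁆) S T) ⊔
      (⊤ : Subgroup G).lowerCentralSeries (i + 1 + 1) with hK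
    have h4 : ∀ y ∈ (⊤ : Subgroup G).lowerCentralSeries (i + 1), ∀ g, ⁅y, g⁆ ∈ K := fun y hy g =>
      Subgroup.mem_sup_right (Subgroup.commutator_mem_commutator hy (Subgroup.mem_top _))
    have hKle : K ≤ (⊤ : Subgroup G).lowerCentralSeries (i + 1) :=
      sup_le ((Subgroup.closure_le _).2 h3)
        ((⊤ : Subgroup G).lowerCentralSeries_antitone (Nat.le_succ _))
    have : K.Normal := ⟨fun k hk g => by
      have e : g * k * g⁻¹ = ⁅k, g⁆⁻¹ * k := by
        rw [commutatorElement_def]
        group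
      rw [e]
      exact mul_mem (inv_mem (h4 k (hKle hk) g)) hk⟩
    have h5 : ∀ x g : G, Commute (QuotientGroup.mk' K x) (QuotientGroup.mk' K g) ↔ ⁅x, g⁆ ∈ K :=
      fun x g => by
        rw [← commutatorElement_eq_one_iff_commute, ← map_commutatorElement,
          ← MonoidHom.mem_ker, QuotientGroup.ker_mk']
    have h6 : ∀ s ∈ S, ∀ g, ⁅s, g⁆ ∈ K := by
      intro s hs g
      have hg : g ∈ Subgroup.closure T := hT ▸ Subgroup.mem_top g
      rw [← h5]
      induction hg using Subgroup.closure_induction with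
      | mem t ht =>
        exact (h5 _ _).2 (Subgroup.mem_sup_left (Subgroup.subset_closure ⟨s, hs, t, ht, rfl⟩))
      | one => rw [map_one]; exact Commute.one_right _
      | mul a b _ _ ha hb => rw [map_mul]; exact ha.mul_right hb
      | inv a _ ha => rw [map_inv]; exact ha.inv_right
    refine Subgroup.commutator_le.2 fun x hx g _ => (h5 x g).1 ?_
    have h7 : Subgroup.closure S ⊔ (⊤ : Subgroup G).lowerCentralSeries (i + 1) ≤
        (Subgroup.centralizer {QuotientGroup.mk' K g}).comap (QuotientGroup.mk' K) :=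
      sup_le ((Subgroup.closure_le _).2 fun s hs =>
        Subgroup.mem_centralizer_singleton_iff.2 ((h5 s g).2 (h6 s hs g)))
        fun y hy => Subgroup.mem_centralizer_singleton_iff.2 ((h5 y g).2 (h4 y hy g))
    exact Subgroup.mem_centralizer_singleton_iff.1 (h7 (h2 hx))

theorem IFg_main [Group.IsNilpotent G] [Group.FG G] (H : Subgroup G) :
    H.FG ∧ ((∀ g ∈ H, IsOfFinOrder g) → Finite H) := by
  obtain ⟨c, hc⟩ := Subgroup.nilpotent_iff_lowerCentralSeries.1 ‹Group.IsNilpotent G›
  have key : ∀ i ≤ c, ∀ H ≤ (⊤ : Subgroup G).lowerCentralSeries i,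
      H.FG ∧ ((∀ g ∈ H, IsOfFinOrder g) → Finite H) := by
    intro i hi
    induction hi using Nat.decreasingInduction with
    | self =>
      intro H hH
      rw [hc, le_bot_iff] at hH
      subst hH
      exact ⟨Subgroup.FG.bot, fun _ => inferInstance⟩
    | of_succ i _ ih =>
      intro H hH
      obtain ⟨S, hS, h1, h2⟩ := IFg_gen (G := G) i
      let π := QuotientGroup.mk' ((⊤ : Subgroup G).lowerCentralSeries (i + 1))
      have hB : Subgroup.closure (π '' S) ≤ Subgroup.center _ := by
        refine (Subgroup.closure_le _).2 ?_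
        rintro _ ⟨s, hs, rfl⟩
        refine Subgroup.mem_center_iff.2 fun q => ?_
        obtain ⟨g, rfl⟩ := QuotientGroup.mk'_surjective _ q
        refine (commutatorElement_eq_one_iff_mul_comm.1 ?_).symm
        rw [← map_commutatorElement, ← MonoidHom.mem_ker, QuotientGroup.ker_mk']
        exact Subgroup.commutator_mem_commutator (h1 hs) (Subgroup.mem_top _)
      have hle : H.map π ≤ Subgroup.closure (π '' S) := by
        refine (Subgroup.map_mono (hH.trans h2)).trans ?_
        rw [Subgroup.map_sup, MonoidHom.map_closure, QuotientGroup.map_mk'_self, sup_bot_eq]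
      obtain ⟨a1, a2⟩ := IFg_central hB ((Subgroup.fg_iff _).2 ⟨_, rfl, hS.image π⟩) hle
      obtain ⟨b1, b2⟩ := ih (H ⊓ π.ker) (inf_le_right.trans (QuotientGroup.ker_mk' _).le)
      refine ⟨IFg_ext π a1 b1, fun ht => IFg_fin π (a2 ?_) (b2 fun g hg => ht g hg.1)⟩
      rintro _ ⟨g, hg, rfl⟩
      exact π.isOfFinOrder (ht g hg)
  exact key 0 (Nat.zero_le c) H le_top

theorem sub_fg [Group.IsNilpotent G] [Group.FG G] (H : Subgroup G) : H.FG := by
  exact (IFg_main H).1

theorem tors_finite [Group.IsNilpotent G] [Group.FG G] (H : Subgroup G)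
    (hH : ∀ g ∈ H, IsOfFinOrder g) : Finite H := by
  exact (IFg_main H).2 hH

end Pool.Agent.MP_b3b911_al.Fil
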