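import Pool.Agent.MP_b3b911_al.Fil.CDefs

namespace Pool.Agent.MP_b3b911_al.Fil

variable {G Q : Type*} [Group G] [Group Q] [DecidableEq Q]

omit [DecidableEq Q] in
theorem IQuot_card (π : G →* Q) (T : Set Q) (hT : ∀ t ∈ T, ∃ g, π g = t) :
    (π ⁻¹' T).ncard = Nat.card π.ker * T.ncard := by
  choose s hs using fun t : T => hT t t.2
  have hm : ∀ p : π.ker × T, π (s p.2 * p.1) = p.2 := fun p => by
    rw [map_mul, hs, MonoidHom.mem_ker.1 p.1.2, mul_one]
  rw [← Nat.card_coe_set_eq, ← Nat.card_coe_set_eq, ← Nat.card_prod]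
  refine (Nat.card_eq_of_bijective (fun p : π.ker × T =>
    (⟨s p.2 * p.1, by rw [Set.mem_preimage, hm]; exact p.2.2⟩ : π ⁻¹' T)) ⟨?_, ?_⟩).symm
  · rintro ⟨z, t⟩ ⟨z', t'⟩ h
    have h1 : s t * z = s t' * z' := congrArg Subtype.val h
    obtain rfl : t = t' := Subtype.ext ((hm (z, t)).symm.trans (h1 ▸ hm (z', t')))
    rw [Subtype.ext (mul_left_cancel h1)]
  · rintro ⟨g, hg⟩
    refine ⟨(⟨(s ⟨π g, hg⟩)⁻¹ * g, ?_⟩, ⟨π g, hg⟩), Subtype.ext (mul_inv_cancel_left _ _)⟩
    rw [MonoidHom.mem_ker, map_mul, map_inv, hs, inv_mul_cancel]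

theorem IQuot_map (S : Finset G) (π : G →* Q) {q : ℝ} {g : G} (h : Ball S q g) :
    Ball (S.image π) q (π g) := by
  obtain ⟨l, h1, h2, rfl⟩ := h
  refine ⟨l.map π, by simpa using h1, fun y hy => ?_, (map_list_prod π l).symm⟩
  obtain ⟨x, hx, rfl⟩ := List.mem_map.1 hy
  exact (h2 x hx).imp (Finset.mem_image_of_mem π) fun h => map_inv π x ▸ Finset.mem_image_of_mem π h

theorem IQuot_lift (S : Finset G) (π : G →* Q) {q : ℝ} {t : Q} (h : Ball (S.image π) q t) :
    ∃ g, Ball S q g ∧ π g = t := by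
  obtain ⟨l, h1, h2, rfl⟩ := h
  have key : ∃ l' : List G, Word S l' ∧ l'.map π = l := by
    clear h1
    induction l with
    | nil => exact ⟨[], fun y hy => by simp at hy, rfl⟩
    | cons y l ih =>
      obtain ⟨l', a1, rfl⟩ := ih fun x hx => h2 x (List.mem_cons_of_mem _ hx)
      have hy : ∃ x, (x ∈ S ∨ x⁻¹ ∈ S) ∧ π x = y := by
        rcases h2 y List.mem_cons_self with h | h
        · obtain ⟨x, hx, e⟩ := Finset.mem_image.1 h
          exact ⟨x, Or.inl hx, e⟩
        · obtain ⟨x, hx, e⟩ := Finset.mem_image.1 h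
          exact ⟨x⁻¹, Or.inr (by rwa [inv_inv]), by rw [map_inv, e, inv_inv]⟩
      obtain ⟨x, hx, rfl⟩ := hy
      exact ⟨x :: l', fun z hz => (List.mem_cons.1 hz).elim (fun e => e ▸ hx) (a1 z), rfl⟩
  obtain ⟨l', a1, rfl⟩ := key
  exact ⟨l'.prod, ⟨l', by simpa using h1, a1, rfl⟩, map_list_prod π l'⟩

theorem quot_transfer (S : Finset G) (hS : Subgroup.closure (S : Set G) = ⊤) (π : G →* Q)
    (hfin : Finite π.ker) {c C : ℝ} {e : ℕ} (hc : 0 < c)
    (h : ∀ k : ℕ, 1 ≤ k →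
      |(growth (S.image π) k : ℝ) - c * (k : ℝ) ^ (e + 1)| ≤ C * (k : ℝ) ^ e) :
    ∃ c' C' : ℝ, 0 < c' ∧ ∀ k : ℕ, 1 ≤ k →
      |(growth S k : ℝ) - c' * (k : ℝ) ^ (e + 1)| ≤ C' * (k : ℝ) ^ e := by
  choose w hw using fun z : π.ker => exists_word hS (z : G)
  obtain ⟨n, hn⟩ := (Set.finite_range fun z => (w z).length).bddAbove
  have hC : 0 ≤ C := by simpa using (abs_nonneg _).trans (h 1 le_rfl)
  have hτ : (0 : ℝ) < Nat.card π.ker := Nat.cast_pos.2 Nat.card_pos
  have hsub : ∀ k : ℕ, π ⁻¹' {t | Ball (S.image π) k t} ⊆ {g | Ball S (k + n : ℕ) g} := by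
    intro k g hg
    obtain ⟨_, ⟨l, a1, a2, rfl⟩, a3⟩ := IQuot_lift S π hg
    have hz : l.prod⁻¹ * g ∈ π.ker := by
      rw [MonoidHom.mem_ker, map_mul, map_inv, a3, inv_mul_cancel]
    refine ⟨l ++ w ⟨_, hz⟩, ?_, a2.append (hw _).1, ?_⟩
    · have a4 : (w ⟨_, hz⟩).length ≤ n := hn ⟨_, rfl⟩
      have a5 : l.length ≤ k := by exact_mod_cast a1
      rw [List.length_append]
      exact_mod_cast add_le_add a5 a4
    · rw [List.prod_append, (hw _).2, mul_inv_cancel_left]
  have hcard : ∀ k : ℕ, (π ⁻¹' {t | Ball (S.image π) k t}).ncard =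
      Nat.card π.ker * growth (S.image π) k := fun k => by
    rw [growth_eq]
    exact IQuot_card π _ fun t ht => (IQuot_lift S π ht).imp fun _ h => h.2
  have hup : ∀ k : ℕ, (growth S k : ℝ) ≤ Nat.card π.ker * growth (S.image π) k := fun k => by
    have := Set.ncard_le_ncard (s := {g | Ball S k g})
      (t := π ⁻¹' {t | Ball (S.image π) k t}) (fun g hg => IQuot_map S π hg)
      ((ball_finite S _).subset (hsub k))
    rw [hcard, ← growth_eq] at this
    exact_mod_cast this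
  have hlo : ∀ k : ℕ, (Nat.card π.ker * growth (S.image π) k : ℝ) ≤ growth S (k + n) := fun k => by
    have := Set.ncard_le_ncard (hsub k) (ball_finite S _)
    rw [hcard, ← growth_eq] at this
    exact_mod_cast this
  refine ⟨Nat.card π.ker * c, Nat.card π.ker * (C + c * (n * (e + 1))), mul_pos hτ hc,
    fun k hk => abs_le.2 ⟨?_, ?_⟩⟩
  · have key : c * (k : ℝ) ^ (e + 1) - (C + c * (n * (e + 1))) * (k : ℝ) ^ e ≤
        growth S k / Nat.card π.ker := by
      rcases le_or_gt k n with hkn | hkn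
      · refine le_trans ?_ (div_nonneg (Nat.cast_nonneg _) hτ.le)
        have a1 : (k : ℝ) ≤ n * (e + 1) := by
          exact_mod_cast hkn.trans (Nat.le_mul_of_pos_right n e.succ_pos)
        have a2 : (0 : ℝ) ≤ (k : ℝ) ^ e := by positivity
        have a3 := mul_le_mul_of_nonneg_left (mul_le_mul_of_nonneg_left a1 a2) hc.le
        rw [pow_succ]
        nlinarith [mul_nonneg hC a2]
      · obtain ⟨m, rfl⟩ := Nat.exists_eq_add_of_le' hkn.le
        have a1 := (abs_le.1 (h m (by omega))).1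
        have a2 := (le_div_iff₀' hτ).2 (hlo m)
        have a3 : (m : ℝ) ≤ (m + n : ℕ) := by exact_mod_cast Nat.le_add_right m n
        have a4 := (le_abs_self _).trans
          (abs_pow_sub_pow_le (a := ((m + n : ℕ) : ℝ)) (b := m) (n := e + 1))
        rw [Nat.abs_cast, Nat.abs_cast, max_eq_left a3, Nat.add_sub_cancel,
          show ((m + n : ℕ) : ℝ) - m = n by push_cast; ring, Nat.abs_cast] at a4
        have a5 := mul_le_mul_of_nonneg_left (pow_le_pow_left₀ (Nat.cast_nonneg m) a3 e) hC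
        have a6 := mul_le_mul_of_nonneg_left a4 hc.le
        push_cast at a6 a5 a2 ⊢
        linarith
    have := (le_div_iff₀' hτ).1 key
    linarith
  · have a1 := mul_le_mul_of_nonneg_left (abs_le.1 (h k hk)).2 hτ.le
    have a2 : (0 : ℝ) ≤ Nat.card π.ker * (c * (n * (e + 1))) * (k : ℝ) ^ e := by positivity
    have a3 := hup k
    linarith

end Pool.Agent.MP_b3b911_al.Fil
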