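import Pool.Agent.MP_b3b911_al.Fil.NStep

namespace Pool.Agent.MP_b3b911_al.Fil

variable {G : Type*} [Group G]

theorem NCoord_free (Q : Type*) [CommGroup Q] [Group.FG Q]
    (h : ∀ (q : Q) (k : ℕ), 0 < k → q ^ k = 1 → q = 1) :
    ∃ (m : ℕ) (e : Q → Fin m → ℤ), (∀ x y, e (x * y) = e x + e y) ∧ (∀ x, e x = 0 ↔ x = 1) ∧
      Function.Surjective e := by
  have : Module.Finite ℤ (Additive Q) := Module.Finite.iff_addGroup_fg.2 inferInstance
  have : IsMulTorsionFree Q := ⟨fun k hk x y hxy => by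
    have h1 : (x * y⁻¹) ^ k = 1 := by
      have hxy' : x ^ k = y ^ k := hxy
      rw [mul_pow, inv_pow, hxy', mul_inv_cancel]
    exact mul_inv_eq_one.1 (h _ k (Nat.pos_of_ne_zero hk) h1)⟩
  have : Module.Free ℤ (Additive Q) := Module.free_of_finite_type_torsion_free'
  let B := Module.finBasis ℤ (Additive Q)
  refine ⟨_, fun q => B.equivFun (Additive.ofMul q), fun x y => ?_, fun x => ?_, fun y => ?_⟩
  · exact map_add B.equivFun (Additive.ofMul x) (Additive.ofMul y)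
  · rw [LinearEquiv.map_eq_zero_iff, ofMul_eq_zero]
  · exact ⟨Additive.toMul (B.equivFun.symm y), B.equivFun.apply_symm_apply y⟩

theorem NCoord_co {A A' : Subgroup G} [A'.Normal] (hfg : A.FG)
    (hc : ∀ x ∈ A, ∀ y ∈ A, x * y * x⁻¹ * y⁻¹ ∈ A')
    (hiso : ∀ x ∈ A, ∀ k : ℕ, 0 < k → x ^ k ∈ A' → x ∈ A') :
    ∃ (m : ℕ) (co : G → Fin m → ℤ), (∀ x ∈ A, ∀ y ∈ A, co (x * y) = co x + co y) ∧
      (∀ x ∈ A, co x = 0 ↔ x ∈ A') ∧ ∀ z, ∃ b ∈ A, co b = z := by
  classical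
  have : Group.FG A := (Group.fg_iff_subgroup_fg A).2 hfg
  let _ : CommGroup (A ⧸ A'.subgroupOf A) :=
    { QuotientGroup.Quotient.group (A'.subgroupOf A) with
      mul_comm := fun a b => by
        obtain ⟨x, rfl⟩ := QuotientGroup.mk_surjective a
        obtain ⟨y, rfl⟩ := QuotientGroup.mk_surjective b
        rw [← QuotientGroup.mk_mul, ← QuotientGroup.mk_mul, QuotientGroup.eq,
          Subgroup.mem_subgroupOf]
        have := hc _ (A.inv_mem y.2) _ (A.inv_mem x.2)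
        simpa [mul_assoc] using this }
  obtain ⟨m, e, h1, h2, h3⟩ := NCoord_free (A ⧸ A'.subgroupOf A) (by
    intro q k hk hq
    obtain ⟨x, rfl⟩ := QuotientGroup.mk_surjective q
    rw [← QuotientGroup.mk_pow, QuotientGroup.eq_one_iff, Subgroup.mem_subgroupOf] at hq
    rw [QuotientGroup.eq_one_iff, Subgroup.mem_subgroupOf]
    exact hiso _ x.2 k hk hq)
  refine ⟨m, fun g => if h : g ∈ A then e (QuotientGroup.mk ⟨g, h⟩) else 0, ?_, ?_, ?_⟩
  · intro x hx y hy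
    simp only [dif_pos hx, dif_pos hy, dif_pos (A.mul_mem hx hy)]
    rw [← h1]
    rfl
  · intro x hx
    simp only [dif_pos hx]
    rw [h2, QuotientGroup.eq_one_iff, Subgroup.mem_subgroupOf]
  · intro z
    obtain ⟨q, rfl⟩ := h3 z
    obtain ⟨x, rfl⟩ := QuotientGroup.mk_surjective q
    exact ⟨x, x.2, by simp only [dif_pos x.2]⟩

theorem NCoord_level {F : ℕ → Subgroup G} (hF : Filt F) (htop : F 1 = ⊤)
    (hiso : ∀ n g (k : ℕ), 0 < k → g ^ k ∈ F n → g ∈ F n)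
    (hfg : ∀ H : Subgroup G, H.FG) (N : Subgroup G) [hN : N.Normal] (n : ℕ) (hn : 1 ≤ n)
    (h : ∃ (J : Type) (_ : Fintype J) (_ : DecidableEq J), Nonempty (Coord F (N ⊓ F (n + 1)) J)) :
    ∃ (J : Type) (_ : Fintype J) (_ : DecidableEq J), Nonempty (Coord F (N ⊓ F n) J) := by
  have := hF.normal (n + 1)
  have hcm : ∀ g, ∀ x ∈ N ⊓ F n, g * x * g⁻¹ * x⁻¹ ∈ N ⊓ F (n + 1) := by
    intro g x hx
    refine ⟨N.mul_mem (hN.conj_mem x hx.1 g) (N.inv_mem hx.1), ?_⟩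
    rw [add_comm]
    exact hF.comm 1 n le_rfl hn g (by rw [htop]; trivial) x hx.2
  have hle : N ⊓ F (n + 1) ≤ N ⊓ F n := inf_le_inf_left N (hF.anti (Nat.le_succ n))
  obtain ⟨m, co, h1, h2, h3⟩ := NCoord_co (A := N ⊓ F n) (A' := N ⊓ F (n + 1)) (hfg _)
    (fun x _ y hy => hcm x y hy) fun x hx k hk hxk => ⟨hx.1, hiso _ x k hk hxk.2⟩
  have h0 : co 1 = 0 := (h2 1 (one_mem _)).2 (one_mem _)
  let H : ℕ → Subgroup G := fun i =>
    { carrier := {x | x ∈ N ⊓ F n ∧ ∀ j : Fin m, i ≤ j → co x j = 0}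
      one_mem' := ⟨one_mem _, fun j _ => by rw [h0]; rfl⟩
      mul_mem' := fun {x y} hx hy => ⟨mul_mem hx.1 hy.1, fun j hj => by
        rw [h1 x hx.1 y hy.1, Pi.add_apply, hx.2 j hj, hy.2 j hj, add_zero]⟩
      inv_mem' := fun {x} hx => ⟨inv_mem hx.1, fun j hj => by
        have := congrFun (h1 x hx.1 x⁻¹ (inv_mem hx.1)) j
        rw [mul_inv_cancel, h0, Pi.add_apply, hx.2 j hj, zero_add] at this
        exact this.symm⟩ }
  have hH : ∀ i x, x ∈ H i ↔ x ∈ N ⊓ F n ∧ ∀ j : Fin m, i ≤ j → co x j = 0 := fun _ _ => Iff.rfl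
  have hlow : ∀ i, ∀ x ∈ N ⊓ F (n + 1), x ∈ H i := fun i x hx =>
    ⟨hle hx, fun j _ => by rw [(h2 x (hle hx)).2 hx]; rfl⟩
  have hH0 : H 0 = N ⊓ F (n + 1) := by
    ext x
    exact ⟨fun hx => (h2 x hx.1).1 (funext fun j => hx.2 j (Nat.zero_le _)), hlow 0 x⟩
  have hHm : H m = N ⊓ F n := by
    ext x
    exact ⟨fun hx => hx.1, fun hx => ⟨hx, fun j hj => absurd j.2 (not_lt.2 hj)⟩⟩
  have key : ∀ i ≤ m,
      ∃ (J : Type) (_ : Fintype J) (_ : DecidableEq J), Nonempty (Coord F (H i) J) := by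
    intro i
    induction i with
    | zero => intro _; rw [hH0]; exact h
    | succ i ih =>
      intro hi
      obtain ⟨J, _, _, ⟨C⟩⟩ := ih (Nat.le_of_succ_le hi)
      have : (H i).Normal := ⟨fun x hx g => by
        have := (H i).mul_mem (hlow i _ (hcm g x hx.1)) hx
        rwa [inv_mul_cancel_right] at this⟩
      obtain ⟨b, hb, hb'⟩ := h3 (Pi.single ⟨i, hi⟩ 1)
      refine ⟨Option J, inferInstance, inferInstance, coord_step C
        (fun x hx => ⟨hx.1, fun j hj => hx.2 j (Nat.le_of_succ_le hj)⟩) n hn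
        (fun x hx => hx.1.2) (fun x hx hx' => hlow i x ⟨hx.1.1, hx'⟩) b ⟨hb, fun j hj => ?_⟩
        (fun g => co g ⟨i, hi⟩) (fun x hx y hy => ?_) ?_ fun x hx => ?_⟩
      · rw [hb', Pi.single_eq_of_ne]
        intro hji
        rw [hji] at hj
        exact Nat.not_succ_le_self i hj
      · rw [h1 x hx.1 y hy.1, Pi.add_apply]
      · rw [hb', Pi.single_eq_same]
      · refine ⟨fun h0 => ⟨hx.1, fun j hj => ?_⟩, fun hx' => hx'.2 _ le_rfl⟩
        rcases hj.eq_or_lt with hji | hji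
        · have : j = ⟨i, hi⟩ := Fin.ext hji.symm
          rw [this]
          exact h0
        · exact hx.2 j hji
  rw [← hHm]
  exact key m le_rfl

theorem coord_exists {F : ℕ → Subgroup G} (hF : Filt F) (htop : F 1 = ⊤) (r : ℕ)
    (hbot : F (r + 1) = ⊥) (hiso : ∀ n g (k : ℕ), 0 < k → g ^ k ∈ F n → g ∈ F n)
    (hfg : ∀ H : Subgroup G, H.FG) (N : Subgroup G) [N.Normal] :
    ∃ (J : Type) (_ : Fintype J) (_ : DecidableEq J), Nonempty (Coord F N J) := by
  have key : ∀ k n, n + k = r →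
      ∃ (J : Type) (_ : Fintype J) (_ : DecidableEq J), Nonempty (Coord F (N ⊓ F (n + 1)) J) := by
    intro k
    induction k with
    | zero =>
      intro n hn
      rw [add_zero] at hn
      rw [hn, hbot, inf_bot_eq]
      exact ⟨Empty, inferInstance, inferInstance, coord_bot F⟩
    | succ k ih =>
      intro n hn
      exact NCoord_level hF htop hiso hfg N (n + 1) (Nat.le_add_left 1 n) (ih (n + 1) (by omega))
  have := key r 0 (zero_add r)
  rwa [zero_add, htop, inf_top_eq] at this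

end Pool.Agent.MP_b3b911_al.Fil
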