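import Pool.Agent.MP_b3b911_al.Fil.NPb

namespace Pool.Agent.MP_b3b911_al.Fil

variable {G : Type*} [Group G] {E : ℕ → Subgroup G} {H : Subgroup G} {Λ : Type*} [Finite Λ]
  {el : Λ → G} {w : Λ → ℕ}

omit [Finite Λ] in
theorem NBil_cost_nonneg {K : ℝ} (hK : 1 ≤ K) (l : List Λ) :
    0 ≤ (l.map fun a => 1 / K ^ w a).sum := by
  refine List.sum_nonneg fun t ht => ?_
  obtain ⟨a, -, rfl⟩ := List.mem_map.1 ht
  have : 0 < K := by linarith
  positivity

omit [Finite Λ] in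
theorem NBil_nonneg {K A : ℝ} (hK : 1 ≤ K) {x : G} (hx : Cst el w K A x) : 0 ≤ A := by
  obtain ⟨l, -, hl⟩ := hx
  exact (NBil_cost_nonneg hK l).trans hl

omit [Finite Λ] in
theorem NBil_mono {K A B : ℝ} {x : G} (hx : Cst el w K A x) (h : A ≤ B) : Cst el w K B x := by
  obtain ⟨l, h1, hl⟩ := hx
  exact ⟨l, h1, hl.trans h⟩

omit [Finite Λ] in
theorem NBil_tel_list {K A M : ℝ} (hK : 1 ≤ K) (F : G → ℝ)
    (h : ∀ x a, Cst el w K A x → |F (x * el a) - F x| ≤ M * (1 / K ^ w a)) (l : List Λ) :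
    (l.map fun a => 1 / K ^ w a).sum ≤ A →
      |F (l.map el).prod - F 1| ≤ M * (l.map fun a => 1 / K ^ w a).sum := by
  induction l using List.reverseRecOn with
  | nil => intro _; simp
  | append_singleton l a ih =>
    intro hl
    have hK0 : 0 < K := by linarith
    have ha : 0 ≤ 1 / K ^ w a := by positivity
    simp only [List.map_append, List.sum_append, List.prod_append, List.map_cons, List.map_nil,
      List.sum_cons, List.sum_nil, List.prod_cons, List.prod_nil, add_zero, mul_one] at hl ⊢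
    have h1 := ih (by linarith)
    have h2 := h (l.map el).prod a ⟨l, rfl, by linarith⟩
    have h3 := abs_sub_le (F ((l.map el).prod * el a)) (F (l.map el).prod) (F 1)
    rw [mul_add]
    linarith

omit [Finite Λ] in
theorem NBil_tel {K A M α : ℝ} (hK : 1 ≤ K) (hM : 0 ≤ M) (hα : α ≤ A) (F : G → ℝ)
    (h : ∀ x a, Cst el w K A x → |F (x * el a) - F x| ≤ M * (1 / K ^ w a)) {x : G}
    (hx : Cst el w K α x) : |F x - F 1| ≤ M * α := by
  obtain ⟨l, rfl, hl⟩ := hx
  exact (NBil_tel_list hK F h l (hl.trans hα)).trans (mul_le_mul_of_nonneg_left hl hM)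

theorem NBil_unif (hE : Filt E) (hel : ∀ a, el a ∈ E (w a + 1) ∧ el a ∈ H) {e : ℕ} {f : G → ℤ}
    (hf : Deg E H (e + 2) f) (A : ℝ) : ∃ M : ℝ, 0 ≤ M ∧ ∀ K : ℝ, 1 ≤ K → ∀ β γ x y z,
      Cst el w K A x → Cst el w K A y → Cst el w K A z →
      K * |(f (x * el β * y * el γ * z) : ℝ) - f (x * y * el γ * z) - f (x * el β * y * z) +
        f (x * y * z)| ≤ M * K ^ e * (1 / K ^ w β) * (1 / K ^ w γ) := by
  have h := fun p : Λ × Λ => pb2 (el := el) (w := w) (ω := fun a => w a + 1) hE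
    (fun a => Nat.le_add_left 1 _) (fun a => Nat.le_succ _) hel hf p.1 p.2 A
  choose C hC0 hC using h
  obtain ⟨M, hM⟩ := (Set.finite_range C).bddAbove
  refine ⟨max M 0, le_max_right _ _, fun K hK β γ x y z hx hy hz => ?_⟩
  have hK0 : 0 < K := by linarith
  have h1 := hC (β, γ) K hK x y z hx hy hz
  have h2 : C (β, γ) ≤ max M 0 := (hM ⟨_, rfl⟩).trans (le_max_left _ _)
  dsimp only at h1
  generalize |(f (x * el β * y * el γ * z) : ℝ) - f (x * y * el γ * z) - f (x * el β * y * z) +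
        f (x * y * z)| = T at h1 ⊢
  have h3 : K ^ (w β + 1 + (w γ + 1) + 1) * T ≤ max M 0 * K ^ (e + 2) :=
    h1.trans (mul_le_mul_of_nonneg_right h2 (by positivity))
  have h4 : max M 0 * K ^ e * (1 / K ^ w β) * (1 / K ^ w γ) =
      max M 0 * K ^ (e + 2) / (K ^ w β * K ^ w γ * K ^ 2) := by
    field_simp
    ring
  rw [h4, le_div_iff₀ (by positivity)]
  refine le_trans (le_of_eq ?_) h3
  ring

theorem bil (hE : Filt E) (hel : ∀ a, el a ∈ E (w a + 1) ∧ el a ∈ H) {e : ℕ} {f : G → ℤ}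
    (hf : Deg E H (e + 2) f) (A : ℝ) : ∃ C : ℝ, 0 ≤ C ∧ ∀ K α ε : ℝ, 1 ≤ K → α ≤ A → ε ≤ A →
      ∀ x u y, Cst el w K α x → Cst el w K ε u → Cst el w K A y →
      K * |(f (x * u * y) : ℝ) - f (x * y) - f (u * y) + f y| ≤ C * α * ε * K ^ e := by
  obtain ⟨M, hM0, hM⟩ := NBil_unif hE hel hf A
  refine ⟨M, hM0, fun K α ε hK hα hε x u y hx hu hy => ?_⟩
  have hK0 : 0 < K := by linarith
  have hε0 : 0 ≤ ε := NBil_nonneg hK hu
  have h1 : ∀ x' β, Cst el w K A x' →
      |K * ((f (x' * el β * u * y) : ℝ) - f (x' * el β * y)) - K * ((f (x' * u * y) : ℝ) - f (x' * y))|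
        ≤ M * K ^ e * ε * (1 / K ^ w β) := by
    intro x' β hx'
    have h2 := NBil_tel (M := M * K ^ e * (1 / K ^ w β)) hK (by positivity) hε
      (fun u' => K * ((f (x' * el β * u' * y) : ℝ) - f (x' * u' * y))) (fun u' γ hu' => by
        have h3 := hM K hK β γ x' u' y hx' hu' hy
        refine le_trans (le_of_eq ?_) h3
        rw [← abs_of_pos hK0, ← abs_mul, abs_of_pos hK0]
        simp only [← mul_assoc]
        congr 1
        ring) hu
    simp only [mul_one] at h2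
    refine le_trans (le_of_eq ?_) (h2.trans (le_of_eq (by ring)))
    congr 1
    ring
  have h4 := NBil_tel (M := M * K ^ e * ε) hK (by positivity) hα
    (fun x' => K * ((f (x' * u * y) : ℝ) - f (x' * y))) h1 hx
  simp only [one_mul] at h4
  refine le_trans (le_of_eq ?_) (h4.trans (le_of_eq (by ring)))
  rw [← abs_of_pos hK0, ← abs_mul, abs_of_pos hK0]
  congr 1
  ring

theorem key_est (hE : Filt E) (hel : ∀ a, el a ∈ E (w a + 1) ∧ el a ∈ H) {e : ℕ} {f : G → ℤ}
    (hf : Deg E H (e + 2) f) (h1 : f 1 = 0) (A : ℝ) : ∃ C : ℝ, 0 ≤ C ∧ ∀ K ε : ℝ, 1 ≤ K → ε ≤ A →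
      ∀ x u y, Cst el w K A x → Cst el w K ε u → Cst el w K A y →
      K * |(f (x * u * y) : ℝ) - f (x * y) - f u| ≤ C * ε * K ^ e := by
  obtain ⟨C, hC0, hC⟩ := bil hE hel hf A
  refine ⟨2 * C * |A|, by positivity, fun K ε hK hε x u y hx hu hy => ?_⟩
  have hK0 : 0 < K := by linarith
  have hA : 0 ≤ A := NBil_nonneg hK hx
  have hone : Cst el w K A (1 : G) := ⟨[], by simp, by simpa using hA⟩
  have h2 := hC K A ε hK le_rfl hε x u y hx hu hy
  have h3 := hC K ε A hK hε le_rfl u y 1 hu hy hone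
  simp only [mul_one, h1, Int.cast_zero, add_zero] at h3
  have h4 : (f (x * u * y) : ℝ) - f (x * y) - f u =
      ((f (x * u * y) : ℝ) - f (x * y) - f (u * y) + f y) + ((f (u * y) : ℝ) - f u - f y) := by ring
  rw [h4, abs_of_nonneg hA]
  have h5 := mul_le_mul_of_nonneg_left (abs_add_le ((f (x * u * y) : ℝ) - f (x * y) - f (u * y) + f y)
    ((f (u * y) : ℝ) - f u - f y)) hK0.le
  nlinarith [h2, h3, h5]

end Pool.Agent.MP_b3b911_al.Fil
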