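import Pool.Agent.MP_b3b911_al.Fil.NDeg

namespace Pool.Agent.MP_b3b911_al.Fil

variable {G : Type*} [Group G] {E : ℕ → Subgroup G} {H H' : Subgroup G}

theorem NExt_zpow {lam : G → ℤ} (hadd : ∀ x ∈ H, ∀ y ∈ H, lam (x * y) = lam x + lam y) {b : G}
    (hb : b ∈ H) (hlb : lam b = 1) (n : ℤ) : lam (b ^ n) = n := by
  induction n using Int.induction_on with
  | zero =>
    have := hadd 1 H.one_mem 1 H.one_mem
    rw [mul_one] at this
    rw [zpow_zero]
    omega
  | succ n ih => rw [zpow_add_one, hadd _ (H.zpow_mem hb _) _ hb, ih, hlb]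
  | pred n ih =>
    have := hadd _ (H.zpow_mem hb (-(n : ℤ) - 1)) _ hb
    rw [← zpow_add_one, sub_add_cancel, ih, hlb] at this
    omega

/-- The elements whose left difference has small degree form a subgroup. -/
def NExt_sub (E : ℕ → Subgroup G) (H : Subgroup G) (hH : H ≤ E 1) (d : ℕ) (F : G → ℤ) :
    Subgroup G where
  carrier := {a | a ∈ H ∧ Deg E H d (Ld a F)}
  mul_mem' := fun {a b} ha hb => ⟨H.mul_mem ha.1 hb.1,
    ((ha.2.ltrans hH hb.1).add hb.2).congr fun x _ => by simp only [Ld, mul_assoc]; ring⟩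
  one_mem' := ⟨H.one_mem, (deg_zero.mpr fun x _ => by simp [Ld]).mono (Nat.zero_le _)⟩
  inv_mem' := fun {a} ha => ⟨H.inv_mem ha.1,
    (ha.2.ltrans hH (H.inv_mem ha.1)).neg.congr fun x _ => by
      simp only [Ld, mul_inv_cancel_left]; ring⟩

theorem deg_lam (ω : ℕ) (lam : G → ℤ) (hHE : H ≤ E ω) (hω : 1 ≤ ω) (hE : Filt E)
    (hadd : ∀ x ∈ H, ∀ y ∈ H, lam (x * y) = lam x + lam y)
    (hker : ∀ x ∈ H, x ∈ E (ω + 1) → lam x = 0) : Deg E H (ω + 1) lam := by
  refine deg_intro (by omega) fun j hj a ha haH => ?_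
  by_cases h : j ≤ ω
  · exact (deg_const (by omega) (lam a)).congr fun x hx => by
      simp only [Ld, hadd a haH x hx]; ring
  · refine (deg_zero.mpr fun x hx => ?_).mono (Nat.zero_le _)
    simp only [Ld, hadd a haH x hx, hker a haH (hE.anti (by omega : ω + 1 ≤ j) ha)]
    ring

theorem deg_ext (hE : Filt E) [H'.Normal] (hle : H' ≤ H) (ω : ℕ) (hω : 1 ≤ ω) (hHE : H ≤ E ω)
    (hup : ∀ x ∈ H, x ∈ E (ω + 1) → x ∈ H') (b : G) (hb : b ∈ H) (lam : G → ℤ)
    (hadd : ∀ x ∈ H, ∀ y ∈ H, lam (x * y) = lam x + lam y) (hlb : lam b = 1)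
    (hker : ∀ x ∈ H, lam x = 0 ↔ x ∈ H') {d : ℕ} {f : G → ℤ} (hf : Deg E H' d f) :
    Deg E H d fun g => f (g * b ^ (-lam g)) := by
  have hH : H ≤ E 1 := hHE.trans (hE.anti hω)
  have hπ : ∀ g ∈ H, g * b ^ (-lam g) ∈ H' := fun g hg =>
    (hker _ (H.mul_mem hg (H.zpow_mem hb _))).mp (by
      rw [hadd g hg _ (H.zpow_mem hb _), NExt_zpow hadd hb hlb, add_neg_cancel])
  induction d using Nat.strong_induction_on generalizing f with
  | _ d ih =>
    rcases Nat.eq_zero_or_pos d with rfl | hd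
    · exact deg_zero.mpr fun x hx => deg_zero.mp hf _ (hπ x hx)
    have h1 : ∀ j, 1 ≤ j → ∀ a ∈ E j, a ∈ H' →
        Deg E H (d - j) (Ld a fun g => f (g * b ^ (-lam g))) := fun j hj a ha haH =>
      (ih (d - j) (by omega) (hf.ld hj ha haH)).congr fun x hx => by
        simp only [Ld, hadd a (hle haH) x hx, (hker a (hle haH)).mpr haH, zero_add, mul_assoc]
    refine deg_intro hd fun j hj a ha haH => ?_
    by_cases h : j ≤ ω
    · have h2 : b ∈ NExt_sub E H hH (d - ω) fun g => f (g * b ^ (-lam g)) :=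
        ⟨hb, (ih (d - ω) (by omega) (hf.cd hE (hle.trans hH) hω (hHE hb))).congr fun x hx => by
          simp only [Ld, Cd, hadd b hb x hx, hlb]
          congr 2
          group⟩
      have h3 : a * b ^ (-lam a) ∈ NExt_sub E H hH (d - ω) fun g => f (g * b ^ (-lam g)) :=
        ⟨hle (hπ a haH), h1 ω hω _ (hHE (hle (hπ a haH))) (hπ a haH)⟩
      have h4 := Subgroup.mul_mem _ h3 (Subgroup.zpow_mem _ h2 (lam a))
      rw [mul_assoc, ← zpow_add, neg_add_cancel, zpow_zero, mul_one] at h4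
      exact h4.2.mono (by omega)
    · exact h1 j hj a ha (hup a haH (hE.anti (by omega : ω + 1 ≤ j) ha))

end Pool.Agent.MP_b3b911_al.Fil
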