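import Pool.Agent.MP_b3b911_al.Fil.NKap
import Pool.Agent.MP_b3b911_al.Fil.NBil
import Pool.Agent.MP_b3b911_al.Fil.NExt

namespace Pool.Agent.MP_b3b911_al.Fil

variable {G : Type*} [Group G] {φ : G →* Multiplicative ℤ} {t : G} {F : ℕ → Subgroup G}
  {J : Type} [Fintype J] [DecidableEq J]

theorem NMk_ker (φ : G →* Multiplicative ℤ) (g : G) :
    Multiplicative.toAdd (φ g) = 0 ↔ g ∈ φ.ker := by
  rw [MonoidHom.mem_ker, toAdd_eq_zero]

theorem NMk_nonneg {Λ : Type*} {el : Λ → G} {w : Λ → ℕ} {K A : ℝ} {z : G} (hK : 1 ≤ K)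
    (h : Cst el w K A z) : 0 ≤ A := by
  obtain ⟨l, -, hl⟩ := h
  refine le_trans (List.sum_nonneg ?_) hl
  intro x hx
  obtain ⟨a, -, rfl⟩ := List.mem_map.1 hx
  have : (0 : ℝ) < K := by linarith
  positivity

theorem NMk_inv {J : Type} (b : J → G) (w : J → ℕ) {K A : ℝ} {x : G}
    (h : Cst (lt b) (fun a : J × Bool => w a.1) K A x) :
    Cst (lt b) (fun a : J × Bool => w a.1) K A x⁻¹ := by
  obtain ⟨l, h1, h2⟩ := h
  refine ⟨(l.map fun a => (a.1, !a.2)).reverse, ?_, ?_⟩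
  · rw [← h1, List.prod_inv_reverse, List.map_reverse, List.map_map, List.map_map]
    congr 2
    refine List.map_congr_left ?_
    rintro ⟨j, c⟩ -
    cases c <;> simp [lt]
  · rw [List.map_reverse, List.sum_reverse, List.map_map]
    exact h2

/-- The shifted filtration of the kernel. -/
def NMk_E (φ : G →* Multiplicative ℤ) (F : ℕ → Subgroup G) (n : ℕ) : Subgroup G :=
  if n ≤ 1 then φ.ker else F (n - 1) ⊓ φ.ker

theorem NMk_mem (h : FData φ t F) {n : ℕ} {x : G} :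
    x ∈ NMk_E φ F n ↔ x ∈ F (max (n - 1) 1) ∧ x ∈ φ.ker := by
  unfold NMk_E
  split_ifs with hn
  · have : max (n - 1) 1 = 1 := by omega
    rw [this, h.top]
    simp
  · have : max (n - 1) 1 = n - 1 := by omega
    rw [this, Subgroup.mem_inf]

theorem NMk_filt (h : FData φ t F) : Filt (NMk_E φ F) where
  anti := by
    intro n m hnm x hx
    rw [NMk_mem h] at hx ⊢
    exact ⟨h.filt.anti (by omega) hx.1, hx.2⟩
  normal := by
    intro n
    refine ⟨fun x hx g => ?_⟩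
    rw [NMk_mem h] at hx ⊢
    exact ⟨(h.filt.normal _).conj_mem x hx.1 g, (MonoidHom.normal_ker φ).conj_mem x hx.2 g⟩
  comm := by
    intro i j hi hj x hx y hy
    rw [NMk_mem h] at hx hy ⊢
    refine ⟨h.filt.anti ?_ (h.shift _ _ (le_max_right _ _) (le_max_right _ _) x hx.2 y hy.2
      hx.1 hy.1), ?_⟩
    · omega
    · exact mul_mem (mul_mem (mul_mem hx.2 hy.2) (inv_mem hx.2)) (inv_mem hy.2)

theorem NMk_KE (h : FData φ t F) (C : Coord F φ.ker J) (A : ℝ) : ∃ D : ℝ, 0 ≤ D ∧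
    ∀ K ε : ℝ, 1 ≤ K → ε ≤ A → ∀ x u y,
    Cst (lt C.b) (fun a : J × Bool => C.w a.1) K A x →
    Cst (lt C.b) (fun a : J × Bool => C.w a.1) K ε u →
    Cst (lt C.b) (fun a : J × Bool => C.w a.1) K A y → ∀ j,
    K * |(C.v (x * u * y) j : ℝ) - C.v (x * y) j - C.v u j| ≤ D * ε * K ^ C.w j := by
  have hel : ∀ a : J × Bool, lt C.b a ∈ NMk_E φ F (C.w a.1 + 1) ∧ lt C.b a ∈ φ.ker := by
    rintro ⟨j, c⟩
    have hw := C.w_pos j
    have e : max (C.w j + 1 - 1) 1 = C.w j := by omega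
    rw [NMk_mem h]
    simp only [e]
    cases c
    · exact ⟨⟨inv_mem (C.b_mem j).2, inv_mem (C.b_mem j).1⟩, inv_mem (C.b_mem j).1⟩
    · exact ⟨⟨(C.b_mem j).2, (C.b_mem j).1⟩, (C.b_mem j).1⟩
  have hd : ∀ j, Deg (NMk_E φ F) φ.ker (C.w j + 2) fun g => C.v g j := by
    intro j
    refine C.deg (NMk_E φ F) 1 (NMk_filt h) ?_ j
    intro n hn
    ext x
    have e : max (n + 1 - 1) 1 = n := by omega
    rw [Subgroup.mem_inf, Subgroup.mem_inf, NMk_mem h, e]
    tauto
  have hk := fun j => key_est (w := fun a : J × Bool => C.w a.1) (NMk_filt h) hel (hd j)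
    (by simp [C.v_one]) A
  choose D hD0 hD using hk
  refine ⟨∑ j, D j, Finset.sum_nonneg fun j _ => hD0 j, ?_⟩
  intro K ε hK hε x u y hx hu hy j
  refine (hD j K ε hK hε x u y hx hu hy).trans ?_
  have h0 : 0 ≤ ε := NMk_nonneg hK hu
  have h1 : D j ≤ ∑ j, D j := Finset.single_le_sum (fun j _ => hD0 j) (Finset.mem_univ j)
  have : (0 : ℝ) < K := by linarith
  gcongr

theorem NMk_v (C : Coord F φ.ker J) (K : ℝ) {g : G} (hg : g ∈ φ.ker) :
    Cst (lt C.b) (fun a : J × Bool => C.w a.1) K (∑ j, |(C.v g j : ℝ)| / K ^ C.w j) g := by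
  obtain ⟨l, h1, h2⟩ := C.word g hg
  refine ⟨l, h1, le_of_eq ?_⟩
  rw [h2 fun j => 1 / K ^ C.w j]
  refine Finset.sum_congr rfl fun j _ => ?_
  rw [mul_one_div]

theorem NMk_ball (h : FData φ t F) (C : Coord F φ.ker J) (S : Finset G) (A : ℝ) :
    ∃ D : ℝ, 0 ≤ D ∧ ∀ K : ℝ, 1 ≤ K → ∀ g, Ball S (A * K) g →
    Cst (lt C.b) (fun a : J × Bool => C.w a.1) K D
      (g * t ^ (-Multiplicative.toAdd (φ g))) := by
  classical
  have hd : ∀ j, Deg F ⊤ (C.w j + 1)
      fun g => C.v (g * t ^ (-Multiplicative.toAdd (φ g))) j := by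
    intro j
    refine deg_ext (H := ⊤) (H' := φ.ker) h.filt le_top 1 le_rfl (by rw [h.top])
      (fun x _ hx => h.two hx) t (Subgroup.mem_top _) (fun g => Multiplicative.toAdd (φ g))
      (fun x _ y _ => by simp) (by simp [h.ht]) (fun x _ => NMk_ker φ x) (h.deg_v C j)
  have hk := fun j => pb0 (Λ := ↥(S ∪ S.image (·⁻¹))) (el := Subtype.val) (w := fun _ => 1)
    (ω := fun _ => 1) h.filt (fun _ => le_rfl) (fun _ => le_rfl)
    (fun a => ⟨by rw [h.top]; exact Subgroup.mem_top _, Subgroup.mem_top _⟩) (hd j) A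
  choose D hD0 hD using hk
  refine ⟨∑ j, D j, Finset.sum_nonneg fun j _ => hD0 j, ?_⟩
  rintro K hK g ⟨l, hl, hw, rfl⟩
  have hK0 : (0 : ℝ) < K := by linarith
  have hm : ∀ x ∈ l, x ∈ S ∪ S.image (·⁻¹) := by
    intro x hx
    rcases hw x hx with h | h
    · exact Finset.mem_union_left _ h
    · exact Finset.mem_union_right _ (Finset.mem_image.2 ⟨x⁻¹, h, inv_inv x⟩)
  have hc : Cst (Λ := ↥(S ∪ S.image (·⁻¹))) Subtype.val (fun _ => 1) K A l.prod := by
    refine ⟨l.pmap Subtype.mk hm, by simp [List.map_pmap], ?_⟩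
    rw [List.map_const', List.sum_replicate, List.length_pmap, nsmul_eq_mul, pow_one,
      mul_one_div, div_le_iff₀ hK0]
    exact hl
  have hker : l.prod * t ^ (-Multiplicative.toAdd (φ l.prod)) ∈ φ.ker := by
    rw [← NMk_ker]
    simp [h.ht]
  obtain ⟨l', h1, h2⟩ := NMk_v C K hker
  refine ⟨l', h1, h2.trans (Finset.sum_le_sum fun j _ => ?_)⟩
  have := hD j K hK _ hc
  rw [div_le_iff₀ (by positivity)]
  rw [pow_succ] at this
  nlinarith [this]

theorem FData.pre (h : FData φ t F) (C : Coord F φ.ker J) (S : Finset G)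
    (hS : Subgroup.closure (S : Set G) = ⊤) : Nonempty (Pre S J) := by
  refine ⟨{
    X := fun g => Multiplicative.toAdd (φ g)
    X_mul := fun g h => by simp
    t := t
    X_t := by simp [h.ht]
    gen := hS
    v := C.v
    w := C.w
    r := Finset.univ.sup C.w
    w_pos := C.w_pos
    w_le := fun j => Finset.le_sup (Finset.mem_univ j)
    occ := ?_
    v_one := C.v_one
    inj := fun g g' hg hg' e => C.inj g ((NMk_ker φ g).1 hg) g' ((NMk_ker φ g').1 hg') e
    surj := fun y => by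
      obtain ⟨g, hg, e⟩ := C.surj y
      exact ⟨g, (NMk_ker φ g).2 hg, e⟩
    P := fun p g => g ∈ φ.ker ∧ g ∈ F p
    P_X := fun p g hg => (NMk_ker φ g).2 hg.1
    P_one := fun g hg => ⟨(NMk_ker φ g).1 hg, by rw [h.top]; exact Subgroup.mem_top _⟩
    P_conj := fun p g y hg => by
      rw [zpow_neg]
      exact ⟨(MonoidHom.normal_ker φ).conj_mem g hg.1 _, (h.filt.normal p).conj_mem g hg.2 _⟩
    P_low := fun p g j hg hj => h.low C hg.1 hg.2 hj
    P_deg := fun p g j hp hg hj => h.pdeg C hp hg.1 hg.2 hj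
    P_top := fun p i hp hi => h.ptop C hp hi
    P_bas := fun p i _ hi => ⟨C.b i, ⟨(C.b_mem i).1, h.filt.anti hi (C.b_mem i).2⟩, C.v_b i⟩
    Sm := fun K A => Cst (lt C.b) (fun a : J × Bool => C.w a.1) K A
    Sm_mul := fun K A B x y hx hy => hx.mul hy
    Sm_inv := fun K A x hx => NMk_inv C.b C.w hx
    Sm_mono := fun K A B x hAB hx => by
      obtain ⟨l, h1, h2⟩ := hx
      exact ⟨l, h1, h2.trans hAB⟩
    Sm_v := fun K _ g hg => NMk_v C K ((NMk_ker φ g).1 hg)
    Sm_ball := fun A => NMk_ball h C S A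
    KE := fun A => by
      obtain ⟨D, hD0, hD⟩ := NMk_KE h C A
      exact ⟨D, hD0, fun K ε hK hε x u y _ _ _ hx hu hy j => hD K ε hK hε x u y hx hu hy j⟩
    KV := ?_ }⟩
  · intro q hq hr
    have hne : (Finset.univ : Finset J).Nonempty := by
      by_contra hn
      rw [Finset.not_nonempty_iff_eq_empty] at hn
      rw [hn, Finset.sup_empty] at hr
      simp at hr
      omega
    obtain ⟨i, -, hi⟩ := Finset.exists_mem_eq_sup Finset.univ hne C.w
    exact h.occ C hq (i := i) (hi ▸ hr)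
  · intro p x u y j hx hu hy hj
    have hx' := (NMk_ker φ x).1 hx
    have hy' := (NMk_ker φ y).1 hy
    have hp : 1 ≤ p := (C.w_pos j).trans hj
    have hT : ∀ z : G, z ∈ F 1 := fun z => by rw [h.top]; exact Subgroup.mem_top _
    have e1 := (h.deg_v C j).van2 le_rfl hp (by omega) (hT x) hx' hu.2 hu.1 hy'
    have e2 := (h.deg_v C j).van2 hp le_rfl (by omega) hu.2 hu.1 (hT y) hy' (one_mem _)
    simp only [mul_one, C.v_one, Pi.zero_apply] at e1 e2
    omega

end Pool.Agent.MP_b3b911_al.Fil
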