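import Pool.Agent.MP_b3b911_al.Fil.IGen
import Pool.Agent.MP_b3b911_al.Fil.IFg
import Pool.Agent.MP_b3b911_al.Fil.IQuot
import Pool.Agent.MP_b3b911_al.Fil.NMk
import Pool.Agent.MP_b3b911_al.Fil.NCoord
import Pool.Agent.MP_b3b911_al.Fil.NSys
import Pool.Agent.MP_b3b911_al.Fil.CLog

open Filter Topology

namespace Pool.Agent.MP_b3b911_al.Fil

theorem IFinal_fg {G : Type*} [Group G] (S : Finset G)
    (hS : Subgroup.closure (S : Set G) = ⊤) : Group.FG G :=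
  ⟨⟨S, hS⟩⟩

/-- the hypothesis passes to a quotient through which the map to the integers factors -/
theorem IFinal_pass {G Q : Type*} [Group G] [Group Q] (π : G →* Q) (hπ : Function.Surjective π)
    (φ : G →* Multiplicative ℤ) (ψ : Q →* Multiplicative ℤ) (hψ : ∀ g, ψ (π g) = φ g)
    (h : ∀ j : ℕ, ∀ x ∈ φ.ker, ∀ y ∈ φ.ker, y ∈ (⊤ : Subgroup G).lowerCentralSeries j →
      ∃ n : ℕ, 0 < n ∧ (x * y * x⁻¹ * y⁻¹) ^ n ∈ (⊤ : Subgroup G).lowerCentralSeries (j + 2)) :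
    ∀ j : ℕ, ∀ x ∈ ψ.ker, ∀ y ∈ ψ.ker, y ∈ (⊤ : Subgroup Q).lowerCentralSeries j →
      ∃ n : ℕ, 0 < n ∧ (x * y * x⁻¹ * y⁻¹) ^ n ∈ (⊤ : Subgroup Q).lowerCentralSeries (j + 2) := by
  have hmap : ∀ j, (⊤ : Subgroup Q).lowerCentralSeries j =
      ((⊤ : Subgroup G).lowerCentralSeries j).map π := by
    intro j
    rw [Subgroup.map_lowerCentralSeries, Subgroup.map_top_of_surjective π hπ]
  intro j x hx y hy hyj
  rw [hmap] at hyj
  obtain ⟨y', hy', rfl⟩ := hyj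
  obtain ⟨x', rfl⟩ := hπ x
  rw [MonoidHom.mem_ker, hψ] at hx hy
  obtain ⟨n, hn, hm⟩ := h j x' hx y' hy hy'
  refine ⟨n, hn, ?_⟩
  rw [hmap]
  exact ⟨_, hm, by simp only [map_pow, map_mul, map_inv]⟩

theorem bounded_tf {G : Type*} [Group G] [Group.IsNilpotent G]
    (htf : ∀ g : G, IsOfFinOrder g → g = 1) (S : Finset G)
    (hS : Subgroup.closure (S : Set G) = ⊤) (φ : G →* Multiplicative ℤ)
    (hφ : Function.Surjective φ)
    (h : ∀ j : ℕ, ∀ x ∈ φ.ker, ∀ y ∈ φ.ker, y ∈ (⊤ : Subgroup G).lowerCentralSeries j →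
      ∃ n : ℕ, 0 < n ∧ (x * y * x⁻¹ * y⁻¹) ^ n ∈ (⊤ : Subgroup G).lowerCentralSeries (j + 2)) :
    ∃ (e : ℕ) (c C : ℝ), 0 < c ∧ ∀ k : ℕ, 1 ≤ k →
      |(growth S k : ℝ) - c * (k : ℝ) ^ (e + 1)| ≤ C * (k : ℝ) ^ e := by
  have : Group.FG G := IFinal_fg S hS
  obtain ⟨t, ht⟩ := hφ (Multiplicative.ofAdd 1)
  have hD := fdata htf φ t ht h
  obtain ⟨r, hr⟩ := hD.bot
  obtain ⟨J, _, _, ⟨C⟩⟩ := coord_exists hD.filt hD.top r hr hD.iso (fun H => sub_fg H) φ.ker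
  obtain ⟨Z⟩ := hD.pre C S hS
  obtain ⟨c, C', hc, hb⟩ := Z.core
  refine ⟨∑ j, Z.w j, c, C', hc, fun k hk => ?_⟩
  rw [add_comm]
  exact hb k hk

theorem bounded {G : Type*} [Group G] [Group.IsNilpotent G] (S : Finset G)
    (hS : Subgroup.closure (S : Set G) = ⊤) (φ : G →* Multiplicative ℤ)
    (hφ : Function.Surjective φ)
    (h : ∀ j : ℕ, ∀ x ∈ φ.ker, ∀ y ∈ φ.ker, y ∈ (⊤ : Subgroup G).lowerCentralSeries j →
      ∃ n : ℕ, 0 < n ∧ (x * y * x⁻¹ * y⁻¹) ^ n ∈ (⊤ : Subgroup G).lowerCentralSeries (j + 2)) :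
    ∃ (d : ℕ) (c C : ℝ),
      Tendsto (fun k : ℕ => Real.log (growth S k) / Real.log k) atTop (𝓝 d) ∧ 0 < c ∧
      Tendsto (fun k : ℕ => (growth S k : ℝ) / (k : ℝ) ^ d) atTop (𝓝 c) ∧
      ∀ k : ℕ, 1 ≤ k →
        |((growth S k : ℝ) - c * (k : ℝ) ^ d) / (k : ℝ) ^ ((d : ℤ) - 1)| ≤ C := by
  classical
  have : Group.FG G := IFinal_fg S hS
  set T : Subgroup G := isol (⊥ : Subgroup G) with hT
  have : T.Normal := isol_normal ⊥
  have hTt : ∀ g ∈ T, IsOfFinOrder g := by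
    intro g hg
    obtain ⟨n, hn, hg⟩ := mem_isol.1 hg
    exact isOfFinOrder_iff_pow_eq_one.2 ⟨n, hn, Subgroup.mem_bot.1 hg⟩
  have hfin : Finite T := tors_finite T hTt
  have hφT : ∀ g ∈ T, φ g = 1 := by
    intro g hg
    have h1 : IsOfFinOrder (φ g) := φ.isOfFinOrder (hTt g hg)
    exact h1.eq_one'
  set π : G →* G ⧸ T := QuotientGroup.mk' T with hπ
  have hsurj : Function.Surjective π := QuotientGroup.mk'_surjective T
  set ψ : G ⧸ T →* Multiplicative ℤ := QuotientGroup.lift T φ hφT with hψ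
  have hψπ : ∀ g, ψ (π g) = φ g := fun g => rfl
  have hψs : Function.Surjective ψ := by
    intro z
    obtain ⟨g, rfl⟩ := hφ z
    exact ⟨π g, hψπ g⟩
  have htf : ∀ q : G ⧸ T, IsOfFinOrder q → q = 1 := by
    intro q hq
    obtain ⟨g, rfl⟩ := hsurj q
    obtain ⟨n, hn, hq⟩ := isOfFinOrder_iff_pow_eq_one.1 hq
    rw [← map_pow] at hq
    have h1 : g ^ n ∈ T := (QuotientGroup.eq_one_iff _).1 hq
    exact (QuotientGroup.eq_one_iff _).2 (isol_pow hn h1)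
  have hS' : Subgroup.closure ((S.image π : Finset (G ⧸ T)) : Set (G ⧸ T)) = ⊤ := by
    rw [Finset.coe_image, ← MonoidHom.map_closure, hS, Subgroup.map_top_of_surjective π hsurj]
  obtain ⟨e, c, C, hc, hb⟩ := bounded_tf htf (S.image π) hS' ψ hψs
    (IFinal_pass π hsurj φ ψ hψπ h)
  have hker : Finite π.ker := by
    rw [hπ, QuotientGroup.ker_mk']
    exact hfin
  obtain ⟨c', C', hc', hb'⟩ := quot_transfer S hS π hker hc hb
  have hr := ratio_of_bound (a := fun k => (growth S k : ℝ)) hb'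
  refine ⟨e + 1, c', C', log_ratio (a := fun k => (growth S k : ℝ)) hc' hr, hc', hr,
    fun k hk => ?_⟩
  have hk' : (0 : ℝ) < k := by exact_mod_cast hk
  have he : (((e + 1 : ℕ) : ℤ) - 1) = (e : ℤ) := by push_cast; ring
  rw [he, zpow_natCast, abs_div, abs_of_pos (pow_pos hk' e), div_le_iff₀ (pow_pos hk' e)]
  exact hb' k hk

end Pool.Agent.MP_b3b911_al.Fil
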