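import Pool.Agent.MP_b3b911_al.Fil.IShift

namespace Pool.Agent.MP_b3b911_al.Fil

variable {G : Type*} [Group G] [Group.IsNilpotent G]

omit [Group.IsNilpotent G] in
/-- bilinearity of commutators with central values -/
theorem IGen_main {Q : Type*} [Group Q] (π : G →* Q) (φ : G →* Multiplicative ℤ) (t : G)
    (ht : φ t = Multiplicative.ofAdd 1) (A : Subgroup G)
    (hc : ∀ g, ∀ b ∈ A, ∀ q, π (g * b * g⁻¹ * b⁻¹) * π q = π q * π (g * b * g⁻¹ * b⁻¹))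
    (hk : ∀ g ∈ φ.ker, ∀ b ∈ A, π (g * b * g⁻¹ * b⁻¹) = 1) :
    ∀ z ∈ ⁅A, (⊤ : Subgroup G)⁆, ∃ b ∈ A, π (t * b * t⁻¹ * b⁻¹) = π z := by
  have hr : ∀ g b b', b' ∈ A → π (g * (b * b') * g⁻¹ * (b * b')⁻¹) =
      π (g * b * g⁻¹ * b⁻¹) * π (g * b' * g⁻¹ * b'⁻¹) := fun g b b' hb' => by
    have e : g * (b * b') * g⁻¹ * (b * b')⁻¹ =
        g * b * g⁻¹ * b⁻¹ * (b * (g * b' * g⁻¹ * b'⁻¹) * b⁻¹) := by group
    rw [e, map_mul π _ (b * _ * _), map_mul π (b * _), map_mul π b, ← hc g b' hb' b,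
      mul_assoc (π _) (π b), ← map_mul π b, mul_inv_cancel, map_one, mul_one]
  have hl : ∀ g g' b, b ∈ A → π (g * g' * b * (g * g')⁻¹ * b⁻¹) =
      π (g' * b * g'⁻¹ * b⁻¹) * π (g * b * g⁻¹ * b⁻¹) := fun g g' b hb => by
    have e : g * g' * b * (g * g')⁻¹ * b⁻¹ =
        g * (g' * b * g'⁻¹ * b⁻¹) * g⁻¹ * (g * b * g⁻¹ * b⁻¹) := by group
    rw [e, map_mul π _ (g * b * _ * _), map_mul π (g * _), map_mul π g, ← hc g' b hb g,
      mul_assoc (π _) (π g), ← map_mul π g, mul_inv_cancel, map_one, mul_one]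
  let K : Subgroup Q :=
    { carrier := {q | ∃ b ∈ A, π (t * b * t⁻¹ * b⁻¹) = q}
      one_mem' := ⟨1, A.one_mem, by simp⟩
      mul_mem' := by
        rintro _ _ ⟨b, hb, rfl⟩ ⟨b', hb', rfl⟩
        exact ⟨b * b', A.mul_mem hb hb', hr t b b' hb'⟩
      inv_mem' := by
        rintro _ ⟨b, hb, rfl⟩
        refine ⟨b⁻¹, A.inv_mem hb, eq_inv_of_mul_eq_one_right ?_⟩
        rw [← hr t b b⁻¹ (A.inv_mem hb)]
        simp }
  suffices h : ⁅A, (⊤ : Subgroup G)⁆ ≤ K.comap π from fun z hz => h hz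
  refine Subgroup.commutator_le.2 fun a ha g _ => ?_
  let L : Subgroup G :=
    { carrier := {g | π (g * a * g⁻¹ * a⁻¹) ∈ K}
      one_mem' := by simp
      mul_mem' := fun {x y} hx hy => by
        rw [Set.mem_ofPred_eq, hl x y a ha]
        exact K.mul_mem hy hx
      inv_mem' := fun {x} hx => by
        have h1 := hl x x⁻¹ a ha
        rw [mul_inv_cancel, one_mul, inv_one, mul_one, mul_inv_cancel, map_one] at h1
        rw [Set.mem_ofPred_eq, eq_inv_of_mul_eq_one_left h1.symm]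
        exact K.inv_mem hx }
  have h1 : t ∈ L := ⟨a, ha, rfl⟩
  have h2 : g * t ^ (-(φ g).toAdd) ∈ L := by
    change π _ ∈ K
    rw [hk _ _ a ha]
    · exact K.one_mem
    · rw [MonoidHom.mem_ker, map_mul, map_zpow, ht, ← ofAdd_zsmul, smul_eq_mul, mul_one,
        ofAdd_neg, ofAdd_toAdd, mul_inv_cancel]
  have h3 : g ∈ L := (L.mul_mem_cancel_right (L.zpow_mem h1 _)).1 h2
  have e : a * g * a⁻¹ * g⁻¹ = (g * a * g⁻¹ * a⁻¹)⁻¹ := by group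
  rw [Subgroup.mem_comap, commutatorElement_def, e, map_inv]
  exact K.inv_mem h3

theorem isoF_gen (φ : G →* Multiplicative ℤ) (t : G) (ht : φ t = Multiplicative.ofAdd 1)
    (h : ∀ j : ℕ, ∀ x ∈ φ.ker, ∀ y ∈ φ.ker, y ∈ (⊤ : Subgroup G).lowerCentralSeries j →
      ∃ n : ℕ, 0 < n ∧ (x * y * x⁻¹ * y⁻¹) ^ n ∈ (⊤ : Subgroup G).lowerCentralSeries (j + 2)) :
    ∀ p, 1 ≤ p → ∀ γ ∈ isoF G (p + 1), ∃ n : ℕ, 0 < n ∧ ∃ β ∈ φ.ker, β ∈ isoF G p ∧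
      (t * β * t⁻¹ * β⁻¹)⁻¹ * γ ^ n ∈ isoF G (p + 2) := by
  intro p hp γ hγ
  obtain ⟨p, rfl⟩ : ∃ k, p = k + 1 := ⟨p - 1, by omega⟩
  have := (isoF_filt (G := G)).normal (p + 1 + 2)
  have hT : ∀ g : G, g ∈ isoF G 1 := fun g => by
    rw [isoF_one]
    exact Subgroup.mem_top g
  have hA : ∀ b ∈ φ.ker ⊓ (⊤ : Subgroup G).lowerCentralSeries p, b ∈ isoF G (p + 1) :=
    fun b hb => mem_isol.2 ⟨1, one_pos, by
      rw [pow_one]
      exact hb.2⟩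
  obtain ⟨n, hn, h1⟩ := mem_isol.1 hγ
  obtain ⟨b, hb, h2⟩ := IGen_main (QuotientGroup.mk' (isoF G (p + 1 + 2))) φ t ht
    (φ.ker ⊓ (⊤ : Subgroup G).lowerCentralSeries p) (fun g b hb q => by
      have h3 := isoF_filt.comm 1 (p + 1) le_rfl hp g (hT g) b (hA b hb)
      have h4 := isoF_filt.comm (1 + (p + 1)) 1 (by omega) le_rfl _ h3 q (hT q)
      rw [show 1 + (p + 1) + 1 = p + 1 + 2 by omega, ← QuotientGroup.eq_one_iff] at h4
      rw [← mul_inv_eq_one, ← map_mul, ← map_mul, ← map_inv, ← map_mul, mul_inv_rev, ← mul_assoc]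
      exact h4) (fun g hg b hb => by
      have h3 := isoF_shift φ t ht h 1 (p + 1) le_rfl hp g hg b hb.1 (hT g) (hA b hb)
      rw [show 1 + (p + 1) + 1 = p + 1 + 2 by omega, ← QuotientGroup.eq_one_iff] at h3
      exact h3) (γ ^ n) (lcs_le_ker_comm φ t ht p h1)
  exact ⟨n, hn, b, hb.1, hA b hb, QuotientGroup.eq.1 h2⟩

theorem fdata (htf : ∀ g : G, IsOfFinOrder g → g = 1) (φ : G →* Multiplicative ℤ) (t : G)
    (ht : φ t = Multiplicative.ofAdd 1)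
    (h : ∀ j : ℕ, ∀ x ∈ φ.ker, ∀ y ∈ φ.ker, y ∈ (⊤ : Subgroup G).lowerCentralSeries j →
      ∃ n : ℕ, 0 < n ∧ (x * y * x⁻¹ * y⁻¹) ^ n ∈ (⊤ : Subgroup G).lowerCentralSeries (j + 2)) :
    FData φ t (isoF G) := by
  exact ⟨ht, isoF_filt, isoF_one, isoF_bot htf, fun n g k hk hg => isol_pow hk hg, isoF_two φ,
    isoF_shift φ t ht h, isoF_gen φ t ht h⟩

end Pool.Agent.MP_b3b911_al.Fil
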