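import Pool.Agent.MP_b3b911_al.Fil.CDefs

/-! Definitions for filtered groups, polynomial functions and adapted coordinates. -/

namespace Pool.Agent.MP_b3b911_al.Fil

variable {G : Type*} [Group G]

/-- A filtration by normal subgroups, compatible with commutators (the index `0` plays no role). -/
structure Filt (E : ℕ → Subgroup G) : Prop where
  anti : Antitone E
  normal : ∀ n, (E n).Normal
  comm : ∀ i j, 1 ≤ i → 1 ≤ j → ∀ x ∈ E i, ∀ y ∈ E j, x * y * x⁻¹ * y⁻¹ ∈ E (i + j)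

/-- Left difference. -/
def Ld (h : G) (f : G → ℤ) : G → ℤ := fun x => f (h * x) - f x

/-- Right difference. -/
def Rd (h : G) (f : G → ℤ) : G → ℤ := fun x => f (x * h) - f x

/-- Conjugation difference. -/
def Cd (a : G) (f : G → ℤ) : G → ℤ := fun x => f (a * x * a⁻¹) - f x

/-- Iterated left differences. -/
def Lds : List (ℕ × G) → (G → ℤ) → G → ℤ
  | [], f => f
  | p :: l, f => Lds l (Ld p.2 f)

/-- `f` has weighted degree less than `d` on `H`. -/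
def Deg (E : ℕ → Subgroup G) (H : Subgroup G) (d : ℕ) (f : G → ℤ) : Prop :=
  ∀ l : List (ℕ × G), (∀ p ∈ l, 1 ≤ p.1 ∧ p.2 ∈ E p.1 ∧ p.2 ∈ H) → d ≤ (l.map Prod.fst).sum →
    ∀ x ∈ H, Lds l f x = 0

/-- `z` is a product of letters whose weighted cost at scale `K` is at most `A`. -/
def Cst {Λ : Type*} (el : Λ → G) (w : Λ → ℕ) (K A : ℝ) (z : G) : Prop :=
  ∃ l : List Λ, (l.map el).prod = z ∧ (l.map fun a => 1 / K ^ w a).sum ≤ A

/-- A basis letter or its inverse. -/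
def lt {J : Type} (b : J → G) (a : J × Bool) : G := if a.2 then b a.1 else (b a.1)⁻¹

/-- Adapted integer coordinates on the subgroup `H`. -/
structure Coord (F : ℕ → Subgroup G) (H : Subgroup G) (J : Type) [Fintype J] [DecidableEq J] where
  b : J → G
  w : J → ℕ
  v : G → J → ℤ
  w_pos : ∀ j, 1 ≤ w j
  b_mem : ∀ j, b j ∈ H ∧ b j ∈ F (w j)
  v_one : v 1 = 0
  v_b : ∀ j, v (b j) = Pi.single j 1
  inj : ∀ g ∈ H, ∀ h ∈ H, v g = v h → g = h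
  surj : ∀ y, ∃ g ∈ H, v g = y
  word : ∀ g ∈ H, ∃ l : List (J × Bool), (l.map (lt b)).prod = g ∧
    ∀ κ : J → ℝ, (l.map fun a => κ a.1).sum = ∑ j, |(v g j : ℝ)| * κ j
  deg : ∀ (E : ℕ → Subgroup G) (σ : ℕ), Filt E → (∀ n, 1 ≤ n → E (n + σ) ⊓ H = F n ⊓ H) →
    ∀ j, Deg E H (w j + σ + 1) fun g => v g j

/-- The filtration data of a torsion free group with a map onto the integers. -/
structure FData (φ : G →* Multiplicative ℤ) (t : G) (F : ℕ → Subgroup G) : Prop where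
  ht : φ t = Multiplicative.ofAdd 1
  filt : Filt F
  top : F 1 = ⊤
  bot : ∃ r, F (r + 1) = ⊥
  iso : ∀ n g (k : ℕ), 0 < k → g ^ k ∈ F n → g ∈ F n
  two : F 2 ≤ φ.ker
  shift : ∀ i j, 1 ≤ i → 1 ≤ j → ∀ x ∈ φ.ker, ∀ y ∈ φ.ker, x ∈ F i → y ∈ F j →
    x * y * x⁻¹ * y⁻¹ ∈ F (i + j + 1)
  gen : ∀ p, 1 ≤ p → ∀ γ ∈ F (p + 1), ∃ n : ℕ, 0 < n ∧ ∃ β ∈ φ.ker, β ∈ F p ∧
    (t * β * t⁻¹ * β⁻¹)⁻¹ * γ ^ n ∈ F (p + 2)

/-- The data from which the estimates `H1` and `H2` are derived. -/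
structure Pre (S : Finset G) (J : Type) [Fintype J] [DecidableEq J] where
  X : G → ℤ
  X_mul : ∀ g h, X (g * h) = X g + X h
  t : G
  X_t : X t = 1
  gen : Subgroup.closure (S : Set G) = ⊤
  v : G → J → ℤ
  w : J → ℕ
  r : ℕ
  w_pos : ∀ j, 1 ≤ w j
  w_le : ∀ j, w j ≤ r
  occ : ∀ q, 1 ≤ q → q ≤ r → ∃ j, w j = q
  v_one : v 1 = 0
  inj : ∀ g h, X g = 0 → X h = 0 → v g = v h → g = h
  surj : ∀ y, ∃ g, X g = 0 ∧ v g = y
  P : ℕ → G → Prop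
  P_X : ∀ p g, P p g → X g = 0
  P_one : ∀ g, X g = 0 → P 1 g
  P_conj : ∀ p g (y : ℤ), P p g → P p (t ^ y * g * t ^ (-y))
  P_low : ∀ p g j, P p g → w j < p → v g j = 0
  P_deg : ∀ p g j, 1 ≤ p → P p g → p ≤ w j →
    (fwdDiff (1 : ℤ))^[w j - p + 1] (fun y : ℤ => v (t ^ y * g * t ^ (-y)) j) = 0
  P_top : ∀ p i, 1 ≤ p → p ≤ w i → ∃ (q : ℤ) (g : G), 0 < q ∧ P p g ∧ ∀ j, w j = w i →
    (fwdDiff (1 : ℤ))^[w i - p] (fun y : ℤ => v (t ^ y * g * t ^ (-y)) j) =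
      fun _ => if j = i then q else 0
  P_bas : ∀ p i, 1 ≤ p → p ≤ w i → ∃ g, P p g ∧ v g = Pi.single i 1
  Sm : ℝ → ℝ → G → Prop
  Sm_mul : ∀ K A B x y, Sm K A x → Sm K B y → Sm K (A + B) (x * y)
  Sm_inv : ∀ K A x, Sm K A x → Sm K A x⁻¹
  Sm_mono : ∀ K A B x, A ≤ B → Sm K A x → Sm K B x
  Sm_v : ∀ K : ℝ, 1 ≤ K → ∀ g, X g = 0 → Sm K (∑ j, |(v g j : ℝ)| / K ^ w j) g
  Sm_ball : ∀ A : ℝ, ∃ C : ℝ, 0 ≤ C ∧ ∀ K : ℝ, 1 ≤ K → ∀ g, Ball S (A * K) g →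
    Sm K C (g * t ^ (-X g))
  KE : ∀ A : ℝ, ∃ C : ℝ, 0 ≤ C ∧ ∀ K ε : ℝ, 1 ≤ K → ε ≤ A → ∀ x u y, X x = 0 → X u = 0 → X y = 0 →
    Sm K A x → Sm K ε u → Sm K A y → ∀ j,
    K * |(v (x * u * y) j : ℝ) - v (x * y) j - v u j| ≤ C * ε * K ^ w j
  KV : ∀ p x u y j, X x = 0 → P p u → X y = 0 → w j ≤ p →
    v (x * u * y) j = v (x * y) j + v u j

variable {S : Finset G} {J : Type} [Fintype J] [DecidableEq J]

/-- The coordinates of the kernel component. -/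
def Pre.V (Z : Pre S J) (g : G) : J → ℤ := Z.v (g * Z.t ^ (-Z.X g))

/-- The coordinates of a conjugate by a power of `t`. -/
def Pre.ψ (Z : Pre S J) (g : G) (y : ℤ) : J → ℤ := Z.v (Z.t ^ y * g * Z.t ^ (-y))

/-- The initial segments of the word come within `a` of every position in the range. -/
def Pre.Cov (Z : Pre S J) (a : ℝ) (σ : ℤ) (L : ℝ) (l : List G) : Prop :=
  ∀ y : ℕ, (y : ℝ) ≤ L + Z.r → ∃ n, |(Z.X (l.take n).prod : ℝ) - σ * y| ≤ a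

theorem Pre.X_one (Z : Pre S J) : Z.X 1 = 0 := by
  have := Z.X_mul 1 1
  rw [mul_one] at this
  omega

theorem Pre.X_inv (Z : Pre S J) (g : G) : Z.X g⁻¹ = -Z.X g := by
  have := Z.X_mul g g⁻¹
  rw [mul_inv_cancel, Z.X_one] at this
  omega

theorem Pre.X_zpow (Z : Pre S J) (g : G) (n : ℤ) : Z.X (g ^ n) = n * Z.X g := by
  induction n using Int.induction_on with
  | zero => simp [Z.X_one]
  | succ n ih => rw [zpow_add_one, Z.X_mul, ih]; ring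
  | pred n ih => rw [zpow_sub_one, Z.X_mul, ih, Z.X_inv]; ring

theorem Pre.X_tpow (Z : Pre S J) (n : ℤ) : Z.X (Z.t ^ n) = n := by
  rw [Z.X_zpow, Z.X_t, mul_one]

end Pool.Agent.MP_b3b911_al.Fil
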