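import Pool.Agent.MP_b3b911_al.Fil.ITor
import Pool.Agent.MP_b3b911_al.Fil.NDefs

namespace Pool.Agent.MP_b3b911_al.Fil

variable {G : Type*} [Group G]

/-- the isolator of a normal subgroup of a nilpotent group -/
def isol [Group.IsNilpotent G] (H : Subgroup G) [H.Normal] : Subgroup G where
  carrier := {g | IsOfFinOrder (QuotientGroup.mk' H g)}
  one_mem' := by simp
  mul_mem' := fun {x y} hx hy => by
    simp only [Set.mem_setOf_eq, map_mul] at hx hy ⊢
    exact tors_mul hx hy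
  inv_mem' := fun {x} hx => by
    simp only [Set.mem_setOf_eq, map_inv] at hx ⊢
    exact hx.inv

/-- the isolator filtration -/
def isoF (G : Type*) [Group G] [Group.IsNilpotent G] (n : ℕ) : Subgroup G :=
  isol ((⊤ : Subgroup G).lowerCentralSeries (n - 1))

variable [Group.IsNilpotent G]

theorem mem_isol {H : Subgroup G} [H.Normal] {g : G} :
    g ∈ isol H ↔ ∃ n : ℕ, 0 < n ∧ g ^ n ∈ H := by
  change IsOfFinOrder (QuotientGroup.mk' H g) ↔ _
  rw [isOfFinOrder_iff_pow_eq_one]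
  refine exists_congr fun n => and_congr_right fun _ => ?_
  rw [← map_pow, QuotientGroup.mk'_apply, QuotientGroup.eq_one_iff]

theorem isol_normal (H : Subgroup G) [H.Normal] : (isol H).Normal := by
  refine ⟨fun x hx g => ?_⟩
  obtain ⟨n, hn, h⟩ := mem_isol.1 hx
  refine mem_isol.2 ⟨n, hn, ?_⟩
  rw [conj_pow]
  exact Subgroup.Normal.conj_mem inferInstance _ h g

theorem isol_pow {H : Subgroup G} [H.Normal] {g : G} {k : ℕ} (hk : 0 < k) (h : g ^ k ∈ isol H) :
    g ∈ isol H := by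
  obtain ⟨n, hn, h⟩ := mem_isol.1 h
  exact mem_isol.2 ⟨k * n, Nat.mul_pos hk hn, by rwa [pow_mul]⟩

/-- commutators modulo an isolator only depend on powers -/
theorem isol_comm {H : Subgroup G} [H.Normal] {x y : G} {n m : ℕ} (hn : 0 < n) (hm : 0 < m)
    (h : x ^ n * y ^ m * (x ^ n)⁻¹ * (y ^ m)⁻¹ ∈ isol H) : x * y * x⁻¹ * y⁻¹ ∈ isol H := by
  haveI := isol_normal H
  have htf : ∀ q : G ⧸ isol H, IsOfFinOrder q → q = 1 := by
    intro q hq
    obtain ⟨g, rfl⟩ := QuotientGroup.mk'_surjective (isol H) q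
    obtain ⟨k, hk, h1⟩ := isOfFinOrder_iff_pow_eq_one.1 hq
    rw [← map_pow, QuotientGroup.mk'_apply, QuotientGroup.eq_one_iff] at h1
    rw [QuotientGroup.mk'_apply, QuotientGroup.eq_one_iff]
    exact isol_pow hk h1
  have key : ∀ a b : G, a * b * a⁻¹ * b⁻¹ ∈ isol H ↔
      Commute (QuotientGroup.mk' (isol H) a) (QuotientGroup.mk' (isol H) b) := by
    intro a b
    rw [← QuotientGroup.eq_one_iff, ← commutatorElement_eq_one_iff_commute,
      ← map_commutatorElement, QuotientGroup.mk'_apply, commutatorElement_def]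
  rw [key] at h ⊢
  rw [map_pow, map_pow] at h
  exact comm_of_pow htf hn hm h

theorem isoF_filt : Filt (isoF G) := by
  refine ⟨fun a b hab g hg => ?_, fun n => isol_normal _, fun i j hi hj x hx y hy => ?_⟩
  · obtain ⟨n, hn, h⟩ := mem_isol.1 hg
    exact mem_isol.2 ⟨n, hn,
      (⊤ : Subgroup G).lowerCentralSeries_antitone (Nat.sub_le_sub_right hab 1) h⟩
  · obtain ⟨n, hn, h1⟩ := mem_isol.1 hx
    obtain ⟨m, hm, h2⟩ := mem_isol.1 hy
    have h3 := lcs_comm _ _ h1 h2
    have e : i - 1 + (j - 1) + 1 = i + j - 1 := by omega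
    rw [e] at h3
    exact isol_comm hn hm (mem_isol.2 ⟨1, Nat.one_pos, by rwa [pow_one]⟩)

theorem isoF_one : isoF G 1 = ⊤ := by
  refine eq_top_iff.2 fun g _ => mem_isol.2 ⟨1, Nat.one_pos, ?_⟩
  simp

theorem isoF_bot (htf : ∀ g : G, IsOfFinOrder g → g = 1) : ∃ r, isoF G (r + 1) = ⊥ := by
  refine ⟨Group.nilpotencyClass G, eq_bot_iff.2 fun g hg => ?_⟩
  obtain ⟨n, hn, h⟩ := mem_isol.1 hg
  rw [Nat.add_sub_cancel, Subgroup.lowerCentralSeries_nilpotencyClass, Subgroup.mem_bot] at h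
  exact Subgroup.mem_bot.2 (htf g (isOfFinOrder_iff_pow_eq_one.2 ⟨n, hn, h⟩))

theorem isoF_two (φ : G →* Multiplicative ℤ) : isoF G 2 ≤ φ.ker := by
  intro g hg
  obtain ⟨n, hn, h⟩ := mem_isol.1 hg
  have h1 : g ^ n ∈ commutator G := h
  have h2 : φ (g ^ n) = 1 := Abelianization.commutator_subset_ker φ h1
  rw [map_pow] at h2
  have h3 := congrArg Multiplicative.toAdd h2
  rw [toAdd_pow, toAdd_one, nsmul_eq_mul] at h3
  have h4 : Multiplicative.toAdd (φ g) = 0 := by
    rcases mul_eq_zero.1 h3 with h5 | h5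
    · exact absurd (by exact_mod_cast h5 : n = 0) hn.ne'
    · exact h5
  exact (MonoidHom.mem_ker).2 (toAdd_eq_zero.1 h4)

end Pool.Agent.MP_b3b911_al.Fil
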