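import Pool.Agent.MP_b3b911_al.Fil.IIso

namespace Pool.Agent.MP_b3b911_al.Fil

open scoped commutatorElement in
theorem IShift_three {G : Type*} [Group G] {A B C N : Subgroup G} [N.Normal]
    (h1 : ⁅⁅B, C⁆, A⁆ ≤ N) (h2 : ⁅⁅C, A⁆, B⁆ ≤ N) : ⁅⁅A, B⁆, C⁆ ≤ N := by
  have key : ∀ X : Subgroup G, X ≤ N ↔ X.map (QuotientGroup.mk' N) = ⊥ := fun X => by
    rw [Subgroup.map_eq_bot_iff, QuotientGroup.ker_mk']
  rw [key] at h1 h2 ⊢
  simp only [Subgroup.map_commutator] at h1 h2 ⊢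
  exact Subgroup.commutator_commutator_eq_bot_of_rotate h1 h2

theorem IShift_ker {G : Type*} [Group G] (φ : G →* Multiplicative ℤ) (t : G)
    (ht : φ t = Multiplicative.ofAdd 1) (g : G) :
    g * (t ^ (Multiplicative.toAdd (φ g)))⁻¹ ∈ φ.ker := by
  rw [MonoidHom.mem_ker, map_mul, map_inv, map_zpow, ht, ← ofAdd_zsmul, smul_eq_mul, mul_one,
    ofAdd_toAdd, mul_inv_cancel]

theorem IShift_zero {G : Type*} [Group G] (φ : G →* Multiplicative ℤ) (t : G)
    (ht : φ t = Multiplicative.ofAdd 1) :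
    ⁅(⊤ : Subgroup G), (⊤ : Subgroup G)⁆ ≤ ⁅φ.ker, (⊤ : Subgroup G)⁆ := by
  set N : Subgroup G := ⁅φ.ker, (⊤ : Subgroup G)⁆ with hN
  have hc : ∀ k ∈ φ.ker, ∀ g : G,
      Commute (QuotientGroup.mk' N k) (QuotientGroup.mk' N g) := by
    intro k hk g
    rw [← commutatorElement_eq_one_iff_commute, ← map_commutatorElement, ← MonoidHom.mem_ker,
      QuotientGroup.ker_mk']
    exact Subgroup.commutator_mem_commutator hk (Subgroup.mem_top g)
  rw [Subgroup.commutator_le]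
  intro x _ y _
  rw [← QuotientGroup.ker_mk' N, MonoidHom.mem_ker, map_commutatorElement,
    commutatorElement_eq_one_iff_commute]
  have hx := IShift_ker φ t ht x
  have hy := IShift_ker φ t ht y
  rw [← inv_mul_cancel_right x (t ^ (Multiplicative.toAdd (φ x))), map_mul]
  refine (hc _ hx y).mul_left ?_
  rw [← inv_mul_cancel_right y (t ^ (Multiplicative.toAdd (φ y))), map_mul]
  refine (hc _ hy _).symm.mul_right ?_
  rw [map_zpow, map_zpow]
  exact Commute.zpow_zpow_self _ _ _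

theorem IShift_one {G : Type*} [Group G] (φ : G →* Multiplicative ℤ) (i : ℕ) :
    (⊤ : Subgroup G).lowerCentralSeries (i + 1) ≤ φ.ker := by
  refine le_trans (Subgroup.lowerCentralSeries_antitone ⊤ (Nat.le_add_left 1 i)) ?_
  rw [Subgroup.top_lowerCentralSeries_one]
  exact Abelianization.commutator_subset_ker φ

variable {G : Type*} [Group G] [Group.IsNilpotent G]

omit [Group.IsNilpotent G] in
theorem lcs_le_ker_comm (φ : G →* Multiplicative ℤ) (t : G) (ht : φ t = Multiplicative.ofAdd 1)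
    (i : ℕ) : (⊤ : Subgroup G).lowerCentralSeries (i + 1) ≤
      ⁅φ.ker ⊓ (⊤ : Subgroup G).lowerCentralSeries i, (⊤ : Subgroup G)⁆ := by
  cases i with
  | zero =>
    rw [Subgroup.lowerCentralSeries_succ, Subgroup.lowerCentralSeries_zero, inf_top_eq]
    exact IShift_zero φ t ht
  | succ i =>
    rw [inf_eq_right.2 (IShift_one φ i)]
    exact le_rfl

theorem IShift_sub (φ : G →* Multiplicative ℤ) (t : G) (ht : φ t = Multiplicative.ofAdd 1)
    (h : ∀ j : ℕ, ∀ x ∈ φ.ker, ∀ y ∈ φ.ker, y ∈ (⊤ : Subgroup G).lowerCentralSeries j →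
      ∃ n : ℕ, 0 < n ∧ (x * y * x⁻¹ * y⁻¹) ^ n ∈ (⊤ : Subgroup G).lowerCentralSeries (j + 2))
    (a : ℕ) : ∀ b : ℕ, ⁅φ.ker ⊓ (⊤ : Subgroup G).lowerCentralSeries a,
      φ.ker ⊓ (⊤ : Subgroup G).lowerCentralSeries b⁆ ≤ isoF G (a + b + 3) := by
  induction a with
  | zero =>
    intro b
    rw [Subgroup.commutator_le]
    intro x hx y hy
    rw [zero_add]
    exact mem_isol.2 (h b x hx.1 y hy.1 hy.2)
  | succ a ih =>
    intro b
    have := (isoF_filt (G := G)).normal (a + 1 + b + 3)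
    refine le_trans (Subgroup.commutator_mono
      (inf_le_right.trans (lcs_le_ker_comm φ t ht a)) le_rfl) (IShift_three ?_ ?_)
    · have h1 : ⁅(⊤ : Subgroup G), φ.ker ⊓ (⊤ : Subgroup G).lowerCentralSeries b⁆ ≤
          φ.ker ⊓ (⊤ : Subgroup G).lowerCentralSeries (b + 1) := by
        have h2 : ⁅(⊤ : Subgroup G), φ.ker ⊓ (⊤ : Subgroup G).lowerCentralSeries b⁆ ≤
            (⊤ : Subgroup G).lowerCentralSeries (b + 1) := by
          rw [Subgroup.commutator_comm, Subgroup.lowerCentralSeries_succ]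
          exact Subgroup.commutator_mono inf_le_right le_rfl
        exact le_inf (h2.trans (IShift_one φ b)) h2
      refine le_trans (Subgroup.commutator_mono h1 le_rfl) ?_
      rw [Subgroup.commutator_comm, show a + 1 + b + 3 = a + (b + 1) + 3 by omega]
      exact ih (b + 1)
    · rw [Subgroup.commutator_comm (φ.ker ⊓ (⊤ : Subgroup G).lowerCentralSeries b)]
      refine le_trans (Subgroup.commutator_mono (ih b) le_rfl) ?_
      rw [Subgroup.commutator_le, show a + 1 + b + 3 = a + b + 3 + 1 by omega]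
      intro x hx y _
      exact (isoF_filt (G := G)).comm _ 1 (by omega) le_rfl x hx y (by
        rw [isoF_one]
        exact Subgroup.mem_top y)

theorem isoF_shift (φ : G →* Multiplicative ℤ) (t : G) (ht : φ t = Multiplicative.ofAdd 1)
    (h : ∀ j : ℕ, ∀ x ∈ φ.ker, ∀ y ∈ φ.ker, y ∈ (⊤ : Subgroup G).lowerCentralSeries j →
      ∃ n : ℕ, 0 < n ∧ (x * y * x⁻¹ * y⁻¹) ^ n ∈ (⊤ : Subgroup G).lowerCentralSeries (j + 2)) :
    ∀ i j, 1 ≤ i → 1 ≤ j → ∀ x ∈ φ.ker, ∀ y ∈ φ.ker, x ∈ isoF G i → y ∈ isoF G j →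
      x * y * x⁻¹ * y⁻¹ ∈ isoF G (i + j + 1) := by
  intro i j hi hj x hx y hy hxi hyj
  obtain ⟨n, hn, h1⟩ := mem_isol.1 hxi
  obtain ⟨m, hm, h2⟩ := mem_isol.1 hyj
  have h3 := IShift_sub φ t ht h (i - 1) (j - 1) (Subgroup.commutator_mem_commutator
    (⟨pow_mem hx n, h1⟩ : x ^ n ∈ φ.ker ⊓ (⊤ : Subgroup G).lowerCentralSeries (i - 1))
    (⟨pow_mem hy m, h2⟩ : y ^ m ∈ φ.ker ⊓ (⊤ : Subgroup G).lowerCentralSeries (j - 1)))
  rw [show i - 1 + (j - 1) + 3 = i + j + 1 by omega] at h3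
  exact isol_comm hn hm h3

end Pool.Agent.MP_b3b911_al.Fil
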