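import Mathlib

namespace Pool.Agent.MP_b3b911_al.Fil

variable {G : Type*} [Group G]

theorem ITor_three {H₁ H₂ H₃ N : Subgroup G} [N.Normal] (h1 : ⁅⁅H₂, H₃⁆, H₁⁆ ≤ N)
    (h2 : ⁅⁅H₃, H₁⁆, H₂⁆ ≤ N) : ⁅⁅H₁, H₂⁆, H₃⁆ ≤ N := by
  rw [← QuotientGroup.ker_mk' N, ← Subgroup.map_eq_bot_iff, Subgroup.map_commutator,
    Subgroup.map_commutator] at h1 h2 ⊢
  exact Subgroup.commutator_commutator_eq_bot_of_rotate h1 h2

theorem ITor_lcs (j : ℕ) : ∀ i : ℕ, ⁅(⊤ : Subgroup G).lowerCentralSeries i,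
    (⊤ : Subgroup G).lowerCentralSeries j⁆ ≤ (⊤ : Subgroup G).lowerCentralSeries (i + j + 1) := by
  induction j with
  | zero => exact fun i => le_rfl
  | succ j ih =>
    intro i
    rw [Subgroup.commutator_comm, Subgroup.lowerCentralSeries_succ _ j]
    refine ITor_three ?_ ?_
    · rw [Subgroup.commutator_comm ⊤, ← Subgroup.lowerCentralSeries_succ,
        show i + (j + 1) + 1 = i + 1 + j + 1 by omega]
      exact ih (i + 1)
    · rw [show i + (j + 1) + 1 = i + j + 1 + 1 by omega,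
        Subgroup.lowerCentralSeries_succ _ (i + j + 1)]
      exact Subgroup.commutator_mono (ih i) le_rfl

theorem ITor_cen (hz : ∀ z ∈ Subgroup.center G, IsOfFinOrder z → z = 1) :
    ∀ q ∈ Subgroup.center (G ⧸ Subgroup.center G), IsOfFinOrder q → q = 1 := by
  intro q hq hf
  obtain ⟨x, rfl⟩ := QuotientGroup.mk_surjective q
  obtain ⟨m, hm, hxm⟩ := isOfFinOrder_iff_pow_eq_one.1 hf
  rw [← QuotientGroup.mk_pow, QuotientGroup.eq_one_iff] at hxm
  rw [QuotientGroup.eq_one_iff, Subgroup.mem_center_iff]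
  intro g
  have hc : g * x * g⁻¹ * x⁻¹ ∈ Subgroup.center G := by
    rw [← QuotientGroup.eq_one_iff]
    simp only [QuotientGroup.mk_mul, QuotientGroup.mk_inv]
    rw [Subgroup.mem_center_iff.1 hq]
    simp
  have h1 : (g * x * g⁻¹ * x⁻¹ * x) ^ m = (g * x * g⁻¹ * x⁻¹) ^ m * x ^ m :=
    Commute.mul_pow (Subgroup.mem_center_iff.1 hc x).symm m
  rw [inv_mul_cancel_right, conj_pow, Subgroup.mem_center_iff.1 hxm g, mul_inv_cancel_right,
    right_eq_mul] at h1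
  have h2 := hz _ hc (isOfFinOrder_iff_pow_eq_one.2 ⟨m, hm, h1⟩)
  rwa [mul_inv_eq_one, mul_inv_eq_iff_eq_mul] at h2

theorem ITor_root (G : Type*) [Group G] [Group.IsNilpotent G] :
    (∀ z ∈ Subgroup.center G, IsOfFinOrder z → z = 1) →
      ∀ n : ℕ, 0 < n → ∀ x y : G, x ^ n = y ^ n → x = y := by
  refine Group.nilpotent_center_quotient_ind
    (P := fun G _ _ => (∀ z ∈ Subgroup.center G, IsOfFinOrder z → z = 1) →
      ∀ n : ℕ, 0 < n → ∀ x y : G, x ^ n = y ^ n → x = y) G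
    (fun _ _ _ _ _ _ x y _ => Subsingleton.elim x y) fun G _ _ ih hz n hn x y h => ?_
  have h1 := ih (ITor_cen hz) n hn x y (by rw [← QuotientGroup.mk_pow, h, QuotientGroup.mk_pow])
  have h2 : x⁻¹ * y ∈ Subgroup.center G := QuotientGroup.eq.1 h1
  have h3 : (x * (x⁻¹ * y)) ^ n = x ^ n * (x⁻¹ * y) ^ n :=
    Commute.mul_pow (Subgroup.mem_center_iff.1 h2 x) n
  rw [mul_inv_cancel_left, h, left_eq_mul] at h3
  exact inv_mul_eq_one.1 (hz _ h2 (isOfFinOrder_iff_pow_eq_one.2 ⟨n, hn, h3⟩))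

theorem ITor_max (G : Type*) [Group G] :
    ∃ T, Maximal (fun T : Subgroup G => T.Normal ∧ ∀ g ∈ T, IsOfFinOrder g) T := by
  obtain ⟨T, -, hT⟩ := zorn_le_nonempty₀ {T : Subgroup G | T.Normal ∧ ∀ g ∈ T, IsOfFinOrder g}
    (fun c hc hch y hy => by
      have hm : ∀ g, g ∈ sSup c ↔ ∃ s ∈ c, g ∈ s := fun g =>
        Subgroup.mem_sSup_of_directedOn ⟨y, hy⟩ hch.directedOn
      refine ⟨sSup c, ⟨⟨fun g hg a => ?_⟩, fun g hg => ?_⟩, fun z hz => le_sSup hz⟩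
      · obtain ⟨s, h1, h2⟩ := (hm g).1 hg
        exact (hm _).2 ⟨s, h1, (hc h1).1.conj_mem g h2 a⟩
      · obtain ⟨s, h1, h2⟩ := (hm g).1 hg
        exact (hc h1).2 g h2) ⊥ ⟨inferInstance, fun g hg => by
      rw [Subgroup.mem_bot.1 hg]
      exact IsOfFinOrder.one⟩
  exact ⟨T, hT⟩

theorem lcs_comm (i j : ℕ) {x y : G} (hx : x ∈ (⊤ : Subgroup G).lowerCentralSeries i)
    (hy : y ∈ (⊤ : Subgroup G).lowerCentralSeries j) :
    x * y * x⁻¹ * y⁻¹ ∈ (⊤ : Subgroup G).lowerCentralSeries (i + j + 1) :=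
  ITor_lcs j i (Subgroup.commutator_mem_commutator hx hy)

theorem tors_mul [Group.IsNilpotent G] {x y : G} (hx : IsOfFinOrder x) (hy : IsOfFinOrder y) :
    IsOfFinOrder (x * y) := by
  obtain ⟨T, hT⟩ := ITor_max G
  have := hT.prop.1
  have hz : ∀ z ∈ Subgroup.center (G ⧸ T), IsOfFinOrder z → z = 1 := by
    intro z hz hf
    obtain ⟨w, rfl⟩ := QuotientGroup.mk_surjective z
    have hn : (Subgroup.zpowers (w : G ⧸ T)).Normal := ⟨fun a ha g => by
      rwa [Subgroup.mem_center_iff.1 (Subgroup.zpowers_le.2 hz ha) g, mul_inv_cancel_right]⟩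
    have hle : (Subgroup.zpowers (w : G ⧸ T)).comap (QuotientGroup.mk' T) ≤ T := by
      refine hT.le_of_ge ⟨hn.comap _, fun g hg => ?_⟩ fun g hg => ?_
      · obtain ⟨k, hk⟩ := Subgroup.mem_zpowers_iff.1 (Subgroup.mem_comap.1 hg)
        obtain ⟨m, hm, h1⟩ := isOfFinOrder_iff_pow_eq_one.1 (hk ▸ hf.zpow (i := k))
        rw [← map_pow, QuotientGroup.mk'_apply, QuotientGroup.eq_one_iff] at h1
        exact (hT.prop.2 _ h1).of_pow hm.ne'
      · rw [Subgroup.mem_comap, QuotientGroup.mk'_apply, (QuotientGroup.eq_one_iff g).2 hg]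
        exact one_mem _
    exact (QuotientGroup.eq_one_iff w).2 (hle (Subgroup.mem_zpowers _))
  have key : ∀ g : G, IsOfFinOrder g → g ∈ T := fun g hg => by
    obtain ⟨m, hm, h1⟩ := isOfFinOrder_iff_pow_eq_one.1 hg
    exact (QuotientGroup.eq_one_iff g).1 (ITor_root (G ⧸ T) hz m hm _ _ (by
      rw [← QuotientGroup.mk_pow, h1, one_pow, QuotientGroup.mk_one]))
  exact hT.prop.2 _ (mul_mem (key x hx) (key y hy))

theorem root_unique [Group.IsNilpotent G] (htf : ∀ g : G, IsOfFinOrder g → g = 1) {n : ℕ}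
    (hn : 0 < n) {x y : G} (h : x ^ n = y ^ n) : x = y :=
  ITor_root G (fun z _ => htf z) n hn x y h

theorem comm_of_pow [Group.IsNilpotent G] (htf : ∀ g : G, IsOfFinOrder g → g = 1) {n m : ℕ}
    (hn : 0 < n) (hm : 0 < m) {x y : G} (h : Commute (x ^ n) (y ^ m)) : Commute x y := by
  have h1 : y ^ m * x * (y ^ m)⁻¹ = x :=
    root_unique htf hn (by rw [conj_pow, ← h.eq, mul_inv_cancel_right])
  have h2 : x * y * x⁻¹ = y :=
    root_unique htf hm (by rw [conj_pow, ← mul_inv_eq_iff_eq_mul.1 h1, mul_inv_cancel_right])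
  exact mul_inv_eq_iff_eq_mul.1 h2

end Pool.Agent.MP_b3b911_al.Fil
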