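import Pool.Agent.MP_b3b911_al.Fil.NDefs

namespace Pool.Agent.MP_b3b911_al.Fil

variable {G : Type*} [Group G] {E : ℕ → Subgroup G} {H : Subgroup G} {d : ℕ} {f g : G → ℤ}

theorem NDeg_add (l : List (ℕ × G)) (f g : G → ℤ) :
    (Lds l fun x => f x + g x) = fun x => Lds l f x + Lds l g x := by
  induction l generalizing f g with
  | nil => rfl
  | cons p l ih =>
    have e : (Ld p.2 fun x => f x + g x) = fun x => Ld p.2 f x + Ld p.2 g x := by
      funext x
      simp only [Ld]
      ring
    simp only [Lds]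
    rw [e, ih]

theorem NDeg_neg (l : List (ℕ × G)) (f : G → ℤ) :
    (Lds l fun x => -f x) = fun x => -Lds l f x := by
  induction l generalizing f with
  | nil => rfl
  | cons p l ih =>
    have e : (Ld p.2 fun x => -f x) = fun x => -Ld p.2 f x := by
      funext x
      simp only [Ld]
      ring
    simp only [Lds]
    rw [e, ih]

theorem NDeg_rt (l : List (ℕ × G)) (f : G → ℤ) (a : G) :
    (Lds l fun x => f (x * a)) = fun x => Lds l f (x * a) := by
  induction l generalizing f with
  | nil => rfl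
  | cons p l ih =>
    have e : (Ld p.2 fun x => f (x * a)) = fun x => Ld p.2 f (x * a) := by
      funext x
      simp only [Ld, mul_assoc]
    simp only [Lds]
    rw [e, ih]

theorem NDeg_zero (l : List (ℕ × G)) : (Lds l fun _ : G => (0 : ℤ)) = fun _ => 0 := by
  induction l with
  | nil => rfl
  | cons p l ih =>
    have e : (Ld p.2 fun _ : G => (0 : ℤ)) = fun _ => 0 := by
      funext x
      simp [Ld]
    simp only [Lds]
    rw [e, ih]

theorem NDeg_congr (l : List (ℕ × G)) (hl : ∀ p ∈ l, p.2 ∈ H) {f g : G → ℤ}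
    (e : ∀ x ∈ H, g x = f x) : ∀ x ∈ H, Lds l g x = Lds l f x := by
  induction l generalizing f g with
  | nil => exact e
  | cons p l ih =>
    simp only [Lds]
    refine ih (fun q hq => hl q (List.mem_cons_of_mem _ hq)) fun x hx => ?_
    simp only [Ld]
    rw [e x hx, e _ (H.mul_mem (hl p List.mem_cons_self) hx)]

theorem NDeg_snoc (l : List (ℕ × G)) (p : ℕ × G) (f : G → ℤ) :
    Lds (l ++ [p]) f = Ld p.2 (Lds l f) := by
  induction l generalizing f with
  | nil => rfl
  | cons q l ih =>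
    simp only [List.cons_append, Lds]
    rw [ih]

theorem deg_zero : Deg E H 0 f ↔ ∀ x ∈ H, f x = 0 := by
  refine ⟨fun h x hx => h [] (by simp) (by simp) x hx, fun h l hl _ x hx => ?_⟩
  rw [NDeg_congr l (fun p hp => (hl p hp).2.2) (f := fun _ => 0) h x hx, NDeg_zero]

theorem Deg.mono (h : Deg E H d f) {d' : ℕ} (hd : d ≤ d') : Deg E H d' f := by
  intro l hl hs
  exact h l hl (hd.trans hs)

theorem Deg.congr (h : Deg E H d f) (e : ∀ x ∈ H, g x = f x) : Deg E H d g := by
  intro l hl hs x hx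
  rw [NDeg_congr l (fun p hp => (hl p hp).2.2) e x hx]
  exact h l hl hs x hx

theorem Deg.add (h : Deg E H d f) (h' : Deg E H d g) : Deg E H d fun x => f x + g x := by
  intro l hl hs x hx
  rw [NDeg_add]
  simp only [h l hl hs x hx, h' l hl hs x hx, add_zero]

theorem Deg.neg (h : Deg E H d f) : Deg E H d fun x => -f x := by
  intro l hl hs x hx
  rw [NDeg_neg]
  simp only [h l hl hs x hx, neg_zero]

theorem deg_const (hd : 1 ≤ d) (c : ℤ) : Deg E H d fun _ => c := by
  intro l _ hs x _
  cases l with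
  | nil =>
    simp only [List.map_nil, List.sum_nil] at hs
    omega
  | cons p l =>
    have e : (Ld p.2 fun _ : G => c) = fun _ => 0 := by
      funext y
      simp [Ld]
    simp only [Lds]
    rw [e, NDeg_zero]

theorem Deg.ld (h : Deg E H d f) {j : ℕ} (hj : 1 ≤ j) {a : G} (ha : a ∈ E j) (haH : a ∈ H) :
    Deg E H (d - j) (Ld a f) := by
  intro l hl hs x hx
  refine h ((j, a) :: l) ?_ ?_ x hx
  · intro p hp
    rcases List.mem_cons.1 hp with rfl | hp
    · exact ⟨hj, ha, haH⟩
    · exact hl p hp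
  · simp only [List.map_cons, List.sum_cons]
    omega

theorem Deg.rd (hE : Filt E) (h : Deg E H d f) {j : ℕ} (hj : 1 ≤ j) {a : G} (ha : a ∈ E j)
    (haH : a ∈ H) : Deg E H (d - j) (Rd a f) := by
  intro l hl hs x hx
  have e : Rd a f = fun y => f (y * a) + -f y := by
    funext y
    simp only [Rd]
    ring
  have h1 := h (l ++ [(j, x * a * x⁻¹)]) ?_ ?_ x hx
  · rw [NDeg_snoc] at h1
    simp only [Ld, inv_mul_cancel_right] at h1
    rw [e, NDeg_add, NDeg_neg, NDeg_rt]
    simp only []
    omega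
  · intro p hp
    rcases List.mem_append.1 hp with hp | hp
    · exact hl p hp
    · rw [List.mem_singleton.1 hp]
      exact ⟨hj, (hE.normal j).conj_mem a ha x, H.mul_mem (H.mul_mem hx haH) (H.inv_mem hx)⟩
  · simp only [List.map_append, List.sum_append, List.map_cons, List.map_nil, List.sum_cons,
      List.sum_nil]
    omega

theorem deg_intro (hd : 1 ≤ d)
    (h : ∀ j, 1 ≤ j → ∀ a ∈ E j, a ∈ H → Deg E H (d - j) (Ld a f)) : Deg E H d f := by
  intro l hl hs x hx
  cases l with
  | nil =>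
    simp only [List.map_nil, List.sum_nil] at hs
    omega
  | cons p l =>
    obtain ⟨h1, h2, h3⟩ := hl p List.mem_cons_self
    simp only [List.map_cons, List.sum_cons] at hs
    exact h p.1 h1 p.2 h2 h3 l (fun q hq => hl q (List.mem_cons_of_mem _ hq)) (by omega) x hx

theorem deg_intro_one (hH : H ≤ E 1) (h1 : f 1 = 0)
    (h : ∀ j, 1 ≤ j → ∀ a ∈ E j, a ∈ H → Deg E H (d - j) (Ld a f)) : Deg E H d f := by
  rcases Nat.eq_zero_or_pos d with rfl | hd
  · refine deg_zero.2 fun x hx => ?_
    have h2 := h 1 le_rfl x (hH hx) hx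
    rw [Nat.zero_sub] at h2
    have h3 := deg_zero.1 h2 1 H.one_mem
    simp only [Ld, mul_one] at h3
    omega
  · exact deg_intro hd h

theorem Deg.ltrans (hH : H ≤ E 1) (h : Deg E H d f) {a : G} (ha : a ∈ H) :
    Deg E H d fun x => f (a * x) := by
  refine (((h.ld le_rfl (hH ha) ha).mono (Nat.sub_le _ _)).add h).congr fun x _ => ?_
  simp only [Ld]
  ring

theorem Deg.rtrans (h : Deg E H d f) {a : G} (ha : a ∈ H) : Deg E H d fun x => f (x * a) := by
  intro l hl hs x hx
  rw [NDeg_rt]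
  exact h l hl hs _ (H.mul_mem hx ha)

theorem Deg.van (h : Deg E H d f) {j : ℕ} (hj : 1 ≤ j) (hd : d ≤ j) {a x : G} (ha : a ∈ E j)
    (haH : a ∈ H) (hx : x ∈ H) : f (a * x) = f x := by
  have h1 := h [(j, a)] (by
    intro p hp
    rw [List.mem_singleton.1 hp]
    exact ⟨hj, ha, haH⟩) (by simpa using hd) x hx
  simp only [Lds, Ld] at h1
  omega

theorem Deg.van2 (h : Deg E H d f) {i j : ℕ} (hi : 1 ≤ i) (hj : 1 ≤ j) (hd : d ≤ i + j)
    {a b x : G} (ha : a ∈ E i) (haH : a ∈ H) (hb : b ∈ E j) (hbH : b ∈ H) (hx : x ∈ H) :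
    f (a * b * x) - f (a * x) - f (b * x) + f x = 0 := by
  have h1 := h [(i, a), (j, b)] (by
    intro p hp
    rcases List.mem_cons.1 hp with rfl | hp
    · exact ⟨hi, ha, haH⟩
    · rw [List.mem_singleton.1 hp]
      exact ⟨hj, hb, hbH⟩) (by simpa using hd) x hx
  simp only [Lds, Ld] at h1
  rw [mul_assoc]
  omega

/-- conjugation by an element of weight `ω` changes `f` by a function of lower degree -/
theorem Deg.cd (hE : Filt E) (hH : H ≤ E 1) [H.Normal] (h : Deg E H d f) {ω : ℕ} (hω : 1 ≤ ω)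
    {a : G} (ha : a ∈ E ω) : Deg E H (d - ω) (Cd a f) := by
  have hn : H.Normal := inferInstance
  induction d using Nat.strong_induction_on generalizing f with
  | _ d ih =>
    rcases Nat.eq_zero_or_pos d with rfl | hd
    · rw [Nat.zero_sub]
      refine deg_zero.2 fun x hx => ?_
      have h0 := deg_zero.1 h
      simp only [Cd]
      rw [h0 x hx, h0 _ (hn.conj_mem x hx a), sub_zero]
    refine deg_intro_one hH (by simp [Cd]) fun j hj b hb hbH => ?_
    have hb' : a * b * a⁻¹ ∈ H := hn.conj_mem b hbH a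
    have h1 : Deg E H (d - j - ω) (Cd a (Ld (a * b * a⁻¹) f)) :=
      ih (d - j) (by omega) (h.ld hj ((hE.normal j).conj_mem b hb a) hb')
    have h2 : Deg E H (d - (ω + j)) fun x => Ld (a * b * a⁻¹ * b⁻¹) f (b * x) :=
      (h.ld (by omega) (hE.comm ω j hω hj a ha b hb) (H.mul_mem hb' (H.inv_mem hbH))).ltrans hH hbH
    refine ((h1.mono (d' := d - ω - j) (by omega)).add (h2.mono (by omega))).congr fun x _ => ?_
    simp only [Ld, Cd]
    have e1 : a * b * a⁻¹ * (a * x * a⁻¹) = a * (b * x) * a⁻¹ := by group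
    have e2 : a * b * a⁻¹ * b⁻¹ * (b * x) = a * b * a⁻¹ * x := by group
    rw [e1, e2]
    ring

end Pool.Agent.MP_b3b911_al.Fil
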