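import Mathlib

namespace Pool.Agent.MP_b3b911_al.Fil

/-- Iterated differences with prescribed steps. -/
def Dl : List ℤ → (ℤ → ℤ) → ℤ → ℤ
  | [], a => a
  | y :: ys, a => fun x => Dl ys a (x + y) - Dl ys a x

theorem NPoly_step {R : Type*} [CommRing R] (f : ℤ → R) (κ : R)
    (h : ∀ x, f (x + 1) - f x = κ) (x y : ℤ) : f (x + y) - f x = κ * y := by
  induction y using Int.induction_on with
  | zero => simp
  | succ n ih =>
    have := h (x + n)
    rw [add_assoc] at this
    push_cast at ih ⊢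
    linear_combination ih + this
  | pred n ih =>
    have := h (x + (-n - 1))
    rw [add_assoc, sub_add_cancel] at this
    push_cast at ih ⊢
    linear_combination ih - this

open Polynomial Finset in
theorem NPoly_anti (n : ℕ) (q : ℚ[X]) (hq : q.natDegree ≤ n) :
    ∃ p : ℚ[X], p.natDegree ≤ n + 1 ∧ ∀ x, p.eval (x + 1) - p.eval x = q.eval x := by
  refine ⟨∑ i ∈ range (n + 1), C (q.coeff i / (i + 1)) * Polynomial.bernoulli (i + 1), ?_,
    fun x => ?_⟩
  · refine natDegree_sum_le_of_forall_le _ _ fun i hi => (natDegree_C_mul_le _ _).trans ?_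
    rw [Polynomial.bernoulli]
    refine natDegree_sum_le_of_forall_le _ _ fun j _ => (natDegree_monomial_le _).trans ?_
    have := mem_range.1 hi
    omega
  · rw [eval_finsetSum, eval_finsetSum, ← sum_sub_distrib,
      eval_eq_sum_range' (Nat.lt_succ_of_le hq)]
    refine sum_congr rfl fun i _ => ?_
    rw [eval_mul, eval_mul, eval_C, eval_C, add_comm x, bernoulli_eval_one_add]
    have : (i : ℚ) + 1 ≠ 0 := by positivity
    simp only [Nat.cast_add, Nat.cast_one, Nat.add_sub_cancel]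
    field_simp
    ring

open Polynomial in
theorem NPoly_poly (e : ℕ) (a : ℤ → ℤ) (h : (fwdDiff (1 : ℤ))^[e + 1] a = 0) :
    ∃ p : ℚ[X], p.natDegree ≤ e ∧ ∀ x : ℤ, (a x : ℚ) = p.eval (x : ℚ) := by
  induction e generalizing a with
  | zero =>
    refine ⟨C (a 0 : ℚ), by simp, fun x => ?_⟩
    have h1 := NPoly_step a 0 (fun x => congrFun h x) 0 x
    rw [zero_add, zero_mul, sub_eq_zero] at h1
    rw [eval_C, h1]
  | succ e ih =>
    rw [Function.iterate_succ_apply] at h
    obtain ⟨q, hq, hx⟩ := ih _ h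
    obtain ⟨p, hp, hpx⟩ := NPoly_anti e q hq
    refine ⟨p + C ((a 0 : ℚ) - p.eval 0), (natDegree_add_C).trans_le hp, fun x => ?_⟩
    have h1 := NPoly_step (fun x : ℤ => (a x : ℚ) - p.eval (x : ℚ)) 0 (fun x => by
      have e1 := hx x
      have e2 := hpx x
      simp only [fwdDiff] at e1
      push_cast at e1 ⊢
      linear_combination e1 - e2) 0 x
    simp only [zero_add, Int.cast_zero, zero_mul] at h1
    rw [eval_add, eval_C]
    linear_combination h1

theorem poly_asym (e : ℕ) (a : ℤ → ℤ) (h : (fwdDiff (1 : ℤ))^[e + 1] a = 0) :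
    ∃ c C : ℝ, 0 ≤ C ∧ ∀ (x : ℤ) (K : ℝ), 1 ≤ K → |(x : ℝ)| ≤ K →
      K * |(a x : ℝ) - c * (x : ℝ) ^ e| ≤ C * K ^ e := by
  obtain ⟨p, hp, hx⟩ := NPoly_poly e a h
  refine ⟨(p.coeff e : ℝ), ∑ i ∈ Finset.range e, |(p.coeff i : ℝ)|,
    Finset.sum_nonneg fun _ _ => abs_nonneg _, fun x K hK hxK => ?_⟩
  have e1 := hx x
  rw [Polynomial.eval_eq_sum_range' (Nat.lt_succ_of_le hp), Finset.sum_range_succ] at e1
  have e2 : (a x : ℝ) - (p.coeff e : ℝ) * (x : ℝ) ^ e =
      ∑ i ∈ Finset.range e, (p.coeff i : ℝ) * (x : ℝ) ^ i := by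
    have := congrArg (fun t : ℚ => (t : ℝ)) e1
    push_cast at this
    linear_combination this
  have hK0 : 0 ≤ K := zero_le_one.trans hK
  rw [e2, Finset.sum_mul]
  refine (mul_le_mul_of_nonneg_left (Finset.abs_sum_le_sum_abs _ _) hK0).trans ?_
  rw [Finset.mul_sum]
  refine Finset.sum_le_sum fun i hi => ?_
  rw [abs_mul, abs_pow, mul_left_comm]
  refine mul_le_mul_of_nonneg_left ?_ (abs_nonneg _)
  calc K * |(x : ℝ)| ^ i ≤ K * K ^ i :=
        mul_le_mul_of_nonneg_left (pow_le_pow_left₀ (abs_nonneg _) hxK i) hK0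
    _ = K ^ (i + 1) := (pow_succ' _ _).symm
    _ ≤ K ^ e := pow_le_pow_right₀ hK (Finset.mem_range.1 hi)

theorem poly_bound (e : ℕ) (a : ℤ → ℤ) (h : (fwdDiff (1 : ℤ))^[e + 1] a = 0) :
    ∃ C : ℝ, 0 ≤ C ∧ ∀ (x : ℤ) (K : ℝ), 1 ≤ K → |(x : ℝ)| ≤ K → |(a x : ℝ)| ≤ C * K ^ e := by
  obtain ⟨c, C, hC, hx⟩ := poly_asym e a h
  refine ⟨C + |c|, add_nonneg hC (abs_nonneg _), fun x K hK hxK => ?_⟩
  have h1 := (le_mul_of_one_le_left (abs_nonneg _) hK).trans (hx x K hK hxK)
  have h2 : |c * (x : ℝ) ^ e| ≤ |c| * K ^ e := by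
    rw [abs_mul, abs_pow]
    exact mul_le_mul_of_nonneg_left (pow_le_pow_left₀ (abs_nonneg _) hxK e) (abs_nonneg _)
  have h3 := abs_add_le ((a x : ℝ) - c * (x : ℝ) ^ e) (c * (x : ℝ) ^ e)
  rw [sub_add_cancel] at h3
  linarith

theorem NPoly_comm (ys : List ℤ) (a : ℤ → ℤ) (x : ℤ) :
    Dl ys (fwdDiff 1 a) x = Dl ys a (x + 1) - Dl ys a x := by
  induction ys generalizing x with
  | nil => rfl
  | cons y ys ih =>
    simp only [Dl, ih, add_right_comm x y 1]
    ring

theorem Dl_const (ys : List ℤ) (a : ℤ → ℤ) (κ : ℤ)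
    (h : (fwdDiff (1 : ℤ))^[ys.length] a = fun _ => κ) (x : ℤ) : Dl ys a x = κ * ys.prod := by
  induction ys generalizing a x with
  | nil => simpa [Dl] using congrFun h x
  | cons y ys ih =>
    rw [List.length_cons, Function.iterate_succ_apply] at h
    have h1 := NPoly_step (Dl ys a) (κ * ys.prod)
      (fun x => (NPoly_comm ys a x).symm.trans (ih _ h x)) x y
    simp only [Dl, List.prod_cons]
    rw [h1, Int.cast_id]
    ring

theorem iter_zero_of_le {a : ℤ → ℤ} {k m : ℕ} (h : (fwdDiff (1 : ℤ))^[k] a = 0) (hk : k ≤ m) :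
    (fwdDiff (1 : ℤ))^[m] a = 0 := by
  obtain ⟨d, rfl⟩ := Nat.exists_eq_add_of_le' hk
  rw [Function.iterate_add_apply, h]
  exact Function.iterate_fixed (funext fun x => by simp [fwdDiff]) d

theorem digits_sum (k b n : ℕ) (hb : 1 ≤ b) : ∃ l : List (List ℕ),
    (∀ ys ∈ l, ys.length = k ∧ ∀ y ∈ ys, y ≤ b) ∧ l.length ≤ n / b ^ k + k ∧
      (l.map List.prod).sum = n := by
  induction k generalizing n with
  | zero =>
    refine ⟨List.replicate n [], fun ys h => ?_, by simp, by simp⟩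
    rw [List.eq_of_mem_replicate h]
    simp
  | succ k ih =>
    obtain ⟨l, h1, h2, h3⟩ := ih (n / b)
    refine ⟨((n % b) :: List.replicate k 1) :: l.map (b :: ·), fun ys h => ?_, ?_, ?_⟩
    · rcases List.mem_cons.1 h with rfl | h
      · refine ⟨by simp, fun y hy => ?_⟩
        rcases List.mem_cons.1 hy with rfl | hy
        · exact (Nat.mod_lt _ hb).le
        · rwa [List.eq_of_mem_replicate hy]
      · obtain ⟨zs, hz, rfl⟩ := List.mem_map.1 h
        refine ⟨by simp [(h1 zs hz).1], fun y hy => ?_⟩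
        rcases List.mem_cons.1 hy with rfl | hy
        · exact le_rfl
        · exact (h1 zs hz).2 y hy
    · rw [Nat.div_div_eq_div_mul, ← pow_succ'] at h2
      simp only [List.length_cons, List.length_map]
      omega
    · have e : ((l.map (b :: ·)).map List.prod).sum = b * (l.map List.prod).sum := by
        rw [List.map_map, ← List.sum_map_mul_left]
        simp [Function.comp_def]
      rw [List.map_cons, List.sum_cons, e, h3]
      simp [Nat.mod_add_div]

/-- an iterated difference is a signed sum of `2 ^ k` values -/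
theorem Dl_expand (σ : ℤ) (ys : List ℕ) : ∃ l : List (ℕ × ℤ), l.length = 2 ^ ys.length ∧
    (∀ x ∈ l, x.1 ≤ ys.sum ∧ (x.2 = 1 ∨ x.2 = -1)) ∧ ∀ (a : ℤ → ℤ) (x₀ : ℤ),
      Dl (ys.map fun y : ℕ => σ * (y : ℤ)) a x₀ = (l.map fun x => x.2 * a (x₀ + σ * x.1)).sum := by
  induction ys with
  | nil => exact ⟨[(0, 1)], by simp, by simp, fun a x₀ => by simp [Dl]⟩
  | cons y ys ih =>
    obtain ⟨l, h1, h2, h3⟩ := ih
    refine ⟨(l.map fun x => (x.1 + y, x.2)) ++ l.map fun x => (x.1, -x.2), ?_, fun x hx => ?_,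
      fun a x₀ => ?_⟩
    · simp [h1, pow_succ, mul_two]
    · rw [List.sum_cons]
      rcases List.mem_append.1 hx with hx | hx <;> obtain ⟨z, hz, rfl⟩ := List.mem_map.1 hx <;>
        obtain ⟨k1, k2⟩ := h2 z hz
      · exact ⟨by dsimp only; omega, k2⟩
      · exact ⟨by dsimp only; omega, by dsimp only; omega⟩
    · simp only [List.map_cons, Dl, h3, List.map_append, List.sum_append, List.map_map,
        Function.comp_def, neg_mul]
      have e : ∀ f : ℕ × ℤ → ℤ, (l.map fun x => -f x).sum = -(l.map f).sum := fun f => by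
        rw [List.sum_neg, List.map_map]
        rfl
      rw [e, sub_eq_add_neg]
      congr 2
      refine List.map_congr_left fun x _ => ?_
      congr 2
      push_cast
      ring

end Pool.Agent.MP_b3b911_al.Fil
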