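import Pool.Agent.MP_b3b911_al.Fil.NDefs
import Pool.Agent.MP_b3b911_al.Fil.NPoly

namespace Pool.Agent.MP_b3b911_al.Fil

variable {G : Type*} [Group G] {S : Finset G} {J : Type} [Fintype J] [DecidableEq J]

theorem NH1_letter (Z : Pre S J) : ∃ a : ℝ, 1 ≤ a ∧ ∀ x : G, (x ∈ S ∨ x⁻¹ ∈ S) →
    |(Z.X x : ℝ)| ≤ a := by
  have h0 : 0 ≤ ∑ s ∈ S, |(Z.X s : ℝ)| := Finset.sum_nonneg fun _ _ => abs_nonneg _
  have h1 : ∀ s ∈ S, |(Z.X s : ℝ)| ≤ ∑ s ∈ S, |(Z.X s : ℝ)| := fun s hs =>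
    Finset.single_le_sum (f := fun s => |(Z.X s : ℝ)|) (fun _ _ => abs_nonneg _) hs
  refine ⟨1 + ∑ s ∈ S, |(Z.X s : ℝ)|, by linarith, ?_⟩
  rintro x (hx | hx)
  · linarith [h1 x hx]
  · have := h1 _ hx
    rw [Z.X_inv, Int.cast_neg, abs_neg] at this
    linarith

theorem NH1_ivt (f : ℕ → ℝ) (a y : ℝ) (ha : 0 ≤ a) (hf : ∀ m, |f (m + 1) - f m| ≤ a)
    (h0 : f 0 ≤ y) : ∀ n, y ≤ f n → ∃ m, |f m - y| ≤ a := by
  intro n
  induction n with
  | zero =>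
    intro h
    refine ⟨0, ?_⟩
    rw [le_antisymm h0 h, sub_self, abs_zero]
    exact ha
  | succ n ih =>
    intro h
    by_cases hn : y ≤ f n
    · exact ih hn
    · refine ⟨n, ?_⟩
      have := (abs_le.1 (hf n)).2
      rw [abs_le]
      constructor <;> linarith [not_le.1 hn]

theorem Pre.step (Z : Pre S J) : ∃ a : ℝ, 1 ≤ a ∧ ∀ l : List G, Word S l →
    |(Z.X l.prod : ℝ)| ≤ a * l.length := by
  obtain ⟨a, ha, h⟩ := NH1_letter Z
  refine ⟨a, ha, fun l => ?_⟩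
  induction l with
  | nil => intro _; simp [Z.X_one]
  | cons x l ih =>
    intro hw
    have h1 := h x (hw x (List.mem_cons_self))
    have h2 := ih fun y hy => hw y (List.mem_cons_of_mem _ hy)
    rw [List.prod_cons, Z.X_mul, List.length_cons]
    push_cast
    have := abs_add_le (Z.X x : ℝ) (Z.X l.prod)
    linarith

theorem Pre.sm_conj (Z : Pre S J) {p : ℕ} (hp : 1 ≤ p) {β : G} (hβ : Z.P p β) (A : ℝ) :
    ∃ C : ℝ, 0 ≤ C ∧ ∀ (K : ℝ) (y : ℤ), 1 ≤ K → |(y : ℝ)| ≤ A * K →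
      Z.Sm K (C / K ^ p) (Z.t ^ y * β * Z.t ^ (-y)) := by
  have key : ∀ j, ∃ C : ℝ, 0 ≤ C ∧ ∀ (K : ℝ) (y : ℤ), 1 ≤ K → |(y : ℝ)| ≤ A * K →
      |(Z.v (Z.t ^ y * β * Z.t ^ (-y)) j : ℝ)| / K ^ Z.w j ≤ C / K ^ p := by
    intro j
    by_cases hj : p ≤ Z.w j
    · obtain ⟨C, hC, h⟩ := poly_bound (Z.w j - p) _ (Z.P_deg p β j hp hβ hj)
      have hM : (1 : ℝ) ≤ max A 1 := le_max_right _ _
      refine ⟨C * (max A 1) ^ (Z.w j - p), by positivity, fun K y hK hy => ?_⟩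
      have hK0 : 0 < K := by linarith
      have h1 := h y (max A 1 * K) (by nlinarith)
        (hy.trans (mul_le_mul_of_nonneg_right (le_max_left _ _) hK0.le))
      have h2 : K ^ Z.w j = K ^ (Z.w j - p) * K ^ p := by
        rw [← pow_add, Nat.sub_add_cancel hj]
      rw [div_le_div_iff₀ (by positivity) (by positivity), h2]
      rw [mul_pow] at h1
      calc _ ≤ C * ((max A 1) ^ (Z.w j - p) * K ^ (Z.w j - p)) * K ^ p :=
            mul_le_mul_of_nonneg_right h1 (by positivity)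
        _ = _ := by ring
    · refine ⟨0, le_rfl, fun K y hK hy => ?_⟩
      rw [Z.P_low p _ j (Z.P_conj p β y hβ) (not_le.1 hj)]
      simp
  choose C hC h using key
  refine ⟨∑ j, C j, Finset.sum_nonneg fun j _ => hC j, fun K y hK hy => ?_⟩
  refine Z.Sm_mono K _ _ _ ?_ (Z.Sm_v K hK _ (Z.P_X p _ (Z.P_conj p β y hβ)))
  rw [Finset.sum_div]
  exact Finset.sum_le_sum fun j _ => h j K y hK hy

theorem Pre.h1 (Z : Pre S J) : ∃ (c : G → J → ℝ) (C : ℝ), 0 ≤ C ∧ ∀ K : ℝ, 1 ≤ K → ∀ g,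
    Ball S K g → ∀ s, (s ∈ S ∨ s⁻¹ ∈ S) → ∀ j,
    K * |(Z.V (g * s) j : ℝ) - Z.V g j - c s j * (Z.X g : ℝ) ^ (Z.w j - 1)| ≤
      C * K ^ (Z.w j - 1) := by
  classical
  obtain ⟨a, ha, hstep⟩ := Z.step
  have hn : ∀ s : G, Z.X (s * Z.t ^ (-Z.X s)) = 0 := fun s => by
    rw [Z.X_mul, Z.X_tpow]; ring
  have hP : ∀ s : G, Z.P 1 (s * Z.t ^ (-Z.X s)) := fun s => Z.P_one _ (hn s)
  choose c C1 hC1 h1 using fun (s : G) (j : J) =>
    poly_asym (Z.w j - 1) _ (Z.P_deg 1 _ j le_rfl (hP s) (Z.w_pos j))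
  choose C2 hC2 h2 using fun s : G => Z.sm_conj le_rfl (hP s) a
  obtain ⟨C3, hC3, h3⟩ := Z.Sm_ball 1
  set T : Finset G := S ∪ S.image (·⁻¹) with hT
  have hTm : ∀ s, (s ∈ S ∨ s⁻¹ ∈ S) → s ∈ T := by
    rintro s (h | h)
    · exact Finset.mem_union_left _ h
    · exact Finset.mem_union_right _ (Finset.mem_image.2 ⟨s⁻¹, h, inv_inv s⟩)
  set B : ℝ := ∑ s ∈ T, C2 s with hB
  have hB0 : 0 ≤ B := Finset.sum_nonneg fun s _ => hC2 s
  have hBs : ∀ s ∈ T, C2 s ≤ B := fun s hs => Finset.single_le_sum (fun s _ => hC2 s) hs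
  obtain ⟨C4, hC4, h4⟩ := Z.KE (C3 + B)
  set D : ℝ := ∑ s ∈ T, ∑ j, C1 s j * a ^ (Z.w j - 1) with hD
  have ha0 : 0 < a := by linarith
  have hnn : ∀ s j, 0 ≤ C1 s j * a ^ (Z.w j - 1) := fun s j =>
    mul_nonneg (hC1 s j) (by positivity)
  have hD0 : 0 ≤ D := Finset.sum_nonneg fun s _ => Finset.sum_nonneg fun j _ => hnn s j
  have hDs : ∀ s ∈ T, ∀ j, C1 s j * a ^ (Z.w j - 1) ≤ D := fun s hs j =>
    (Finset.single_le_sum (f := fun j => C1 s j * a ^ (Z.w j - 1)) (fun j _ => hnn s j)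
      (Finset.mem_univ j)).trans
      (Finset.single_le_sum (f := fun s => ∑ j, C1 s j * a ^ (Z.w j - 1))
        (fun s _ => Finset.sum_nonneg fun j _ => hnn s j) hs)
  refine ⟨c, C4 * B + D, by positivity, fun K hK g hg s hs j => ?_⟩
  have hK0 : 0 < K := by linarith
  have hXg : |(Z.X g : ℝ)| ≤ a * K := by
    obtain ⟨l, hl, hw, rfl⟩ := hg
    exact (hstep l hw).trans (mul_le_mul_of_nonneg_left hl ha0.le)
  set x := g * Z.t ^ (-Z.X g) with hx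
  set u := Z.t ^ Z.X g * (s * Z.t ^ (-Z.X s)) * Z.t ^ (-Z.X g) with hu
  have hV : Z.V (g * s) = Z.v (x * u * 1) := by
    unfold Pre.V
    congr 1
    rw [hx, hu, Z.X_mul]
    group
  have hV0 : Z.V g = Z.v (x * 1) := by rw [mul_one]; rfl
  have hsx : Z.Sm K (C3 + B) x :=
    Z.Sm_mono K _ _ _ (by linarith) (h3 K hK g (by rwa [one_mul]))
  have hsu : Z.Sm K (C2 s / K ^ 1) u := h2 s K _ hK hXg
  have hs1 : Z.Sm K (C3 + B) 1 := by
    refine Z.Sm_mono K _ _ _ ?_ (Z.Sm_v K hK 1 Z.X_one)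
    rw [Z.v_one]
    simp only [Pi.zero_apply, Int.cast_zero, abs_zero, zero_div, Finset.sum_const_zero]
    linarith
  have hε : C2 s / K ^ 1 ≤ C3 + B := by
    rw [pow_one]
    have := div_le_self (hC2 s) hK
    linarith [hBs s (hTm s hs)]
  have k4 := h4 K _ hK hε x u 1 (hn g) (Z.P_X 1 _ (Z.P_conj 1 _ _ (hP s))) Z.X_one hsx hsu hs1 j
  have k1 := h1 s j (Z.X g) (a * K) (by nlinarith) hXg
  rw [hV, hV0]
  have hw : K ^ Z.w j = K ^ (Z.w j - 1) * K := by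
    rw [← pow_succ, Nat.sub_add_cancel (Z.w_pos j)]
  have e4 : C4 * (C2 s / K ^ 1) * K ^ Z.w j = C4 * C2 s * K ^ (Z.w j - 1) := by
    rw [hw, pow_one]; field_simp
  rw [e4] at k4
  have hpw : 0 ≤ K ^ (Z.w j - 1) := by positivity
  have k4' : C4 * C2 s * K ^ (Z.w j - 1) ≤ C4 * B * K ^ (Z.w j - 1) :=
    mul_le_mul_of_nonneg_right (mul_le_mul_of_nonneg_left (hBs s (hTm s hs)) hC4) hpw
  have k1' : K * |(Z.v u j : ℝ) - c s j * (Z.X g : ℝ) ^ (Z.w j - 1)| ≤ D * K ^ (Z.w j - 1) := by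
    calc _ ≤ a * K * |(Z.v u j : ℝ) - c s j * (Z.X g : ℝ) ^ (Z.w j - 1)| :=
          mul_le_mul_of_nonneg_right (by nlinarith) (abs_nonneg _)
      _ ≤ C1 s j * (a * K) ^ (Z.w j - 1) := k1
      _ = C1 s j * a ^ (Z.w j - 1) * K ^ (Z.w j - 1) := by rw [mul_pow]; ring
      _ ≤ _ := mul_le_mul_of_nonneg_right (hDs s (hTm s hs) j) hpw
  have tri : |(Z.v (x * u * 1) j : ℝ) - Z.v (x * 1) j - c s j * (Z.X g : ℝ) ^ (Z.w j - 1)| ≤
      |(Z.v (x * u * 1) j : ℝ) - Z.v (x * 1) j - Z.v u j| +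
        |(Z.v u j : ℝ) - c s j * (Z.X g : ℝ) ^ (Z.w j - 1)| := by
    refine le_trans (le_of_eq ?_) (abs_add_le _ _)
    congr 1
    ring
  have := mul_le_mul_of_nonneg_left tri hK0.le
  rw [mul_add] at this
  calc _ ≤ _ := this
    _ ≤ C4 * B * K ^ (Z.w j - 1) + D * K ^ (Z.w j - 1) := add_le_add (k4.trans k4') k1'
    _ = _ := by ring

theorem Pre.cov (Z : Pre S J) : ∃ a : ℝ, ∀ (L : ℝ) (l : List G), Word S l →
    (∃ n, L ≤ |(Z.X (l.take n).prod : ℝ)|) → ∃ σ : ℤ, (σ = 1 ∨ σ = -1) ∧ Z.Cov a σ L l := by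
  obtain ⟨a, ha, h⟩ := NH1_letter Z
  refine ⟨a + Z.r, ?_⟩
  rintro L l hw ⟨n, hn⟩
  have hr : (0 : ℝ) ≤ Z.r := Nat.cast_nonneg _
  have hst : ∀ m, |(Z.X (l.take (m + 1)).prod : ℝ) - Z.X (l.take m).prod| ≤ a := by
    intro m
    by_cases hm : m < l.length
    · rw [List.prod_take_succ l m hm, Z.X_mul]
      push_cast
      rw [add_sub_cancel_left]
      exact h _ (hw _ (List.getElem_mem hm))
    · rw [List.take_of_length_le (by omega), List.take_of_length_le (by omega), sub_self,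
        abs_zero]
      linarith
  have main : ∀ σ : ℤ, (σ = 1 ∨ σ = -1) → L ≤ σ * (Z.X (l.take n).prod : ℝ) →
      Z.Cov (a + Z.r) σ L l := by
    intro σ hσ hL y hy
    have habs : ∀ z : ℝ, |(σ : ℝ) * z| = |z| := fun z => by
      rcases hσ with rfl | rfl <;> simp
    have hsq : (σ : ℝ) * σ = 1 := by rcases hσ with rfl | rfl <;> simp
    have hconv : ∀ m, |(Z.X (l.take m).prod : ℝ) - σ * y| =
        |(σ : ℝ) * Z.X (l.take m).prod - y| := fun m => by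
      rw [← habs, mul_sub, ← mul_assoc, hsq, one_mul]
    by_cases hyn : (y : ℝ) ≤ σ * (Z.X (l.take n).prod : ℝ)
    · obtain ⟨m, hm⟩ := NH1_ivt (fun m => (σ : ℝ) * Z.X (l.take m).prod) a y (by linarith)
        (fun m => by rw [← mul_sub, habs]; exact hst m)
        (by simp [Z.X_one]) n hyn
      exact ⟨m, by rw [hconv]; linarith⟩
    · refine ⟨n, ?_⟩
      rw [hconv, abs_le]
      constructor <;> linarith [not_le.1 hyn]
  by_cases h0 : 0 ≤ (Z.X (l.take n).prod : ℝ)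
  · refine ⟨1, Or.inl rfl, main 1 (Or.inl rfl) ?_⟩
    rw [abs_of_nonneg h0] at hn
    simpa using hn
  · refine ⟨-1, Or.inr rfl, main (-1) (Or.inr rfl) ?_⟩
    rw [abs_of_neg (not_le.1 h0)] at hn
    simpa using hn

end Pool.Agent.MP_b3b911_al.Fil
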