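import Pool.Agent.MP_b3b911_al.Fil.NPass

namespace Pool.Agent.MP_b3b911_al.Fil

variable {G : Type*} [Group G] {S : Finset G} {J : Type} [Fintype J] [DecidableEq J]

theorem NH2_pow {u : List G} (hu : Word S u) (n : ℕ) :
    ∃ l : List G, Word S l ∧ l.prod = u.prod ^ n ∧ l.length = n * u.length := by
  induction n with
  | zero => exact ⟨[], fun y hy => by simp at hy, by simp, by simp⟩
  | succ n ih =>
    obtain ⟨l, h1, h2, h3⟩ := ih
    refine ⟨l ++ u, h1.append hu, by rw [List.prod_append, h2, pow_succ], ?_⟩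
    rw [List.length_append, h3]
    ring

theorem NH2_tw (hS : Subgroup.closure (S : Set G) = ⊤) (t : G) : ∃ C : ℝ, 0 ≤ C ∧ ∀ d : ℤ,
    ∃ l : List G, Word S l ∧ l.prod = t ^ d ∧ (l.length : ℝ) ≤ C * |(d : ℝ)| := by
  obtain ⟨u, hu, hup⟩ := exists_word hS t
  obtain ⟨u', hu', hup'⟩ := exists_word hS t⁻¹
  have h0 : (0 : ℝ) ≤ u.length := Nat.cast_nonneg _
  have h0' : (0 : ℝ) ≤ u'.length := Nat.cast_nonneg _
  refine ⟨u.length + u'.length, by linarith, fun d => ?_⟩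
  obtain ⟨n, rfl | rfl⟩ := Int.eq_nat_or_neg d
  · obtain ⟨l, h1, h2, h3⟩ := NH2_pow hu n
    refine ⟨l, h1, by rw [h2, hup, zpow_natCast], ?_⟩
    have hn : (0 : ℝ) ≤ n := Nat.cast_nonneg _
    rw [h3]
    push_cast
    rw [abs_of_nonneg hn]
    nlinarith [mul_nonneg hn h0']
  · obtain ⟨l, h1, h2, h3⟩ := NH2_pow hu' n
    refine ⟨l, h1, by rw [h2, hup', zpow_neg, zpow_natCast, inv_pow], ?_⟩
    have hn : (0 : ℝ) ≤ n := Nat.cast_nonneg _
    rw [h3]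
    push_cast
    rw [abs_neg, abs_of_nonneg hn]
    nlinarith [mul_nonneg hn h0]

theorem NH2_iter (Z : Pre S J) (a : ℝ) (m : ℕ) (hm : m ≤ Z.r) : ∀ A : ℝ, ∃ C : ℝ, 0 ≤ C ∧
    ∀ (K L M : ℝ) (σ : ℤ) (l : List G), 1 ≤ L → L ≤ K → 1 ≤ M → (σ = 1 ∨ σ = -1) →
      M * (K / L) ^ (∑ q ∈ Finset.range m, q) ≤ A * K → Word S l → (l.length : ℝ) ≤ A * K →
      Z.Cov a σ L l → ∀ y : J → ℤ, (∀ j, Z.w j < Z.r + 1 - m → y j = Z.V l.prod j) →
      (∀ j, K ^ (Z.r + 1 - m) * |(y j : ℝ) - Z.V l.prod j| ≤ M * K ^ Z.w j) →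
      ∃ l' : List G, Word S l' ∧ l.Sublist l' ∧
        (l'.length : ℝ) ≤ l.length + C * M * (K / L) ^ (∑ q ∈ Finset.range m, q) ∧
        Z.X l'.prod = Z.X l.prod ∧ Z.V l'.prod = y := by
  induction m with
  | zero =>
    intro A
    refine ⟨0, le_rfl, fun K L M σ l _ _ _ _ _ hw _ _ y h1 _ => ⟨l, hw, List.Sublist.refl _,
      by simp, rfl, ?_⟩⟩
    funext j
    exact (h1 j (by have := Z.w_le j; omega)).symm
  | succ m ih =>
    intro A
    have hp : 1 ≤ Z.r - m := by omega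
    have e1 : Z.r - (Z.r - m) = m := by omega
    have e2 : Z.r + 1 - (m + 1) = Z.r - m := by omega
    have e3 : Z.r - m + 1 = Z.r + 1 - m := by omega
    obtain ⟨C₁, hC₁, H₁⟩ := Z.pass hp a A
    obtain ⟨C₂, hC₂, H₂⟩ := ih (by omega) (A + C₁ * A)
    refine ⟨C₁ + C₂ * C₁, by positivity, ?_⟩
    intro K L M σ l hL hLK hM hσ hMA hw hl hcov y h1 h2
    rw [e1, e3] at H₁
    rw [e2] at h1 h2
    rw [Finset.sum_range_succ] at hMA ⊢
    set E := ∑ q ∈ Finset.range m, q with hE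
    have hq : 1 ≤ K / L := by rw [le_div_iff₀ (by linarith)]; linarith
    have hqm : 1 ≤ (K / L) ^ m := one_le_pow₀ hq
    have hqE : 1 ≤ (K / L) ^ E := one_le_pow₀ hq
    rw [pow_add] at hMA ⊢
    set a₁ := (K / L) ^ m
    set a₂ := (K / L) ^ E
    have hM0 : 0 ≤ M := by linarith
    have hMa : M * a₁ ≤ M * (a₂ * a₁) := by
      apply mul_le_mul_of_nonneg_left _ hM0
      nlinarith
    have hMa0 : 0 ≤ M * a₁ := by positivity
    have hAK : 0 ≤ A * K := by linarith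
    obtain ⟨l₁, w₁, s₁, n₁, c₁, x₁, p₁, q₁⟩ :=
      H₁ K L M σ l hL hLK hM hσ (by linarith) hw hl hcov y h1 h2
    have k1 : C₁ * (M * a₁) ≤ C₁ * (A * K) :=
      mul_le_mul_of_nonneg_left (by linarith) (by linarith)
    have k2 : C₁ * (M * (a₂ * a₁)) ≤ C₁ * (A * K) :=
      mul_le_mul_of_nonneg_left hMA (by linarith)
    have k3 : C₁ * (M * a₁) ≤ C₁ * (M * (a₂ * a₁)) :=
      mul_le_mul_of_nonneg_left hMa (by linarith)
    have k4 : 1 ≤ C₁ * M * a₁ := one_le_mul_of_one_le_of_one_le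
      (one_le_mul_of_one_le_of_one_le hC₁ hM) hqm
    obtain ⟨l₂, w₂, s₂, n₂, x₂, v₂⟩ := H₂ K L (C₁ * M * a₁) σ l₁ hL hLK k4 hσ
      (by nlinarith) w₁ (by nlinarith) c₁ y p₁ q₁
    refine ⟨l₂, w₂, s₁.trans s₂, ?_, x₂.trans x₁, v₂⟩
    nlinarith

theorem Pre.h2 (Z : Pre S J) (A : ℝ) : ∃ C : ℝ, 0 ≤ C ∧ ∀ K L R : ℝ, 1 ≤ L → L ≤ K → 1 ≤ R →
    R * (K / L) ^ (∑ q ∈ Finset.range Z.r, q) ≤ A * K → ∀ l : List G, Word S l →
    (l.length : ℝ) ≤ K → (∃ n, L ≤ |(Z.X (l.take n).prod : ℝ)|) →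
    ∀ g, |(Z.X g : ℝ) - Z.X l.prod| ≤ R →
      (∀ j, |(Z.V g j : ℝ) - Z.V l.prod j| ≤ R * K ^ (Z.w j - 1)) →
      ∃ l' : List G, Word S l' ∧ l'.prod = g ∧ l.Sublist l' ∧
        (l'.length : ℝ) ≤ l.length + C * R * (K / L) ^ (∑ q ∈ Finset.range Z.r, q) := by
  obtain ⟨a, ha⟩ := Z.cov
  obtain ⟨Ct, hCt, Ht⟩ := NH2_tw Z.gen Z.t
  obtain ⟨C, hC, H⟩ := NH2_iter Z a Z.r le_rfl (A + 1 + Ct * A)
  refine ⟨Ct + C, by positivity, ?_⟩
  intro K L R hL hLK hR hRA l hw hl hn g hX hV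
  obtain ⟨σ, hσ, hcov⟩ := ha L l hw hn
  obtain ⟨u, hu, hup, hul⟩ := Ht (Z.X g - Z.X l.prod)
  have hq : 1 ≤ K / L := by rw [le_div_iff₀ (by linarith)]; linarith
  set a₂ := (K / L) ^ (∑ q ∈ Finset.range Z.r, q) with ha₂
  have hqE : 1 ≤ a₂ := one_le_pow₀ hq
  have hK : 1 ≤ K := by linarith
  have hRa : R ≤ R * a₂ := by nlinarith
  have hAK : 0 ≤ A * K := by linarith
  have hul' : (u.length : ℝ) ≤ Ct * (R * a₂) := by
    refine hul.trans (mul_le_mul_of_nonneg_left ?_ hCt)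
    push_cast
    linarith
  have k1 : Ct * (R * a₂) ≤ Ct * (A * K) := mul_le_mul_of_nonneg_left hRA hCt
  have k2 : 0 ≤ Ct * (A * K) := mul_nonneg hCt hAK
  have hX1 : Z.X (l ++ u).prod = Z.X g := by
    rw [List.prod_append, Z.X_mul, hup, Z.X_tpow]; ring
  have hV1 : Z.V (l ++ u).prod = Z.V l.prod := by
    unfold Pre.V
    rw [hX1, List.prod_append, hup, mul_assoc, ← zpow_add]
    congr 3
    ring
  have hcov1 : Z.Cov a σ L (l ++ u) := by
    intro y hy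
    obtain ⟨n, hn⟩ := hcov y hy
    refine ⟨min n l.length, ?_⟩
    rw [List.take_append_of_le_length (min_le_right _ _), ← List.take_eq_take_min]
    exact hn
  have e1 : Z.r + 1 - Z.r = 1 := by omega
  have hlen : ((l ++ u).length : ℝ) = l.length + u.length := by
    rw [List.length_append]; push_cast; ring
  obtain ⟨l', w', s', n', x', v'⟩ := H K L R σ (l ++ u) hL hLK hR hσ (by nlinarith)
    (hw.append hu) (by rw [hlen]; nlinarith) hcov1 (Z.V g)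
    (fun j hj => by have := Z.w_pos j; omega)
    (fun j => by
      rw [e1, hV1, pow_one]
      have h1 : K ^ Z.w j = K * K ^ (Z.w j - 1) := by
        rw [← pow_succ']
        congr 1
        have := Z.w_pos j
        omega
      rw [h1]
      have := mul_le_mul_of_nonneg_left (hV j) (show (0 : ℝ) ≤ K by linarith)
      linarith)
  refine ⟨l', w', ?_, (List.sublist_append_left l u).trans s', ?_⟩
  · have hx : Z.X l'.prod = Z.X g := x'.trans hX1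
    unfold Pre.V at v'
    rw [hx] at v'
    have := Z.inj _ _ (by rw [Z.X_mul, Z.X_tpow, hx]; ring) (by rw [Z.X_mul, Z.X_tpow]; ring) v'
    exact mul_right_cancel this
  · rw [hlen] at n'
    nlinarith

end Pool.Agent.MP_b3b911_al.Fil
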