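import Pool.Agent.MP_b3b911_al.Fil.NH1

namespace Pool.Agent.MP_b3b911_al.Fil

variable {G : Type*} [Group G] {S : Finset G} {J : Type} [Fintype J] [DecidableEq J]

theorem NIns_take (Z : Pre S J) (l₁ m l₂ : List G) (hm : Z.X m.prod = 0) (n : ℕ) :
    ∃ n', Z.X ((l₁ ++ m ++ l₂).take n').prod = Z.X ((l₁ ++ l₂).take n).prod := by
  by_cases h : n ≤ l₁.length
  · refine ⟨n, ?_⟩
    rw [List.append_assoc, List.take_append_of_le_length h, List.take_append_of_le_length h]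
  · refine ⟨n + m.length, ?_⟩
    have h1 : (l₁ ++ m).length ≤ n + m.length := by
      rw [List.length_append]; omega
    have h2 : n + m.length - (l₁ ++ m).length = n - l₁.length := by
      rw [List.length_append]; omega
    have h3 : l₁.length ≤ n := by omega
    rw [List.take_append (l₁ := l₁ ++ m), List.take_of_length_le h1, h2, List.take_append,
      List.take_of_length_le h3]
    simp only [List.prod_append, Z.X_mul, hm, add_zero]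

theorem NIns_words (Z : Pre S J) (T : Finset G) (a : ℝ) : ∃ C₀ : ℝ, 0 ≤ C₀ ∧ ∀ β ∈ T, ∀ d τ : ℤ,
    |(d : ℝ)| ≤ a → (τ = 1 ∨ τ = -1) → ∃ m : List G, Word S m ∧
      m.prod = Z.t ^ d * β ^ τ * Z.t ^ (-d) ∧ (m.length : ℝ) ≤ C₀ := by
  classical
  choose W hW1 hW2 using exists_word Z.gen
  let F : Finset (G × ℤ × ℤ) := T ×ˢ Finset.Icc (-⌈a⌉) ⌈a⌉ ×ˢ ({1, -1} : Finset ℤ)
  let f : G × ℤ × ℤ → ℝ := fun q => ((W (Z.t ^ q.2.1 * q.1 ^ q.2.2 * Z.t ^ (-q.2.1))).length : ℝ)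
  have hf : ∀ q, 0 ≤ f q := fun q => Nat.cast_nonneg _
  refine ⟨∑ q ∈ F, f q, Finset.sum_nonneg fun q _ => hf q, ?_⟩
  intro β hβ d τ hd hτ
  refine ⟨W _, hW1 _, hW2 _, ?_⟩
  have hq : (β, d, τ) ∈ F := by
    have h1 := Int.le_ceil a
    have h2 := abs_le.1 hd
    have h3 : d ≤ ⌈a⌉ := by exact_mod_cast h2.2.trans h1
    have h4 : -⌈a⌉ ≤ d := by
      have : (-(⌈a⌉ : ℝ)) ≤ d := by linarith [h2.1]
      exact_mod_cast this
    simp only [F, Finset.mem_product, Finset.mem_Icc, Finset.mem_insert, Finset.mem_singleton]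
    exact ⟨hβ, ⟨h4, h3⟩, hτ⟩
  exact Finset.single_le_sum (f := f) (fun q _ => hf q) hq

theorem NIns_conj (Z : Pre S J) {p : ℕ} (hp : 1 ≤ p) (T : Finset G) (hT : ∀ β ∈ T, Z.P p β)
    (A : ℝ) : ∃ C : ℝ, 0 ≤ C ∧ ∀ β ∈ T, ∀ (K : ℝ) (y : ℤ), 1 ≤ K → |(y : ℝ)| ≤ A * K →
      Z.Sm K (C / K ^ p) (Z.t ^ y * β * Z.t ^ (-y)) := by
  classical
  have key : ∀ β : G, ∃ C : ℝ, 0 ≤ C ∧ (β ∈ T → ∀ (K : ℝ) (y : ℤ), 1 ≤ K → |(y : ℝ)| ≤ A * K →
      Z.Sm K (C / K ^ p) (Z.t ^ y * β * Z.t ^ (-y))) := by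
    intro β
    by_cases hβ : β ∈ T
    · obtain ⟨C, hC, h⟩ := Z.sm_conj hp (hT β hβ) A
      exact ⟨C, hC, fun _ => h⟩
    · exact ⟨0, le_rfl, fun h => absurd h hβ⟩
  choose C hC h using key
  refine ⟨∑ β ∈ T, C β, Finset.sum_nonneg fun β _ => hC β, ?_⟩
  intro β hβ K y hK hy
  refine Z.Sm_mono _ _ _ _ ?_ (h β hβ K y hK hy)
  have hKp : 0 < K ^ p := by positivity
  exact div_le_div_of_nonneg_right (Finset.single_le_sum (f := C) (fun q _ => hC q) hβ) hKp.le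

theorem Pre.ins (Z : Pre S J) {p : ℕ} (hp : 1 ≤ p) (T : Finset G) (hT : ∀ β ∈ T, Z.P p β)
    (a : ℝ) : ∃ C₀ : ℝ, 0 ≤ C₀ ∧ ∀ A : ℝ, ∃ C : ℝ, 0 ≤ C ∧ ∀ (K L : ℝ) (σ : ℤ) (l : List G),
      1 ≤ L → L ≤ K → (σ = 1 ∨ σ = -1) → Word S l → (l.length : ℝ) ≤ A * K → Z.Cov a σ L l →
      ∀ β ∈ T, ∀ y : ℕ, (y : ℝ) ≤ L + Z.r → ∀ τ : ℤ, (τ = 1 ∨ τ = -1) →
      ∃ l' : List G, Word S l' ∧ l.Sublist l' ∧ (l'.length : ℝ) ≤ l.length + C₀ ∧
        Z.Cov a σ L l' ∧ Z.X l'.prod = Z.X l.prod ∧ ∀ j,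
        (Z.w j ≤ p → Z.V l'.prod j = Z.V l.prod j + τ * Z.ψ β (σ * y) j) ∧
        K ^ (p + 1) * |(Z.V l'.prod j : ℝ) - Z.V l.prod j - τ * Z.ψ β (σ * y) j| ≤
          C * K ^ Z.w j := by
  obtain ⟨C₀, hC₀, hword⟩ := NIns_words Z T a
  refine ⟨C₀, hC₀, fun A => ?_⟩
  obtain ⟨C₁, hC₁, hball⟩ := Z.Sm_ball A
  obtain ⟨C₂, hC₂, hconj⟩ := NIns_conj Z hp T hT (1 + Z.r)
  obtain ⟨C₃, hC₃, hKE⟩ := Z.KE (C₁ + C₁ + C₂)
  refine ⟨C₃ * C₂, mul_nonneg hC₃ hC₂, ?_⟩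
  intro K L σ l hL hLK hσ hw hlen hcov β hβ y hy τ hτ
  have hK : 1 ≤ K := hL.trans hLK
  have hKp : 1 ≤ K ^ p := one_le_pow₀ hK
  obtain ⟨n, hn⟩ := hcov y hy
  obtain ⟨m, hm1, hm2, hm3⟩ := hword β hβ (σ * y - Z.X (l.take n).prod) τ
    (by push_cast; rwa [abs_sub_comm]) hτ
  have hXβ : Z.X β = 0 := Z.P_X _ _ (hT β hβ)
  have hXm : Z.X m.prod = 0 := by
    rw [hm2, Z.X_mul, Z.X_mul, Z.X_tpow, Z.X_tpow, Z.X_zpow, hXβ]; ring
  have hsplit : l.take n ++ l.drop n = l := List.take_append_drop n l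
  have hprod : l.prod = (l.take n).prod * (l.drop n).prod := by
    rw [← List.prod_append, hsplit]
  have hX : Z.X (l.take n ++ m ++ l.drop n).prod = Z.X l.prod := by
    rw [hprod]
    simp only [List.prod_append, Z.X_mul, hXm, add_zero]
  refine ⟨l.take n ++ m ++ l.drop n, ((hw.take n).append hm1).append (hw.drop n), ?_, ?_, ?_,
    hX, ?_⟩
  · conv_lhs => rw [← hsplit]
    exact (List.sublist_append_left _ _).append_right _
  · have : (l.take n ++ m ++ l.drop n).length = l.length + m.length := by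
      conv_rhs => rw [← hsplit]
      simp only [List.length_append]
      omega
    rw [this]
    push_cast
    linarith
  · intro y' hy'
    obtain ⟨n', hn'⟩ := hcov y' hy'
    obtain ⟨n'', h⟩ := NIns_take Z (l.take n) m (l.drop n) hXm n'
    rw [hsplit] at h
    exact ⟨n'', by rw [h]; exact hn'⟩
  · -- the estimates
    set p₀ := (l.take n).prod with hp₀
    set n₀ := p₀ * Z.t ^ (-Z.X p₀) with hn₀
    set h := l.prod * Z.t ^ (-Z.X l.prod) with hh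
    set u := Z.t ^ (σ * y : ℤ) * β * Z.t ^ (-(σ * y : ℤ)) with hu
    have hPu : Z.P p u := Z.P_conj _ _ _ (hT β hβ)
    have hXu : Z.X u = 0 := Z.P_X _ _ hPu
    have hXn : Z.X n₀ = 0 := by rw [hn₀, Z.X_mul, Z.X_tpow]; ring
    have hXh : Z.X h = 0 := by rw [hh, Z.X_mul, Z.X_tpow]; ring
    have hXy : Z.X (n₀⁻¹ * h) = 0 := by rw [Z.X_mul, Z.X_inv, hXn, hXh]; ring
    have hXx : Z.X (n₀ * u⁻¹) = 0 := by rw [Z.X_mul, Z.X_inv, hXn, hXu]; ring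
    have hSn : Z.Sm K C₁ n₀ := by
      refine hball K hK p₀ ⟨l.take n, le_trans ?_ hlen, hw.take n, rfl⟩
      exact_mod_cast List.length_take_le' n l
    have hSh : Z.Sm K C₁ h := hball K hK l.prod ⟨l, hlen, hw, rfl⟩
    have hε : C₂ / K ^ p ≤ C₂ := div_le_self hC₂ hKp
    have hSu : Z.Sm K (C₂ / K ^ p) u := by
      refine hconj β hβ K _ hK ?_
      have hr : (0 : ℝ) ≤ Z.r := Nat.cast_nonneg _
      have hy0 : (0 : ℝ) ≤ y := Nat.cast_nonneg _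
      have : |((σ * y : ℤ) : ℝ)| = y := by
        rcases hσ with rfl | rfl
        · simp
        · simp
      rw [this]
      nlinarith
    have hSy : Z.Sm K (C₁ + C₁ + C₂) (n₀⁻¹ * h) :=
      Z.Sm_mono _ _ _ _ (by linarith) (Z.Sm_mul _ _ _ _ _ (Z.Sm_inv _ _ _ hSn) hSh)
    have hSn' : Z.Sm K (C₁ + C₁ + C₂) n₀ := Z.Sm_mono _ _ _ _ (by linarith) hSn
    have hSx : Z.Sm K (C₁ + C₁ + C₂) (n₀ * u⁻¹) :=
      Z.Sm_mono _ _ _ _ (by linarith) (Z.Sm_mul _ _ _ _ _ hSn (Z.Sm_inv _ _ _ hSu))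
    have hV : Z.V l.prod = Z.v (n₀ * (n₀⁻¹ * h)) := by
      rw [mul_inv_cancel_left]; rfl
    have hV' : Z.V (l.take n ++ m ++ l.drop n).prod = Z.v (n₀ * u ^ τ * (n₀⁻¹ * h)) := by
      unfold Pre.V
      rw [hX]
      congr 1
      have hd : (l.drop n).prod = p₀⁻¹ * l.prod := by rw [hprod]; group
      have hu' : u ^ τ = Z.t ^ (σ * y : ℤ) * β ^ τ * Z.t ^ (-(σ * y : ℤ)) := by
        rw [hu, zpow_neg, conj_zpow]
      rw [List.prod_append, List.prod_append, hm2, hd, hu', hn₀, hh, ← hp₀]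
      group
    have hψ : Z.ψ β (σ * y) = Z.v u := rfl
    have hfin : ∀ (E : ℝ) (j : J), K * E ≤ C₃ * (C₂ / K ^ p) * K ^ Z.w j →
        K ^ (p + 1) * E ≤ C₃ * C₂ * K ^ Z.w j := by
      intro E j hE
      have hKp0 : 0 < K ^ p := by positivity
      have := mul_le_mul_of_nonneg_left hE hKp0.le
      calc K ^ (p + 1) * E = K ^ p * (K * E) := by ring
        _ ≤ K ^ p * (C₃ * (C₂ / K ^ p) * K ^ Z.w j) := this
        _ = C₃ * C₂ * K ^ Z.w j := by field_simp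
    intro j
    rw [hV, hV', hψ]
    rcases hτ with rfl | rfl
    · rw [zpow_one]
      refine ⟨fun hj => ?_, hfin _ j ?_⟩
      · rw [Z.KV p n₀ u _ j hXn hPu hXy hj, one_mul]
      · have := hKE K (C₂ / K ^ p) hK (by linarith) n₀ u _ hXn hXu hXy hSn' hSu hSy j
        simpa using this
    · rw [zpow_neg_one]
      have e : n₀ * u⁻¹ * u * (n₀⁻¹ * h) = n₀ * (n₀⁻¹ * h) := by group
      refine ⟨fun hj => ?_, hfin _ j ?_⟩
      · have := Z.KV p (n₀ * u⁻¹) u _ j hXx hPu hXy hj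
        rw [e] at this
        rw [this]; ring
      · have := hKE K (C₂ / K ^ p) hK (by linarith) (n₀ * u⁻¹) u _ hXx hXu hXy hSx hSu hSy j
        rw [e] at this
        refine le_trans (le_of_eq ?_) this
        congr 1
        rw [← abs_neg]
        congr 1
        push_cast
        ring

end Pool.Agent.MP_b3b911_al.Fil
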