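import Pool.Agent.MP_b3b911_al.Fil.NDeg

namespace Pool.Agent.MP_b3b911_al.Fil

variable {G : Type*} [Group G] {φ : G →* Multiplicative ℤ} {t : G} {F : ℕ → Subgroup G}
  {J : Type} [Fintype J] [DecidableEq J]

theorem NKap_iter (t g : G) (k : ℕ) (f : G → ℤ) :
    (fwdDiff (1 : ℤ))^[k] (fun y : ℤ => f (t ^ y * g * t ^ (-y))) =
      fun y : ℤ => ((Cd t)^[k] f) (t ^ y * g * t ^ (-y)) := by
  induction k generalizing f with
  | zero => rfl
  | succ k ih =>
    rw [Function.iterate_succ_apply, Function.iterate_succ_apply, ← ih]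
    congr 1
    funext y
    have e : t ^ (y + 1) * g * t ^ (-(y + 1)) = t * (t ^ y * g * t ^ (-y)) * t⁻¹ := by
      group
    simp only [fwdDiff, Cd, e]

theorem NKap_one (t : G) (k : ℕ) {f : G → ℤ} (hf : f 1 = 0) : ((Cd t)^[k] f) 1 = 0 := by
  induction k with
  | zero => exact hf
  | succ k _ =>
    rw [Function.iterate_succ_apply']
    simp [Cd]

theorem NKap_deg (h : FData φ t F) {d : ℕ} {f : G → ℤ} (hf : Deg F φ.ker d f) (k : ℕ) :
    Deg F φ.ker (d - k) ((Cd t)^[k] f) := by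
  induction k with
  | zero => exact hf
  | succ k ih =>
    rw [Function.iterate_succ_apply']
    have ht : t ∈ F 1 := by rw [h.top]; exact Subgroup.mem_top t
    have := ih.cd h.filt (by rw [h.top]; exact le_top) le_rfl ht
    rwa [Nat.sub_sub] at this

theorem NKap_const {ψ : ℤ → ℤ} (h : fwdDiff (1 : ℤ) ψ = 0) (y : ℤ) : ψ y = ψ 0 := by
  have h1 : ∀ y, ψ (y + 1) = ψ y := by
    intro y
    have := congrFun h y
    simp only [fwdDiff, Pi.zero_apply] at this
    omega
  induction y using Int.induction_on with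
  | zero => rfl
  | succ n ih => rw [h1, ih]
  | pred n ih =>
    have := h1 (-(n : ℤ) - 1)
    rw [sub_add_cancel] at this
    rw [← this, ih]

theorem NKap_conj (H : Subgroup G) (hH : H.Normal) (t : G) (y : ℤ) {g : G} (hg : g ∈ H) :
    t ^ y * g * t ^ (-y) ∈ H := by
  rw [zpow_neg]
  exact hH.conj_mem g hg _

theorem FData.deg_v (h : FData φ t F) (C : Coord F φ.ker J) (j : J) :
    Deg F φ.ker (C.w j + 1) fun g => C.v g j := by
  exact C.deg F 0 h.filt (fun _ _ => rfl) j

theorem FData.low (h : FData φ t F) (C : Coord F φ.ker J) {p : ℕ} {g : G} (hg : g ∈ φ.ker)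
    (hgp : g ∈ F p) {j : J} (hj : C.w j < p) : C.v g j = 0 := by
  have := (h.deg_v C j).van (j := p) (by omega) hj hgp hg (one_mem _)
  simpa [C.v_one] using this

theorem FData.mem_of_low (h : FData φ t F) (C : Coord F φ.ker J) {p : ℕ} {g : G} (hg : g ∈ φ.ker)
    (hv : ∀ j, C.w j < p → C.v g j = 0) : g ∈ F p := by
  obtain ⟨l, hl, hκ⟩ := C.word g hg
  have h0 := hκ fun j => if C.w j < p then 1 else 0
  have h1 : ∑ j, |(C.v g j : ℝ)| * (if C.w j < p then (1 : ℝ) else 0) = 0 := by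
    refine Finset.sum_eq_zero fun j _ => ?_
    split_ifs with hj
    · simp [hv j hj]
    · simp
  rw [h1] at h0
  have h2 : ∀ a ∈ l, p ≤ C.w a.1 := by
    intro a ha
    by_contra hlt
    have h3 : (if C.w a.1 < p then (1 : ℝ) else 0) ≤
        (l.map fun a => if C.w a.1 < p then (1 : ℝ) else 0).sum := by
      refine List.single_le_sum ?_ _ (List.mem_map.2 ⟨a, ha, rfl⟩)
      intro x hx
      obtain ⟨b, -, rfl⟩ := List.mem_map.1 hx
      split_ifs <;> norm_num
    rw [h0, if_pos (by omega)] at h3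
    norm_num at h3
  rw [← hl]
  refine Subgroup.list_prod_mem _ fun x hx => ?_
  obtain ⟨a, ha, rfl⟩ := List.mem_map.1 hx
  have h4 : C.b a.1 ∈ F p := h.filt.anti (h2 a ha) (C.b_mem a.1).2
  unfold lt
  split_ifs
  · exact h4
  · exact inv_mem h4

theorem FData.pdeg (h : FData φ t F) (C : Coord F φ.ker J) {p : ℕ} (hp : 1 ≤ p) {g : G}
    (hg : g ∈ φ.ker) (hgp : g ∈ F p) {j : J} (hj : p ≤ C.w j) :
    (fwdDiff (1 : ℤ))^[C.w j - p + 1] (fun y : ℤ => C.v (t ^ y * g * t ^ (-y)) j) = 0 := by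
  rw [NKap_iter t g _ fun g => C.v g j]
  funext y
  have h1 := (NKap_deg h (h.deg_v C j) (C.w j - p + 1)).van hp (by omega)
    (NKap_conj _ (h.filt.normal p) t y hgp) (NKap_conj _ inferInstance t y hg) (one_mem _)
  rw [mul_one, NKap_one t _ (by simp [C.v_one])] at h1
  exact h1

theorem NKap_ptop (h : FData φ t F) (C : Coord F φ.ker J) (i : J) (m : ℕ) :
    ∀ p : ℕ, 1 ≤ p → p + m = C.w i →
    ∃ (q : ℤ) (g : G), 0 < q ∧ (g ∈ φ.ker ∧ g ∈ F p) ∧ ∀ j, C.w j = C.w i →
    (fwdDiff (1 : ℤ))^[m] (fun y : ℤ => C.v (t ^ y * g * t ^ (-y)) j) =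
      fun _ => if j = i then q else 0 := by
  induction m with
  | zero =>
    intro p hp hi
    have hb : C.b i ∈ F p := by
      have := (C.b_mem i).2
      rwa [← hi] at this
    refine ⟨1, C.b i, one_pos, ⟨(C.b_mem i).1, hb⟩, fun j hj => ?_⟩
    have h1 := h.pdeg C hp (C.b_mem i).1 hb (j := j) (by omega)
    rw [show C.w j - p + 1 = 1 by omega, Function.iterate_one] at h1
    funext y
    rw [Function.iterate_zero_apply, NKap_const h1 y]
    simp [C.v_b, Pi.single_apply]
  | succ m ih =>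
    intro p hp hi
    obtain ⟨q, γ, hq, ⟨hγ, hγp⟩, hj0⟩ := ih (p + 1) (by omega) (by omega)
    obtain ⟨n, hn, β, hβ, hβp, hδ⟩ := h.gen p hp γ hγp
    refine ⟨n * q, β, by positivity, ⟨hβ, hβp⟩, fun j hj => ?_⟩
    have h1 := h.pdeg C hp hβ hβp (j := j) (by omega)
    rw [show C.w j - p + 1 = (m + 1) + 1 by omega, Function.iterate_succ_apply'] at h1
    funext y
    rw [NKap_const h1 y, NKap_iter t β _ fun g => C.v g j]
    have h2 := congrFun (hj0 j hj) 0
    rw [NKap_iter t γ _ fun g => C.v g j] at h2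
    simp only [zpow_zero, neg_zero, one_mul, mul_one] at h2 ⊢
    rw [Function.iterate_succ_apply']
    have hd := NKap_deg h (h.deg_v C j) m
    have hf1 : ((Cd t)^[m] fun g => C.v g j) 1 = 0 := NKap_one t _ (by simp [C.v_one])
    generalize ((Cd t)^[m] fun g => C.v g j) = f at hd hf1 h2 ⊢
    have ht : t ∈ F 1 := by rw [h.top]; exact Subgroup.mem_top t
    have hc : t * β * t⁻¹ * β⁻¹ ∈ F (1 + p) := h.filt.comm 1 p le_rfl hp t ht β hβp
    have hck : t * β * t⁻¹ * β⁻¹ ∈ φ.ker :=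
      mul_mem ((inferInstance : φ.ker.Normal).conj_mem β hβ t) (inv_mem hβ)
    generalize hcd : t * β * t⁻¹ * β⁻¹ = c at hc hck hδ
    have e1 : t * β * t⁻¹ = c * β * 1 := by rw [← hcd]; group
    have h3 := hd.van2 (i := 1 + p) (j := p) (by omega) hp (by omega) hc hck hβp hβ (one_mem _)
    have h4 : ∀ k : ℕ, f (γ ^ k) = k * f γ := by
      intro k
      induction k with
      | zero => simp [hf1]
      | succ k ihk =>
        have := hd.van2 (i := p + 1) (j := p + 1) (by omega) (by omega) (by omega)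
          (pow_mem hγp k) (pow_mem hγ k) hγp hγ (one_mem _)
        simp only [mul_one] at this
        rw [pow_succ]
        push_cast
        rw [hf1, ihk] at this
        linarith
    have h5 : f (γ ^ n) = f c := by
      have hδk : c⁻¹ * γ ^ n ∈ φ.ker := mul_mem (inv_mem hck) (pow_mem hγ n)
      have := hd.van (j := p + 2) (by omega) (by omega)
        ((h.filt.normal (p + 2)).conj_mem _ hδ c)
        ((inferInstance : φ.ker.Normal).conj_mem _ hδk c) hck
      rw [← this]
      congr 1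
      group
    have h6 : Cd t f β = f c := by
      simp only [Cd, e1]
      simp only [mul_one] at h3 ⊢
      linarith
    rw [h6, ← h5, h4, h2]
    split_ifs <;> simp

theorem FData.ptop (h : FData φ t F) (C : Coord F φ.ker J) {p : ℕ} (hp : 1 ≤ p) {i : J}
    (hi : p ≤ C.w i) : ∃ (q : ℤ) (g : G), 0 < q ∧ (g ∈ φ.ker ∧ g ∈ F p) ∧ ∀ j, C.w j = C.w i →
    (fwdDiff (1 : ℤ))^[C.w i - p] (fun y : ℤ => C.v (t ^ y * g * t ^ (-y)) j) =
      fun _ => if j = i then q else 0 := by
  exact NKap_ptop h C i (C.w i - p) p hp (by omega)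

theorem FData.occ (h : FData φ t F) (C : Coord F φ.ker J) {q : ℕ} (hq : 1 ≤ q) {i : J}
    (hi : q ≤ C.w i) : ∃ j, C.w j = q := by
  by_contra hne
  push Not at hne
  obtain ⟨q', g, hq', ⟨hg, hgp⟩, hj⟩ := h.ptop C hq hi
  have hg1 : g ∈ F (q + 1) := h.mem_of_low C hg fun j hj =>
    h.low C hg hgp (by have := hne j; omega)
  have hi' := hne i
  have h1 := h.pdeg C (p := q + 1) (by omega) hg hg1 (j := i) (by omega)
  rw [show C.w i - (q + 1) + 1 = C.w i - q by omega, hj i rfl] at h1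
  have := congrFun h1 0
  simp at this
  omega

end Pool.Agent.MP_b3b911_al.Fil
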