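import Pool.Agent.MP_b3b911_al.Fil.NPoly

namespace Pool.Agent.MP_b3b911_al.Fil

theorem NLemV_apply {β J : Type*} (f : β → J → ℤ) (l : List β) (j : J) :
    (l.map f).sum j = (l.map fun x => f x j).sum := by
  induction l with
  | nil => rfl
  | cons x l ih => simp only [List.map_cons, List.sum_cons, Pi.add_apply, ih]

theorem NLemV_prod (σ : ℤ) (ys : List ℕ) :
    (ys.map fun y : ℕ => σ * (y : ℤ)).prod = σ ^ ys.length * (ys.prod : ℕ) := by
  induction ys with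
  | nil => simp
  | cons y ys ih =>
    simp only [List.map_cons, List.prod_cons, List.length_cons, ih, Nat.cast_mul, pow_succ]
    ring

theorem NLemV_sum_le (b : ℕ) (ys : List ℕ) (h : ∀ y ∈ ys, y ≤ b) : ys.sum ≤ ys.length * b := by
  simpa using List.sum_le_card_nsmul ys b h

theorem NLemV_block {α : Type*} {J : Type} (P : J → Prop) (k b : ℕ) (ψ : α → ℤ → J → ℤ) (g₁ : α)
    (κ : J → ℤ) (top : ∀ j, P j → (fwdDiff (1 : ℤ))^[k] (fun y => ψ g₁ y j) = fun _ => κ j)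
    (σ s : ℤ) (hs : s = 1 ∨ s = -1) (ys : List ℕ) (hl : ys.length = k) (hb : ∀ y ∈ ys, y ≤ b) :
    ∃ l : List (α × ℕ × ℤ), (∀ x ∈ l, x.1 = g₁ ∧ x.2.1 ≤ k * b ∧ (x.2.2 = 1 ∨ x.2.2 = -1)) ∧
      l.length = 2 ^ k ∧ ∀ j, P j → (l.map fun x => x.2.2 • ψ x.1 (σ * x.2.1)).sum j =
        s * σ ^ k * κ j * (ys.prod : ℕ) := by
  obtain ⟨l, h1, h2, h3⟩ := Dl_expand σ ys
  refine ⟨l.map fun x => (g₁, x.1, s * x.2), ?_, by rw [List.length_map, h1, hl], fun j hj => ?_⟩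
  · intro x hx
    obtain ⟨y, hy, rfl⟩ := List.mem_map.1 hx
    refine ⟨rfl, (h2 y hy).1.trans (hl ▸ NLemV_sum_le b ys hb), ?_⟩
    rcases hs with rfl | rfl <;> rcases (h2 y hy).2 with h | h <;> simp [h]
  · have h4 := Dl_const (ys.map fun y : ℕ => σ * (y : ℤ)) (fun y => ψ g₁ y j) (κ j)
      (by rw [List.length_map, hl]; exact top j hj) 0
    rw [h3, NLemV_prod, hl] at h4
    rw [NLemV_apply, List.map_map]
    have h5 : ((fun x : α × ℕ × ℤ => (x.2.2 • ψ x.1 (σ * x.2.1)) j) ∘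
        fun x : ℕ × ℤ => (g₁, x.1, s * x.2)) = fun x => s * (x.2 * ψ g₁ (0 + σ * x.1) j) := by
      funext x
      simp only [Function.comp_apply, Pi.smul_apply, smul_eq_mul, zero_add, mul_assoc]
    rw [h5, List.sum_map_mul_left, h4]
    ring

theorem NLemV_blocks {α : Type*} {J : Type} (P : J → Prop) (k b : ℕ) (ψ : α → ℤ → J → ℤ) (g₁ : α)
    (κ : J → ℤ) (top : ∀ j, P j → (fwdDiff (1 : ℤ))^[k] (fun y => ψ g₁ y j) = fun _ => κ j)
    (σ s : ℤ) (hs : s = 1 ∨ s = -1) (Y : List (List ℕ))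
    (hY : ∀ ys ∈ Y, ys.length = k ∧ ∀ y ∈ ys, y ≤ b) :
    ∃ l : List (α × ℕ × ℤ), (∀ x ∈ l, x.1 = g₁ ∧ x.2.1 ≤ k * b ∧ (x.2.2 = 1 ∨ x.2.2 = -1)) ∧
      l.length = 2 ^ k * Y.length ∧ ∀ j, P j → (l.map fun x => x.2.2 • ψ x.1 (σ * x.2.1)).sum j =
        s * σ ^ k * κ j * ((Y.map List.prod).sum : ℕ) := by
  induction Y with
  | nil => exact ⟨[], by simp, by simp, fun j _ => by simp⟩
  | cons ys Y ih =>
    obtain ⟨l, h1, h2, h3⟩ := ih fun zs hz => hY zs (List.mem_cons_of_mem _ hz)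
    obtain ⟨l', h1', h2', h3'⟩ := NLemV_block P k b ψ g₁ κ top σ s hs ys
      (hY ys List.mem_cons_self).1 (hY ys List.mem_cons_self).2
    refine ⟨l' ++ l, fun x hx => ?_, ?_, fun j hj => ?_⟩
    · rcases List.mem_append.1 hx with hx | hx
      · exact h1' x hx
      · exact h1 x hx
    · rw [List.length_append, h2, h2', List.length_cons]
      ring
    · rw [List.map_append, List.sum_append, Pi.add_apply, h3 j hj, h3' j hj, List.map_cons,
        List.sum_cons, Nat.cast_add]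
      ring

theorem NLemV_sign (σ : ℤ) (hσ : σ = 1 ∨ σ = -1) (k : ℕ) (m : ℤ) :
    ∃ s : ℤ, (s = 1 ∨ s = -1) ∧ s * σ ^ k * (m.natAbs : ℕ) = m := by
  have h : σ ^ k = 1 ∨ σ ^ k = -1 := by
    rcases hσ with rfl | rfl
    · exact Or.inl (one_pow k)
    · exact neg_one_pow_eq_or ℤ k
  rcases h with h | h <;> rcases Int.natAbs_eq m with h' | h'
  · exact ⟨1, Or.inl rfl, by rw [h]; omega⟩
  · exact ⟨-1, Or.inr rfl, by rw [h]; omega⟩
  · exact ⟨-1, Or.inr rfl, by rw [h]; omega⟩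
  · exact ⟨1, Or.inl rfl, by rw [h]; omega⟩

theorem NLemV_base (k : ℕ) (L : ℝ) (hL : 1 ≤ L) :
    ∃ b : ℕ, 1 ≤ b ∧ ((k * b : ℕ) : ℝ) ≤ L + k ∧ L ^ k ≤ (k : ℝ) ^ k * (b : ℝ) ^ k := by
  rcases Nat.eq_zero_or_pos k with rfl | hk
  · exact ⟨1, le_rfl, by simp; linarith, by simp⟩
  · have hk' : (0 : ℝ) < k := by exact_mod_cast hk
    have h0 : 0 ≤ L / k := div_nonneg (by linarith) hk'.le
    have h1 := Nat.floor_le h0
    have h2 := Nat.lt_floor_add_one (L / k)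
    refine ⟨⌊L / k⌋₊ + 1, by omega, ?_, ?_⟩
    · push_cast
      rw [le_div_iff₀ hk'] at h1
      nlinarith
    · rw [← mul_pow]
      refine pow_le_pow_left₀ (by linarith) ?_ k
      push_cast
      rw [div_lt_iff₀ hk'] at h2
      nlinarith

theorem lemV {α : Type*} {J : Type} [Fintype J] [DecidableEq J] (w : J → ℕ) (r p k : ℕ)
    (ψ : α → ℤ → J → ℤ) (i : J) (hk : k ≤ r) (g₀ g₁ : α) (q : ℤ) (hq : 0 < q)
    (bas : ψ g₀ 0 = Pi.single i 1)
    (top : ∀ j, w j ≤ p + k →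
      (fwdDiff (1 : ℤ))^[k] (fun y => ψ g₁ y j) = fun _ => if j = i then q else 0) :
    ∃ C : ℝ, 0 ≤ C ∧ ∀ (σ : ℤ) (K L M : ℝ), (σ = 1 ∨ σ = -1) → 1 ≤ L → L ≤ K → 1 ≤ M →
      ∀ n : ℤ, |(n : ℝ)| ≤ M * K ^ k → ∃ l : List (α × ℕ × ℤ),
        (∀ x ∈ l, (x.1 = g₀ ∧ x.2.1 = 0 ∨ x.1 = g₁) ∧ (x.2.1 : ℝ) ≤ L + r ∧
          (x.2.2 = 1 ∨ x.2.2 = -1)) ∧
        (l.length : ℝ) ≤ C * M * (K / L) ^ k ∧ ∀ j, w j ≤ p + k →
        (l.map fun x => x.2.2 • ψ x.1 (σ * x.2.1)).sum j = if j = i then n else 0 := by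
  have hq' : (0 : ℝ) < q := by exact_mod_cast hq
  refine ⟨2 ^ k * ((k : ℝ) ^ k + k) + q, by positivity, fun σ K L M hσ hL hLK hM n hn => ?_⟩
  obtain ⟨b, hb1, hb2, hb3⟩ := NLemV_base k L hL
  obtain ⟨s, hs, hs'⟩ := NLemV_sign σ hσ k (n / q)
  obtain ⟨Y, hY1, hY2, hY3⟩ := digits_sum k b (n / q).natAbs hb1
  obtain ⟨l, h1, h2, h3⟩ := NLemV_blocks (fun j => w j ≤ p + k) k b ψ g₁
    (fun j => if j = i then q else 0) top σ s hs Y hY1
  have hr0 : 0 ≤ n % q := Int.emod_nonneg n hq.ne'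
  have hr1 : n % q < q := Int.emod_lt_of_pos n hq
  have hkr : (k : ℝ) ≤ r := by exact_mod_cast hk
  have hL0 : 0 < L := by linarith
  refine ⟨l ++ List.replicate (n % q).toNat (g₀, 0, 1), fun x hx => ?_, ?_, fun j hj => ?_⟩
  · rcases List.mem_append.1 hx with hx | hx
    · refine ⟨Or.inr (h1 x hx).1, ?_, (h1 x hx).2.2⟩
      have : (x.2.1 : ℝ) ≤ ((k * b : ℕ) : ℝ) := by exact_mod_cast (h1 x hx).2.1
      linarith
    · rw [List.eq_of_mem_replicate hx]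
      refine ⟨Or.inl ⟨rfl, rfl⟩, ?_, Or.inl rfl⟩
      have : (0 : ℝ) ≤ r := Nat.cast_nonneg r
      simp only [Nat.cast_zero]
      linarith
  · have hT : 1 ≤ M * (K / L) ^ k :=
      one_le_mul_of_one_le_of_one_le hM (one_le_pow₀ ((one_le_div hL0).2 hLK))
    have hb0 : (0 : ℝ) < (b : ℝ) ^ k := pow_pos (by exact_mod_cast hb1) k
    have hLk : 0 < L ^ k := pow_pos hL0 k
    have hn1 : (((n / q).natAbs : ℕ) : ℝ) ≤ M * K ^ k := by
      refine le_trans ?_ hn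
      have h := Int.natAbs_ediv_le_natAbs n q
      rw [← Int.cast_abs, Int.abs_eq_natAbs, Int.cast_natCast]
      exact_mod_cast h
    have hn0 : 0 ≤ M * K ^ k := (abs_nonneg _).trans hn
    have hd : ((((n / q).natAbs / b ^ k : ℕ)) : ℝ) ≤ (k : ℝ) ^ k * (M * (K / L) ^ k) := by
      refine Nat.cast_div_le.trans ?_
      rw [Nat.cast_pow, div_le_iff₀ hb0, div_pow]
      refine hn1.trans ?_
      have : M * K ^ k = M * (K ^ k / L ^ k) * L ^ k := by field_simp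
      rw [this]
      have h0 : 0 ≤ M * (K ^ k / L ^ k) := by rw [← div_pow]; linarith
      nlinarith [mul_le_mul_of_nonneg_left hb3 h0]
    have hY : (Y.length : ℝ) ≤ (k : ℝ) ^ k * (M * (K / L) ^ k) + k := by
      have : (Y.length : ℝ) ≤ (((n / q).natAbs / b ^ k + k : ℕ) : ℝ) := by exact_mod_cast hY2
      rw [Nat.cast_add] at this
      linarith
    have hρ : (((n % q).toNat : ℕ) : ℝ) ≤ q := by
      have : (((n % q).toNat : ℕ) : ℤ) ≤ q := by omega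
      exact_mod_cast this
    rw [List.length_append, List.length_replicate, h2, mul_assoc]
    push_cast
    generalize M * (K / L) ^ k = T at hT hY
    have hk0 : (0 : ℝ) ≤ k := Nat.cast_nonneg k
    have h2k : (0 : ℝ) < 2 ^ k := by positivity
    have e1 : (k : ℝ) ≤ k * T := by nlinarith
    have e2 : (q : ℝ) ≤ q * T := by nlinarith
    have e3 : (2 : ℝ) ^ k * Y.length ≤ 2 ^ k * ((k : ℝ) ^ k * T + k * T) :=
      mul_le_mul_of_nonneg_left (by linarith) h2k.le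
    nlinarith
  · rw [List.map_append, List.sum_append, Pi.add_apply, h3 j hj, hY3, List.map_replicate,
      List.sum_replicate]
    simp only [Nat.cast_zero, mul_zero, bas, one_smul, Pi.smul_apply, Pi.single_apply]
    split_ifs with h
    · have e := Int.mul_ediv_add_emod n q
      have e' : (((n % q).toNat : ℕ) : ℤ) = n % q := Int.toNat_of_nonneg hr0
      rw [nsmul_eq_mul, mul_one, e', mul_right_comm, hs']
      linarith
    · simp

end Pool.Agent.MP_b3b911_al.Fil
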