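import Pool.Agent.MP_b3b911_al.Fil.NLemV

namespace Pool.Agent.MP_b3b911_al.Fil

theorem NLemW_sum {β J : Type*} (f : β → J → ℤ) (j : J) (B : ℝ) (l : List β)
    (h : ∀ x ∈ l, |(f x j : ℝ)| ≤ B) : |((l.map f).sum j : ℝ)| ≤ l.length * B := by
  induction l with
  | nil => simp
  | cons x l ih =>
    have h1 := h x List.mem_cons_self
    have h2 := ih fun y hy => h y (List.mem_cons_of_mem _ hy)
    rw [List.map_cons, List.sum_cons, Pi.add_apply, Int.cast_add, List.length_cons, Nat.cast_succ]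
    refine (abs_add_le _ _).trans ?_
    linarith

theorem NLemW_ent {J : Type} [Fintype J] (w : J → ℕ) (r p : ℕ) (hr : ∀ j, w j ≤ r)
    (a : ℤ → J → ℤ)
    (deg : ∀ j, p ≤ w j → (fwdDiff (1 : ℤ))^[w j - p + 1] (fun y => a y j) = 0) :
    ∃ D : ℝ, 0 ≤ D ∧ ∀ j, p ≤ w j → ∀ (x : ℤ) (L : ℝ), 1 ≤ L → |(x : ℝ)| ≤ L + r →
      |(a x j : ℝ)| ≤ D * L ^ (w j - p) := by
  have h : ∀ j, ∃ C : ℝ, 0 ≤ C ∧ (p ≤ w j → ∀ (x : ℤ) (K : ℝ), 1 ≤ K → |(x : ℝ)| ≤ K →
      |(a x j : ℝ)| ≤ C * K ^ (w j - p)) := fun j => by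
    by_cases hj : p ≤ w j
    · obtain ⟨C, h0, h1⟩ := poly_bound _ _ (deg j hj)
      exact ⟨C, h0, fun _ => h1⟩
    · exact ⟨0, le_rfl, fun h => absurd h hj⟩
  choose C h0 h1 using h
  have hr1 : (1 : ℝ) ≤ 1 + r := le_add_of_nonneg_right (Nat.cast_nonneg r)
  refine ⟨(∑ j, C j) * (1 + r) ^ r,
    mul_nonneg (Finset.sum_nonneg fun j _ => h0 j) (by positivity), fun j hj x L hL hx => ?_⟩
  have hr0 : (0 : ℝ) ≤ r := Nat.cast_nonneg r
  have h2 := h1 j hj x ((1 + r) * L) (by nlinarith) (by nlinarith)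
  refine h2.trans ?_
  rw [mul_pow, ← mul_assoc]
  refine mul_le_mul_of_nonneg_right ?_ (by positivity)
  exact mul_le_mul (Finset.single_le_sum (fun j _ => h0 j) (Finset.mem_univ j))
    (pow_le_pow_right₀ hr1 ((Nat.sub_le _ _).trans (hr j))) (by positivity)
    (Finset.sum_nonneg fun j _ => h0 j)

theorem NLemW_ind {α : Type*} {J : Type} [Fintype J] [DecidableEq J] (w : J → ℕ) (r p : ℕ)
    (hr : ∀ j, w j ≤ r) (P : α → Prop) (ψ : α → ℤ → J → ℤ)
    (low : ∀ g y j, P g → w j < p → ψ g y j = 0)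
    (deg : ∀ g j, P g → p ≤ w j → (fwdDiff (1 : ℤ))^[w j - p + 1] (fun y => ψ g y j) = 0)
    (top : ∀ i, p ≤ w i → ∃ (q : ℤ) (g : α), 0 < q ∧ P g ∧ ∀ j, w j = w i →
      (fwdDiff (1 : ℤ))^[w i - p] (fun y => ψ g y j) = fun _ => if j = i then q else 0)
    (bas : ∀ i, p ≤ w i → ∃ g, P g ∧ ψ g 0 = Pi.single i 1) (A : Finset J) :
    (∀ i ∈ A, p ≤ w i) → (∀ i ∈ A, ∀ j, w i < w j → j ∈ A) →
    ∃ (T : Finset α) (C : ℝ), 0 ≤ C ∧ (∀ g ∈ T, P g) ∧ ∀ (σ : ℤ) (K L M : ℝ), (σ = 1 ∨ σ = -1) →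
      1 ≤ L → L ≤ K → 1 ≤ M → ∀ e : J → ℤ, (∀ j, j ∉ A → e j = 0) →
      (∀ j, K ^ p * |(e j : ℝ)| ≤ M * K ^ w j) → ∃ l : List (α × ℕ × ℤ),
        (∀ x ∈ l, x.1 ∈ T ∧ (x.2.1 : ℝ) ≤ L + r ∧ (x.2.2 = 1 ∨ x.2.2 = -1)) ∧
        (l.length : ℝ) ≤ C * M * (K / L) ^ (r - p) ∧
        (l.map fun x => x.2.2 • ψ x.1 (σ * x.2.1)).sum = e := by
  classical
  induction A using Finset.induction_on_min_value w with
  | empty =>
    intro _ _
    refine ⟨∅, 0, le_rfl, by simp, fun σ K L M _ _ _ _ e he _ => ⟨[], by simp, by simp, ?_⟩⟩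
    funext j
    rw [he j (Finset.notMem_empty j)]
    rfl
  | insert i s his hmin ih =>
    intro hp hup
    obtain ⟨T, C₂, hC₂, hT, H₂⟩ := ih (fun j hj => hp j (Finset.mem_insert_of_mem hj))
      (fun j hj j' hjj => by
        rcases Finset.mem_insert.1 (hup j (Finset.mem_insert_of_mem hj) j' hjj) with h | h
        · have := hmin j hj
          rw [h] at hjj
          omega
        · exact h)
    have hi : p ≤ w i := hp i (Finset.mem_insert_self _ _)
    obtain ⟨q, g₁, hq, hg₁, ht⟩ := top i hi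
    obtain ⟨g₀, hg₀, hb⟩ := bas i hi
    obtain ⟨k, hk⟩ : ∃ k, w i = p + k := Nat.exists_eq_add_of_le hi
    have hk' : w i - p = k := by omega
    have hri := hr i
    obtain ⟨C₁, hC₁, H₁⟩ := lemV w r p k ψ i (by omega) g₀ g₁ q hq hb (fun j hj => by
      by_cases h1 : w j = w i
      · rw [← hk']; exact ht j h1
      · have hji : j ≠ i := fun e => h1 (e ▸ rfl)
        rw [if_neg hji]
        by_cases h2 : p ≤ w j
        · exact iter_zero_of_le (deg g₁ j hg₁ h2) (by omega)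
        · refine iter_zero_of_le (k := 0) ?_ (Nat.zero_le _)
          funext y
          exact low g₁ y j hg₁ (not_le.1 h2))
    obtain ⟨D₀, hD₀, E₀⟩ := NLemW_ent w r p hr (ψ g₀) fun j hj => deg g₀ j hg₀ hj
    obtain ⟨D₁, hD₁, E₁⟩ := NLemW_ent w r p hr (ψ g₁) fun j hj => deg g₁ j hg₁ hj
    have hCD : 0 ≤ C₁ * (D₀ + D₁) := mul_nonneg hC₁ (add_nonneg hD₀ hD₁)
    refine ⟨insert g₀ (insert g₁ T), C₁ + C₂ * (1 + C₁ * (D₀ + D₁)), by positivity, ?_, ?_⟩
    · intro g hg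
      rcases Finset.mem_insert.1 hg with rfl | hg
      · exact hg₀
      rcases Finset.mem_insert.1 hg with rfl | hg
      · exact hg₁
      · exact hT g hg
    intro σ K L M hσ hL hLK hM e he hb'
    have hL0 : 0 < L := one_pos.trans_le hL
    have hK0 : 0 < K := hL0.trans_le hLK
    have hM0 : 0 ≤ M := zero_le_one.trans hM
    have hKL : 1 ≤ K / L := (one_le_div hL0).2 hLK
    have hn : |(e i : ℝ)| ≤ M * K ^ k := by
      have h1 := hb' i
      rw [hk, pow_add, mul_left_comm] at h1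
      exact le_of_mul_le_mul_left h1 (pow_pos hK0 p)
    obtain ⟨l₁, m₁, n₁, s₁⟩ := H₁ σ K L M hσ hL hLK hM (e i) hn
    obtain ⟨u, hu⟩ : ∃ u, u = (l₁.map fun x => x.2.2 • ψ x.1 (σ * x.2.1)).sum := ⟨_, rfl⟩
    rw [← hu] at s₁
    have hbig : ∀ j, p + k < w j → K ^ p * |(u j : ℝ)| ≤ C₁ * (D₀ + D₁) * M * K ^ w j := by
      intro j hj
      obtain ⟨c, hc⟩ : ∃ c, w j = p + k + c := Nat.exists_eq_add_of_le hj.le
      have hc' : w j - p = k + c := by omega
      have h1 : |(u j : ℝ)| ≤ l₁.length * ((D₀ + D₁) * L ^ (k + c)) := by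
        rw [hu]
        refine NLemW_sum _ j _ l₁ fun x hx => ?_
        obtain ⟨a1, a2, a3⟩ := m₁ x hx
        have b1 : |((σ * x.2.1 : ℤ) : ℝ)| ≤ L + r := by
          rcases hσ with rfl | rfl <;> simpa using a2
        have b2 : |((x.2.2 • ψ x.1 (σ * x.2.1)) j : ℝ)| = |(ψ x.1 (σ * x.2.1) j : ℝ)| := by
          rcases a3 with h | h <;> simp [h]
        have b3 : 0 ≤ L ^ (k + c) := by positivity
        rw [b2]
        rcases a1 with ⟨h, -⟩ | h
        · have := E₀ j (by omega) _ L hL b1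
          rw [hc'] at this
          rw [h]
          nlinarith [mul_nonneg hD₁ b3]
        · have := E₁ j (by omega) _ L hL b1
          rw [hc'] at this
          rw [h]
          nlinarith [mul_nonneg hD₀ b3]
      have h2 : |(u j : ℝ)| ≤ C₁ * M * (K / L) ^ k * ((D₀ + D₁) * L ^ (k + c)) :=
        h1.trans (mul_le_mul_of_nonneg_right n₁ (by positivity))
      have h3 : C₁ * M * (K / L) ^ k * ((D₀ + D₁) * L ^ (k + c)) =
          C₁ * (D₀ + D₁) * M * K ^ k * L ^ c := by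
        rw [div_pow, pow_add]
        field_simp
      have h4 : C₁ * (D₀ + D₁) * M * K ^ k * L ^ c ≤ C₁ * (D₀ + D₁) * M * K ^ k * K ^ c :=
        mul_le_mul_of_nonneg_left (pow_le_pow_left₀ hL0.le hLK c) (by positivity)
      calc K ^ p * |(u j : ℝ)| ≤ K ^ p * (C₁ * (D₀ + D₁) * M * K ^ k * K ^ c) :=
            mul_le_mul_of_nonneg_left (h2.trans (h3.le.trans h4)) (by positivity)
        _ = _ := by rw [hc, pow_add, pow_add]; ring
    obtain ⟨l₂, m₂, n₂, s₂⟩ := H₂ σ K L ((1 + C₁ * (D₀ + D₁)) * M) hσ hL hLK (by nlinarith)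
      (e - u) (fun j hj => by
        rw [Pi.sub_apply]
        by_cases hji : j = i
        · rw [s₁ j (by rw [hji, hk]), if_pos hji, hji, sub_self]
        · have h1 : j ∉ insert i s := fun h => hj ((Finset.mem_insert.1 h).resolve_left hji)
          have h2 : w j ≤ p + k := by
            by_contra h
            exact h1 (hup i (Finset.mem_insert_self _ _) j (by omega))
          rw [s₁ j h2, if_neg hji, he j h1, sub_zero])
      (fun j => by
        have h0 : 0 ≤ C₁ * (D₀ + D₁) * M * K ^ w j := by positivity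
        have h1 := hb' j
        have h5 : 0 ≤ M * K ^ w j := by positivity
        rw [Pi.sub_apply]
        by_cases h2 : w j ≤ p + k
        · rw [s₁ j h2]
          by_cases hji : j = i
          · rw [if_pos hji, hji, sub_self, Int.cast_zero, abs_zero, mul_zero]
            positivity
          · rw [if_neg hji, sub_zero]
            nlinarith
        · have h3 := hbig j (not_le.1 h2)
          have h4 : K ^ p * |((e j - u j : ℤ) : ℝ)| ≤ K ^ p * (|(e j : ℝ)| + |(u j : ℝ)|) := by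
            refine mul_le_mul_of_nonneg_left ?_ (by positivity)
            rw [Int.cast_sub]
            exact abs_sub _ _
          nlinarith)
    refine ⟨l₁ ++ l₂, fun x hx => ?_, ?_, ?_⟩
    · rcases List.mem_append.1 hx with hx | hx
      · obtain ⟨a1, a2, a3⟩ := m₁ x hx
        refine ⟨?_, a2, a3⟩
        rcases a1 with ⟨h, -⟩ | h
        · rw [h]; exact Finset.mem_insert_self _ _
        · rw [h]; exact Finset.mem_insert_of_mem (Finset.mem_insert_self _ _)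
      · obtain ⟨a1, a2, a3⟩ := m₂ x hx
        exact ⟨Finset.mem_insert_of_mem (Finset.mem_insert_of_mem a1), a2, a3⟩
    · have h1 : C₁ * M * (K / L) ^ k ≤ C₁ * M * (K / L) ^ (r - p) :=
        mul_le_mul_of_nonneg_left (pow_le_pow_right₀ hKL (by omega)) (by positivity)
      rw [List.length_append, Nat.cast_add]
      nlinarith
    · rw [List.map_append, List.sum_append, s₂, ← hu]
      abel

theorem lemW {α : Type*} {J : Type} [Fintype J] [DecidableEq J] (w : J → ℕ) (r p : ℕ)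
    (hr : ∀ j, w j ≤ r) (P : α → Prop) (ψ : α → ℤ → J → ℤ)
    (low : ∀ g y j, P g → w j < p → ψ g y j = 0)
    (deg : ∀ g j, P g → p ≤ w j → (fwdDiff (1 : ℤ))^[w j - p + 1] (fun y => ψ g y j) = 0)
    (top : ∀ i, p ≤ w i → ∃ (q : ℤ) (g : α), 0 < q ∧ P g ∧ ∀ j, w j = w i →
      (fwdDiff (1 : ℤ))^[w i - p] (fun y => ψ g y j) = fun _ => if j = i then q else 0)
    (bas : ∀ i, p ≤ w i → ∃ g, P g ∧ ψ g 0 = Pi.single i 1) :
    ∃ (T : Finset α) (C : ℝ), 0 ≤ C ∧ (∀ g ∈ T, P g) ∧ ∀ (σ : ℤ) (K L M : ℝ), (σ = 1 ∨ σ = -1) →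
      1 ≤ L → L ≤ K → 1 ≤ M → ∀ e : J → ℤ, (∀ j, w j < p → e j = 0) →
      (∀ j, K ^ p * |(e j : ℝ)| ≤ M * K ^ w j) → ∃ l : List (α × ℕ × ℤ),
        (∀ x ∈ l, x.1 ∈ T ∧ (x.2.1 : ℝ) ≤ L + r ∧ (x.2.2 = 1 ∨ x.2.2 = -1)) ∧
        (l.length : ℝ) ≤ C * M * (K / L) ^ (r - p) ∧
        (l.map fun x => x.2.2 • ψ x.1 (σ * x.2.1)).sum = e := by
  obtain ⟨T, C, h0, h1, h2⟩ := NLemW_ind w r p hr P ψ low deg top bas
    (Finset.univ.filter fun j => p ≤ w j) (fun i hi => (Finset.mem_filter.1 hi).2)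
    (fun i hi j hij => Finset.mem_filter.2
      ⟨Finset.mem_univ j, (Finset.mem_filter.1 hi).2.trans hij.le⟩)
  refine ⟨T, C, h0, h1, fun σ K L M hσ hL hLK hM e he hb => h2 σ K L M hσ hL hLK hM e
    (fun j hj => he j ?_) hb⟩
  by_contra h
  exact hj (Finset.mem_filter.2 ⟨Finset.mem_univ j, not_lt.1 h⟩)

end Pool.Agent.MP_b3b911_al.Fil
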