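import Pool.Agent.MP_b3b911_al.Fil.NIns
import Pool.Agent.MP_b3b911_al.Fil.NLemW

namespace Pool.Agent.MP_b3b911_al.Fil

variable {G : Type*} [Group G] {S : Finset G} {J : Type} [Fintype J] [DecidableEq J]

theorem NPass_iter (Z : Pre S J) {p : ℕ} {T : Finset G} {a C₀ C B K L : ℝ} {σ : ℤ}
    (hC₀ : 0 ≤ C₀) (hK : 0 ≤ K)
    (H : ∀ l : List G, Word S l → (l.length : ℝ) ≤ B → Z.Cov a σ L l →
      ∀ β ∈ T, ∀ y : ℕ, (y : ℝ) ≤ L + Z.r → ∀ τ : ℤ, (τ = 1 ∨ τ = -1) →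
      ∃ l' : List G, Word S l' ∧ l.Sublist l' ∧ (l'.length : ℝ) ≤ l.length + C₀ ∧
        Z.Cov a σ L l' ∧ Z.X l'.prod = Z.X l.prod ∧ ∀ j,
        (Z.w j ≤ p → Z.V l'.prod j = Z.V l.prod j + τ * Z.ψ β (σ * y) j) ∧
        K ^ (p + 1) * |(Z.V l'.prod j : ℝ) - Z.V l.prod j - τ * Z.ψ β (σ * y) j| ≤
          C * K ^ Z.w j)
    (m : List (G × ℕ × ℤ))
    (hm : ∀ x ∈ m, x.1 ∈ T ∧ (x.2.1 : ℝ) ≤ L + Z.r ∧ (x.2.2 = 1 ∨ x.2.2 = -1)) :
    ∀ l : List G, Word S l → (l.length : ℝ) + C₀ * m.length ≤ B → Z.Cov a σ L l →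
      ∃ l' : List G, Word S l' ∧ l.Sublist l' ∧ (l'.length : ℝ) ≤ l.length + C₀ * m.length ∧
        Z.Cov a σ L l' ∧ Z.X l'.prod = Z.X l.prod ∧ ∀ j,
        (Z.w j ≤ p → Z.V l'.prod j =
          Z.V l.prod j + (m.map fun x => x.2.2 • Z.ψ x.1 (σ * x.2.1)).sum j) ∧
        K ^ (p + 1) * |(Z.V l'.prod j : ℝ) - Z.V l.prod j -
          ((m.map fun x => x.2.2 • Z.ψ x.1 (σ * x.2.1)).sum j : ℤ)| ≤
          m.length * (C * K ^ Z.w j) := by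
  induction m with
  | nil => exact fun l h1 _ h3 => ⟨l, h1, List.Sublist.refl l, by simp, h3, rfl, by simp⟩
  | cons x m ih =>
    intro l h1 h2 h3
    obtain ⟨k1, k2, k3⟩ := hm x List.mem_cons_self
    rw [List.length_cons] at h2 ⊢
    push_cast at h2 ⊢
    have h0 : 0 ≤ C₀ * (m.length : ℝ) := by positivity
    obtain ⟨l₁, a1, a2, a3, a4, a5, a6⟩ := H l h1 (by linarith) h3 x.1 k1 x.2.1 k2 x.2.2 k3
    obtain ⟨l₂, b1, b2, b3, b4, b5, b6⟩ := ih (fun z hz => hm z (List.mem_cons_of_mem _ hz)) l₁ a1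
      (by linarith) a4
    refine ⟨l₂, b1, a2.trans b2, by linarith, b4, b5.trans a5, fun j => ⟨fun hj => ?_, ?_⟩⟩
    · rw [(b6 j).1 hj, (a6 j).1 hj, List.map_cons, List.sum_cons, Pi.add_apply, Pi.smul_apply,
        smul_eq_mul, add_assoc]
    · have c1 := (a6 j).2
      have c2 := (b6 j).2
      rw [List.map_cons, List.sum_cons, Pi.add_apply, Pi.smul_apply, smul_eq_mul]
      push_cast
      generalize (((m.map fun x => x.2.2 • Z.ψ x.1 (σ * x.2.1)).sum j : ℤ) : ℝ) = u at c2 ⊢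
      have c3 := mul_le_mul_of_nonneg_left (abs_add_le
        ((Z.V l₁.prod j : ℝ) - Z.V l.prod j - x.2.2 * Z.ψ x.1 (σ * x.2.1) j)
        ((Z.V l₂.prod j : ℝ) - Z.V l₁.prod j - u)) (pow_nonneg hK (p + 1))
      rw [show (Z.V l₂.prod j : ℝ) - Z.V l.prod j - (x.2.2 * Z.ψ x.1 (σ * x.2.1) j + u) =
        ((Z.V l₁.prod j : ℝ) - Z.V l.prod j - x.2.2 * Z.ψ x.1 (σ * x.2.1) j) +
          ((Z.V l₂.prod j : ℝ) - Z.V l₁.prod j - u) by ring]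
      linarith

/-- one pass: the error of class `p` is replaced by an error of class `p + 1` -/
theorem Pre.pass (Z : Pre S J) {p : ℕ} (hp : 1 ≤ p) (a A : ℝ) : ∃ C : ℝ, 1 ≤ C ∧
    ∀ (K L M : ℝ) (σ : ℤ) (l : List G), 1 ≤ L → L ≤ K → 1 ≤ M → (σ = 1 ∨ σ = -1) →
      M * (K / L) ^ (Z.r - p) ≤ A * K → Word S l → (l.length : ℝ) ≤ A * K → Z.Cov a σ L l →
      ∀ y : J → ℤ, (∀ j, Z.w j < p → y j = Z.V l.prod j) →
      (∀ j, K ^ p * |(y j : ℝ) - Z.V l.prod j| ≤ M * K ^ Z.w j) →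
      ∃ l' : List G, Word S l' ∧ l.Sublist l' ∧
        (l'.length : ℝ) ≤ l.length + C * M * (K / L) ^ (Z.r - p) ∧ Z.Cov a σ L l' ∧
        Z.X l'.prod = Z.X l.prod ∧ (∀ j, Z.w j < p + 1 → y j = Z.V l'.prod j) ∧
        ∀ j, K ^ (p + 1) * |(y j : ℝ) - Z.V l'.prod j| ≤
          C * M * (K / L) ^ (Z.r - p) * K ^ Z.w j := by
  obtain ⟨T, CW, hCW, hT, HW⟩ := lemW Z.w Z.r p Z.w_le (Z.P p) Z.ψ
    (fun g y j hg hj => Z.P_low p _ j (Z.P_conj p g y hg) hj)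
    (fun g j hg hj => Z.P_deg p g j hp hg hj) (fun i hi => Z.P_top p i hp hi)
    (fun i hi => by
      obtain ⟨g, h1, h2⟩ := Z.P_bas p i hp hi
      exact ⟨g, h1, by simpa [Pre.ψ] using h2⟩)
  obtain ⟨C₀, hC₀, HI⟩ := Z.ins hp T hT a
  obtain ⟨C₁, hC₁, HI⟩ := HI (A + C₀ * CW * A)
  have q0 := mul_nonneg hC₀ hCW
  have q1 := mul_nonneg hC₁ hCW
  refine ⟨1 + C₀ * CW + C₁ * CW, by linarith,
    fun K L M σ l hL hLK hM hσ hA hl hlen hcov y hy hy' => ?_⟩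
  have hK : 0 ≤ K := by linarith
  obtain ⟨m, hm, hml, hsum⟩ := HW σ K L M hσ hL hLK hM (fun j => y j - Z.V l.prod j)
    (fun j hj => by rw [hy j hj, sub_self]) (fun j => by push_cast; exact hy' j)
  have hR : 0 ≤ M * (K / L) ^ (Z.r - p) := by
    have : 0 ≤ L := by linarith
    have : 0 ≤ M := by linarith
    positivity
  simp only [mul_assoc _ M] at hml ⊢
  generalize M * (K / L) ^ (Z.r - p) = R at hA hml hR ⊢
  have e1 := mul_le_mul_of_nonneg_left hml hC₀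
  have e2 := mul_le_mul_of_nonneg_left hA q0
  obtain ⟨l', b1, b2, b3, b4, b5, b6⟩ := NPass_iter Z hC₀ hK
    (fun l => HI K L σ l hL hLK hσ) m hm l hl (by linarith) hcov
  have e3 := mul_nonneg q0 hR
  have e4 := mul_nonneg q1 hR
  refine ⟨l', b1, b2, by linarith, b4, b5, fun j hj => ?_, fun j => ?_⟩
  · rw [(b6 j).1 (Nat.lt_succ_iff.1 hj), hsum]
    ring
  · have c1 := (b6 j).2
    rw [hsum] at c1
    push_cast at c1
    rw [show (Z.V l'.prod j : ℝ) - Z.V l.prod j - (y j - Z.V l.prod j) =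
      -(y j - Z.V l'.prod j) by ring, abs_neg, ← mul_assoc] at c1
    refine c1.trans (mul_le_mul_of_nonneg_right ?_ (pow_nonneg hK _))
    have := mul_le_mul_of_nonneg_left hml hC₁
    linarith

end Pool.Agent.MP_b3b911_al.Fil
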