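import Pool.Agent.MP_b3b911_al.Fil.NDeg

namespace Pool.Agent.MP_b3b911_al.Fil

variable {G : Type*} [Group G] {E : ℕ → Subgroup G} {H : Subgroup G} {Λ : Type*} [Finite Λ]
  {el : Λ → G} {w ω : Λ → ℕ}

omit [Finite Λ] in
theorem NPb_mem (hel : ∀ a, el a ∈ H) {K A : ℝ} {z : G} (hz : Cst el w K A z) : z ∈ H := by
  obtain ⟨l, rfl, -⟩ := hz
  refine H.list_prod_mem ?_
  intro x hx
  obtain ⟨a, -, rfl⟩ := List.mem_map.1 hx
  exact hel a

theorem NPb_scale {K C X : ℝ} {d j i : ℕ} (hK : 1 ≤ K) (hC : 0 ≤ C) (hi : i ≤ j) (hj : j ≤ d)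
    (h : X ≤ C * K ^ (d - j)) : K ^ i * X ≤ C * K ^ d := by
  have h0 : 0 < K := by linarith
  have h1 : K ^ i * K ^ (d - j) ≤ K ^ d := by
    rw [← pow_add]
    exact pow_le_pow_right₀ hK (by omega)
  calc K ^ i * X ≤ K ^ i * (C * K ^ (d - j)) := by gcongr
    _ = C * (K ^ i * K ^ (d - j)) := by ring
    _ ≤ C * K ^ d := by gcongr

omit [Finite Λ] in
theorem NPb_tele {K A M : ℝ} (hK : 1 ≤ K) (Fn : G → ℝ)
    (h : ∀ a z, Cst el w K A z → |Fn (z * el a) - Fn z| ≤ M * (1 / K ^ w a)) (l : List Λ)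
    (hl : (l.map fun a => 1 / K ^ w a).sum ≤ A) :
    |Fn (l.map el).prod - Fn 1| ≤ M * (l.map fun a => 1 / K ^ w a).sum := by
  have h0 : 0 < K := by linarith
  induction l using List.reverseRecOn with
  | nil => simp
  | append_singleton l a ih =>
    simp only [List.map_append, List.map_cons, List.map_nil, List.sum_append, List.sum_cons,
      List.sum_nil, add_zero, List.prod_append, List.prod_cons, List.prod_nil, mul_one] at hl ⊢
    have hp : (0 : ℝ) ≤ 1 / K ^ w a := by positivity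
    have hl' : (l.map fun a => 1 / K ^ w a).sum ≤ A := by linarith
    have h1 := ih hl'
    have h2 := h a (l.map el).prod ⟨l, rfl, hl'⟩
    have h3 := abs_sub_le (Fn ((l.map el).prod * el a)) (Fn (l.map el).prod) (Fn 1)
    rw [mul_add]
    linarith

theorem NPb_gen (hE : Filt E) (hω : ∀ a, 1 ≤ ω a) (hw : ∀ a, w a ≤ ω a)
    (hel : ∀ a, el a ∈ E (ω a) ∧ el a ∈ H) {T : Type*} (adm : ℝ → T → Prop)
    (Φ : (G → ℤ) → T → G → ℝ) (m : ℕ) (A : ℝ)
    (hstep : ∀ f t z h, Φ f t (z * h) - Φ f t z = Φ (Rd h f) t z)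
    (hvan : ∀ f : G → ℤ, (∀ x ∈ H, f x = 0) → ∀ K t, adm K t → ∀ z ∈ H, Φ f t z = 0)
    (hbase : ∀ d f, Deg E H d f → ∃ C : ℝ, 0 ≤ C ∧ ∀ K : ℝ, 1 ≤ K → ∀ t, adm K t →
      K ^ m * |Φ f t 1| ≤ C * K ^ d) (d : ℕ) :
    ∀ f, Deg E H d f → ∃ C : ℝ, 0 ≤ C ∧ ∀ K : ℝ, 1 ≤ K → ∀ t, adm K t → ∀ z, Cst el w K A z →
      K ^ m * |Φ f t z| ≤ C * K ^ d := by
  induction d using Nat.strong_induction_on with
  | _ d ih =>
  intro f hf
  have key : ∀ a, ∃ C : ℝ, 0 ≤ C ∧ ∀ K : ℝ, 1 ≤ K → ∀ t, adm K t → ∀ z, Cst el w K A z →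
      K ^ w a * (K ^ m * |Φ (Rd (el a) f) t z|) ≤ C * K ^ d := by
    intro a
    have hd := Deg.rd hE hf (hω a) (hel a).1 (hel a).2
    by_cases hle : ω a ≤ d
    · obtain ⟨C, hC, h⟩ := ih (d - ω a) (by have := hω a; omega) _ hd
      exact ⟨C, hC, fun K hK t ht z hz => NPb_scale hK hC (hw a) hle (h K hK t ht z hz)⟩
    · refine ⟨0, le_rfl, fun K hK t ht z hz => ?_⟩
      rw [show d - ω a = 0 by omega] at hd
      rw [hvan _ (deg_zero.1 hd) K t ht z (NPb_mem (fun a => (hel a).2) hz)]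
      simp
  choose Ca hCa hkey using key
  obtain ⟨M0, hM0⟩ := Finite.exists_le Ca
  obtain ⟨C0, hC0, hb⟩ := hbase d f hf
  refine ⟨C0 + max M0 0 * max A 0, by positivity, fun K hK t ht z hz => ?_⟩
  have h0 : 0 < K := by linarith
  obtain ⟨l, rfl, hl⟩ := hz
  have h1 := NPb_tele (el := el) (w := w) (A := A) (M := max M0 0 * K ^ d) hK
    (fun z => K ^ m * Φ f t z) (fun a z hz => by
      have h2 := hkey a K hK t ht z hz
      have h3 : Ca a * K ^ d ≤ max M0 0 * K ^ d := by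
        gcongr
        exact (hM0 a).trans (le_max_left _ _)
      rw [← mul_sub, hstep, abs_mul, abs_of_pos (pow_pos h0 m), mul_one_div,
        le_div_iff₀ (pow_pos h0 _)]
      linarith) l hl
  have h2 := hb K hK t ht
  have h3 : max M0 0 * K ^ d * (l.map fun a => 1 / K ^ w a).sum ≤ max M0 0 * K ^ d * max A 0 := by
    gcongr
    exact hl.trans (le_max_left _ _)
  have h4 : |K ^ m * Φ f t (l.map el).prod| ≤
      |K ^ m * Φ f t (l.map el).prod - K ^ m * Φ f t 1| + |K ^ m * Φ f t 1| := by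
    have := abs_add_le (K ^ m * Φ f t (l.map el).prod - K ^ m * Φ f t 1) (K ^ m * Φ f t 1)
    rwa [sub_add_cancel] at this
  rw [abs_mul, abs_mul, abs_of_pos (pow_pos h0 m)] at h4
  calc K ^ m * |Φ f t (l.map el).prod| ≤ C0 * K ^ d + max M0 0 * K ^ d * max A 0 := by linarith
    _ = (C0 + max M0 0 * max A 0) * K ^ d := by ring

theorem Cst.mul {K A B : ℝ} {x y : G} (hx : Cst el w K A x) (hy : Cst el w K B y) :
    Cst el w K (A + B) (x * y) := by
  obtain ⟨l, rfl, hl⟩ := hx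
  obtain ⟨l', rfl, hl'⟩ := hy
  refine ⟨l ++ l', by simp, ?_⟩
  rw [List.map_append, List.sum_append]
  exact add_le_add hl hl'

theorem pb0 (hE : Filt E) (hω : ∀ a, 1 ≤ ω a) (hw : ∀ a, w a ≤ ω a)
    (hel : ∀ a, el a ∈ E (ω a) ∧ el a ∈ H) {d : ℕ} {f : G → ℤ} (hf : Deg E H d f) (A : ℝ) :
    ∃ C : ℝ, 0 ≤ C ∧ ∀ K : ℝ, 1 ≤ K → ∀ z, Cst el w K A z → K * |(f z : ℝ)| ≤ C * K ^ d := by
  obtain ⟨C, hC, h⟩ := NPb_gen hE hω hw hel (T := Unit) (fun _ _ => True)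
    (fun f _ z => (f z : ℝ)) 1 A (fun f _ z h => by simp [Rd])
    (fun f hf _ _ _ z hz => by simp [hf z hz])
    (fun d f hf => by
      refine ⟨|(f 1 : ℝ)|, abs_nonneg _, fun K hK _ _ => ?_⟩
      rcases Nat.eq_zero_or_pos d with rfl | hd
      · simp [deg_zero.1 hf 1 H.one_mem]
      · rw [mul_comm]
        exact mul_le_mul_of_nonneg_left (pow_le_pow_right₀ hK hd) (abs_nonneg _)) d f hf
  refine ⟨C, hC, fun K hK z hz => ?_⟩
  have := h K hK () trivial z hz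
  rwa [pow_one] at this

theorem pb1 (hE : Filt E) (hω : ∀ a, 1 ≤ ω a) (hw : ∀ a, w a ≤ ω a)
    (hel : ∀ a, el a ∈ E (ω a) ∧ el a ∈ H) {d : ℕ} {f : G → ℤ} (hf : Deg E H d f) (β : Λ) (A : ℝ) :
    ∃ C : ℝ, 0 ≤ C ∧ ∀ K : ℝ, 1 ≤ K → ∀ x y, Cst el w K A x → Cst el w K A y →
      K ^ (ω β + 1) * |(f (x * el β * y) : ℝ) - f (x * y)| ≤ C * K ^ d := by
  have hm : ∀ {K : ℝ} {z : G}, Cst el w K A z → z ∈ H := fun hz =>
    NPb_mem (fun a => (hel a).2) hz
  obtain ⟨C, hC, h⟩ := NPb_gen hE hω hw hel (T := G) (fun K x => Cst el w K A x)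
    (fun f x y => (f (x * el β * y) : ℝ) - f (x * y)) (ω β + 1) A
    (fun f x z h => by simp only [Rd, mul_assoc]; push_cast; ring)
    (fun f hf K x hx z hz => by
      simp [hf _ (H.mul_mem (H.mul_mem (hm hx) (hel β).2) hz), hf _ (H.mul_mem (hm hx) hz)])
    (fun d f hf => by
      have hd := Deg.rd hE hf (hω β) (hel β).1 (hel β).2
      have e : ∀ x, (f (x * el β * 1) : ℝ) - f (x * 1) = (Rd (el β) f x : ℤ) := by
        intro x
        simp [Rd]
      by_cases hle : ω β ≤ d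
      · obtain ⟨C, hC, h⟩ := pb0 hE hω hw hel hd A
        refine ⟨C, hC, fun K hK x hx => ?_⟩
        have := NPb_scale hK hC le_rfl hle (h K hK x hx)
        rw [e, pow_succ, mul_assoc]
        exact this
      · refine ⟨0, le_rfl, fun K hK x hx => ?_⟩
        rw [show d - ω β = 0 by omega] at hd
        rw [e, deg_zero.1 hd x (hm hx)]
        simp) d f hf
  exact ⟨C, hC, fun K hK x y hx hy => h K hK x hx y hy⟩

theorem pb2 (hE : Filt E) (hω : ∀ a, 1 ≤ ω a) (hw : ∀ a, w a ≤ ω a)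
    (hel : ∀ a, el a ∈ E (ω a) ∧ el a ∈ H) {d : ℕ} {f : G → ℤ} (hf : Deg E H d f) (β γ : Λ)
    (A : ℝ) : ∃ C : ℝ, 0 ≤ C ∧ ∀ K : ℝ, 1 ≤ K → ∀ x y z, Cst el w K A x → Cst el w K A y →
      Cst el w K A z → K ^ (ω β + ω γ + 1) * |(f (x * el β * y * el γ * z) : ℝ) -
        f (x * y * el γ * z) - f (x * el β * y * z) + f (x * y * z)| ≤ C * K ^ d := by
  have hm : ∀ {K : ℝ} {z : G}, Cst el w K A z → z ∈ H := fun hz =>
    NPb_mem (fun a => (hel a).2) hz
  obtain ⟨C, hC, h⟩ := NPb_gen hE hω hw hel (T := G × G)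
    (fun K p => Cst el w K A p.1 ∧ Cst el w K A p.2)
    (fun f p z => (f (p.1 * el β * p.2 * el γ * z) : ℝ) -
        f (p.1 * p.2 * el γ * z) - f (p.1 * el β * p.2 * z) + f (p.1 * p.2 * z)) (ω β + ω γ + 1) A
    (fun f p z h => by simp only [Rd, mul_assoc]; push_cast; ring)
    (fun f hf K p hp z hz => by
      have h1 := H.mul_mem (hm hp.1) (hm hp.2)
      have h2 := H.mul_mem (H.mul_mem (hm hp.1) (hel β).2) (hm hp.2)
      simp [hf _ (H.mul_mem (H.mul_mem h2 (hel γ).2) hz),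
        hf _ (H.mul_mem (H.mul_mem h1 (hel γ).2) hz), hf _ (H.mul_mem h2 hz),
        hf _ (H.mul_mem h1 hz)])
    (fun d f hf => by
      have hd := Deg.rd hE hf (hω γ) (hel γ).1 (hel γ).2
      have e : ∀ x y, (f (x * el β * y * el γ * 1) : ℝ) - f (x * y * el γ * 1) -
          f (x * el β * y * 1) + f (x * y * 1) =
          ((Rd (el γ) f (x * el β * y) : ℤ) : ℝ) - (Rd (el γ) f (x * y) : ℤ) := by
        intro x y
        simp only [Rd, mul_one]
        push_cast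
        ring
      by_cases hle : ω γ ≤ d
      · obtain ⟨C, hC, h⟩ := pb1 hE hω hw hel hd β A
        refine ⟨C, hC, fun K hK p hp => ?_⟩
        have := NPb_scale hK hC le_rfl hle (h K hK p.1 p.2 hp.1 hp.2)
        rw [e, show ω β + ω γ + 1 = ω γ + (ω β + 1) by ring, pow_add, mul_assoc]
        exact this
      · refine ⟨0, le_rfl, fun K hK p hp => ?_⟩
        rw [show d - ω γ = 0 by omega] at hd
        rw [e, deg_zero.1 hd _ (H.mul_mem (hm hp.1) (hm hp.2)),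
          deg_zero.1 hd _ (H.mul_mem (H.mul_mem (hm hp.1) (hel β).2) (hm hp.2))]
        simp) d f hf
  exact ⟨C, hC, fun K hK x y z hx hy hz => h K hK (x, y) ⟨hx, hy⟩ z hz⟩

end Pool.Agent.MP_b3b911_al.Fil
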