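import Pool.Agent.MP_b3b911_al.Fil.NExt

namespace Pool.Agent.MP_b3b911_al.Fil

variable {G : Type*} [Group G] {F : ℕ → Subgroup G} {H H' : Subgroup G}

theorem NStep_lam_one {lam : G → ℤ}
    (hadd : ∀ x ∈ H, ∀ y ∈ H, lam (x * y) = lam x + lam y) : lam 1 = 0 := by
  have := hadd 1 H.one_mem 1 H.one_mem
  rw [mul_one] at this
  omega

theorem NStep_lam_inv {lam : G → ℤ}
    (hadd : ∀ x ∈ H, ∀ y ∈ H, lam (x * y) = lam x + lam y) {g : G} (hg : g ∈ H) :
    lam g⁻¹ = -lam g := by
  have := hadd g hg g⁻¹ (H.inv_mem hg)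
  rw [mul_inv_cancel, NStep_lam_one hadd] at this
  omega

theorem NStep_lam_zpow {lam : G → ℤ}
    (hadd : ∀ x ∈ H, ∀ y ∈ H, lam (x * y) = lam x + lam y) {b : G} (hb : b ∈ H)
    (hlb : lam b = 1) (n : ℤ) : lam (b ^ n) = n := by
  induction n using Int.induction_on with
  | zero => simp [NStep_lam_one hadd]
  | succ n ih => rw [zpow_add_one, hadd _ (H.zpow_mem hb _) _ hb, ih, hlb]
  | pred n ih =>
    rw [zpow_sub_one, hadd _ (H.zpow_mem hb _) _ (H.inv_mem hb), ih, NStep_lam_inv hadd hb, hlb]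
    ring

theorem NStep_ker {lam : G → ℤ}
    (hadd : ∀ x ∈ H, ∀ y ∈ H, lam (x * y) = lam x + lam y) {b : G} (hb : b ∈ H)
    (hlb : lam b = 1) (hker : ∀ x ∈ H, lam x = 0 ↔ x ∈ H') {g : G} (hg : g ∈ H) :
    g * b ^ (-lam g) ∈ H' := by
  have h1 : b ^ (-lam g) ∈ H := H.zpow_mem hb _
  rw [← hker _ (H.mul_mem hg h1), hadd _ hg _ h1, NStep_lam_zpow hadd hb hlb]
  ring

theorem NStep_rep {J : Type} (c : Option J → G) (n : ℤ) :
    ((List.replicate n.natAbs ((none : Option J), decide (0 ≤ n))).map (lt c)).prod =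
      c none ^ n := by
  rw [List.map_replicate, List.prod_replicate]
  by_cases h : 0 ≤ n
  · have e : lt c ((none : Option J), decide (0 ≤ n)) = c none := by simp [lt, h]
    rw [e, ← zpow_natCast, Int.natAbs_of_nonneg h]
  · have e : lt c ((none : Option J), decide (0 ≤ n)) = (c none)⁻¹ := by simp [lt, h]
    rw [e, ← zpow_natCast, inv_zpow', Int.ofNat_natAbs_of_nonpos (by omega), neg_neg]

theorem coord_bot (F : ℕ → Subgroup G) : Nonempty (Coord F ⊥ Empty) := by
  refine ⟨⟨fun j => j.elim, fun j => j.elim, fun _ j => j.elim, fun j => j.elim, fun j => j.elim,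
    funext fun j => j.elim, fun j => j.elim, ?_, ?_, ?_, fun _ _ _ _ j => j.elim⟩⟩
  · intro g hg h hh _
    rw [Subgroup.mem_bot] at hg hh
    rw [hg, hh]
  · intro y
    exact ⟨1, Subgroup.one_mem _, funext fun j => j.elim⟩
  · intro g hg
    rw [Subgroup.mem_bot] at hg
    refine ⟨[], by simp [hg], fun κ => by simp⟩

theorem coord_step {J : Type} [Fintype J] [DecidableEq J] (C : Coord F H' J) [H'.Normal]
    (hle : H' ≤ H) (ω : ℕ) (hω : 1 ≤ ω) (hHF : H ≤ F ω)
    (hup : ∀ x ∈ H, x ∈ F (ω + 1) → x ∈ H') (b : G) (hb : b ∈ H) (lam : G → ℤ)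
    (hadd : ∀ x ∈ H, ∀ y ∈ H, lam (x * y) = lam x + lam y) (hlb : lam b = 1)
    (hker : ∀ x ∈ H, lam x = 0 ↔ x ∈ H') : Nonempty (Coord F H (Option J)) := by
  have hone : lam 1 = 0 := NStep_lam_one hadd
  have hK : ∀ g ∈ H, g * b ^ (-lam g) ∈ H' := fun g hg => NStep_ker hadd hb hlb hker hg
  refine ⟨⟨fun o => o.elim b C.b, fun o => o.elim ω C.w,
    fun g o => o.elim (lam g) (C.v (g * b ^ (-lam g))), ?_, ?_, ?_, ?_, ?_, ?_, ?_, ?_⟩⟩
  · rintro (_ | j)
    · exact hω
    · exact C.w_pos j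
  · rintro (_ | j)
    · exact ⟨hb, hHF hb⟩
    · exact ⟨hle (C.b_mem j).1, (C.b_mem j).2⟩
  · funext o
    rcases o with _ | j
    · simpa using hone
    · simp [hone, C.v_one]
  · rintro (_ | j)
    · funext o
      rcases o with _ | i
      · simpa using hlb
      · simp [hlb, C.v_one]
    · have h0 : lam (C.b j) = 0 := (hker _ (hle (C.b_mem j).1)).2 (C.b_mem j).1
      funext o
      rcases o with _ | i
      · simpa using h0
      · simp [h0, C.v_b, Pi.single_apply]
  · intro g hg h hh e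
    have e0 : lam g = lam h := congrFun e none
    have e1 : C.v (g * b ^ (-lam g)) = C.v (h * b ^ (-lam h)) :=
      funext fun j => congrFun e (some j)
    have e2 := C.inj _ (hK g hg) _ (hK h hh) e1
    rw [e0] at e2
    exact mul_right_cancel e2
  · intro y
    obtain ⟨g, hg, hv⟩ := C.surj fun j => y (some j)
    have hb' : b ^ (y none) ∈ H := H.zpow_mem hb _
    have hl : lam (g * b ^ (y none)) = y none := by
      rw [hadd _ (hle hg) _ hb', (hker _ (hle hg)).2 hg, NStep_lam_zpow hadd hb hlb, zero_add]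
    refine ⟨g * b ^ (y none), H.mul_mem (hle hg) hb', ?_⟩
    funext o
    rcases o with _ | j
    · simpa using hl
    · simp [hl, hv]
  · intro g hg
    obtain ⟨l, hl, hκ⟩ := C.word _ (hK g hg)
    refine ⟨l.map (fun a => (some a.1, a.2)) ++
      List.replicate (lam g).natAbs ((none : Option J), decide (0 ≤ lam g)), ?_, ?_⟩
    · rw [List.map_append, List.prod_append, NStep_rep, List.map_map]
      have e : (lt (fun o : Option J => o.elim b C.b) ∘ fun a : J × Bool => (some a.1, a.2)) =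
          lt C.b := by
        funext a
        simp [lt]
      rw [e, hl]
      simp
    · intro κ
      rw [List.map_append, List.sum_append, List.map_map, List.map_replicate, List.sum_replicate,
        Fintype.sum_option]
      have e := hκ fun j => κ (some j)
      have e2 : (((lam g).natAbs : ℕ) : ℝ) = |(lam g : ℝ)| := by
        rw [← Int.cast_abs, Int.abs_eq_natAbs, Int.cast_natCast]
      simp only [Function.comp_def, nsmul_eq_mul, Option.elim_none, Option.elim_some]
      rw [e, e2, add_comm]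
  · intro E σ hE hEF
    have hHE : H ≤ E (ω + σ) := fun x hx => by
      have : x ∈ E (ω + σ) ⊓ H := by rw [hEF ω hω]; exact ⟨hHF hx, hx⟩
      exact this.1
    have hup' : ∀ x ∈ H, x ∈ E (ω + σ + 1) → x ∈ H' := fun x hx hx' => by
      have : x ∈ F (ω + 1) ⊓ H := by
        rw [← hEF (ω + 1) (by omega), show ω + 1 + σ = ω + σ + 1 by ring]
        exact ⟨hx', hx⟩
      exact hup x hx this.1
    have hEF' : ∀ n, 1 ≤ n → E (n + σ) ⊓ H' = F n ⊓ H' := fun n hn => by
      ext x
      have := congrArg (fun K : Subgroup G => x ∈ K) (hEF n hn)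
      simp only [Subgroup.mem_inf, eq_iff_iff] at this ⊢
      constructor
      · rintro ⟨h1, h2⟩
        exact ⟨(this.1 ⟨h1, hle h2⟩).1, h2⟩
      · rintro ⟨h1, h2⟩
        exact ⟨(this.2 ⟨h1, hle h2⟩).1, h2⟩
    rintro (_ | j)
    · exact deg_lam (ω + σ) lam hHE (by omega) hE hadd
        fun x hx hx' => (hker x hx).2 (hup' x hx hx')
    · exact deg_ext hE hle (ω + σ) (by omega) hHE hup' b hb lam hadd hlb hker
        (f := fun g => C.v g j) (C.deg E σ hE hEF' j)

end Pool.Agent.MP_b3b911_al.Fil
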